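import Pool.Agent.H1.MV.SFR
import Mathlib.Combinatorics.SimpleGraph.Hasse
import Mathlib.Combinatorics.SimpleGraph.Acyclic

set_option autoImplicit false
set_option linter.unusedSectionVars false
set_option linter.unusedSimpArgs false

/-!
# The line, and free abelian groups
-/

namespace Pool.Agent.H1.MV

open Matrix TH57.Thr Pool.Agent.K4H37.MT

section line

/-- the line -/
def lineG : SimpleGraph ℤ where
  Adj a b := b = a + 1 ∨ a = b + 1
  symm := ⟨fun a b h => h.symm⟩
  loopless := ⟨fun a h => by omega⟩

theorem lineG_adj (a b : ℤ) : lineG.Adj a b ↔ b = a + 1 ∨ a = b + 1 := Iff.rfl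

theorem lineG_reach (a : ℤ) (n : ℕ) : lineG.Reachable a (a + n) := by
  induction n with
  | zero => simp
  | succ n ih =>
    refine ih.trans (SimpleGraph.Adj.reachable ?_)
    rw [lineG_adj]
    left
    push_cast
    ring

theorem lineG_conn : lineG.Connected := by
  refine ⟨fun a b => ?_⟩
  rcases le_total a b with h | h
  · have := lineG_reach a (b - a).toNat
    have h2 : a + ((b - a).toNat : ℤ) = b := by omega
    rwa [h2] at this
  · have := lineG_reach b (a - b).toNat
    have h2 : b + ((a - b).toNat : ℤ) = a := by omega
    rw [h2] at this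
    exact this.symm

theorem lineG_tree : lineG.IsTree := by
  refine ⟨lineG_conn, ?_⟩
  rw [SimpleGraph.isAcyclic_iff_forall_adj_isBridge]
  have key : ∀ a : ℤ, lineG.IsBridge s(a, a + 1) := by
    intro a
    rw [SimpleGraph.isBridge_iff]
    have hinv : ∀ x y : ℤ, (lineG \ SimpleGraph.fromEdgeSet {s(a, a + 1)}).Reachable x y →
        (x ≤ a ↔ y ≤ a) := by
      intro x y h
      obtain ⟨w⟩ := h
      induction w with
      | nil => exact Iff.rfl
      | cons hadj _ ih =>
        rename_i u v w wk
        rw [← ih]
        rw [SimpleGraph.sdiff_adj, SimpleGraph.fromEdgeSet_adj, lineG_adj] at hadj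
        obtain ⟨h1, h2⟩ := hadj
        constructor
        · intro h3
          by_contra h4
          apply h2
          have h5 : u = a := by omega
          have h6 : v = a + 1 := by omega
          refine ⟨?_, by omega⟩
          rw [h5, h6]
          exact Set.mem_singleton _
        · intro h3
          by_contra h4
          apply h2
          have h5 : v = a := by omega
          have h6 : u = a + 1 := by omega
          refine ⟨?_, by omega⟩
          rw [h5, h6, Sym2.eq_swap]
          exact Set.mem_singleton _
    intro h
    have := hinv _ _ h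
    omega
  intro a b h
  rcases h with h | h
  · rw [h]
    exact key a
  · rw [h, Sym2.eq_swap]
    exact key b

variable {H : Type} [Group H]

/-- the action by translations -/
@[instance_reducible]
def trAct (H : Type) [Group H] : MulAction (Multiplicative ℤ × H) ℤ where
  smul p x := Multiplicative.toAdd p.1 + x
  one_smul x := zero_add x
  mul_smul p q x := add_assoc _ _ _

/-- the kernel of the first projection -/
def kerIso (K : Subgroup (Multiplicative ℤ × H)) (h : ∀ q, q ∈ K ↔ q.1 = 1) : K ≃* H where
  toFun q := q.1.2
  invFun x := ⟨(1, x), (h _).2 rfl⟩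
  left_inv q := Subtype.ext (Prod.ext ((h _).1 q.2).symm rfl)
  right_inv _ := rfl
  map_mul' _ _ := rfl

/-- the Whitehead group of a product with the integers -/
theorem wh_int_prod (h1 : WhT H) (h2 : AllStablyFree (MonoidAlgebra ℤ H))
    (h3 : Nice (MonoidAlgebra ℤ H)) : WhT (Multiplicative ℤ × H) := by
  classical
  letI : MulAction (Multiplicative ℤ × H) ℤ := trAct H
  have hsm : ∀ (p : Multiplicative ℤ × H) (x : ℤ), p • x = Multiplicative.toAdd p.1 + x :=
    fun _ _ => rfl
  have hone : ∀ (p : Multiplicative ℤ × H) (x : ℤ), p • x = x ↔ p.1 = 1 := by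
    intro p x
    rw [hsm]
    constructor
    · intro h
      apply Multiplicative.toAdd.injective
      rw [toAdd_one]
      omega
    · intro h
      rw [h, toAdd_one, zero_add]
  intro N X
  have key : VC ℤ X := by
    refine vc_all (T := lineG) lineG_tree ?_ ?_ nice_cls (fun _ h => h) ?_ ?_ X
    · intro g v w h
      rw [lineG_adj] at h ⊢
      rw [hsm, hsm]
      omega
    · intro g v w h
      rw [lineG_adj] at h
      rw [hsm, hsm]
      omega
    · intro p _ _
      refine ⟨0, ?_⟩
      have hiso : Fx (Multiplicative ℤ × H) 0 p ≃* H := kerIso _ (fun q => by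
        constructor
        · intro h
          exact (hone q (p 0)).1 (h 0 le_rfl)
        · intro h i hi
          exact (hone q (p i)).2 h)
      exact Nice.ringEquiv (MonoidAlgebra.domCongr ℤ ℤ hiso.symm).toRingEquiv h3
    · intro v w h
      have hiso : MulAction.stabilizer (Multiplicative ℤ × H) ((v, w) : ℤ × ℤ) ≃* H :=
        kerIso _ (fun q => by
          rw [MulAction.mem_stabilizer_iff]
          constructor
          · intro h
            exact (hone q v).1 (congrArg Prod.fst h)
          · intro h
            exact Prod.ext ((hone q v).2 h) ((hone q w).2 h))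
      exact AllStablyFree.ringEquiv (MonoidAlgebra.domCongr ℤ ℤ hiso.symm).toRingEquiv h2
  obtain ⟨μ, _, _, ω, y, hr, e1, e2, e3⟩ := key
  have hy : TT (TU (Multiplicative ℤ × H)) y :=
    tt_block (V := ℤ) (fun v => by
      have hiso : MulAction.stabilizer (Multiplicative ℤ × H) v ≃* H :=
        kerIso _ (fun q => by
          rw [MulAction.mem_stabilizer_iff]
          exact hone q v)
      exact WhT.congr hiso.symm h1) _ μ rfl ω y hr e1 e2
  have h4 := TT_mul _ _ _ e3 (TT_blockSum (TT_one _) hy)
  rw [blockSum_mul, mul_one, inv_mul_cancel, blockSum_one] at h4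
  exact TT_unst _ _ h4

theorem wh_trivial (G : Type) [Group G] [Subsingleton G] : WhT G := by
  intro n A
  exact TT_trivial A (fun _ _ _ _ => Subsingleton.elim _ _)

/-- **Bass, Heller, Swan**: the Whitehead groups of free abelian groups are trivial -/
theorem wh_zp (n : ℕ) : WhT (Zp n) := by
  induction n with
  | zero => exact wh_trivial (Zp 0)
  | succ n ih =>
    exact WhT.congr (zpSucc n).symm (wh_int_prod ih (allStablyFree_zp n) (nice_zp n))

end line

end Pool.Agent.H1.MV
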