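import Pool.Agent.H1.MV.NilE

set_option autoImplicit false
set_option linter.unusedSectionVars false
set_option linter.unusedSimpArgs false
set_option linter.unusedTactic false

/-!
# Stabilisers of ends of trees
-/

namespace Pool.Agent.H1.MV

open Matrix TH57.Thr Pool.Agent.K4H37.MT Relation

section ends

variable {G V : Type} [Group G] [MulAction G V] {T : SimpleGraph V}

/-- the stabiliser of the end of a ray -/
def endStab (G : Type) {V : Type} [Group G] [MulAction G V] (p : ℕ → V) : Subgroup G where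
  carrier := {g | ∃ a b : ℕ, ∀ i, g • p (i + a) = p (i + b)}
  mul_mem' := by
    rintro g g' ⟨a, b, h⟩ ⟨a', b', h'⟩
    refine ⟨a' + a, b' + b, fun i => ?_⟩
    have h1 := h' (i + a)
    have h2 := h (i + b')
    rw [mul_smul, show i + (a' + a) = i + a + a' by omega, h1,
      show i + a + b' = i + b' + a by omega, h2]
    congr 1
    omega
  one_mem' := ⟨0, 0, fun i => one_smul _ _⟩
  inv_mem' := by
    rintro g ⟨a, b, h⟩
    refine ⟨b, a, fun i => ?_⟩
    rw [inv_smul_eq_iff, h]

/-- the periodic extension of a path -/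
def perio (l : ℕ) (h : G) (f : ℕ → V × V) (n : ℕ) : V × V := (h⁻¹) ^ (n / l) • f (n % l)

theorem perio_add {l : ℕ} (hl : 0 < l) (h : G) (f : ℕ → V × V) (n : ℕ) :
    h • perio l h f (n + l) = perio l h f n := by
  unfold perio
  rw [Nat.add_div_right n hl, Nat.add_mod_right, pow_succ', mul_smul, smul_inv_smul]

theorem perio_nb (hact : ∀ (g : G) (v w : V), T.Adj v w → T.Adj (g • v) (g • w)) {l : ℕ}
    (hl : 0 < l) {h : G} {f : ℕ → V × V} (hf : ∀ i < l, nb T (f i) (f (i + 1)))
    (hfl : f l = h⁻¹ • f 0) (n : ℕ) : nb T (perio l h f n) (perio l h f (n + 1)) := by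
  unfold perio
  have hmod := Nat.mod_lt n hl
  by_cases h1 : n % l + 1 < l
  · have e1 : (n + 1) / l = n / l := by
      rw [Nat.succ_div]
      rw [if_neg, add_zero]
      intro h2
      have h3 := Nat.mod_eq_zero_of_dvd h2
      rw [Nat.add_mod, Nat.mod_eq_of_lt (by omega : 1 < l)] at h3
      rw [Nat.mod_eq_of_lt h1] at h3
      omega
    have e2 : (n + 1) % l = n % l + 1 := by
      rcases Nat.lt_or_ge 1 l with h2 | h2
      · rw [Nat.add_mod, Nat.mod_eq_of_lt h2, Nat.mod_eq_of_lt h1]
      · omega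
    rw [e1, e2]
    exact nb_smul hact _ _ _ (hf _ hmod)
  · have h2 : n % l + 1 = l := by omega
    have h3 : n + 1 = l * (n / l + 1) := by
      have := Nat.div_add_mod n l
      rw [Nat.mul_add, mul_one]
      omega
    have e1 : (n + 1) / l = n / l + 1 := by
      rw [h3, Nat.mul_div_cancel_left _ hl]
    have e2 : (n + 1) % l = 0 := by
      rw [h3, Nat.mul_mod_right]
    rw [e1, e2, pow_succ, mul_smul, ← hfl]
    apply nb_smul hact
    have h4 := hf _ hmod
    rw [h2] at h4
    exact h4

theorem Fx_fst {f : ℕ → V × V} (hf : ∀ i, nb T (f i) (f (i + 1))) (n : ℕ) :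
    Fx G n f = Fx G (n + 1) (fun i => (f i).1) := by
  ext g
  constructor
  · intro h i hi
    rcases Nat.lt_or_ge n i with h1 | h1
    · have h2 : i = n + 1 := by omega
      subst h2
      beta_reduce
      rw [(hf n).2.2.1]
      exact congrArg Prod.snd (h n le_rfl)
    · exact congrArg Prod.fst (h i h1)
  · intro h i hi
    apply Prod.ext
    · exact h i (by omega)
    · have h1 := h (i + 1) (by omega)
      beta_reduce at h1
      rw [(hf i).2.2.1] at h1
      exact h1

variable {k : Type} [Ring k] {𝒩 : Subgroup G → Prop}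
  {J : Type} [Fintype J] [DecidableEq J] {σ : J → V × V}

/-- Invertible matrices `1 + x` with a located matrix `x` over a tree have the trivial class, if for
each ray the stabilisers of the initial segments are finally constant and the group ring of the
stabiliser of the end has only trivial classes, or the stabiliser of an initial segment is in the
class. -/
theorem triv_of_ends (U : Subgroup (MonoidAlgebra k G)ˣ) (hT : T.IsTree)
    (hact : ∀ (g : G) (v w : V), T.Adj v w → T.Adj (g • v) (g • w))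
    (hC : Cls 𝒩) (hN : ∀ H, 𝒩 H → Nice (MonoidAlgebra k H))
    (hm : ∀ p : ℕ → V, (∀ i, T.Adj (p i) (p (i + 1))) → (∀ i, p (i + 2) ≠ p i) →
      (∃ n, 𝒩 (Fx G n p)) ∨ ((∃ n, ∀ m, n ≤ m → Fx G m p = Fx G n p) ∧
        ((∃ (h : G) (l : ℕ), 0 < l ∧ ∀ i, h • p (i + l) = p i) →
        ∀ S : Subgroup G, S ≤ endStab G p → (∀ g : G, (∀ v : V, g • v = v) → g ∈ S) →
          HT k U S)))
    {x y : Matrix J J (MonoidAlgebra k G)} (hx : Ty σ σ (fun q p => nb T p q) x)
    (h2 : y * (1 + x) = 1) : Triv U (1 + x) := by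
  obtain ⟨n, hn⟩ := nilp_of_unit hT hact hx h2
  have hadj : ∀ f : ℕ → V × V, (∀ i, nb T (f i) (f (i + 1))) →
      (∀ i, T.Adj (f i).1 (f (i + 1)).1) ∧ ∀ i, (f (i + 2)).1 ≠ (f i).1 := by
    intro f hf
    refine ⟨fun i => ?_, fun i => ?_⟩
    · rw [(hf i).2.2.1]; exact (hf i).1
    · rw [(hf (i + 1)).2.2.1]; exact (hf i).2.2.2
  refine nil_rays (rX := nb T) U (fun g p q h => nb_smul hact g p q h)
    (fun n p q hp hq h0 hn => nb_det hT n p q hp hq h0 hn) hC hN ?_ ?_ hx hn
  · intro f hf
    obtain ⟨a1, a2⟩ := hadj f hf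
    rcases hm (fun i => (f i).1) a1 a2 with ⟨n, hn⟩ | ⟨⟨n, hn⟩, _⟩
    · left
      refine ⟨n, hC.anti _ _ ?_ hn⟩
      intro g hg i hi
      exact congrArg Prod.fst (hg i hi)
    · right
      refine ⟨n, fun m hnm => ?_⟩
      rw [Fx_fst hf, Fx_fst hf, hn (m + 1) (by omega), hn (n + 1) (by omega)]
  · intro D c h m hD hDc hDh hDk hP
    obtain ⟨f, f0, f1, f2⟩ := hP
    have hl : 0 < m + 1 := Nat.succ_pos m
    have hfl : f (m + 1) = h⁻¹ • f 0 := by rw [f1, f0]
    let F := perio (m + 1) h f
    have hF : ∀ i, nb T (F i) (F (i + 1)) := perio_nb hact hl f2 hfl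
    obtain ⟨a1, a2⟩ := hadj F hF
    -- the elements of `D` fix the ray
    have hDf : ∀ d ∈ D, ∀ i ≤ m + 1, d • f i = f i := by
      intro d hd
      refine path_fix (r := nb T) (fun g p q h => nb_smul hact g p q h)
        (fun n p q hp hq h0 hn => nb_det hT n p q hp hq h0 hn) f2 ?_ ?_
      · rw [f0]
        exact hDc hd
      · rw [hfl, f0]
        have h3 : (h * d * h⁻¹) • c = c := hDc (hDh d hd)
        rw [mul_smul, mul_smul] at h3
        rw [eq_inv_smul_iff]
        exact h3
    have hDpow : ∀ q : ℕ, ∀ d ∈ D, h ^ q * d * (h ^ q)⁻¹ ∈ D := by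
      intro q
      induction q with
      | zero => intro d hd; simpa using hd
      | succ q ih =>
        intro d hd
        have := hDh _ (ih d hd)
        have e : h ^ (q + 1) * d * (h ^ (q + 1))⁻¹ = h * (h ^ q * d * (h ^ q)⁻¹) * h⁻¹ := by
          rw [pow_succ']
          group
        rw [e]
        exact this
    have hDF : ∀ d ∈ D, ∀ n, d • F n = F n := by
      intro d hd n
      change d • (h⁻¹) ^ (n / (m + 1)) • f (n % (m + 1)) = (h⁻¹) ^ (n / (m + 1)) • f (n % (m + 1))
      have h3 := hDf _ (hDpow (n / (m + 1)) d hd) (n % (m + 1)) (Nat.mod_lt n hl).le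
      rw [mul_smul, mul_smul] at h3
      rw [inv_pow, eq_inv_smul_iff]
      exact h3
    have hDle : ∀ n, D ≤ Fx G n (fun i => (F i).1) := fun n d hd i _ =>
      congrArg Prod.fst (hDF d hd i)
    rcases hm (fun i => (F i).1) a1 a2 with ⟨n, hn⟩ | ⟨_, hE⟩
    · exact absurd (hC.anti _ _ (hDle n) hn) hD
    · refine hE ⟨h, m + 1, hl, fun i => congrArg Prod.fst (perio_add hl h f i)⟩ _ ?_ (fun g hg => Subgroup.subset_closure (Or.inl (hDk g (fun c =>
        Prod.ext (hg c.1) (hg c.2)))))
      rw [Subgroup.closure_le]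
      rintro g (hg | hg)
      · exact ⟨0, 0, fun i => congrArg Prod.fst (hDF g hg (i + 0))⟩
      · have hg' : g = h := hg
        subst hg'
        refine ⟨m + 1, 0, fun i => ?_⟩
        exact congrArg Prod.fst (perio_add hl g f i)

end ends

end Pool.Agent.H1.MV
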