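import Pool.Agent.H1.MV.Line

set_option autoImplicit false
set_option linter.unusedSectionVars false
set_option linter.unusedSimpArgs false
set_option linter.style.haveILetI false

/-!
# The hereditary closure theorem
-/

namespace Pool.Agent.H1.MV

open Matrix TH57.Thr Pool.Agent.K4H37.MT

section her

/-- All products of subgroups with free abelian groups have trivial Whitehead groups. -/
def SW (G : Type) [Group G] : Prop := ∀ (H : Subgroup G) (n : ℕ), WhT (H × Zp n)

variable {G : Type} [Group G]

theorem SW.inj (h : SW G) {K : Type} [Group K] (f : K →* G) (hf : Function.Injective f) (n : ℕ) :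
    WhT (K × Zp n) :=
  WhT.congr (MulEquiv.prodCongr (MonoidHom.ofInjective hf).symm (MulEquiv.refl _)) (h f.range n)

theorem SW.of_inj (h : SW G) {K : Type} [Group K] (f : K →* G) (hf : Function.Injective f) :
    SW K := by
  intro H n
  exact h.inj (f.comp H.subtype) (hf.comp H.subtype_injective) n

theorem SW.of_all (h : ∀ (K : Type) [Group K] (f : K →* G) (_ : Function.Injective f) (n : ℕ),
    WhT (K × Zp n)) : SW G := by
  intro H n
  exact h H H.subtype H.subtype_injective n

/-- lifting invertible matrices -/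
theorem unit_lift {K Γ : Type} [Group K] [Group Γ] (f : K →* Γ) (hf : Function.Injective f)
    {κ : Type} [Fintype κ] [DecidableEq κ] (M : (Matrix κ κ (MonoidAlgebra ℤ Γ))ˣ)
    (h1 : ∀ i j g, (M.val i j).coeff g ≠ 0 → g ∈ f.range)
    (h2 : ∀ i j g, ((M⁻¹).val i j).coeff g ≠ 0 → g ∈ f.range) :
    ∃ Y : (Matrix κ κ (MonoidAlgebra ℤ K))ˣ,
      Units.map (mpm (MonoidAlgebra.mapDomainRingHom ℤ f)) Y = M := by
  obtain ⟨P, Q, _, hP⟩ := lift_unit f hf M h1
  obtain ⟨P', Q', _, hP'⟩ := lift_unit f hf M⁻¹ h2
  have hinj : Function.Injective (mpm (κ := κ) (MonoidAlgebra.mapDomainRingHom ℤ f)) := by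
    intro A B hAB
    ext1 i j
    have h3 := congrFun (congrFun hAB i) j
    exact MonoidAlgebra.mapDomain_injective hf h3
  refine ⟨⟨P, P', ?_, ?_⟩, ?_⟩
  · apply hinj
    rw [map_mul, hP, hP', map_one]
    exact M.mul_inv
  · apply hinj
    rw [map_mul, hP, hP', map_one]
    exact M.inv_mul
  · apply Units.ext
    exact hP

theorem exists_supp {Γ : Type} [Group Γ] {κ : Type} [Fintype κ]
    (M : Matrix κ κ (MonoidAlgebra ℤ Γ)) :
    ∃ F : Finset Γ, ∀ i j g, (M i j).coeff g ≠ 0 → g ∈ F := by
  classical
  refine ⟨Finset.univ.biUnion fun p : κ × κ => (M p.1 p.2).coeff.support, ?_⟩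
  intro i j g hg
  exact Finset.mem_biUnion.2 ⟨(i, j), Finset.mem_univ _, Finsupp.mem_support_iff.2 hg⟩

/-- the class of matrices over a subgroup -/
theorem tt_of_sub {K Γ : Type} [Group K] [Group Γ] (f : K →* Γ) (hf : Function.Injective f)
    {κ : ℕ} (M : (Matrix (Fin κ) (Fin κ) (MonoidAlgebra ℤ Γ))ˣ)
    (h1 : ∀ i j g, (M.val i j).coeff g ≠ 0 → g ∈ f.range)
    (h2 : ∀ i j g, ((M⁻¹).val i j).coeff g ≠ 0 → g ∈ f.range) (hK : WhT K) : TT (TU Γ) M := by
  obtain ⟨Y, rfl⟩ := unit_lift f hf M h1 h2
  refine TT_map (TU K) (TU Γ) _ ?_ Y (hK κ Y)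
  rintro u ⟨g, ε, hu⟩
  refine ⟨f g, ε, ?_⟩
  change MonoidAlgebra.mapDomain f u.val = _
  rw [hu, MonoidAlgebra.mapDomain_single]

/-- directed unions -/
theorem SW.union (h : ∀ F : Finset G, ∃ H : Subgroup G, (∀ x ∈ F, x ∈ H) ∧ SW H) : SW G := by
  classical
  intro L n κ M
  obtain ⟨F₁, hF₁⟩ := exists_supp M.val
  obtain ⟨F₂, hF₂⟩ := exists_supp (M⁻¹).val
  obtain ⟨H, hH, hW⟩ := h ((F₁ ∪ F₂).image fun q : L × Zp n => ((q.1 : L) : G))
  -- the subgroup
  let K : Subgroup L := H.subgroupOf L
  let g : K →* H :=
    { toFun := fun x => ⟨((x : L) : G), x.2⟩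
      map_one' := rfl
      map_mul' := fun _ _ => rfl }
  have hg : Function.Injective g := by
    intro x y hxy
    apply Subtype.ext
    apply Subtype.ext
    exact congrArg (fun z : H => (z : G)) hxy
  let f : (K × Zp n) →* (L × Zp n) := K.subtype.prodMap (MonoidHom.id _)
  have hf : Function.Injective f := Function.Injective.prodMap K.subtype_injective
    Function.injective_id
  have hr : ∀ q : L × Zp n, q ∈ F₁ ∪ F₂ → q ∈ f.range := by
    intro q hq
    refine ⟨(⟨q.1, ?_⟩, q.2), rfl⟩
    exact hH _ (Finset.mem_image.2 ⟨q, hq, rfl⟩)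
  exact tt_of_sub f hf M
    (fun i j q hq => hr q (Finset.mem_union_left _ (hF₁ i j q hq)))
    (fun i j q hq => hr q (Finset.mem_union_right _ (hF₂ i j q hq)))
    (hW.inj g hg n)

/-- the class of subgroups in the condition on rays -/
theorem nice_inj {Γ : Type} [Group Γ] {Λ : Type} [Group Λ] (f : Λ →* Γ)
    (hf : Function.Injective f) (n : ℕ) (h : Nice (MonoidAlgebra ℤ (Γ × Zp n))) :
    Nice (MonoidAlgebra ℤ (Λ × Zp n)) := by
  let g : (Λ × Zp n) →* (Γ × Zp n) := f.prodMap (MonoidHom.id _)
  have hg : Function.Injective g := Function.Injective.prodMap hf Function.injective_id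
  exact Nice.ringEquiv (MonoidAlgebra.domCongr ℤ ℤ
    (MonoidHom.ofInjective hg).symm).toRingEquiv (Nice.sub g.range h)

/-- **The hereditary closure theorem** -/
theorem SW.tree {V : Type} [MulAction G V] {T : SimpleGraph V} (hT : T.IsTree)
    (hact : ∀ (g : G) (v w : V), T.Adj v w → T.Adj (g • v) (g • w))
    (hinv : ∀ (g : G) (v w : V), T.Adj v w → ¬ (g • v = w ∧ g • w = v))
    (hV : ∀ v : V, SW (MulAction.stabilizer G v))
    (hm : ∀ p : ℕ → V, (∀ i, T.Adj (p i) (p (i + 1))) → (∀ i, p (i + 2) ≠ p i) →
      ∃ m, Fx G m p = ⊥ ∨ ∀ n, Nice (MonoidAlgebra ℤ (Fx G m p × Zp n))) : SW G := by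
  intro K n
  refine stable_closure (G := K) (V := V) (T := T) hT (fun g v w h => hact g v w h)
    (fun g v w h => hinv g v w h) ?_ ?_ ?_ n
  · intro v n
    let f : MulAction.stabilizer K v →* MulAction.stabilizer G v :=
      { toFun := fun x => ⟨((x : K) : G), x.2⟩
        map_one' := rfl
        map_mul' := fun _ _ => rfl }
    refine (hV v).inj f ?_ n
    intro x y hxy
    apply Subtype.ext
    apply Subtype.ext
    exact congrArg (fun z : MulAction.stabilizer G v => (z : G)) hxy
  · intro v w _ n
    let f : MulAction.stabilizer K ((v, w) : V × V) →* MulAction.stabilizer G v :=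
      { toFun := fun x => ⟨((x : K) : G), congrArg Prod.fst (MulAction.mem_stabilizer_iff.1 x.2)⟩
        map_one' := rfl
        map_mul' := fun _ _ => rfl }
    refine (hV v).inj f ?_ n
    intro x y hxy
    apply Subtype.ext
    apply Subtype.ext
    exact congrArg (fun z : MulAction.stabilizer G v => (z : G)) hxy
  · intro p h1 h2
    obtain ⟨m, hm⟩ := hm p h1 h2
    refine ⟨m, ?_⟩
    let f : Fx K m p →* Fx G m p :=
      { toFun := fun x => ⟨((x : K) : G), x.2⟩
        map_one' := rfl
        map_mul' := fun _ _ => rfl }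
    have hf : Function.Injective f := by
      intro x y hxy
      apply Subtype.ext
      apply Subtype.ext
      exact congrArg (fun z : Fx G m p => (z : G)) hxy
    rcases hm with hm | hm
    · left
      rw [Subgroup.eq_bot_iff_forall]
      intro x hx
      have h3 : ((x : K) : G) ∈ Fx G m p := hx
      rw [hm, Subgroup.mem_bot] at h3
      exact Subtype.ext h3
    · right
      intro n
      exact nice_inj f hf n (hm n)

/-- projective modules -/
theorem SW.stablyFree (h : SW G) (H : Subgroup G) (n : ℕ) :
    AllStablyFree (MonoidAlgebra ℤ (H × Zp n)) := by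
  apply stablyFree_of_wh
  exact WhT.congr (shiftIso _ n) (h H (n + 1))

/-- free abelian groups -/
theorem sw_zp (m : ℕ) : SW (Zp m) := by
  intro H n
  -- `H` is free abelian
  let A : Submodule ℤ (Fin m → ℤ) := AddSubgroup.toIntSubmodule (Subgroup.toAddSubgroup' H)
  obtain ⟨k, b⟩ := Submodule.basisOfPid (Pi.basisFun ℤ (Fin m)) A
  let e1 : A ≃+ (Fin k → ℤ) := b.equivFun.toAddEquiv
  let e2 : H ≃* Zp k :=
    { toFun := fun x => Multiplicative.ofAdd (e1 ⟨Multiplicative.toAdd (x : Zp m), x.2⟩)
      invFun := fun y => ⟨Multiplicative.ofAdd ((e1.symm (Multiplicative.toAdd y) : A) : Fin m → ℤ),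
        (e1.symm (Multiplicative.toAdd y)).2⟩
      left_inv := fun x => by
        apply Subtype.ext
        simp
      right_inv := fun y => by
        simp
      map_mul' := fun x y => by
        apply Multiplicative.toAdd.injective
        change e1 _ = e1 _ + e1 _
        rw [← map_add]
        rfl }
  let e3 : Zp k × Zp n ≃* Zp (k + n) :=
    { toFun := fun p => Multiplicative.ofAdd
        (Fin.append (Multiplicative.toAdd p.1) (Multiplicative.toAdd p.2))
      invFun := fun z => (Multiplicative.ofAdd fun i => Multiplicative.toAdd z (Fin.castAdd n i),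
        Multiplicative.ofAdd fun i => Multiplicative.toAdd z (Fin.natAdd k i))
      left_inv := fun p => by
        apply Prod.ext
        · apply Multiplicative.toAdd.injective
          funext i
          simp
        · apply Multiplicative.toAdd.injective
          funext i
          simp
      right_inv := fun z => by
        apply Multiplicative.toAdd.injective
        funext i
        refine Fin.addCases (fun j => ?_) (fun j => ?_) i
        · simp
        · simp
      map_mul' := fun p q => by
        apply Multiplicative.toAdd.injective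
        funext i
        refine Fin.addCases (fun j => ?_) (fun j => ?_) i
        · simp
        · simp }
  exact WhT.congr ((MulEquiv.prodCongr e2 (MulEquiv.refl _)).trans e3).symm (wh_zp (k + n))

end her

end Pool.Agent.H1.MV
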