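import Pool.Agent.H1.MV.Her

set_option autoImplicit false
set_option linter.unusedSectionVars false
set_option linter.unusedSimpArgs false
set_option linter.style.haveILetI false

/-!
# The closure theorem with stabilisers of ends
-/

namespace Pool.Agent.H1.MV

open Matrix TH57.Thr Pool.Agent.K4H37.MT

section all

theorem WhT.all {K : Type} [Group K] (h : WhT K) (J : Type) [Fintype J] [DecidableEq J]
    (A : (Matrix J J (MonoidAlgebra ℤ K))ˣ) : TT (TU K) A := by
  let e : Fin (Fintype.card J) ≃ J := (Fintype.equivFin J).symm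
  have h1 := TT_re (TU K) e.symm _ (h _ (Units.map (re e) A))
  convert h1 using 1
  apply Units.ext
  ext i j
  simp [re]

theorem tt_of_sub' {K Γ : Type} [Group K] [Group Γ] (f : K →* Γ) (hf : Function.Injective f)
    {J : Type} [Fintype J] [DecidableEq J] (M : (Matrix J J (MonoidAlgebra ℤ Γ))ˣ)
    (h1 : ∀ i j g, (M.val i j).coeff g ≠ 0 → g ∈ f.range)
    (h2 : ∀ i j g, ((M⁻¹).val i j).coeff g ≠ 0 → g ∈ f.range) (hK : WhT K) : TT (TU Γ) M := by
  obtain ⟨Y, hY⟩ := unit_lift f hf M h1 h2
  have h3 : TT (TU Γ) (Units.map (mpm (MonoidAlgebra.mapDomainRingHom ℤ f)) Y) := by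
    refine TT_map (TU K) (TU Γ) (MonoidAlgebra.mapDomainRingHom ℤ f) ?_ Y (hK.all J Y)
    rintro u ⟨g, ε, hu⟩
    refine ⟨f g, ε, ?_⟩
    change MonoidAlgebra.mapDomain f u.val = _
    rw [hu, MonoidAlgebra.mapDomain_single]
  rw [hY] at h3
  exact h3

/-- the group ring of a subgroup of a product -/
theorem HT.prod {G : Type} [Group G] {n : ℕ} {S' : Subgroup (G × Zp n)}
    (hk : ∀ z : Zp n, ((1, z) : G × Zp n) ∈ S')
    (h : WhT (S'.comap (MonoidHom.inl G (Zp n)) × Zp n)) : HT ℤ (TU (G × Zp n)) S' := by
  intro J _ _ z h1 h2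
  let S : Subgroup G := S'.comap (MonoidHom.inl G (Zp n))
  let f : (S × Zp n) →* (G × Zp n) := S.subtype.prodMap (MonoidHom.id _)
  have hf : Function.Injective f := Function.Injective.prodMap S.subtype_injective
    Function.injective_id
  have hr : ∀ q ∈ S', q ∈ f.range := by
    intro q hq
    have h3 : ((q.1, 1) : G × Zp n) ∈ S' := by
      have h4 := mul_mem hq (hk (q.2)⁻¹)
      have h5 : q * (1, (q.2)⁻¹) = (q.1, 1) := by
        apply Prod.ext
        · exact mul_one _
        · exact mul_inv_cancel _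
      rwa [h5] at h4
    exact ⟨(⟨q.1, h3⟩, q.2), rfl⟩
  exact tt_of_sub' f hf z (fun i j g hg => hr g (h1 i j g hg))
    (fun i j g hg => hr g (h2 i j g hg)) h

end all

section closure

variable {G V : Type} [Group G] [MulAction G V] {T : SimpleGraph V}

/-- **The closure theorem** with stabilisers of ends. -/
theorem stable_ends (hT : T.IsTree)
    (hact : ∀ (g : G) (v w : V), T.Adj v w → T.Adj (g • v) (g • w))
    (hinv : ∀ (g : G) (v w : V), T.Adj v w → ¬ (g • v = w ∧ g • w = v))
    (hV : ∀ (v : V) (n : ℕ), WhT (MulAction.stabilizer G v × Zp n))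
    (hE : ∀ v w : V, T.Adj v w → ∀ n : ℕ, WhT (MulAction.stabilizer G ((v, w) : V × V) × Zp n))
    (hm : ∀ p : ℕ → V, (∀ i, T.Adj (p i) (p (i + 1))) → (∀ i, p (i + 2) ≠ p i) →
      (∃ m, Fx G m p = ⊥ ∨ ∀ n, Nice (MonoidAlgebra ℤ (Fx G m p × Zp n))) ∨
      ((∃ n, ∀ m, n ≤ m → Fx G m p = Fx G n p) ∧
        ((∃ (h : G) (l : ℕ), 0 < l ∧ ∀ i, h • p (i + l) = p i) →
        ∀ S : Subgroup G, S ≤ endStab G p → ∀ n : ℕ, WhT (S × Zp n)))) (n : ℕ) :
    WhT (G × Zp n) := by
  classical
  letI : MulAction (G × Zp n) V := fstAct G (Zp n) V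
  have hsm : ∀ (p : G × Zp n) (v : V), p • v = p.1 • v := fun _ _ => rfl
  intro N X
  have key : VC V X := by
    refine vc_ends (T := T) hT (fun g v w h => hact g.1 v w h) (fun g v w h => hinv g.1 v w h)
      nice_cls (fun _ h => h) ?_ ?_ X
    · intro p h1 h2
      rcases hm p h1 h2 with ⟨m, hm⟩ | ⟨⟨m, hm⟩, hS⟩
      · left
        refine ⟨m, ?_⟩
        have hiso : Fx (G × Zp n) m p ≃* Fx G m p × Zp n := prodIso _ _ (fun q => Iff.rfl)
        rcases hm with hm | hm
        · -- trivial stabiliser
          have : Unique (Fx G m p) := by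
            rw [hm]
            infer_instance
          exact Nice.ringEquiv (MonoidAlgebra.domCongr ℤ ℤ
            (hiso.trans (MulEquiv.uniqueProd (M := Zp n) (N := Fx G m p))).symm).toRingEquiv
            (nice_zp n)
        · exact Nice.ringEquiv (MonoidAlgebra.domCongr ℤ ℤ hiso.symm).toRingEquiv (hm n)
      · right
        constructor
        · refine ⟨m, fun m' hm' => ?_⟩
          ext q
          have h3 := hm m' hm'
          change q.1 ∈ Fx G m' p ↔ q.1 ∈ Fx G m p
          rw [h3]
        · rintro ⟨⟨h, z⟩, l, hl, hper⟩ S' hS' hk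
          apply HT.prod
          · intro z
            exact hk _ (fun v => one_smul G v)
          · refine hS ⟨h, l, hl, fun i => hper i⟩ _ ?_ n
            intro g hg
            obtain ⟨a, b, hab⟩ := hS' (show ((g, 1) : G × Zp n) ∈ S' from hg)
            exact ⟨a, b, hab⟩
    · intro v w h
      apply stablyFree_of_wh
      have hiso : MulAction.stabilizer (G × Zp n) ((v, w) : V × V) ≃*
          MulAction.stabilizer G ((v, w) : V × V) × Zp n := prodIso _ _ (fun q => Iff.rfl)
      exact WhT.congr ((shiftIso _ n).trans (MulEquiv.prodCongr (MulEquiv.refl _) hiso.symm))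
        (hE v w h (n + 1))
  obtain ⟨μ, _, _, ω, y, hr, h1, h2, h3⟩ := key
  have hy : TT (TU (G × Zp n)) y :=
    tt_block (V := V) (fun v => by
      have hiso : MulAction.stabilizer (G × Zp n) v ≃* MulAction.stabilizer G v × Zp n :=
        prodIso _ _ (fun q => Iff.rfl)
      exact WhT.congr hiso.symm (hV v n)) _ μ rfl ω y hr h1 h2
  have h4 := TT_mul _ _ _ h3 (TT_blockSum (TT_one _) hy)
  rw [blockSum_mul, mul_one, inv_mul_cancel, blockSum_one] at h4
  exact TT_unst _ _ h4

/-- **The hereditary closure theorem** with stabilisers of ends -/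
theorem SW.ends (hT : T.IsTree)
    (hact : ∀ (g : G) (v w : V), T.Adj v w → T.Adj (g • v) (g • w))
    (hinv : ∀ (g : G) (v w : V), T.Adj v w → ¬ (g • v = w ∧ g • w = v))
    (hV : ∀ v : V, SW (MulAction.stabilizer G v))
    (hm : ∀ p : ℕ → V, (∀ i, T.Adj (p i) (p (i + 1))) → (∀ i, p (i + 2) ≠ p i) →
      (∃ m, Fx G m p = ⊥ ∨ ∀ n, Nice (MonoidAlgebra ℤ (Fx G m p × Zp n))) ∨
      ((∃ n, ∀ m, n ≤ m → Fx G m p = Fx G n p) ∧
        ((∃ (h : G) (l : ℕ), 0 < l ∧ ∀ i, h • p (i + l) = p i) → SW (endStab G p)))) : SW G := by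
  intro K n
  refine stable_ends (G := K) (V := V) (T := T) hT (fun g v w h => hact g v w h)
    (fun g v w h => hinv g v w h) ?_ ?_ ?_ n
  · intro v n
    let f : MulAction.stabilizer K v →* MulAction.stabilizer G v :=
      { toFun := fun x => ⟨((x : K) : G), x.2⟩
        map_one' := rfl
        map_mul' := fun _ _ => rfl }
    refine (hV v).inj f ?_ n
    intro x y hxy
    apply Subtype.ext
    apply Subtype.ext
    exact congrArg (fun z : MulAction.stabilizer G v => (z : G)) hxy
  · intro v w _ n
    let f : MulAction.stabilizer K ((v, w) : V × V) →* MulAction.stabilizer G v :=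
      { toFun := fun x => ⟨((x : K) : G), congrArg Prod.fst (MulAction.mem_stabilizer_iff.1 x.2)⟩
        map_one' := rfl
        map_mul' := fun _ _ => rfl }
    refine (hV v).inj f ?_ n
    intro x y hxy
    apply Subtype.ext
    apply Subtype.ext
    exact congrArg (fun z : MulAction.stabilizer G v => (z : G)) hxy
  · intro p h1 h2
    rcases hm p h1 h2 with ⟨m, hm⟩ | ⟨⟨m, hm⟩, hS⟩
    · left
      refine ⟨m, ?_⟩
      let f : Fx K m p →* Fx G m p :=
        { toFun := fun x => ⟨((x : K) : G), x.2⟩
          map_one' := rfl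
          map_mul' := fun _ _ => rfl }
      have hf : Function.Injective f := by
        intro x y hxy
        apply Subtype.ext
        apply Subtype.ext
        exact congrArg (fun z : Fx G m p => (z : G)) hxy
      rcases hm with hm | hm
      · left
        rw [Subgroup.eq_bot_iff_forall]
        intro x hx
        have h3 : ((x : K) : G) ∈ Fx G m p := hx
        rw [hm, Subgroup.mem_bot] at h3
        exact Subtype.ext h3
      · right
        intro n
        exact nice_inj f hf n (hm n)
    · right
      constructor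
      · refine ⟨m, fun m' hm' => ?_⟩
        ext q
        have h3 := hm m' hm'
        change ((q : K) : G) ∈ Fx G m' p ↔ ((q : K) : G) ∈ Fx G m p
        rw [h3]
      · rintro ⟨h, l, hl, hper⟩ S hSp n
        let f : S →* endStab G p :=
          { toFun := fun x => ⟨((x : K) : G), by
              obtain ⟨a, b, hab⟩ := hSp x.2
              exact ⟨a, b, hab⟩⟩
            map_one' := rfl
            map_mul' := fun _ _ => rfl }
        refine (hS ⟨h, l, hl, fun i => hper i⟩).inj f ?_ n
        intro x y hxy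
        apply Subtype.ext
        apply Subtype.ext
        exact congrArg (fun z : endStab G p => (z : G)) hxy

end closure

end Pool.Agent.H1.MV
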