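import Pool.Agent.H1.MV.NilT

set_option autoImplicit false
set_option linter.unusedSectionVars false
set_option linter.unusedSimpArgs false

/-!
# Classes which come from vertex groups
-/

namespace Pool.Agent.H1.MV

open Matrix TH57.Thr Pool.Agent.K4H37.MT

section cl

variable {R : Type} [Ring R] {κ μ ν κ' μ' : Type} [Fintype κ] [DecidableEq κ] [Fintype μ]
  [DecidableEq μ] [Fintype ν] [DecidableEq ν] [Fintype κ'] [DecidableEq κ'] [Fintype μ']
  [DecidableEq μ'] {U : Subgroup Rˣ}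

/-- equality of classes -/
def Cl (U : Subgroup Rˣ) (x : (Matrix κ κ R)ˣ) (y : (Matrix μ μ R)ˣ) : Prop :=
  TT U (blockSum x y⁻¹)

theorem Cl.refl (x : (Matrix κ κ R)ˣ) : Cl U x x := TT_blockSum_inv x

theorem Cl.of_TT {x : (Matrix κ κ R)ˣ} {y : (Matrix μ μ R)ˣ} (hx : TT U x) (hy : TT U y) :
    Cl U x y := TT_blockSum hx (TT_inv U _ hy)

theorem Cl.symm {x : (Matrix κ κ R)ˣ} {y : (Matrix μ μ R)ˣ} (h : Cl U x y) : Cl U y x := by
  have h1 := TT_re U (Equiv.sumComm μ κ) _ (TT_inv U _ h)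
  rw [blockSum_inv, inv_inv, re_comm] at h1
  exact h1

/-- reindexing of three blocks -/
theorem TT_three (a : (Matrix κ κ R)ˣ) (b : (Matrix μ μ R)ˣ) (c : (Matrix ν ν R)ˣ)
    (h : TT U (blockSum (blockSum a b) c)) : TT U (blockSum (blockSum a c) b) := by
  let f : (κ ⊕ ν) ⊕ μ ≃ (κ ⊕ μ) ⊕ ν :=
    { toFun := Sum.elim (Sum.elim (fun k => Sum.inl (Sum.inl k)) Sum.inr)
        (fun m => Sum.inl (Sum.inr m))
      invFun := Sum.elim (Sum.elim (fun k => Sum.inl (Sum.inl k)) Sum.inr)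
        (fun m => Sum.inl (Sum.inr m))
      left_inv := by rintro ((k | k) | k) <;> rfl
      right_inv := by rintro ((k | k) | k) <;> rfl }
  have h1 := TT_re U f _ h
  convert h1 using 1
  apply Units.ext
  ext ((i | i) | i) ((j | j) | j) <;> rfl

theorem TT_assoc (a : (Matrix κ κ R)ˣ) (b : (Matrix μ μ R)ˣ) (c : (Matrix ν ν R)ˣ) :
    TT U (blockSum (blockSum a b) c) ↔ TT U (blockSum a (blockSum b c)) := by
  constructor
  · intro h
    have h1 := TT_re U (Equiv.sumAssoc κ μ ν).symm _ h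
    convert h1 using 1
    apply Units.ext
    ext (i | i | i) (j | j | j) <;> rfl
  · intro h
    have h1 := TT_re U (Equiv.sumAssoc κ μ ν) _ h
    convert h1 using 1
    apply Units.ext
    ext ((i | i) | i) ((j | j) | j) <;> rfl

theorem Cl.trans {x : (Matrix κ κ R)ˣ} {y : (Matrix μ μ R)ˣ} {z : (Matrix ν ν R)ˣ}
    (h : Cl U x y) (h' : Cl U y z) : Cl U x z := by
  have h1 : TT U (blockSum (blockSum x y⁻¹) (1 : (Matrix ν ν R)ˣ)) := TT_blockSum h (TT_one U)
  have h2 : TT U (blockSum (1 : (Matrix κ κ R)ˣ) (blockSum y z⁻¹)) := TT_blockSum (TT_one U) h'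
  rw [← TT_assoc] at h2
  have h3 := TT_mul U _ _ h1 h2
  rw [blockSum_mul, blockSum_mul, one_mul, mul_one, inv_mul_cancel] at h3
  have h4 := TT_three _ _ _ h3
  rw [blockSum_one] at h4
  exact TT_unst U _ h4

theorem Cl.mul {x y : (Matrix κ κ R)ˣ} {x' : (Matrix μ μ R)ˣ} {y' : (Matrix ν ν R)ˣ}
    (h : Cl U x x') (h' : Cl U y y') : Cl U (x * y) (blockSum x' y') := by
  have h1 : TT U (blockSum (blockSum x x'⁻¹) (1 : (Matrix ν ν R)ˣ)) := TT_blockSum h (TT_one U)
  have h2 : TT U (blockSum (blockSum y y'⁻¹) (1 : (Matrix μ μ R)ˣ)) := TT_blockSum h' (TT_one U)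
  have h3 := TT_mul U _ _ h1 (TT_three _ _ _ h2)
  rw [blockSum_mul, blockSum_mul, one_mul, mul_one, TT_assoc] at h3
  unfold Cl
  rw [blockSum_inv]
  exact h3

theorem Cl.bsum {x : (Matrix κ κ R)ˣ} {y : (Matrix κ' κ' R)ˣ} {x' : (Matrix μ μ R)ˣ}
    {y' : (Matrix μ' μ' R)ˣ} (h : Cl U x x') (h' : Cl U y y') :
    Cl U (blockSum x y) (blockSum x' y') := by
  have h1 : Cl U (blockSum x (1 : (Matrix κ' κ' R)ˣ)) x' := by
    unfold Cl
    have h2 : TT U (blockSum (blockSum x x'⁻¹) (1 : (Matrix κ' κ' R)ˣ)) :=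
      TT_blockSum h (TT_one U)
    exact TT_three _ _ _ h2
  have h2 : Cl U (blockSum (1 : (Matrix κ κ R)ˣ) y) y' := by
    unfold Cl
    have h2 : TT U (blockSum (1 : (Matrix κ κ R)ˣ) (blockSum y y'⁻¹)) :=
      TT_blockSum (TT_one U) h'
    exact (TT_assoc _ _ _).2 h2
  have h3 := h1.mul h2
  rwa [blockSum_mul, one_mul, mul_one] at h3

theorem Cl.st (x : (Matrix κ κ R)ˣ) : Cl U (Units.map (stm μ) x) x := by
  rw [← blockSum_one]
  have h2 : TT U (blockSum (blockSum x x⁻¹) (1 : (Matrix μ μ R)ˣ)) :=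
    TT_blockSum (Cl.refl x) (TT_one U)
  exact TT_three _ _ _ h2

theorem Cl.left_mul {x y z : (Matrix κ κ R)ˣ} (hx : TT U x) (hz : TT U z) :
    Cl U (x * y * z) y := by
  have h1 : TT U (blockSum x (1 : (Matrix κ κ R)ˣ)) := TT_blockSum hx (TT_one U)
  have h2 : TT U (blockSum z (1 : (Matrix κ κ R)ˣ)) := TT_blockSum hz (TT_one U)
  have h3 := TT_mul U _ _ (TT_mul U _ _ h1 (Cl.refl (U := U) y)) h2
  rw [blockSum_mul, blockSum_mul, one_mul, mul_one] at h3
  exact h3

theorem Cl.re (e : μ ≃ κ) (x : (Matrix κ κ R)ˣ) : Cl U (Units.map (TH57.Thr.re e) x) x := by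
  have h1 := TT_re U (Equiv.sumCongr e (Equiv.refl κ)) _ (Cl.refl (U := U) x)
  unfold Cl
  convert h1 using 1
  apply Units.ext
  ext (i | i) (j | j) <;> rfl

end cl

section vc

variable {G V : Type} [Group G] [MulAction G V] {κ μ : Type} [Fintype κ] [DecidableEq κ]
  [Fintype μ] [DecidableEq μ]

/-- the class of `x` is represented by a matrix located at vertices -/
def VC (V : Type) [MulAction G V] (x : (Matrix κ κ (MonoidAlgebra ℤ G))ˣ) : Prop :=
  ∃ (μ : Type) (_ : Fintype μ) (_ : DecidableEq μ) (ω : μ → V)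
    (y : (Matrix μ μ (MonoidAlgebra ℤ G))ˣ), (∀ i, rep G (ω i) = ω i) ∧
    Ty ω ω Eq y.val ∧ Ty ω ω Eq (y⁻¹).val ∧ Cl (TU G) x y

theorem VC.of_Cl {x : (Matrix κ κ (MonoidAlgebra ℤ G))ˣ} {y : (Matrix μ μ (MonoidAlgebra ℤ G))ˣ}
    (h : Cl (TU G) x y) (hy : VC V y) : VC V x := by
  obtain ⟨μ, i1, i2, ω, z, h1, h2, h3, h4⟩ := hy
  exact ⟨μ, i1, i2, ω, z, h1, h2, h3, h.trans h4⟩

theorem VC.of_TT {x : (Matrix κ κ (MonoidAlgebra ℤ G))ˣ} (h : TT (TU G) x) : VC V x :=
  ⟨Empty, inferInstance, inferInstance, Empty.elim, 1, fun i => i.elim,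
    fun i => i.elim, fun i => i.elim, Cl.of_TT h (TT_one _)⟩

theorem Ty.sum {J K J' K' Ω Ω' : Type} {k : Type} [Ring k] [MulAction G Ω] {a : J → Ω}
    {b : K → Ω'} {a' : J' → Ω}
    {b' : K' → Ω'} {ρ : Ω → Ω' → Prop} {M : Matrix J K (MonoidAlgebra k G)}
    {N : Matrix J' K' (MonoidAlgebra k G)} (h : Ty a b ρ M) (h' : Ty a' b' ρ N) :
    Ty (Sum.elim a a') (Sum.elim b b') ρ (fromBlocks M 0 0 N) := by
  rintro (j | j) (l | l) g hg
  · exact h j l g hg
  · rw [fromBlocks_apply₁₂, Matrix.zero_apply] at hg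
    simp at hg
  · rw [fromBlocks_apply₂₁, Matrix.zero_apply] at hg
    simp at hg
  · exact h' j l g hg

theorem VC.mul {x y : (Matrix κ κ (MonoidAlgebra ℤ G))ˣ} (hx : VC V x) (hy : VC V y) :
    VC V (x * y) := by
  obtain ⟨μ, i1, i2, ω, z, h1, h2, h3, h4⟩ := hx
  obtain ⟨μ', i1', i2', ω', z', h1', h2', h3', h4'⟩ := hy
  refine ⟨μ ⊕ μ', inferInstance, inferInstance, Sum.elim ω ω', blockSum z z', ?_, ?_, ?_,
    h4.mul h4'⟩
  · rintro (i | i)
    · exact h1 i
    · exact h1' i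
  · exact Ty.sum h2 h2'
  · rw [blockSum_inv]
    exact Ty.sum h3 h3'

theorem VC.unst {x : (Matrix κ κ (MonoidAlgebra ℤ G))ˣ} (h : VC V (Units.map (stm μ) x)) :
    VC V x := VC.of_Cl (Cl.st x).symm h

/-- the augmentation -/
noncomputable def aug (G : Type) [Group G] : MonoidAlgebra ℤ G →+* ℤ :=
  (MonoidAlgebra.lift ℤ ℤ G (1 : G →* ℤ)).toRingHom

/-- the number of rows and columns over one orbit -/
theorem count {J K : Type} [Fintype J] [DecidableEq J] [Fintype K] [DecidableEq K] {Ω : Type}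
    [DecidableEq Ω] (A : Matrix J K ℤ) (B : Matrix K J ℤ) (h1 : A * B = 1) (h2 : B * A = 1)
    (a : J → Ω) (b : K → Ω) (hA : ∀ j l, A j l ≠ 0 → a j = b l) (t : Ω) :
    Fintype.card {j // a j = t} = Fintype.card {l // b l = t} := by
  have e1 : ∑ j with a j = t, ∑ l with b l = t, A j l * B l j
      = (Fintype.card {j // a j = t} : ℤ) := by
    rw [Fintype.card_subtype, Finset.card_eq_sum_ones, Nat.cast_sum]
    apply Finset.sum_congr rfl
    intro j hj
    rw [Finset.mem_filter] at hj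
    have h3 := congrFun (congrFun h1 j) j
    rw [Matrix.mul_apply, Matrix.one_apply_eq] at h3
    rw [Nat.cast_one, ← h3]
    apply Finset.sum_filter_of_ne
    intro l _ hl
    have : A j l ≠ 0 := fun h => hl (by rw [h, zero_mul])
    rw [← hA j l this]; exact hj.2
  have e2 : ∑ l with b l = t, ∑ j with a j = t, B l j * A j l
      = (Fintype.card {l // b l = t} : ℤ) := by
    rw [Fintype.card_subtype, Finset.card_eq_sum_ones, Nat.cast_sum]
    apply Finset.sum_congr rfl
    intro l hl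
    rw [Finset.mem_filter] at hl
    have h3 := congrFun (congrFun h2 l) l
    rw [Matrix.mul_apply, Matrix.one_apply_eq] at h3
    rw [Nat.cast_one, ← h3]
    apply Finset.sum_filter_of_ne
    intro j _ hj
    have : A j l ≠ 0 := fun h => hj (by rw [h, mul_zero])
    rw [hA j l this]; exact hl.2
  have e3 : ∑ j with a j = t, ∑ l with b l = t, A j l * B l j
      = ∑ l with b l = t, ∑ j with a j = t, B l j * A j l := by
    rw [Finset.sum_comm]
    apply Finset.sum_congr rfl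
    intro l _
    apply Finset.sum_congr rfl
    intro j _
    exact mul_comm _ _
  rw [e1, e2] at e3
  exact_mod_cast e3

theorem card_eq {J K : Type} [Fintype J] [DecidableEq J] [Fintype K] [DecidableEq K]
    (A : Matrix J K (MonoidAlgebra ℤ G)) (B : Matrix K J (MonoidAlgebra ℤ G)) (h1 : A * B = 1)
    (h2 : B * A = 1) : Fintype.card J = Fintype.card K := by
  have g1 : A.map (aug G) * B.map (aug G) = 1 := by
    rw [← Matrix.map_mul, h1]
    exact Matrix.map_one _ (map_zero _) (map_one _)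
  have g2 : B.map (aug G) * A.map (aug G) = 1 := by
    rw [← Matrix.map_mul, h2]
    exact Matrix.map_one _ (map_zero _) (map_one _)
  have h3 := count (A.map (aug G)) (B.map (aug G)) g1 g2 (fun _ => ()) (fun _ => ())
    (fun _ _ _ => rfl) ()
  have c1 : Fintype.card {j : J // (fun _ => ()) j = ()} = Fintype.card J :=
    Fintype.card_congr (Equiv.subtypeUnivEquiv (fun _ => rfl))
  have c2 : Fintype.card {j : K // (fun _ => ()) j = ()} = Fintype.card K :=
    Fintype.card_congr (Equiv.subtypeUnivEquiv (fun _ => rfl))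
  rw [c1, c2] at h3
  exact h3

theorem TT_dg (c : κ → G) : TT (TU G) (dg ℤ c) := by
  have h1 : Triv (TU G) (dg ℤ c).val := by
    apply triv_tri _ (fun _ => 0)
    · intro i j hij h
      exfalso
      apply h
      exact Matrix.diagonal_apply_ne _ hij
    · intro i
      refine ⟨tu' (c i) 1, ⟨c i, 1, rfl⟩, ?_⟩
      exact Matrix.diagonal_apply_eq _ _
  obtain ⟨w, hw, hT⟩ := h1
  have : w = dg ℤ c := Units.ext hw
  rw [← this]; exact hT

/-- Invertible matrices which are located on vertices. -/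
theorem VC.typed (x : (Matrix κ κ (MonoidAlgebra ℤ G))ˣ) (ν ω : κ → V) (h1 : Ty ν ω Eq x.val)
    (h2 : Ty ω ν Eq (x⁻¹).val) : VC V x := by
  classical
  have hc : ∀ j, ∃ g : G, g • rep G (ν j) = ν j := fun j => rep_exists _
  choose c hc using hc
  have hd : ∀ j, ∃ g : G, g • rep G (ω j) = ω j := fun j => rep_exists _
  choose d hd using hd
  have hc' : (fun j => (c j)⁻¹ • ν j) = fun j => rep G (ν j) := by
    funext j
    rw [inv_smul_eq_iff, hc]
  have hd' : (fun j => (d j)⁻¹ • ω j) = fun j => rep G (ω j) := by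
    funext j
    rw [inv_smul_eq_iff, hd]
  let x' := (dg ℤ c)⁻¹ * x * dg ℤ d
  have t1 : Ty (fun j => rep G (ν j)) (fun j => rep G (ω j)) Eq x'.val := by
    have h3 := (h1.dg_left (fun j => (c j)⁻¹)).dg_right GInv.eq d
    rw [hc', hd'] at h3
    have : x'.val = (dg ℤ (fun j => (c j)⁻¹)).val * x.val * (dg ℤ d).val := by
      change (dg ℤ c)⁻¹.val * x.val * (dg ℤ d).val = _
      rw [dg_inv]
    rw [this]; exact h3
  have t2 : Ty (fun j => rep G (ω j)) (fun j => rep G (ν j)) Eq (x'⁻¹).val := by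
    have h3 := (h2.dg_left (fun j => (d j)⁻¹)).dg_right GInv.eq c
    rw [hc', hd'] at h3
    have : (x'⁻¹).val = (dg ℤ (fun j => (d j)⁻¹)).val * (x⁻¹).val * (dg ℤ c).val := by
      have : x'⁻¹ = (dg ℤ d)⁻¹ * x⁻¹ * dg ℤ c := by
        simp only [x', _root_.mul_inv_rev, inv_inv, mul_assoc]
      rw [this]
      change (dg ℤ d)⁻¹.val * (x⁻¹).val * (dg ℤ c).val = _
      rw [dg_inv]
    rw [this]; exact h3
  -- the permutation
  have hA : ∀ j l, (x'.val.map (aug G)) j l ≠ 0 → rep G (ν j) = rep G (ω l) := by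
    intro j l h
    rw [Matrix.map_apply] at h
    have h3 : ∃ g, (x'.val j l).coeff g ≠ 0 := by
      by_contra hcon
      push Not at hcon
      apply h
      have : x'.val j l = 0 := by
        apply MonoidAlgebra.coeff_injective
        ext g
        exact hcon g
      rw [this, map_zero]
    obtain ⟨g, hg⟩ := h3
    have h4 := rep_of_smul (t1 j l g hg)
    rw [rep_rep, rep_rep] at h4
    exact h4
  have g1 : x'.val.map (aug G) * (x'⁻¹).val.map (aug G) = 1 := by
    rw [← Matrix.map_mul, Units.mul_inv]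
    exact Matrix.map_one _ (map_zero _) (map_one _)
  have g2 : (x'⁻¹).val.map (aug G) * x'.val.map (aug G) = 1 := by
    rw [← Matrix.map_mul, Units.inv_mul]
    exact Matrix.map_one _ (map_zero _) (map_one _)
  have hcount := count _ _ g1 g2 (fun j => rep G (ν j)) (fun j => rep G (ω j)) hA
  let σ : κ ≃ κ := Equiv.ofFiberEquiv (f := fun j => rep G (ν j)) (g := fun j => rep G (ω j))
    (fun t => Fintype.equivOfCardEq (hcount t))
  have hσ : ∀ j, rep G (ω (σ j)) = rep G (ν j) := fun j =>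
    Equiv.ofFiberEquiv_map (f := fun j => rep G (ν j)) (g := fun j => rep G (ω j))
      (fun t => Fintype.equivOfCardEq (hcount t)) j
  let y := x' * (pu σ.symm : (Matrix κ κ (MonoidAlgebra ℤ G))ˣ)
  have hy : ∀ i j, y.val i j = x'.val i (σ j) := by
    intro i j
    change (x'.val * (pu σ.symm : (Matrix κ κ (MonoidAlgebra ℤ G))ˣ).val) i j = _
    rw [pu_mul_apply]
    simp
  have hyi : ∀ i j, (y⁻¹).val i j = (x'⁻¹).val (σ i) j := by
    intro i j
    have : y⁻¹ = (pu σ.symm : (Matrix κ κ (MonoidAlgebra ℤ G))ˣ)⁻¹ * x'⁻¹ := _root_.mul_inv_rev _ _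
    rw [this]
    change (((1 : Matrix κ κ (MonoidAlgebra ℤ G)).submatrix id σ.symm) * (x'⁻¹).val) i j = _
    rw [Matrix.mul_apply, Finset.sum_eq_single (σ i)]
    · rw [Matrix.submatrix_apply, Equiv.symm_apply_apply, id, Matrix.one_apply_eq, one_mul]
    · intro b _ hb
      rw [Matrix.submatrix_apply, id, Matrix.one_apply_ne, zero_mul]
      intro h
      apply hb
      rw [h, Equiv.apply_symm_apply]
    · intro h
      exact absurd (Finset.mem_univ _) h
  refine ⟨κ, inferInstance, inferInstance, fun j => rep G (ν j), y, fun i => rep_rep _, ?_, ?_, ?_⟩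
  · intro i j g hg
    rw [hy] at hg
    have := t1 i (σ j) g hg
    rw [this]
    exact hσ j
  · intro i j g hg
    rw [hyi] at hg
    have := t2 (σ i) j g hg
    beta_reduce at this ⊢
    rw [hσ] at this
    exact this
  · have h3 : x = dg ℤ c * y * ((pu σ.symm)⁻¹ * (dg ℤ d)⁻¹) := by
      simp only [y, x']
      group
    rw [h3]
    exact Cl.left_mul (TT_dg c) (TT_mul _ _ _ (TT_inv _ _ (TT_perm _)) (TT_inv _ _ (TT_dg d)))

end vc

end Pool.Agent.H1.MV
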