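import Pool.Agent.H1.MV.Letters

set_option autoImplicit false
set_option linter.unusedSectionVars false
set_option linter.unusedSimpArgs false

/-!
# Locations with memory
-/

namespace Pool.Agent.H1.MV

open Matrix TH57.Thr Pool.Agent.K4H37.MT

section rel

variable {G : Type} [Group G] {Y : Type} [MulAction G Y]

/-- the relation of the locations with memory -/
def mr (r t : Y → Y → Prop) (a b : Y × Y) : Prop :=
  r a.2 b.2 ∧ ((t a.2 b.2 ∧ b.1 = a.1) ∨ (¬ t a.2 b.2 ∧ b.1 = a.2))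

theorem ginv_iff {t : Y → Y → Prop} (ht : ∀ (g : G) p q, t p q → t (g • p) (g • q)) (g : G)
    (p q : Y) : t (g • p) (g • q) ↔ t p q := by
  constructor
  · intro h
    have := ht g⁻¹ _ _ h
    rwa [inv_smul_smul, inv_smul_smul] at this
  · exact ht g p q

theorem mr_smul {r t : Y → Y → Prop} (hr : ∀ (g : G) p q, r p q → r (g • p) (g • q))
    (ht : ∀ (g : G) p q, t p q → t (g • p) (g • q)) (g : G) (a b : Y × Y)
    (h : mr r t a b) : mr r t (g • a) (g • b) := by
  obtain ⟨h1, h2⟩ := h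
  refine ⟨hr g _ _ h1, ?_⟩
  rcases h2 with ⟨h2, h3⟩ | ⟨h2, h3⟩
  · left
    exact ⟨ht g _ _ h2, by change g • b.1 = g • a.1; rw [h3]⟩
  · right
    refine ⟨?_, by change g • b.1 = g • a.2; rw [h3]⟩
    change ¬ t (g • a.2) (g • b.2)
    rwa [ginv_iff ht]

theorem mr_det {r t : Y → Y → Prop} (hD : Det r) : Det (mr r t) := by
  intro n p q hp hq h0 hn
  have h2 : ∀ i ≤ n, (p i).2 = (q i).2 :=
    hD n (fun i => (p i).2) (fun i => (q i).2) (fun i hi => (hp i hi).1) (fun i hi => (hq i hi).1)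
      (by beta_reduce; rw [h0]) (by beta_reduce; rw [hn])
  intro i
  induction i with
  | zero => intro _; exact h0
  | succ i ih =>
    intro hi
    have e := ih (by omega)
    apply Prod.ext ?_ (h2 (i + 1) hi)
    obtain ⟨_, a⟩ := hp i (by omega)
    obtain ⟨_, b⟩ := hq i (by omega)
    rw [← e, ← h2 (i + 1) hi] at b
    rcases a with ⟨a1, a2⟩ | ⟨a1, a2⟩
    · rcases b with ⟨b1, b2⟩ | ⟨b1, b2⟩
      · rw [a2, b2]
      · exact absurd a1 b1
    · rcases b with ⟨b1, b2⟩ | ⟨b1, b2⟩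
      · exact absurd b1 a1
      · rw [a2, b2]

/-- a step outside `t` followed by steps in `t` -/
def Tm (r t : Y → Y → Prop) : ℕ → Y → Y → Prop
  | 0, y₀, y => r y₀ y ∧ ¬ t y₀ y
  | i + 1, y₀, y => ∃ y₁, Tm r t i y₀ y₁ ∧ t y₁ y

theorem Tm.smul {r t : Y → Y → Prop} (hr : ∀ (g : G) p q, r p q → r (g • p) (g • q))
    (ht : ∀ (g : G) p q, t p q → t (g • p) (g • q)) {i : ℕ} (g : G) :
    ∀ {y₀ y : Y} (_ : Tm r t i y₀ y), Tm r t i (g • y₀) (g • y) := by
  induction i with
  | zero =>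
    intro y₀ y h
    refine ⟨hr g _ _ h.1, ?_⟩
    rw [ginv_iff ht]
    exact h.2
  | succ i ih =>
    intro y₀ y h
    obtain ⟨y₁, h1, h2⟩ := h
    exact ⟨g • y₁, ih h1, ht g _ _ h2⟩

theorem Path.mono {r t : Y → Y → Prop} (h : ∀ p q, t p q → r p q) {n : ℕ} {p q : Y}
    (h' : Path t n p q) : Path r n p q := by
  obtain ⟨f, h0, h1, h2⟩ := h'
  exact ⟨f, h0, h1, fun i hi => h _ _ (h2 i hi)⟩

theorem Path.last {t : Y → Y → Prop} {n : ℕ} {p q : Y} (h : Path t (n + 1) p q) :
    ∃ s, Path t n p s ∧ t s q := by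
  obtain ⟨f, h0, h1, h2⟩ := h
  refine ⟨f n, ⟨f, h0, rfl, fun i hi => h2 i (by omega)⟩, ?_⟩
  rw [← h1]
  exact h2 n (Nat.lt_succ_self n)

end rel

section mem

variable {k : Type} [Ring k] {G : Type} [Group G] {Y : Type} [MulAction G Y]
  {J : Type} [Fintype J] [DecidableEq J]

theorem pow_res {σ : J → Y} {r t : Y → Y → Prop} (htr : ∀ p q, t p q → r p q)
    (hr : ∀ (g : G) p q, r p q → r (g • p) (g • q))
    (ht : ∀ (g : G) p q, t p q → t (g • p) (g • q)) (hD : Det r)
    {x : Matrix J J (MonoidAlgebra k G)} (hx : Ty σ σ (fun q p => r p q) x) (l : ℕ) :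
    (MV.res σ σ (fun q p => t p q) x) ^ l = MV.res σ σ (fun q p => Path t l p q) (x ^ l) := by
  induction l with
  | zero =>
    rw [pow_zero, pow_zero]
    exact (res_eq (Ty.one.mono (fun q p h => by rw [h]; exact Path.zero _))).symm
  | succ l ih =>
    rw [pow_succ', ih, pow_succ']
    have hg1 : GInv G (fun q s : Y => t s q) := fun g q s h => ht g _ _ h
    have hg2 : GInv G (fun q s : Y => ¬ t s q ∧ r s q) := by
      rintro g q s ⟨h1, h2⟩
      exact ⟨by rw [ginv_iff ht]; exact h1, hr g _ _ h2⟩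
    have hpow : Ty σ σ (fun q p => Path r l p q) (x ^ l) := hx.pow hr l
    have tN : Ty σ σ (fun q s => t s q) (MV.res σ σ (fun q p => t p q) x) := Ty.res
    have tN' : Ty σ σ (fun q s => ¬ t s q ∧ r s q) (MV.res σ σ (fun q p => ¬ t p q) x) :=
      Ty.res_of hx
    have tA : Ty σ σ (fun q p => Path t l p q)
        (MV.res σ σ (fun q p => Path t l p q) (x ^ l)) := Ty.res
    have tB : Ty σ σ (fun q p => ¬ Path t l p q ∧ Path r l p q)
        (MV.res σ σ (fun q p => ¬ Path t l p q) (x ^ l)) := Ty.res_of hpow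
    have e1 : x * x ^ l = MV.res σ σ (fun q p => t p q) x *
          MV.res σ σ (fun q p => Path t l p q) (x ^ l) +
        (MV.res σ σ (fun q p => t p q) x * MV.res σ σ (fun q p => ¬ Path t l p q) (x ^ l) +
        MV.res σ σ (fun q p => ¬ t p q) x * x ^ l) := by
      rw [← add_assoc, ← mul_add, res_add_not, ← add_mul, res_add_not]
    have d1 : Ty σ σ (fun q p => Path t (l + 1) p q) (MV.res σ σ (fun q p => t p q) x *
          MV.res σ σ (fun q p => Path t l p q) (x ^ l)) :=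
      tN.mul tA hg1 (fun q s p h1 h2 => h2.snoc h1)
    have d2 : Ty σ σ (fun q p => ¬ Path t (l + 1) p q)
        (MV.res σ σ (fun q p => t p q) x * MV.res σ σ (fun q p => ¬ Path t l p q) (x ^ l)) := by
      refine tN.mul tB hg1 ?_
      rintro q s p h1 ⟨h3, h4⟩ h5
      obtain ⟨s', h6, h7⟩ := h5.last
      have h8 : s = s' := det_last hD h4 (htr _ _ h1) (h6.mono htr) (htr _ _ h7)
      rw [h8] at h3
      exact h3 h6
    have d3 : Ty σ σ (fun q p => ¬ Path t (l + 1) p q)
        (MV.res σ σ (fun q p => ¬ t p q) x * x ^ l) := by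
      refine tN'.mul hpow hg2 ?_
      rintro q s p ⟨h1, h2⟩ h4 h5
      obtain ⟨s', h6, h7⟩ := h5.last
      have h8 : s = s' := det_last hD h4 h2 (h6.mono htr) (htr _ _ h7)
      rw [h8] at h1
      exact h1 h7
    rw [e1, res_add', res_eq d1, res_none (d2.add d3) (fun q p h h' => h' h), add_zero]

open Classical in
/-- finitely many group elements which contain the products of `i + 1` elements of the support -/
noncomputable def Fs (x : Matrix J J (MonoidAlgebra k G)) : ℕ → Finset G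
  | 0 => suppF x
  | i + 1 => (suppF x ×ˢ Fs x i).image fun p => p.1 * p.2

theorem mem_Fs_succ {x : Matrix J J (MonoidAlgebra k G)} {i : ℕ} {g h : G} (hg : g ∈ suppF x)
    (hh : h ∈ Fs x i) : g * h ∈ Fs x (i + 1) := by
  classical
  exact Finset.mem_image.2 ⟨(g, h), Finset.mem_product.2 ⟨hg, hh⟩, rfl⟩

/-- the locations with memory -/
def Ms (σ : J → Y) (x : Matrix J J (MonoidAlgebra k G)) (r t : Y → Y → Prop) (n : ℕ) : Type :=
  Σ i : Fin n, {a : J × ↥(Fs x i) × J // Tm r t i (a.2.1.1 • σ a.2.2) (σ a.1)}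

variable {σ : J → Y} {x : Matrix J J (MonoidAlgebra k G)} {r t : Y → Y → Prop} {n : ℕ}

noncomputable instance : Fintype (Ms σ x r t n) := by
  classical
  unfold Ms
  infer_instance

noncomputable instance : DecidableEq (Ms σ x r t n) := Classical.decEq _

/-- the level -/
def Ms.lv (a : Ms σ x r t n) : ℕ := a.1

/-- the present index -/
def Ms.cur (a : Ms σ x r t n) : J := a.2.1.1

/-- the group element -/
def Ms.el (a : Ms σ x r t n) : G := a.2.1.2.1.1

/-- the index in the memory -/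
def Ms.src (a : Ms σ x r t n) : J := a.2.1.2.2

theorem Ms.ext' {a b : Ms σ x r t n} (h1 : a.lv = b.lv) (h2 : a.cur = b.cur) (h3 : a.el = b.el)
    (h4 : a.src = b.src) : a = b := by
  obtain ⟨⟨i, hi⟩, ⟨⟨j, ⟨g, hg⟩, j₀⟩, ha⟩⟩ := a
  obtain ⟨⟨i', hi'⟩, ⟨⟨j', ⟨g', hg'⟩, j₀'⟩, ha'⟩⟩ := b
  change i = i' at h1
  change j = j' at h2
  change g = g' at h3
  change j₀ = j₀' at h4
  subst h1 h2 h3 h4
  rfl

theorem Ms.lt (a : Ms σ x r t n) : a.lv < n := a.1.2

theorem Ms.tm (a : Ms σ x r t n) : Tm r t a.lv (a.el • σ a.src) (σ a.cur) := a.2.2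

theorem Ms.mem (a : Ms σ x r t n) : a.el ∈ Fs x a.lv := a.2.1.2.1.2

/-- a location with memory -/
def Ms.mk' (i : ℕ) (hi : i < n) (j : J) (g : G) (hg : g ∈ Fs x i) (j₀ : J)
    (h : Tm r t i (g • σ j₀) (σ j)) : Ms σ x r t n := ⟨⟨i, hi⟩, ⟨(j, ⟨g, hg⟩, j₀), h⟩⟩

/-- the location -/
def Ms.loc (a : Ms σ x r t n) : Y × Y := (a.el • σ a.src, σ a.cur)

variable (σ x r t n)

/-- steps in `t` -/
noncomputable def Mt : Matrix (Ms σ x r t n) (Ms σ x r t n) (MonoidAlgebra k G) :=
  Matrix.of fun a b => if a.lv = b.lv + 1 ∧ a.src = b.src then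
    MonoidAlgebra.single (a.el * (b.el)⁻¹)
      ((MV.res σ σ (fun q p => t p q) x a.cur b.cur).coeff (a.el * (b.el)⁻¹)) else 0

/-- steps outside `t` -/
noncomputable def Sm : Matrix (Ms σ x r t n) J (MonoidAlgebra k G) :=
  Matrix.of fun a j => if a.lv = 0 ∧ a.src = j then
    MonoidAlgebra.single a.el ((MV.res σ σ (fun q p => ¬ t p q) x a.cur j).coeff a.el) else 0

/-- the loss of the memory -/
noncomputable def Em : Matrix J (Ms σ x r t n) (MonoidAlgebra k G) :=
  Matrix.of fun j a => if j = a.cur then 1 else 0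

variable {σ x r t n}

theorem mul_Em (M : Matrix J J (MonoidAlgebra k G)) (j : J) (a : Ms σ x r t n) :
    (M * Em σ x r t n) j a = M j a.cur := by
  rw [Matrix.mul_apply]
  unfold Em
  rw [Finset.sum_eq_single a.cur]
  · rw [Matrix.of_apply, if_pos rfl, mul_one]
  · intro j' _ hj'
    rw [Matrix.of_apply, if_neg hj', mul_zero]
  · intro h
    exact absurd (Finset.mem_univ _) h

theorem sum_supp_of {M : Matrix J J (MonoidAlgebra k G)} {j' j : J}
    (h : ∀ g, (M j' j).coeff g ≠ 0 → (x j' j).coeff g ≠ 0) :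
    ∑ g ∈ suppF x, MonoidAlgebra.single g ((M j' j).coeff g) = M j' j := by
  conv_rhs => rw [← MonoidAlgebra.sum_coeff_single (M j' j)]
  rw [Finsupp.sum_of_support_subset _ (s := suppF x)]
  · intro g hg
    exact mem_suppF (h g (Finsupp.mem_support_iff.1 hg))
  · intro g _
    exact MonoidAlgebra.single_zero g

theorem res_supp {ρ : Y → Y → Prop} {j' j : J} {g : G}
    (h : (MV.res σ σ ρ x j' j).coeff g ≠ 0) : (x j' j).coeff g ≠ 0 := by
  rw [res_coeff] at h
  by_cases h1 : ρ (g⁻¹ • σ j') (σ j)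
  · rwa [if_pos h1] at h
  · rw [if_neg h1] at h
    exact absurd rfl h

theorem Em_Sm (hn : 0 < n) (hr : ∀ (g : G) p q, r p q → r (g • p) (g • q))
    (ht : ∀ (g : G) p q, t p q → t (g • p) (g • q)) (hx : Ty σ σ (fun q p => r p q) x) :
    Em σ x r t n * Sm σ x r t n = MV.res σ σ (fun q p => ¬ t p q) x := by
  classical
  ext1 j' j
  rw [Matrix.mul_apply, ← sum_supp_of (x := x) (M := MV.res σ σ (fun q p => ¬ t p q) x)
    (fun g hg => res_supp hg)]
  have hval : ∀ a : Ms σ x r t n, Em σ x r t n j' a * Sm σ x r t n a j ≠ 0 →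
      j' = a.cur ∧ a.lv = 0 ∧ a.src = j ∧ Em σ x r t n j' a * Sm σ x r t n a j =
        MonoidAlgebra.single a.el ((MV.res σ σ (fun q p => ¬ t p q) x j' j).coeff a.el) := by
    intro a ha
    unfold Em Sm at ha ⊢
    rw [Matrix.of_apply, Matrix.of_apply] at ha ⊢
    by_cases h1 : j' = a.cur
    · by_cases h2 : a.lv = 0 ∧ a.src = j
      · refine ⟨h1, h2.1, h2.2, ?_⟩
        rw [if_pos h1, if_pos h2, one_mul, ← h1]
      · rw [if_neg h2, mul_zero] at ha
        exact absurd rfl ha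
    · rw [if_neg h1, zero_mul] at ha
      exact absurd rfl ha
  refine Finset.sum_bij_ne_zero (fun a _ _ => a.el) ?_ ?_ ?_ ?_
  · intro a _ ha
    have h1 := a.mem
    rw [(hval a ha).2.1] at h1
    exact h1
  · intro a _ ha b _ hb hab
    obtain ⟨h1, h2, h3, _⟩ := hval a ha
    obtain ⟨h1', h2', h3', _⟩ := hval b hb
    exact Ms.ext' (by rw [h2, h2']) (by rw [← h1, ← h1']) hab (by rw [h3, h3'])
  · intro g hg hne
    have h1 : (MV.res σ σ (fun q p => ¬ t p q) x j' j).coeff g ≠ 0 := by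
      intro h
      apply hne
      rw [h, MonoidAlgebra.single_zero]
    obtain ⟨h2, h3⟩ := (Ty.res_of hx : Ty σ σ (fun q p => ¬ t p q ∧ r p q)
      (MV.res σ σ (fun q p => ¬ t p q) x)) j' j g h1
    have h4 : Tm r t 0 (g • σ j) (σ j') := by
      constructor
      · have := hr g _ _ h3
        rwa [smul_inv_smul] at this
      · intro h5
        apply h2
        have := ht g⁻¹ _ _ h5
        rwa [inv_smul_smul] at this
    refine ⟨Ms.mk' 0 hn j' g hg j h4, Finset.mem_univ _, ?_, rfl⟩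
    unfold Em Sm
    rw [Matrix.of_apply, Matrix.of_apply, if_pos (show j' = (Ms.mk' 0 hn j' g hg j h4).cur from rfl),
      if_pos (show (Ms.mk' 0 hn j' g hg j h4).lv = 0 ∧ (Ms.mk' 0 hn j' g hg j h4).src = j from
        ⟨rfl, rfl⟩), one_mul]
    exact hne
  · intro a _ ha
    exact (hval a ha).2.2.2

theorem Em_Mt (hr : ∀ (g : G) p q, r p q → r (g • p) (g • q))
    (ht : ∀ (g : G) p q, t p q → t (g • p) (g • q)) (j : J) (b : Ms σ x r t n)
    (hb : b.lv + 1 < n) :
    (Em σ x r t n * Mt σ x r t n) j b = MV.res σ σ (fun q p => t p q) x j b.cur := by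
  classical
  rw [Matrix.mul_apply, ← sum_supp_of (x := x) (M := MV.res σ σ (fun q p => t p q) x)
    (fun g hg => res_supp hg)]
  have hval : ∀ a : Ms σ x r t n, Em σ x r t n j a * Mt σ x r t n a b ≠ 0 →
      j = a.cur ∧ a.lv = b.lv + 1 ∧ a.src = b.src ∧ Em σ x r t n j a * Mt σ x r t n a b =
        MonoidAlgebra.single (a.el * (b.el)⁻¹)
          ((MV.res σ σ (fun q p => t p q) x j b.cur).coeff (a.el * (b.el)⁻¹)) := by
    intro a ha
    unfold Em Mt at ha ⊢
    rw [Matrix.of_apply, Matrix.of_apply] at ha ⊢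
    by_cases h1 : j = a.cur
    · by_cases h2 : a.lv = b.lv + 1 ∧ a.src = b.src
      · refine ⟨h1, h2.1, h2.2, ?_⟩
        rw [if_pos h1, if_pos h2, one_mul, ← h1]
      · rw [if_neg h2, mul_zero] at ha
        exact absurd rfl ha
    · rw [if_neg h1, zero_mul] at ha
      exact absurd rfl ha
  refine Finset.sum_bij_ne_zero (fun a _ _ => a.el * (b.el)⁻¹) ?_ ?_ ?_ ?_
  · intro a _ ha
    obtain ⟨_, _, _, h⟩ := hval a ha
    rw [h] at ha
    have h1 : (MV.res σ σ (fun q p => t p q) x j b.cur).coeff (a.el * (b.el)⁻¹) ≠ 0 := by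
      intro h2
      apply ha
      rw [h2, MonoidAlgebra.single_zero]
    exact mem_suppF (res_supp h1)
  · intro a _ ha c _ hc hac
    obtain ⟨h1, h2, h3, _⟩ := hval a ha
    obtain ⟨h1', h2', h3', _⟩ := hval c hc
    exact Ms.ext' (by rw [h2, h2']) (by rw [← h1, ← h1']) (mul_right_cancel hac) (by rw [h3, h3'])
  · intro g hg hne
    have h1 : (MV.res σ σ (fun q p => t p q) x j b.cur).coeff g ≠ 0 := by
      intro h
      apply hne
      rw [h, MonoidAlgebra.single_zero]
    have h2 : t (σ b.cur) (g⁻¹ • σ j) := (Ty.res : Ty σ σ (fun q p => t p q)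
      (MV.res σ σ (fun q p => t p q) x)) j b.cur g h1
    have h4 : Tm r t (b.lv + 1) ((g * b.el) • σ b.src) (σ j) := by
      refine ⟨g • σ b.cur, ?_, ?_⟩
      · rw [mul_smul]
        exact b.tm.smul hr ht g
      · have := ht g _ _ h2
        rwa [smul_inv_smul] at this
    refine ⟨Ms.mk' (b.lv + 1) hb j (g * b.el) (mem_Fs_succ hg b.mem) b.src h4,
      Finset.mem_univ _, ?_, ?_⟩
    · unfold Em Mt
      rw [Matrix.of_apply, Matrix.of_apply,
        if_pos (show j = (Ms.mk' (b.lv + 1) hb j (g * b.el) (mem_Fs_succ hg b.mem) b.src h4).cur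
          from rfl),
        if_pos (show (Ms.mk' (b.lv + 1) hb j (g * b.el) (mem_Fs_succ hg b.mem) b.src h4).lv =
          b.lv + 1 ∧ (Ms.mk' (b.lv + 1) hb j (g * b.el) (mem_Fs_succ hg b.mem) b.src h4).src =
          b.src from ⟨rfl, rfl⟩), one_mul]
      change MonoidAlgebra.single (g * b.el * (b.el)⁻¹) ((MV.res σ σ (fun q p => t p q) x j
        b.cur).coeff (g * b.el * (b.el)⁻¹)) ≠ 0
      rw [mul_inv_cancel_right]
      exact hne
    · change g * b.el * (b.el)⁻¹ = g
      rw [mul_inv_cancel_right]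
  · intro a _ ha
    exact (hval a ha).2.2.2

end mem

end Pool.Agent.H1.MV
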