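import Pool.Agent.H1.MV.NilP

set_option autoImplicit false
set_option linter.unusedSectionVars false
set_option linter.unusedSimpArgs false
set_option linter.unusedTactic false

/-!
# Nilpotent located matrices: a condition on rays
-/

namespace Pool.Agent.H1.MV

open Matrix TH57.Thr Pool.Agent.K4H37.MT

section loc

variable {k : Type} [Ring k] {G : Type} [Group G]

/-- After `m` passages to the line graph the locations have trivial stabilisers. -/
def Loc : ∀ (_ : ℕ) (X : Type) (_ : MulAction G X) (J : Type) (_ : Fintype J) (_ : DecidableEq J)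
    (_ : J → X) (_ : Matrix J J (MonoidAlgebra k G)), Prop
  | 0, _, _, J, _, _, σ, _ => ∀ (g : G) (j : J), g • σ j = σ j → g = 1
  | m + 1, X, _, _, _, _, σ, x => Loc m (X × X) inferInstance (Arr x) inferInstance inferInstance
      (sArr σ x) (Av x * Au x)

theorem nil_loc {k : Type} [CommRing k] {G : Type} [Group G] [IsDomain k] [IsPrincipalIdealRing k]
    (U : Subgroup (MonoidAlgebra k G)ˣ) (m : ℕ) :
    ∀ (X : Type) [iX : MulAction G X] (r : X → X → Prop)
    (_ : ∀ (g : G) p q, r p q → r (g • p) (g • q)) (_ : Det r)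
    (J : Type) [iF : Fintype J] [iD : DecidableEq J] (σ : J → X)
    (x : Matrix J J (MonoidAlgebra k G)) (_ : Loc m X iX J iF iD σ x)
    (_ : Ty σ σ (fun q p => r p q) x) (n : ℕ) (_ : x ^ n = 0), Triv U (1 + x) := by
  induction m with
  | zero =>
    intro X _ r hr hD J _ _ σ x hσ hx n hn
    exact nil_free hr hD hσ hx n hn
  | succ m ih =>
    intro X _ r hr hD J _ _ σ x hσ hx n hn
    have h1 := ih (X × X) (lin r) (lin_smul hr) (lin_det hD) (Arr x) (sArr σ x) (Av x * Au x) hσ
      (Ty.line hr hx) (n + 1) (by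
      have h2 : ∀ l : ℕ, (Av x * Au x) ^ (l + 1) = Av x * x ^ l * Au x := by
        intro l
        induction l with
        | zero => rw [pow_zero, Matrix.mul_one, zero_add, pow_one]
        | succ l ihl =>
          rw [pow_succ, ihl, pow_succ]
          rw [Matrix.mul_assoc, ← Matrix.mul_assoc (Au x), Au_Av, Matrix.mul_assoc,
            Matrix.mul_assoc, Matrix.mul_assoc]
      rw [h2, hn, Matrix.mul_zero, Matrix.zero_mul])
    have h3 := triv_uv _ _ h1
    rwa [Au_Av] at h3

/-- `f 0, …, f m` is the path of a word of length `m` in the arrows of `x` which starts at `j`. -/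
def Wd {X J : Type} [MulAction G X] (σ : J → X) (x : Matrix J J (MonoidAlgebra k G)) :
    ℕ → J → (ℕ → X) → Prop
  | 0, j, f => f 0 = σ j
  | m + 1, j, f => f 0 = σ j ∧ ∃ (j' : J) (g : G), (x j' j).coeff g ≠ 0 ∧
      Wd σ x m j' (fun i => g • f (i + 1))

/-- the path in the original set -/
def low {X : Type} (m : ℕ) (F : ℕ → X × X) (i : ℕ) : X := if i ≤ m then (F i).1 else (F m).2

theorem Wd.low {X J : Type} [MulAction G X] [Fintype J] [DecidableEq J] {σ : J → X}
    {x : Matrix J J (MonoidAlgebra k G)} (m : ℕ) :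
    ∀ (a : Arr x) (F : ℕ → X × X), Wd (sArr σ x) (Av x * Au x) m a F →
      Wd σ x (m + 1) a.1.2.2 (low m F) := by
  induction m with
  | zero =>
    intro a F h
    have h0 : F 0 = sArr σ x a := h
    refine ⟨?_, a.1.1, a.1.2.1.1, a.2, ?_⟩
    · unfold MV.low
      rw [if_pos le_rfl, h0]; rfl
    · change a.1.2.1.1 • MV.low 0 F (0 + 1) = σ a.1.1
      unfold MV.low
      rw [if_neg (by omega), h0]
      change a.1.2.1.1 • (a.1.2.1.1⁻¹ • σ a.1.1) = σ a.1.1
      rw [smul_inv_smul]
  | succ m ih =>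
    intro a F h
    obtain ⟨h0, b, g, hg, hW⟩ := h
    rw [Av_Au_apply] at hg
    by_cases hba : b.1.2.2 = a.1.1
    · rw [if_pos hba, MonoidAlgebra.coeff_single] at hg
      have hga : g = a.1.2.1.1 := by
        by_contra h2
        exact hg (Finsupp.single_eq_of_ne h2)
      have h3 := ih b _ hW
      refine ⟨?_, a.1.1, a.1.2.1.1, a.2, ?_⟩
      · unfold MV.low
        rw [if_pos (by omega), h0]; rfl
      · rw [hba] at h3
        convert h3 using 2 with i
        unfold MV.low
        by_cases hi : i ≤ m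
        · rw [if_pos (by omega), if_pos hi, hga]; rfl
        · rw [if_neg (by omega), if_neg hi, hga]; rfl
    · rw [if_neg hba] at hg
      simp at hg

theorem not_loc (m : ℕ) :
    ∀ (X : Type) [iX : MulAction G X] (J : Type) [iF : Fintype J] [iD : DecidableEq J] (σ : J → X)
    (x : Matrix J J (MonoidAlgebra k G)) (_ : ¬ Loc m X iX J iF iD σ x),
    ∃ (j : J) (f : ℕ → X) (g : G), Wd σ x m j f ∧ g ≠ 1 ∧ ∀ i ≤ m, g • f i = f i := by
  induction m with
  | zero =>
    intro X _ J _ _ σ x h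
    unfold Loc at h
    push Not at h
    obtain ⟨g, j, h1, h2⟩ := h
    exact ⟨j, fun _ => σ j, g, rfl, h2, fun _ _ => h1⟩
  | succ m ih =>
    intro X _ J _ _ σ x h
    obtain ⟨a, F, g, hW, hg, hF⟩ := ih (X × X) (Arr x) (sArr σ x) (Av x * Au x) h
    refine ⟨a.1.2.2, low m F, g, Wd.low m a F hW, hg, ?_⟩
    intro i hi
    unfold low
    by_cases h3 : i ≤ m
    · rw [if_pos h3]
      exact congrArg Prod.fst (hF i h3)
    · rw [if_neg h3]
      exact congrArg Prod.snd (hF m le_rfl)

end loc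

section koenig

variable {k : Type} [Ring k] {G : Type} [Group G] {X J : Type} [MulAction G X]
  {σ : J → X} {x : Matrix J J (MonoidAlgebra k G)}

/-- From `j` there are arbitrarily long words whose paths are fixed by a nontrivial element of `H`. -/
def Lg (σ : J → X) (x : Matrix J J (MonoidAlgebra k G)) (H : Subgroup G) (j : J) : Prop :=
  ∀ m : ℕ, ∃ (f : ℕ → X) (g : G), Wd σ x m j f ∧ g ∈ H ∧ g ≠ 1 ∧ ∀ i ≤ m, g • f i = f i

theorem Wd.initl {m n : ℕ} (hmn : m ≤ n) {j : J} {f : ℕ → X} (h : Wd σ x n j f) :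
    Wd σ x m j f := by
  induction m generalizing n j f with
  | zero =>
    cases n with
    | zero => exact h
    | succ n => exact h.1
  | succ m ih =>
    obtain ⟨n, rfl⟩ : ∃ n', n = n' + 1 := ⟨n - 1, by omega⟩
    obtain ⟨h0, j', g, hg, hW⟩ := h
    exact ⟨h0, j', g, hg, ih (by omega) hW⟩

/-- the next subgroup -/
def nextH (H : Subgroup G) (p : X) (g : G) : Subgroup G :=
  (H ⊓ MulAction.stabilizer G p).map (MulAut.conj g).toMonoidHom

theorem Lg.step [Finite J]
    {H : Subgroup G} {j : J} (h : Lg σ x H j) :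
    ∃ (j' : J) (g : G), (x j' j).coeff g ≠ 0 ∧ Lg σ x (nextH H (σ j) g) j' := by
  classical
  have := Fintype.ofFinite J
  -- the possible first arrows
  let A : Finset (J × G) := (Finset.univ : Finset J).biUnion fun j' =>
    ((x j' j).coeff.support).image fun g => (j', g)
  have hA : ∀ p : J × G, (x p.1 j).coeff p.2 ≠ 0 → p ∈ A := by
    rintro ⟨j', g⟩ hp
    refine Finset.mem_biUnion.2 ⟨j', Finset.mem_univ _, ?_⟩
    exact Finset.mem_image.2 ⟨g, Finsupp.mem_support_iff.2 hp, rfl⟩
  by_contra hcon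
  push Not at hcon
  -- a bound for each arrow
  have hb : ∀ p : J × G, ∃ m : ℕ, (x p.1 j).coeff p.2 ≠ 0 → ∀ (f : ℕ → X) (g : G),
      Wd σ x m p.1 f → g ∈ nextH H (σ j) p.2 → g ≠ 1 → ¬ ∀ i ≤ m, g • f i = f i := by
    intro p
    by_cases hp : (x p.1 j).coeff p.2 ≠ 0
    · have h1 := hcon p.1 p.2 hp
      unfold Lg at h1
      push Not at h1
      obtain ⟨m, hm⟩ := h1
      refine ⟨m, fun _ f g h1 h2 h3 h4 => ?_⟩
      obtain ⟨i, hi, hne⟩ := hm f g h1 h2 h3
      exact hne (h4 i hi)
    · exact ⟨0, fun h => absurd h hp⟩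
  choose b hb using hb
  obtain ⟨f, g, hW, hgH, hg1, hfix⟩ := h (A.sup b + 1)
  obtain ⟨h0, j', g₀, hg₀, hW'⟩ := hW
  have hle : b (j', g₀) ≤ A.sup b := Finset.le_sup (f := b) (hA (j', g₀) hg₀)
  refine hb (j', g₀) hg₀ (fun i => g₀ • f (i + 1)) (g₀ * g * g₀⁻¹) (hW'.initl hle) ?_ ?_ ?_
  · refine ⟨g, ⟨hgH, ?_⟩, rfl⟩
    have := hfix 0 (Nat.zero_le _)
    rw [h0] at this
    exact this
  · intro h2
    apply hg1
    have h3 : g = g₀⁻¹ * (g₀ * g * g₀⁻¹) * g₀ := by group
    rw [h3, h2]; group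
  · intro i hi
    beta_reduce
    rw [mul_smul, mul_smul, inv_smul_smul, hfix (i + 1) (by omega)]

/-- the data of an infinite word -/
structure Nd (σ : J → X) (x : Matrix J J (MonoidAlgebra k G)) where
  /-- the subgroup -/
  H : Subgroup G
  /-- the state -/
  j : J
  /-- the translation to the first coordinate system -/
  t : G
  /-- there are long words -/
  lg : Lg σ x H j

/-- König's lemma. -/
theorem exists_ray [Finite J] (r : X → X → Prop)
    (hr : ∀ (g : G) p q, r p q → r (g • p) (g • q)) (hx : Ty σ σ (fun q p => r p q) x)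
    {j : J} (h : Lg σ x ⊤ j) :
    ∃ f : ℕ → X, f 0 = σ j ∧ (∀ i, r (f i) (f (i + 1))) ∧
      ∀ n, ∃ g : G, g ≠ 1 ∧ ∀ i ≤ n, g • f i = f i := by
  classical
  have hstep : ∀ N : Nd σ x, ∃ N' : Nd σ x, ∃ g : G, (x N'.j N.j).coeff g ≠ 0 ∧
      N'.H = nextH N.H (σ N.j) g ∧ N'.t = N.t * g⁻¹ := by
    intro N
    obtain ⟨j', g, hg, hL⟩ := N.lg.step
    exact ⟨⟨_, j', N.t * g⁻¹, hL⟩, g, hg, rfl, rfl⟩
  choose nx gg hgg hH ht using hstep
  let S : ℕ → Nd σ x := fun n => Nat.rec ⟨⊤, j, 1, h⟩ (fun _ N => nx N) n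
  have hS : ∀ n, S (n + 1) = nx (S n) := fun n => rfl
  have hS0 : S 0 = ⟨⊤, j, 1, h⟩ := rfl
  -- the elements of the subgroups fix the initial segments
  have hfix : ∀ n, ∀ u ∈ (S n).H, ∀ i < n, ((S n).t * u * ((S n).t)⁻¹) • ((S i).t • σ (S i).j) =
      (S i).t • σ (S i).j := by
    intro n
    induction n with
    | zero => intro u _ i hi; omega
    | succ n ih =>
      intro u hu i hi
      rw [hS, hH] at hu
      obtain ⟨v, ⟨hv1, hv2⟩, hvu⟩ := hu
      have hvu' : u = gg (S n) * v * (gg (S n))⁻¹ := hvu.symm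
      have hconj : (S (n + 1)).t * u * ((S (n + 1)).t)⁻¹ = (S n).t * v * ((S n).t)⁻¹ := by
        rw [hS, ht, hvu']
        group
      rw [hconj]
      rcases Nat.lt_succ_iff_lt_or_eq.1 hi with h1 | h1
      · exact ih v hv1 i h1
      · subst h1
        rw [mul_smul, mul_smul, inv_smul_smul]
        have : v • σ (S i).j = σ (S i).j := hv2
        rw [this]
  refine ⟨fun n => (S n).t • σ (S n).j, ?_, ?_, ?_⟩
  · beta_reduce
    rw [hS0, one_smul]
  · intro i
    beta_reduce
    have h1 := hx (S (i + 1)).j (S i).j (gg (S i)) (by rw [hS]; exact hgg (S i))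
    have h2 := hr (S i).t _ _ h1
    rw [← mul_smul] at h2
    have h3 : (S (i + 1)).t = (S i).t * (gg (S i))⁻¹ := by rw [hS, ht]
    rw [h3]
    exact h2
  · intro n
    obtain ⟨f, g, hW, hgH, hg1, hf⟩ := (S n).lg 0
    have hW' : f 0 = σ (S n).j := hW
    refine ⟨(S n).t * g * ((S n).t)⁻¹, ?_, ?_⟩
    · intro h2
      apply hg1
      have h3 : g = ((S n).t)⁻¹ * ((S n).t * g * ((S n).t)⁻¹) * (S n).t := by group
      rw [h3, h2]; group
    · intro i hi
      beta_reduce
      rcases Nat.lt_or_ge i n with h1 | h1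
      · exact hfix n g hgH i h1
      · have : i = n := by omega
        subst this
        have h4 := hf 0 le_rfl
        rw [hW'] at h4
        rw [mul_smul, mul_smul, inv_smul_smul, h4]

theorem exists_loc [Fintype J] [DecidableEq J] (r : X → X → Prop)
    (hr : ∀ (g : G) p q, r p q → r (g • p) (g • q)) (hx : Ty σ σ (fun q p => r p q) x)
    (hray : ∀ f : ℕ → X, (∀ i, r (f i) (f (i + 1))) →
      ∃ n, ∀ g : G, (∀ i ≤ n, g • f i = f i) → g = 1) :
    ∃ m, Loc m X inferInstance J inferInstance inferInstance σ x := by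
  classical
  by_contra hcon
  push Not at hcon
  have h1 := fun m => not_loc m X J σ x (hcon m)
  -- one state for infinitely many lengths
  have h2 : ∃ j, Lg σ x ⊤ j := by
    by_contra hno
    unfold Lg at hno
    push Not at hno
    choose b hb using hno
    obtain ⟨j, f, g, hW, hg, hf⟩ := h1 (Finset.univ.sup b)
    have hle : b j ≤ Finset.univ.sup b := Finset.le_sup (f := b) (Finset.mem_univ j)
    obtain ⟨i, hi, hne⟩ := hb j f g (hW.initl hle) (Subgroup.mem_top _) hg
    exact hne (hf i (hi.trans hle))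
  obtain ⟨j, hj⟩ := h2
  obtain ⟨f, _, hf, hfix⟩ := exists_ray r hr hx hj
  obtain ⟨n, hn⟩ := hray f hf
  obtain ⟨g, hg, hgf⟩ := hfix n
  exact hg (hn g hgf)

end koenig

section tree

variable {k : Type} [CommRing k] {G V : Type} [Group G] [MulAction G V] {T : SimpleGraph V}
  {J : Type} [Fintype J] [DecidableEq J] {σ : J → V × V} [IsDomain k] [IsPrincipalIdealRing k]

/-- Invertible matrices `1 + x` with a located matrix `x` over a tree have the trivial class, if each
ray of the tree has a finite part with trivial pointwise stabiliser. -/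
theorem triv_of_ray (U : Subgroup (MonoidAlgebra k G)ˣ) (hT : T.IsTree)
    (hact : ∀ (g : G) (v w : V), T.Adj v w → T.Adj (g • v) (g • w))
    (hm : ∀ p : ℕ → V, (∀ i, T.Adj (p i) (p (i + 1))) → (∀ i, p (i + 2) ≠ p i) →
      ∃ n, ∀ g : G, (∀ i ≤ n, g • p i = p i) → g = 1)
    {x y : Matrix J J (MonoidAlgebra k G)} (hx : Ty σ σ (fun q p => nb T p q) x)
    (h2 : y * (1 + x) = 1) : Triv U (1 + x) := by
  obtain ⟨n, hn⟩ := nilp_of_unit hT hact hx h2
  obtain ⟨m, hL⟩ := exists_loc (σ := σ) (x := x) (nb T) (fun g p q h => nb_smul hact g p q h) hx (by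
    intro f hf
    obtain ⟨n, hn⟩ := hm (fun i => (f i).1) (fun i => by
      beta_reduce
      rw [(hf i).2.2.1]; exact (hf i).1) (fun i => by
      beta_reduce
      rw [(hf (i + 1)).2.2.1]; exact (hf i).2.2.2)
    exact ⟨n, fun g hg => hn g (fun i hi => congrArg Prod.fst (hg i hi))⟩)
  exact nil_loc U m (V × V) (nb T) (fun g p q h => nb_smul hact g p q h)
    (fun n p q hp hq h0 hn => nb_det hT n p q hp hq h0 hn) J σ x hL hx n hn

end tree

end Pool.Agent.H1.MV
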