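import Pool.Agent.H1.MV.Filt
import Pool.Agent.H1.MV.NilR

set_option autoImplicit false
set_option linter.unusedSectionVars false
set_option linter.unusedSimpArgs false
set_option linter.unusedTactic false

/-!
# Nilpotent located matrices: a condition on the stabilisers of the rays
-/

namespace Pool.Agent.H1.MV

open Matrix TH57.Thr Pool.Agent.K4H37.MT

section cls

variable {k : Type} [Ring k] {G : Type} [Group G]

/-- a class of subgroups closed under subgroups and conjugation -/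
structure Cls (𝒩 : Subgroup G → Prop) : Prop where
  anti : ∀ H K : Subgroup G, H ≤ K → 𝒩 K → 𝒩 H
  conj : ∀ (H : Subgroup G) (g : G), 𝒩 (H.map (MulAut.conj g).toMonoidHom) → 𝒩 H

/-- After `m` passages to the line graph the stabilisers of the locations are in the class. -/
def LocN (𝒩 : Subgroup G → Prop) : ∀ (_ : ℕ) (X : Type) (_ : MulAction G X) (J : Type)
    (_ : Fintype J) (_ : DecidableEq J) (_ : J → X) (_ : Matrix J J (MonoidAlgebra k G)), Prop
  | 0, _, _, J, _, _, σ, _ => ∀ j : J, 𝒩 (MulAction.stabilizer G (σ j))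
  | m + 1, X, _, _, _, _, σ, x => LocN 𝒩 m (X × X) inferInstance (Arr x) inferInstance
      inferInstance (sArr σ x) (Av x * Au x)

theorem Cls.rep {𝒩 : Subgroup G → Prop} (hC : Cls 𝒩) {X : Type} [MulAction G X] {y : X}
    (h : 𝒩 (MulAction.stabilizer G y)) : 𝒩 (MulAction.stabilizer G (MV.rep G y)) := by
  obtain ⟨g, hg⟩ := rep_exists (G := G) y
  apply hC.conj _ g
  refine hC.anti _ _ ?_ h
  rintro u ⟨v, hv, rfl⟩
  change (g * v * g⁻¹) • y = y
  have hv' : v • MV.rep G y = MV.rep G y := hv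
  rw [mul_smul, mul_smul, inv_smul_eq_iff.2 hg.symm, hv', hg]

theorem nil_locN (U : Subgroup (MonoidAlgebra k G)ˣ)
    {𝒩 : Subgroup G → Prop} (hC : Cls 𝒩) (hN : ∀ H, 𝒩 H → Nice (MonoidAlgebra k H)) (m : ℕ) :
    ∀ (X : Type) [iX : MulAction G X] (r : X → X → Prop)
    (_ : ∀ (g : G) p q, r p q → r (g • p) (g • q)) (_ : Det r)
    (J : Type) [iF : Fintype J] [iD : DecidableEq J] (σ : J → X)
    (x : Matrix J J (MonoidAlgebra k G)) (_ : LocN 𝒩 m X iX J iF iD σ x)
    (_ : Ty σ σ (fun q p => r p q) x) (n : ℕ) (_ : x ^ n = 0), Triv U (1 + x) := by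
  induction m with
  | zero =>
    intro X _ r hr hD J _ _ σ x hσ hx n hn
    exact nil_nice U hr hD (fun j => hN _ (hC.rep (hσ j))) hx hn
  | succ m ih =>
    intro X _ r hr hD J _ _ σ x hσ hx n hn
    have h1 := ih (X × X) (lin r) (lin_smul hr) (lin_det hD) (Arr x) (sArr σ x) (Av x * Au x) hσ
      (Ty.line hr hx) (n + 1) (by
      have h2 : ∀ l : ℕ, (Av x * Au x) ^ (l + 1) = Av x * x ^ l * Au x := by
        intro l
        induction l with
        | zero => rw [pow_zero, Matrix.mul_one, zero_add, pow_one]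
        | succ l ihl =>
          rw [pow_succ, ihl, pow_succ]
          rw [Matrix.mul_assoc, ← Matrix.mul_assoc (Au x), Au_Av, Matrix.mul_assoc,
            Matrix.mul_assoc, Matrix.mul_assoc]
      rw [h2, hn, Matrix.mul_zero, Matrix.zero_mul])
    have h3 := triv_uv _ _ h1
    rwa [Au_Av] at h3

/-- the pointwise stabiliser of an initial segment -/
def Fx (G : Type) [Group G] {X : Type} [MulAction G X] (m : ℕ) (f : ℕ → X) : Subgroup G where
  carrier := {g | ∀ i ≤ m, g • f i = f i}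
  mul_mem' := by
    intro a b ha hb i hi
    rw [mul_smul, hb i hi, ha i hi]
  one_mem' := fun i _ => one_smul _ _
  inv_mem' := by
    intro a ha i hi
    rw [inv_smul_eq_iff, ha i hi]

theorem mem_Fx {X : Type} [MulAction G X] {m : ℕ} {f : ℕ → X} {g : G} :
    g ∈ Fx G m f ↔ ∀ i ≤ m, g • f i = f i := Iff.rfl

theorem not_locN {𝒩 : Subgroup G → Prop} (hC : Cls 𝒩) (m : ℕ) :
    ∀ (X : Type) [iX : MulAction G X] (J : Type) [iF : Fintype J] [iD : DecidableEq J] (σ : J → X)
    (x : Matrix J J (MonoidAlgebra k G)) (_ : ¬ LocN 𝒩 m X iX J iF iD σ x),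
    ∃ (j : J) (f : ℕ → X), Wd σ x m j f ∧ ¬ 𝒩 (Fx G m f) := by
  induction m with
  | zero =>
    intro X _ J _ _ σ x h
    unfold LocN at h
    push Not at h
    obtain ⟨j, h2⟩ := h
    refine ⟨j, fun _ => σ j, rfl, fun h3 => h2 (hC.anti _ _ ?_ h3)⟩
    intro g hg i _
    exact hg
  | succ m ih =>
    intro X _ J _ _ σ x h
    obtain ⟨a, F, hW, hF⟩ := ih (X × X) (Arr x) (sArr σ x) (Av x * Au x) h
    refine ⟨a.1.2.2, low m F, Wd.low m a F hW, fun h3 => hF (hC.anti _ _ ?_ h3)⟩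
    intro g hg i hi
    unfold low
    by_cases h3 : i ≤ m
    · rw [if_pos h3]
      exact congrArg Prod.fst (hg i h3)
    · rw [if_neg h3]
      exact congrArg Prod.snd (hg m le_rfl)

end cls

section koenig

variable {k : Type} [Ring k] {G : Type} [Group G] {X J : Type} [MulAction G X]
  {σ : J → X} {x : Matrix J J (MonoidAlgebra k G)} {𝒩 : Subgroup G → Prop}

/-- From `j` there are arbitrarily long words for which the elements of `H` fixing the path do not
form a subgroup of the class. -/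
def LgN (𝒩 : Subgroup G → Prop) (σ : J → X) (x : Matrix J J (MonoidAlgebra k G)) (H : Subgroup G)
    (j : J) : Prop :=
  ∀ m : ℕ, ∃ (f : ℕ → X), Wd σ x m j f ∧ ¬ 𝒩 (H ⊓ Fx G m f)

theorem LgN.step [Finite J] (hC : Cls 𝒩)
    {H : Subgroup G} {j : J} (h : LgN 𝒩 σ x H j) :
    ∃ (j' : J) (g : G), (x j' j).coeff g ≠ 0 ∧ LgN 𝒩 σ x (nextH H (σ j) g) j' := by
  classical
  have := Fintype.ofFinite J
  let A : Finset (J × G) := (Finset.univ : Finset J).biUnion fun j' =>
    ((x j' j).coeff.support).image fun g => (j', g)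
  have hA : ∀ p : J × G, (x p.1 j).coeff p.2 ≠ 0 → p ∈ A := by
    rintro ⟨j', g⟩ hp
    refine Finset.mem_biUnion.2 ⟨j', Finset.mem_univ _, ?_⟩
    exact Finset.mem_image.2 ⟨g, Finsupp.mem_support_iff.2 hp, rfl⟩
  by_contra hcon
  push Not at hcon
  have hb : ∀ p : J × G, ∃ m : ℕ, (x p.1 j).coeff p.2 ≠ 0 → ∀ (f : ℕ → X),
      Wd σ x m p.1 f → 𝒩 (nextH H (σ j) p.2 ⊓ Fx G m f) := by
    intro p
    by_cases hp : (x p.1 j).coeff p.2 ≠ 0
    · have h1 := hcon p.1 p.2 hp
      unfold LgN at h1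
      push Not at h1
      obtain ⟨m, hm⟩ := h1
      exact ⟨m, fun _ f h1 => hm f h1⟩
    · exact ⟨0, fun h => absurd h hp⟩
  choose b hb using hb
  obtain ⟨f, hW, hbad⟩ := h (A.sup b + 1)
  obtain ⟨h0, j', g₀, hg₀, hW'⟩ := hW
  have hle : b (j', g₀) ≤ A.sup b := Finset.le_sup (f := b) (hA (j', g₀) hg₀)
  have h1 := hb (j', g₀) hg₀ (fun i => g₀ • f (i + 1)) (hW'.initl hle)
  apply hbad
  apply hC.conj _ g₀
  refine hC.anti _ _ ?_ h1
  rintro u ⟨v, ⟨hv1, hv2⟩, rfl⟩
  refine ⟨⟨v, ⟨hv1, ?_⟩, rfl⟩, ?_⟩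
  · have h3 := hv2 0 (Nat.zero_le _)
    rw [h0] at h3
    exact h3
  · intro i hi
    have h3 := hv2 (i + 1) (by omega)
    change (g₀ * v * g₀⁻¹) • (g₀ • f (i + 1)) = g₀ • f (i + 1)
    rw [mul_smul, mul_smul, inv_smul_smul, h3]

/-- the data of an infinite word -/
structure NdN (𝒩 : Subgroup G → Prop) (σ : J → X) (x : Matrix J J (MonoidAlgebra k G)) where
  /-- the subgroup -/
  H : Subgroup G
  /-- the state -/
  j : J
  /-- the translation to the first coordinate system -/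
  t : G
  /-- there are long words -/
  lg : LgN 𝒩 σ x H j

/-- König's lemma. -/
theorem exists_rayN [Finite J] (hC : Cls 𝒩) (r : X → X → Prop)
    (hr : ∀ (g : G) p q, r p q → r (g • p) (g • q)) (hx : Ty σ σ (fun q p => r p q) x)
    {j : J} (h : LgN 𝒩 σ x ⊤ j) :
    ∃ f : ℕ → X, f 0 = σ j ∧ (∀ i, r (f i) (f (i + 1))) ∧ ∀ n, ¬ 𝒩 (Fx G n f) := by
  classical
  have hstep : ∀ N : NdN 𝒩 σ x, ∃ N' : NdN 𝒩 σ x, ∃ g : G, (x N'.j N.j).coeff g ≠ 0 ∧
      N'.H = nextH N.H (σ N.j) g ∧ N'.t = N.t * g⁻¹ := by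
    intro N
    obtain ⟨j', g, hg, hL⟩ := N.lg.step hC
    exact ⟨⟨_, j', N.t * g⁻¹, hL⟩, g, hg, rfl, rfl⟩
  choose nx gg hgg hH ht using hstep
  let S : ℕ → NdN 𝒩 σ x := fun n => Nat.rec ⟨⊤, j, 1, h⟩ (fun _ N => nx N) n
  have hS : ∀ n, S (n + 1) = nx (S n) := fun n => rfl
  have hS0 : S 0 = ⟨⊤, j, 1, h⟩ := rfl
  have hfix : ∀ n, ∀ u ∈ (S n).H, ∀ i < n, ((S n).t * u * ((S n).t)⁻¹) • ((S i).t • σ (S i).j) =
      (S i).t • σ (S i).j := by
    intro n
    induction n with
    | zero => intro u _ i hi; omega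
    | succ n ih =>
      intro u hu i hi
      rw [hS, hH] at hu
      obtain ⟨v, ⟨hv1, hv2⟩, hvu⟩ := hu
      have hvu' : u = gg (S n) * v * (gg (S n))⁻¹ := hvu.symm
      have hconj : (S (n + 1)).t * u * ((S (n + 1)).t)⁻¹ = (S n).t * v * ((S n).t)⁻¹ := by
        rw [hS, ht, hvu']
        group
      rw [hconj]
      rcases Nat.lt_succ_iff_lt_or_eq.1 hi with h1 | h1
      · exact ih v hv1 i h1
      · subst h1
        rw [mul_smul, mul_smul, inv_smul_smul]
        have : v • σ (S i).j = σ (S i).j := hv2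
        rw [this]
  refine ⟨fun n => (S n).t • σ (S n).j, ?_, ?_, ?_⟩
  · beta_reduce
    rw [hS0, one_smul]
  · intro i
    beta_reduce
    have h1 := hx (S (i + 1)).j (S i).j (gg (S i)) (by rw [hS]; exact hgg (S i))
    have h2 := hr (S i).t _ _ h1
    rw [← mul_smul] at h2
    have h3 : (S (i + 1)).t = (S i).t * (gg (S i))⁻¹ := by rw [hS, ht]
    rw [h3]
    exact h2
  · intro n hn
    obtain ⟨f, hW, hbad⟩ := (S n).lg 0
    have hW' : f 0 = σ (S n).j := hW
    apply hbad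
    apply hC.conj _ (S n).t
    refine hC.anti _ _ ?_ hn
    rintro u ⟨v, ⟨hv1, hv2⟩, rfl⟩
    intro i hi
    change ((S n).t * v * ((S n).t)⁻¹) • _ = _
    beta_reduce
    rcases Nat.lt_or_ge i n with h1 | h1
    · exact hfix n v hv1 i h1
    · have : i = n := by omega
      subst this
      have h4 := hv2 0 le_rfl
      rw [hW'] at h4
      rw [mul_smul, mul_smul, inv_smul_smul, h4]

theorem exists_locN [Fintype J] [DecidableEq J] (hC : Cls 𝒩) (r : X → X → Prop)
    (hr : ∀ (g : G) p q, r p q → r (g • p) (g • q)) (hx : Ty σ σ (fun q p => r p q) x)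
    (hray : ∀ f : ℕ → X, (∀ i, r (f i) (f (i + 1))) → ∃ n, 𝒩 (Fx G n f)) :
    ∃ m, LocN 𝒩 m X inferInstance J inferInstance inferInstance σ x := by
  classical
  by_contra hcon
  push Not at hcon
  have h1 := fun m => not_locN hC m X J σ x (hcon m)
  have h2 : ∃ j, LgN 𝒩 σ x ⊤ j := by
    by_contra hno
    unfold LgN at hno
    push Not at hno
    choose b hb using hno
    obtain ⟨j, f, hW, hf⟩ := h1 (Finset.univ.sup b)
    have hle : b j ≤ Finset.univ.sup b := Finset.le_sup (f := b) (Finset.mem_univ j)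
    apply hf
    refine hC.anti _ _ ?_ (hb j f (hW.initl hle))
    intro g hg
    exact ⟨Subgroup.mem_top _, fun i hi => hg i (hi.trans hle)⟩
  obtain ⟨j, hj⟩ := h2
  obtain ⟨f, _, hf, hfix⟩ := exists_rayN hC r hr hx hj
  obtain ⟨n, hn⟩ := hray f hf
  exact hfix n hn

end koenig

section tree

variable {k : Type} [Ring k] {G V : Type} [Group G] [MulAction G V] {T : SimpleGraph V}
  {J : Type} [Fintype J] [DecidableEq J] {σ : J → V × V}

/-- Invertible matrices `1 + x` with a located matrix `x` over a tree have the trivial class, if each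
ray of the tree has a finite part whose pointwise stabiliser is in the class. -/
theorem triv_of_rayN (U : Subgroup (MonoidAlgebra k G)ˣ) (hT : T.IsTree)
    (hact : ∀ (g : G) (v w : V), T.Adj v w → T.Adj (g • v) (g • w))
    {𝒩 : Subgroup G → Prop} (hC : Cls 𝒩) (hN : ∀ H, 𝒩 H → Nice (MonoidAlgebra k H))
    (hm : ∀ p : ℕ → V, (∀ i, T.Adj (p i) (p (i + 1))) → (∀ i, p (i + 2) ≠ p i) →
      ∃ n, 𝒩 (Fx G n p))
    {x y : Matrix J J (MonoidAlgebra k G)} (hx : Ty σ σ (fun q p => nb T p q) x)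
    (h2 : y * (1 + x) = 1) : Triv U (1 + x) := by
  obtain ⟨n, hn⟩ := nilp_of_unit hT hact hx h2
  obtain ⟨m, hL⟩ := exists_locN (σ := σ) (x := x) hC (nb T)
    (fun g p q h => nb_smul hact g p q h) hx (by
    intro f hf
    obtain ⟨n, hn⟩ := hm (fun i => (f i).1) (fun i => by
      beta_reduce
      rw [(hf i).2.2.1]; exact (hf i).1) (fun i => by
      beta_reduce
      rw [(hf (i + 1)).2.2.1]; exact (hf i).2.2.2)
    refine ⟨n, hC.anti _ _ ?_ hn⟩
    intro g hg i hi
    exact congrArg Prod.fst (hg i hi))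
  exact nil_locN U hC hN m (V × V) (nb T) (fun g p q h => nb_smul hact g p q h)
    (fun n p q hp hq h0 hn => nb_det hT n p q hp hq h0 hn) J σ x hL hx n hn

end tree

end Pool.Agent.H1.MV
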