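import Pool.Agent.H1.MV.RC
import Pool.Graph.R_seed8.TH57.Thr.KOne

set_option autoImplicit false
set_option linter.unusedSectionVars false
set_option linter.unusedSimpArgs false

/-!
# The boundary map from invertible Laurent matrices to the reduced projective class group
-/

namespace Pool.Agent.H1.MV

open Matrix TH57.Thr

section cf

variable {S : Type} [Ring S]

/-- Laurent polynomials with coefficients in a ring -/
abbrev Lau (S : Type) [Ring S] : Type := MonoidAlgebra S (Multiplicative ℤ)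

/-- coefficients -/
def cf (x : Lau S) (n : ℤ) : S := x.coeff (Multiplicative.ofAdd n)

theorem cf_ext {x y : Lau S} (h : ∀ n, cf x n = cf y n) : x = y := by
  apply MonoidAlgebra.coeff_injective
  ext g
  exact h (Multiplicative.toAdd g)

theorem cf_zero (n : ℤ) : cf (0 : Lau S) n = 0 := by
  unfold cf
  rw [MonoidAlgebra.coeff_zero]; rfl

theorem cf_add (x y : Lau S) (n : ℤ) : cf (x + y) n = cf x n + cf y n := by
  unfold cf
  rw [MonoidAlgebra.coeff_add]; rfl

theorem cf_sub (x y : Lau S) (n : ℤ) : cf (x - y) n = cf x n - cf y n := by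
  unfold cf
  rw [MonoidAlgebra.coeff_sub]; rfl

theorem cf_smul (s : S) (x : Lau S) (n : ℤ) : cf (s • x) n = s * cf x n := by
  unfold cf
  rw [MonoidAlgebra.coeff_smul]; rfl

theorem cf_sum {κ : Type} (t : Finset κ) (f : κ → Lau S) (n : ℤ) :
    cf (∑ i ∈ t, f i) n = ∑ i ∈ t, cf (f i) n := by
  unfold cf
  rw [MonoidAlgebra.coeff_sum, Finsupp.finsetSum_apply]

theorem cf_single (m : ℤ) (s : S) (n : ℤ) :
    cf (MonoidAlgebra.single (Multiplicative.ofAdd m) s) n = if m = n then s else 0 := by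
  unfold cf
  rw [MonoidAlgebra.coeff_single, Finsupp.single_apply]
  rfl

theorem cf_mul_single (x : Lau S) (m : ℤ) (s : S) (n : ℤ) :
    cf (x * MonoidAlgebra.single (Multiplicative.ofAdd m) s) n = cf x (n - m) * s := by
  unfold cf
  rw [MonoidAlgebra.coeff_mul_single_apply]
  rfl

theorem cf_mul_zero {x y : Lau S} {a b : ℤ} (hx : ∀ n < a, cf x n = 0) (hy : ∀ n < b, cf y n = 0) :
    ∀ n < a + b, cf (x * y) n = 0 := by
  classical
  intro n hn
  by_contra h
  have h1 := MonoidAlgebra.support_coeff_mul_subset x y (Finsupp.mem_support_iff.2 h)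
  rw [Finset.mem_mul] at h1
  obtain ⟨p, hp, q, hq, hpq⟩ := h1
  have hp' : cf x (Multiplicative.toAdd p) ≠ 0 := Finsupp.mem_support_iff.1 hp
  have hq' : cf y (Multiplicative.toAdd q) ≠ 0 := Finsupp.mem_support_iff.1 hq
  have h2 : a ≤ Multiplicative.toAdd p := not_lt.1 fun h => hp' (hx _ h)
  have h3 : b ≤ Multiplicative.toAdd q := not_lt.1 fun h => hq' (hy _ h)
  have h4 : Multiplicative.toAdd p + Multiplicative.toAdd q = n := by
    rw [← toAdd_mul, hpq]; rfl
  omega

theorem cf_bounded (x : Lau S) : ∃ m : ℕ, ∀ n < -(m : ℤ), cf x n = 0 := by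
  classical
  refine ⟨(x.coeff.support.image fun g => (-(Multiplicative.toAdd g)).toNat).sup id, ?_⟩
  intro n hn
  by_contra h
  have h1 : Multiplicative.ofAdd n ∈ x.coeff.support := Finsupp.mem_support_iff.2 h
  have h2 : (-n).toNat ≤ (x.coeff.support.image fun g => (-(Multiplicative.toAdd g)).toNat).sup id :=
    Finset.le_sup (f := id) (Finset.mem_image.2 ⟨_, h1, rfl⟩)
  omega

end cf

section lattice

variable {S : Type} [Ring S] {ι : Type} [Fintype ι] [DecidableEq ι]

/-- the lattice of the rows whose entries have the orders at least `a` -/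
def Lt (a : ι → ℤ) : Submodule S (ι → Lau S) where
  carrier := {v | ∀ i n, n < a i → cf (v i) n = 0}
  add_mem' := by
    intro v w hv hw i n hn
    rw [Pi.add_apply, cf_add, hv i n hn, hw i n hn, add_zero]
  zero_mem' := fun i n _ => cf_zero n
  smul_mem' := by
    intro s v hv i n hn
    rw [Pi.smul_apply, cf_smul, hv i n hn, mul_zero]

theorem mem_Lt {a : ι → ℤ} {v : ι → Lau S} : v ∈ Lt a ↔ ∀ i n, n < a i → cf (v i) n = 0 := Iff.rfl

theorem Lt_mono {a b : ι → ℤ} (h : ∀ i, a i ≤ b i) : (Lt b : Submodule S (ι → Lau S)) ≤ Lt a :=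
  fun _ hv i n hn => hv i n (lt_of_lt_of_le hn (h i))

/-- the constant lattice -/
def Lc (S : Type) [Ring S] (ι : Type) (k : ℤ) : Submodule S (ι → Lau S) := Lt fun _ => k

/-- the multiplication of rows by an invertible matrix -/
noncomputable def rm (u : (Matrix ι ι (Lau S))ˣ) : (ι → Lau S) ≃ₗ[S] (ι → Lau S) where
  toFun v := v ᵥ* u.val
  map_add' v w := Matrix.add_vecMul _ _ _
  map_smul' s v := Matrix.smul_vecMul _ _ _
  invFun v := v ᵥ* (u⁻¹).val
  left_inv v := by
    beta_reduce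
    rw [Matrix.vecMul_vecMul, Units.mul_inv, Matrix.vecMul_one]
  right_inv v := by
    beta_reduce
    rw [Matrix.vecMul_vecMul, Units.inv_mul, Matrix.vecMul_one]

theorem rm_apply (u : (Matrix ι ι (Lau S))ˣ) (v : ι → Lau S) : rm u v = v ᵥ* u.val := rfl

theorem map_rm_mul (u w : (Matrix ι ι (Lau S))ˣ) (A : Submodule S (ι → Lau S)) :
    A.map (rm (u * w)).toLinearMap = (A.map (rm u).toLinearMap).map (rm w).toLinearMap := by
  rw [← Submodule.map_comp]
  congr 1
  apply LinearMap.ext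
  intro v
  change v ᵥ* (u * w).val = (v ᵥ* u.val) ᵥ* w.val
  rw [Matrix.vecMul_vecMul]; rfl

theorem mem_map_rm {u : (Matrix ι ι (Lau S))ˣ} {A : Submodule S (ι → Lau S)} {v : ι → Lau S} :
    v ∈ A.map (rm u).toLinearMap ↔ v ᵥ* (u⁻¹).val ∈ A := by
  constructor
  · rintro ⟨w, hw, rfl⟩
    change (w ᵥ* u.val) ᵥ* (u⁻¹).val ∈ A
    rw [Matrix.vecMul_vecMul, Units.mul_inv, Matrix.vecMul_one]
    exact hw
  · intro h
    refine ⟨_, h, ?_⟩
    change (v ᵥ* (u⁻¹).val) ᵥ* u.val = v
    rw [Matrix.vecMul_vecMul, Units.inv_mul, Matrix.vecMul_one]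

/-- the powers of the variable as units -/
noncomputable def tp (k : ℤ) : (Lau S)ˣ where
  val := MonoidAlgebra.single (Multiplicative.ofAdd k) 1
  inv := MonoidAlgebra.single (Multiplicative.ofAdd (-k)) 1
  val_inv := by
    rw [MonoidAlgebra.single_mul_single, ← ofAdd_add, add_neg_cancel, one_mul]; rfl
  inv_val := by
    rw [MonoidAlgebra.single_mul_single, ← ofAdd_add, neg_add_cancel, one_mul]; rfl

theorem tp_comm (k : ℤ) (x : Lau S) :
    (tp k : (Lau S)ˣ).val * x = x * (tp k : (Lau S)ˣ).val := by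
  unfold tp
  change MonoidAlgebra.single _ 1 * x = x * MonoidAlgebra.single _ 1
  apply MonoidAlgebra.coeff_injective
  ext g
  rw [MonoidAlgebra.coeff_mul_single_apply, MonoidAlgebra.coeff_single_mul_apply, one_mul, mul_one,
    mul_comm]

/-- the scalar matrices of the powers of the variable -/
noncomputable def td (ι : Type) [Fintype ι] [DecidableEq ι] (k : ℤ) :
    (Matrix ι ι (Lau S))ˣ where
  val := Matrix.diagonal fun _ => (tp k : (Lau S)ˣ).val
  inv := Matrix.diagonal fun _ => ((tp k : (Lau S)ˣ)⁻¹).val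
  val_inv := by
    rw [Matrix.diagonal_mul_diagonal, Units.mul_inv, Matrix.diagonal_one]
  inv_val := by
    rw [Matrix.diagonal_mul_diagonal, Units.inv_mul, Matrix.diagonal_one]

theorem td_comm (k : ℤ) (u : (Matrix ι ι (Lau S))ˣ) : td ι k * u = u * td ι k := by
  apply Units.ext
  ext1 i j
  have h1 : (td ι k * u).val i j = (tp k : (Lau S)ˣ).val * u.val i j :=
    Matrix.diagonal_mul _ _ _ _
  have h2 : (u * td ι k).val i j = u.val i j * (tp k : (Lau S)ˣ).val :=
    Matrix.mul_diagonal _ _ _ _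
  rw [h1, h2, tp_comm]

theorem map_td (a : ι → ℤ) (k : ℤ) :
    (Lt a : Submodule S (ι → Lau S)).map (rm (td ι k)).toLinearMap = Lt fun i => a i + k := by
  ext v
  rw [mem_map_rm, mem_Lt, mem_Lt]
  have h1 : ∀ i n, cf ((v ᵥ* ((td ι k)⁻¹).val) i) n = cf (v i) (n + k) := by
    intro i n
    have : (v ᵥ* ((td ι k)⁻¹).val) i = v i * MonoidAlgebra.single (Multiplicative.ofAdd (-k)) 1 :=
      Matrix.vecMul_diagonal _ _ _
    rw [this, cf_mul_single, mul_one, sub_neg_eq_add]
  constructor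
  · intro h i n hn
    have := h i (n - k) (by omega)
    rwa [h1, sub_add_cancel] at this
  · intro h i n hn
    rw [h1]
    exact h i (n + k) (by omega)

theorem exists_bd (u : Matrix ι ι (Lau S)) :
    ∃ m : ℕ, ∀ i j n, n < -(m : ℤ) → cf (u i j) n = 0 := by
  choose m hm using fun p : ι × ι => cf_bounded (u p.1 p.2)
  refine ⟨Finset.univ.sup m, fun i j n hn => hm (i, j) n ?_⟩
  have : m (i, j) ≤ Finset.univ.sup m := Finset.le_sup (f := m) (Finset.mem_univ (i, j))
  omega

theorem exists_low (u : (Matrix ι ι (Lau S))ˣ) :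
    ∃ m : ℕ, ∀ k : ℤ, (Lc S ι k).map (rm u).toLinearMap ≤ Lc S ι (k - m) := by
  obtain ⟨m, hm⟩ := exists_bd u.val
  refine ⟨m, fun k => ?_⟩
  rintro _ ⟨v, hv, rfl⟩ j n hn
  have hn' : n < k - m := hn
  change cf (∑ i, v i * u.val i j) n = 0
  rw [cf_sum]
  apply Finset.sum_eq_zero
  intro i _
  exact cf_mul_zero (a := k) (b := -(m : ℤ)) (fun n hn => hv i n hn) (fun n hn => hm i j n hn) n
    (by omega)

/-- the image of the standard lattice -/
noncomputable def Dl (u : (Matrix ι ι (Lau S))ˣ) : Submodule S (ι → Lau S) :=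
  (Lc S ι 0).map (rm u).toLinearMap

theorem Lc_rc_free {a b : ι → ℤ} (h : ∀ i, a i ≤ b i) :
    RC (Lt a : Submodule S (ι → Lau S)) (Lt b) 1 := by
  classical
  let P : Type := (Σ i : ι, Fin (b i - a i).toNat) → S
  let f : (Lt a : Submodule S (ι → Lau S)) →ₗ[S] P :=
    { toFun := fun v p => cf ((v : ι → Lau S) p.1) (a p.1 + (p.2 : ℕ))
      map_add' := by
        intro v w
        funext p
        exact cf_add _ _ _
      map_smul' := by
        intro s v
        funext p
        exact cf_smul _ _ _ }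
  have hf : ∀ v p, f v p = cf ((v : ι → Lau S) p.1) (a p.1 + (p.2 : ℕ)) := fun _ _ => rfl
  have h1 : kz (S := S) P = 1 := by
    rw [kz_one_iff, ← se_free (n := Fintype.card (Σ i : ι, Fin (b i - a i).toNat))]
    exact SE.of_equiv (LinearEquiv.funCongrLeft S S
      (Fintype.equivFin (Σ i : ι, Fin (b i - a i).toNat)).symm)
  refine ⟨Lt_mono h, P, inferInstance, inferInstance, inferInstance, inferInstance, f, ?_, ?_, h1⟩
  · intro p
    let v : ι → Lau S := fun i => ∑ n : Fin (b i - a i).toNat,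
      MonoidAlgebra.single (Multiplicative.ofAdd (a i + (n : ℕ))) (p ⟨i, n⟩)
    have hv : v ∈ (Lt a : Submodule S (ι → Lau S)) := by
      intro i n hn
      change cf (∑ n : Fin (b i - a i).toNat, _) n = 0
      rw [cf_sum]
      apply Finset.sum_eq_zero
      intro m _
      rw [cf_single, if_neg]
      omega
    refine ⟨⟨v, hv⟩, ?_⟩
    funext ⟨i, m⟩
    rw [hf]
    change cf (∑ n : Fin (b i - a i).toNat, _) _ = _
    rw [cf_sum, Finset.sum_eq_single m]
    · rw [cf_single, if_pos rfl]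
    · intro n _ hn
      rw [cf_single, if_neg]
      intro h2
      apply hn
      apply Fin.ext
      have h3 : a i + ((n : ℕ) : ℤ) = a i + ((m : ℕ) : ℤ) := h2
      omega
    · intro h2
      exact absurd (Finset.mem_univ _) h2
  · intro v
    constructor
    · intro h2 i n hn
      rcases lt_or_ge n (a i) with h3 | h3
      · exact v.2 i n h3
      · have h4 : (n - a i).toNat < (b i - a i).toNat := by omega
        have h5 := congrFun h2 ⟨i, ⟨(n - a i).toNat, h4⟩⟩
        rw [hf] at h5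
        have h6 : a i + (((n - a i).toNat : ℕ) : ℤ) = n := by omega
        change cf ((v : ι → Lau S) i) (a i + (((n - a i).toNat : ℕ) : ℤ)) = 0 at h5
        rwa [h6] at h5
    · intro h2
      funext ⟨i, m⟩
      rw [hf]
      apply h2 i
      have := m.2
      change a i + ((m : ℕ) : ℤ) < b i
      omega

theorem Lc_rc {k l : ℤ} (h : k ≤ l) : RC (Lc S ι k) (Lc S ι l) 1 := Lc_rc_free fun _ => h

/-- the truncation -/
noncomputable def trn (S : Type) [Ring S] (ι : Type) : (ι → Lau S) →ₗ[S] (ι → Lau S) where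
  toFun v i := MonoidAlgebra.ofCoeff ((v i).coeff.filter fun g => 0 ≤ Multiplicative.toAdd g)
  map_add' v w := by
    funext i
    apply MonoidAlgebra.coeff_injective
    rw [MonoidAlgebra.coeff_ofCoeff, Pi.add_apply, MonoidAlgebra.coeff_add, Finsupp.filter_add]
    rfl
  map_smul' s v := by
    funext i
    apply MonoidAlgebra.coeff_injective
    rw [MonoidAlgebra.coeff_ofCoeff, Pi.smul_apply, MonoidAlgebra.coeff_smul, Finsupp.filter_smul]
    rfl

theorem trn_cf (v : ι → Lau S) (i : ι) (n : ℤ) :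
    cf (trn S ι v i) n = if 0 ≤ n then cf (v i) n else 0 := by
  unfold cf trn
  change (MonoidAlgebra.ofCoeff _ : Lau S).coeff _ = _
  rw [MonoidAlgebra.coeff_ofCoeff, Finsupp.filter_apply]
  rfl

theorem trn_mem (v : ι → Lau S) : trn S ι v ∈ Lc S ι 0 := by
  intro i n hn
  rw [trn_cf, if_neg (not_le.2 hn)]

theorem trn_eq {v : ι → Lau S} (hv : v ∈ Lc S ι 0) : trn S ι v = v := by
  funext i
  apply cf_ext
  intro n
  rw [trn_cf]
  split
  · rfl
  · rename_i h
    exact (hv i n (not_le.1 h)).symm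

/-- the boundary is `x` -/
def Bd (u : (Matrix ι ι (Lau S))ˣ) (x : KZ S) : Prop :=
  ∃ k₀ : ℤ, ∀ k, k₀ ≤ k → RC (Dl u) (Lc S ι k) x

theorem Bd.unique {u : (Matrix ι ι (Lau S))ˣ} {x y : KZ S} (h : Bd u x) (h' : Bd u y) : x = y := by
  obtain ⟨k, hk⟩ := h
  obtain ⟨l, hl⟩ := h'
  exact (hk (max k l) (le_max_left _ _)).unique (hl (max k l) (le_max_right _ _))

theorem Bd.of_one {u : (Matrix ι ι (Lau S))ˣ} {x : KZ S} {k : ℤ} (h : RC (Dl u) (Lc S ι k) x) :
    Bd u x := by
  refine ⟨k, fun l hl => ?_⟩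
  have := h.chain (Lc_rc hl)
  rwa [mul_one] at this

theorem Bd.exists (u : (Matrix ι ι (Lau S))ˣ) : ∃ x, Bd u x := by
  obtain ⟨m, hm⟩ := exists_low u
  obtain ⟨m', hm'⟩ := exists_low u⁻¹
  -- the lattice between the standard ones
  have h1 : Dl u ≤ Lc S ι (-(m : ℤ)) := by
    have := hm 0
    rwa [zero_sub] at this
  have h2 : Lc S ι (m' : ℤ) ≤ Dl u := by
    intro v hv
    unfold Dl
    rw [mem_map_rm]
    have := hm' m' (Submodule.mem_map_of_mem hv)
    rwa [sub_self] at this
  let e : (ι → Lau S) →ₗ[S] (ι → Lau S) :=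
    (rm u).toLinearMap ∘ₗ trn S ι ∘ₗ (rm u).symm.toLinearMap
  have he : ∀ v, e v = rm u (trn S ι ((rm u).symm v)) := fun _ => rfl
  obtain ⟨y, hy⟩ := RC.retract (A := Dl u) (A' := Lc S ι (-(m : ℤ))) (B := Lc S ι (m' : ℤ))
    (Lc_rc (by omega)) h2 h1 e (by
      intro a _
      rw [he]
      exact Submodule.mem_map_of_mem (trn_mem _)) (by
      rintro _ ⟨w, hw, rfl⟩
      rw [he]
      change rm u (trn S ι ((rm u).symm (rm u w))) = _
      rw [LinearEquiv.symm_apply_apply, trn_eq hw]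
      rfl)
  exact ⟨y, Bd.of_one hy⟩

theorem Bd.mul {u w : (Matrix ι ι (Lau S))ˣ} {x y : KZ S} (h : Bd u x) (h' : Bd w y) :
    Bd (u * w) (x * y) := by
  obtain ⟨k, hk⟩ := h
  obtain ⟨l, hl⟩ := h'
  have h1 := (hk k le_rfl).map (rm w)
  have h2 := (hl l le_rfl).map (rm (td ι k))
  have e1 : (Dl u).map (rm w).toLinearMap = Dl (u * w) := (map_rm_mul _ _ _).symm
  have e2 : (Dl w).map (rm (td ι k)).toLinearMap = (Lc S ι k).map (rm w).toLinearMap := by
    unfold Dl
    rw [← map_rm_mul, ← td_comm, map_rm_mul]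
    congr 1
    unfold Lc
    rw [map_td]
    simp
  have e3 : (Lc S ι l).map (rm (td ι k)).toLinearMap = Lc S ι (l + k) := by
    unfold Lc
    rw [map_td]
  rw [e1] at h1
  rw [e2, e3] at h2
  exact Bd.of_one (h1.chain h2)

theorem Bd.one : Bd (1 : (Matrix ι ι (Lau S))ˣ) (1 : KZ S) := by
  apply Bd.of_one (k := 0)
  have : Dl (1 : (Matrix ι ι (Lau S))ˣ) = Lc S ι 0 := by
    unfold Dl
    ext v
    rw [mem_map_rm, inv_one, Units.val_one, Matrix.vecMul_one]
  rw [this]
  exact Lc_rc le_rfl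

/-- the boundary map -/
noncomputable def bd (S : Type) [Ring S] (ι : Type) [Fintype ι] [DecidableEq ι] :
    (Matrix ι ι (Lau S))ˣ →* KZ S where
  toFun u := (Bd.exists u).choose
  map_one' := (Bd.exists _).choose_spec.unique Bd.one
  map_mul' u w := (Bd.exists _).choose_spec.unique
    ((Bd.exists u).choose_spec.mul (Bd.exists w).choose_spec)

theorem bd_eq {u : (Matrix ι ι (Lau S))ˣ} {x : KZ S} (h : Bd u x) : bd S ι u = x :=
  (Bd.exists u).choose_spec.unique h

end lattice

end Pool.Agent.H1.MV
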