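import Pool.Agent.H1.MV.Bd
import Pool.Agent.H1.MV.VC

set_option autoImplicit false
set_option linter.unusedSectionVars false
set_option linter.unusedSimpArgs false

/-!
# Values of the boundary map
-/

namespace Pool.Agent.H1.MV

open Matrix TH57.Thr

section pencil

variable {S : Type} [Ring S] {ι : Type} [Fintype ι] [DecidableEq ι]

/-- the coefficients of a row -/
def cv (v : ι → Lau S) (n : ℤ) : ι → S := fun i => cf (v i) n

/-- the pencil `1 - p + t ^ n p` -/
noncomputable def Pz (n : ℤ) (p : Matrix ι ι S) : Matrix ι ι (Lau S) :=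
  Matrix.of fun i j => MonoidAlgebra.single (Multiplicative.ofAdd 0) ((1 - p) i j) +
    MonoidAlgebra.single (Multiplicative.ofAdd n) (p i j)

theorem cv_Pz (v : ι → Lau S) (n : ℤ) (p : Matrix ι ι S) (l : ℤ) :
    cv (v ᵥ* Pz n p) l = (cv v l) ᵥ* (1 - p) + (cv v (l - n)) ᵥ* p := by
  funext j
  change cf (∑ i, v i * Pz n p i j) l = ∑ i, cf (v i) l * (1 - p) i j + ∑ i, cf (v i) (l - n) * p i j
  rw [cf_sum, ← Finset.sum_add_distrib]
  apply Finset.sum_congr rfl
  intro i _
  unfold Pz
  rw [Matrix.of_apply, mul_add, cf_add, cf_mul_single, cf_mul_single, sub_zero]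

theorem cv_ext {v w : ι → Lau S} (h : ∀ n, cv v n = cv w n) : v = w := by
  funext i
  apply cf_ext
  intro n
  exact congrFun (h n) i

theorem Pz_mul {p : Matrix ι ι S} (hp : p * p = p) (m n : ℤ) : Pz m p * Pz n p = Pz (m + n) p := by
  have h0 : (1 - p) * (1 - p) = 1 - p := one_sub_idem hp
  have h1 : p * (1 - p) = 0 := by rw [Matrix.mul_sub, Matrix.mul_one, hp, sub_self]
  have h2 : (1 - p) * p = 0 := by rw [Matrix.sub_mul, Matrix.one_mul, hp, sub_self]
  apply Matrix.ext_of_single_vecMul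
  intro i
  rw [← Matrix.vecMul_vecMul]
  apply cv_ext
  intro l
  rw [cv_Pz, cv_Pz, cv_Pz, cv_Pz, Matrix.add_vecMul, Matrix.add_vecMul, Matrix.vecMul_vecMul,
    Matrix.vecMul_vecMul, Matrix.vecMul_vecMul, Matrix.vecMul_vecMul, h0, h1, h2, hp,
    Matrix.vecMul_zero, Matrix.vecMul_zero, add_zero, zero_add, sub_sub, add_comm n m]

theorem Pz_zero (p : Matrix ι ι S) : Pz 0 p = 1 := by
  ext1 i j
  unfold Pz
  rw [Matrix.of_apply, ← MonoidAlgebra.single_add, Matrix.sub_apply, sub_add_cancel]
  by_cases h : i = j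
  · subst h
    rw [Matrix.one_apply_eq, Matrix.one_apply_eq]; rfl
  · rw [Matrix.one_apply_ne h, Matrix.one_apply_ne h, MonoidAlgebra.single_zero]

/-- the pencil as a unit -/
noncomputable def Pu {p : Matrix ι ι S} (hp : p * p = p) : (Matrix ι ι (Lau S))ˣ where
  val := Pz 1 p
  inv := Pz (-1) p
  val_inv := by rw [Pz_mul hp, add_neg_cancel, Pz_zero]
  inv_val := by rw [Pz_mul hp, neg_add_cancel, Pz_zero]

theorem bd_Pu {p : Matrix ι ι S} (hp : p * p = p) :
    bd S ι (Pu hp) = @kz S _ (Mo (1 - p)) _ _ (mo_finite _) (mo_projective (one_sub_idem hp)) := by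
  have hfin := mo_finite (1 - p)
  have hproj := mo_projective (one_sub_idem hp)
  apply bd_eq
  apply Bd.of_one (k := 1)
  have hD : ∀ v : ι → Lau S, v ∈ Dl (Pu hp) → v ∈ Lc S ι 0 ∧ cv v 0 ∈ Mo (1 - p) := by
    rintro _ ⟨w, hw, rfl⟩
    have hw' : ∀ n < 0, cv w n = 0 := fun n hn => funext fun i => hw i n hn
    have h1 : ∀ l, cv (w ᵥ* (Pu hp).val) l = (cv w l) ᵥ* (1 - p) + (cv w (l - 1)) ᵥ* p :=
      fun l => cv_Pz w 1 p l
    constructor
    · intro i n hn
      have hn' : n < 0 := hn
      have h2 := h1 n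
      rw [hw' n hn', hw' (n - 1) (by omega), Matrix.zero_vecMul, Matrix.zero_vecMul, add_zero] at h2
      exact congrFun h2 i
    · change cv (w ᵥ* (Pu hp).val) 0 ∈ _
      rw [h1, hw' (0 - 1) (by omega), Matrix.zero_vecMul, add_zero]
      exact ⟨cv w 0, rfl⟩
  let f : Dl (Pu hp) →ₗ[S] Mo (1 - p) :=
    { toFun := fun v => ⟨cv (v : ι → Lau S) 0, (hD v v.2).2⟩
      map_add' := by
        intro v w
        apply Subtype.ext
        funext i
        exact cf_add _ _ _
      map_smul' := by
        intro s v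
        apply Subtype.ext
        funext i
        exact cf_smul _ _ _ }
  refine ⟨?_, Mo (1 - p), inferInstance, inferInstance, hfin, hproj, f, ?_, ?_, rfl⟩
  · intro v hv
    unfold Dl
    rw [mem_map_rm]
    intro i n hn
    have hn' : n < 0 := hn
    have hv' : ∀ n < 1, cv v n = 0 := fun n hn => funext fun i => hv i n hn
    have h1 : cv (v ᵥ* ((Pu hp)⁻¹).val) n = (cv v n) ᵥ* (1 - p) + (cv v (n - -1)) ᵥ* p :=
      cv_Pz v (-1) p n
    rw [hv' n (by omega), hv' (n - -1) (by omega), Matrix.zero_vecMul, Matrix.zero_vecMul,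
      add_zero] at h1
    exact congrFun h1 i
  · rintro ⟨_, ⟨z, rfl⟩⟩
    let w : ι → Lau S := fun i => MonoidAlgebra.single (Multiplicative.ofAdd 0) (z i)
    have hw : ∀ n, cv w n = if n = 0 then z else 0 := by
      intro n
      funext i
      change cf (MonoidAlgebra.single (Multiplicative.ofAdd 0) (z i)) n = _
      rw [cf_single]
      by_cases h : n = 0
      · rw [if_pos h.symm, if_pos h]
      · rw [if_neg (Ne.symm h), if_neg h]; rfl
    have hmem : w ∈ Lc S ι 0 := by
      intro i n hn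
      have hn' : n < 0 := hn
      have h1 := hw n
      rw [if_neg (by omega)] at h1
      exact congrFun h1 i
    refine ⟨⟨w ᵥ* (Pu hp).val, ⟨w, hmem, rfl⟩⟩, ?_⟩
    apply Subtype.ext
    change cv (w ᵥ* (Pu hp).val) 0 = z ᵥ* (1 - p)
    have h1 : cv (w ᵥ* (Pu hp).val) 0 = (cv w 0) ᵥ* (1 - p) + (cv w (0 - 1)) ᵥ* p := cv_Pz w 1 p 0
    rw [h1, hw, hw, if_pos rfl, if_neg (by omega), Matrix.zero_vecMul, add_zero]
  · intro v
    have h1 : f v = 0 ↔ cv (v : ι → Lau S) 0 = 0 :=
      ⟨fun h => congrArg Subtype.val h, fun h => Subtype.ext h⟩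
    rw [h1]
    constructor
    · intro h i n hn
      have hn' : n < 1 := hn
      rcases lt_or_ge n 0 with h2 | h2
      · exact (hD v v.2).1 i n h2
      · have h3 : n = 0 := by omega
        rw [h3]
        exact congrFun h i
    · intro h
      funext i
      exact h i 0 (by change (0 : ℤ) < 1; omega)

/-- the units of the form `s t ^ n` -/
def VU (S : Type) [Ring S] : Subgroup (Lau S)ˣ where
  carrier := {x | ∃ (n : ℤ) (s : Sˣ), x.val = MonoidAlgebra.single (Multiplicative.ofAdd n) s.val}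
  mul_mem' := by
    rintro x y ⟨n, s, hx⟩ ⟨m, t, hy⟩
    exact ⟨n + m, s * t, by rw [Units.val_mul, hx, hy, MonoidAlgebra.single_mul_single]; rfl⟩
  one_mem' := ⟨0, 1, rfl⟩
  inv_mem' := by
    rintro x ⟨n, s, hx⟩
    refine ⟨-n, s⁻¹, ?_⟩
    apply Units.inv_eq_of_mul_eq_one_left
    rw [hx, MonoidAlgebra.single_mul_single, ← ofAdd_add, neg_add_cancel, Units.inv_mul]
    rfl

theorem bd_dgm (i₀ : ι) {x : (Lau S)ˣ} (hx : x ∈ VU S) : bd S ι (Units.map (dgm i₀) x) = 1 := by
  obtain ⟨n, s, hx⟩ := hx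
  have hx' : (x⁻¹).val = MonoidAlgebra.single (Multiplicative.ofAdd (-n)) (s⁻¹).val := by
    have h1 : x⁻¹ * x = 1 := inv_mul_cancel x
    have h2 : MonoidAlgebra.single (Multiplicative.ofAdd (-n)) (s⁻¹).val * x.val = 1 := by
      rw [hx, MonoidAlgebra.single_mul_single, ← ofAdd_add, neg_add_cancel, Units.inv_mul]
      rfl
    exact Units.inv_eq_of_mul_eq_one_left h2
  let a : ι → ℤ := Function.update 0 i₀ n
  have hD : Dl (Units.map (dgm i₀) x) = Lt a := by
    ext v
    unfold Dl
    rw [mem_map_rm]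
    have h1 : ((Units.map (dgm i₀) x)⁻¹).val = Matrix.diagonal (Function.update 1 i₀ (x⁻¹).val) := by
      rw [← map_inv]; rfl
    rw [h1]
    have h2 : ∀ i, (v ᵥ* Matrix.diagonal (Function.update 1 i₀ (x⁻¹).val)) i =
        v i * (Function.update (1 : ι → Lau S) i₀ (x⁻¹).val) i :=
      fun i => Matrix.vecMul_diagonal _ _ _
    have h3 : ∀ l, cf ((v ᵥ* Matrix.diagonal (Function.update 1 i₀ (x⁻¹).val)) i₀) l =
        cf (v i₀) (l + n) * (s⁻¹).val := by
      intro l
      rw [h2, Function.update_self, hx', cf_mul_single, sub_neg_eq_add]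
    have h4 : ∀ i, i ≠ i₀ → ∀ l, cf ((v ᵥ* Matrix.diagonal (Function.update 1 i₀ (x⁻¹).val)) i) l =
        cf (v i) l := by
      intro i hi l
      rw [h2, Function.update_of_ne hi, Pi.one_apply, mul_one]
    constructor
    · intro h i l hl
      by_cases hi : i = i₀
      · subst hi
        have hl' : l < n := by
          have : a i = n := Function.update_self ..
          rwa [this] at hl
        have h5 := h i (l - n) (by change l - n < 0; omega)
        rw [h3, sub_add_cancel] at h5
        exact (Units.mul_left_eq_zero _).1 h5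
      · have hl' : l < 0 := by
          have : a i = 0 := Function.update_of_ne hi _ _
          rwa [this] at hl
        have h5 := h i l hl'
        rwa [h4 i hi] at h5
    · intro h i l hl
      have hl' : l < 0 := hl
      by_cases hi : i = i₀
      · subst hi
        rw [h3, h i (l + n) (by
          have : a i = n := Function.update_self ..
          rw [this]; omega), zero_mul]
      · rw [h4 i hi]
        apply h i l
        have : a i = 0 := Function.update_of_ne hi _ _
        rwa [this]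
  apply bd_eq
  apply Bd.of_one (k := max 0 n)
  rw [hD]
  apply Lc_rc_free
  intro i
  by_cases hi : i = i₀
  · subst hi
    have : a i = n := Function.update_self ..
    rw [this]
    exact le_max_right _ _
  · have : a i = 0 := Function.update_of_ne hi _ _
    rw [this]
    exact le_max_left _ _

theorem bd_HH {x : (Matrix ι ι (Lau S))ˣ} (hx : x ∈ HH (VU S) ι) : bd S ι x = 1 := by
  have h1 : HH (VU S) ι ≤ (bd S ι).ker := by
    apply sup_le
    · exact Abelianization.commutator_subset_ker _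
    · rw [Subgroup.closure_le]
      rintro _ ⟨i, u, hu, rfl⟩
      exact bd_dgm i hu
  exact h1 hx

/-- **Bass**: if the class of the pencil `1 - p + t p` is trivial, then the projective module of `p`
is stably free. -/
theorem stablyFree_of_pencil {p : Matrix ι ι S} (hp : p * p = p) (h : TT (VU S) (Pu hp)) :
    StablyFree S (Mo p) := by
  obtain ⟨μ, _, _, h⟩ := h
  have h1 := bd_HH h
  have hp' : (fromBlocks p 0 0 0 : Matrix (ι ⊕ μ) (ι ⊕ μ) S) * fromBlocks p 0 0 0 =
      fromBlocks p 0 0 0 := by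
    rw [fromBlocks_multiply, hp]
    simp
  have h2 : Units.map (stm μ) (Pu hp) = Pu hp' := by
    apply Units.ext
    change fromBlocks (Pz 1 p) 0 0 1 = Pz 1 (fromBlocks p 0 0 0)
    ext1 (i | i) (j | j)
    · rw [fromBlocks_apply₁₁]
      unfold Pz
      rw [Matrix.of_apply, Matrix.of_apply, Matrix.sub_apply, Matrix.sub_apply, fromBlocks_apply₁₁]
      congr 3
      by_cases hij : i = j
      · subst hij
        rw [Matrix.one_apply_eq, Matrix.one_apply_eq]
      · rw [Matrix.one_apply_ne hij, Matrix.one_apply_ne (fun h => hij (Sum.inl_injective h))]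
    · simp [Pz]
    · simp [Pz]
    · rw [fromBlocks_apply₂₂]
      by_cases hij : i = j
      · subst hij
        simp [Pz, MonoidAlgebra.one_def]
      · simp [Pz, Matrix.one_apply_ne hij, hij]
  rw [h2, bd_Pu] at h1
  have hfin := mo_finite (1 - (fromBlocks p 0 0 0 : Matrix (ι ⊕ μ) (ι ⊕ μ) S))
  have hproj := mo_projective (one_sub_idem hp')
  rw [kz_one_iff] at h1
  have h3 := stablyFree_compl _ (one_sub_idem hp') h1
  rw [sub_sub_cancel] at h3
  -- the module of the block matrix
  obtain ⟨s, t, ⟨e⟩⟩ := h3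
  have hrow : ∀ v : ι ⊕ μ → S, v ᵥ* (fromBlocks p 0 0 0 : Matrix (ι ⊕ μ) (ι ⊕ μ) S) =
      Sum.elim ((v ∘ Sum.inl) ᵥ* p) 0 := by
    intro v
    rw [Matrix.vecMul_fromBlocks, Matrix.vecMul_zero, Matrix.vecMul_zero, Matrix.vecMul_zero,
      add_zero, add_zero]
  let F : Mo p ≃ₗ[S] Mo (fromBlocks p 0 0 0 : Matrix (ι ⊕ μ) (ι ⊕ μ) S) :=
    { toFun := fun v => ⟨Sum.elim (v : ι → S) 0, by
        obtain ⟨_, ⟨w, rfl⟩⟩ := v
        refine ⟨Sum.elim w 0, ?_⟩
        change Sum.elim w 0 ᵥ* _ = Sum.elim (w ᵥ* p) 0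
        rw [hrow]
        rfl⟩
      map_add' := by
        intro v w
        apply Subtype.ext
        funext i
        rcases i with i | i <;> simp
      map_smul' := by
        intro v w
        apply Subtype.ext
        funext i
        rcases i with i | i <;> simp
      invFun := fun v => ⟨(v : ι ⊕ μ → S) ∘ Sum.inl, by
        obtain ⟨_, ⟨w, rfl⟩⟩ := v
        refine ⟨w ∘ Sum.inl, ?_⟩
        change (w ∘ Sum.inl) ᵥ* p = (w ᵥ* _) ∘ Sum.inl
        rw [hrow]
        rfl⟩
      left_inv := fun v => rfl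
      right_inv := by
        intro v
        obtain ⟨_, ⟨w, rfl⟩⟩ := v
        apply Subtype.ext
        change Sum.elim ((w ᵥ* _) ∘ Sum.inl) 0 = w ᵥ* _
        rw [hrow]
        rfl }
  exact ⟨s, t, ⟨(LinearEquiv.prodCongr F (LinearEquiv.refl S _)).trans e⟩⟩

end pencil

section proj

variable {S : Type} [Ring S]

/-- a finitely generated projective module is the module of an idempotent matrix -/
theorem exists_mo (P : Type) [AddCommGroup P] [Module S P] [Module.Finite S P]
    [Module.Projective S P] : ∃ (n : ℕ) (p : Matrix (Fin n) (Fin n) S), p * p = p ∧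
      Nonempty (P ≃ₗ[S] Mo p) := by
  obtain ⟨n, f, hf⟩ := Module.Finite.exists_fin' S P
  obtain ⟨s, hs⟩ := Module.projective_lifting_property f LinearMap.id hf
  have hs' : ∀ v, f (s v) = v := fun v => LinearMap.congr_fun hs v
  let p := LinearMap.toMatrixRight' (s ∘ₗ f)
  have hp : ∀ v, v ᵥ* p = s (f v) := by
    intro v
    have h1 : Matrix.toLinearMapRight' p = s ∘ₗ f := LinearEquiv.symm_apply_apply _ _
    have h2 := LinearMap.congr_fun h1 v
    rwa [Matrix.toLinearMapRight'_apply] at h2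
  refine ⟨n, p, ?_, ⟨?_⟩⟩
  · apply Matrix.ext_of_single_vecMul
    intro i
    rw [← Matrix.vecMul_vecMul, hp, hp, hs']
  · refine LinearEquiv.ofBijective (LinearMap.codRestrict (Mo p) s (fun v => ?_)) ⟨?_, ?_⟩
    · refine ⟨s v, ?_⟩
      change s v ᵥ* p = s v
      rw [hp, hs']
    · intro v w h
      have h1 : s v = s w := congrArg Subtype.val h
      rw [← hs' v, h1, hs']
    · rintro ⟨_, ⟨v, rfl⟩⟩
      refine ⟨f v, ?_⟩
      apply Subtype.ext
      change s (f v) = v ᵥ* p
      rw [hp]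

theorem allStablyFree_of_mo (h : ∀ (n : ℕ) (p : Matrix (Fin n) (Fin n) S), p * p = p →
    StablyFree S (Mo p)) : AllStablyFree S := by
  intro P _ _ _ _
  obtain ⟨n, p, hp, ⟨e⟩⟩ := exists_mo (S := S) P
  obtain ⟨s, t, ⟨f⟩⟩ := h n p hp
  exact ⟨s, t, ⟨(LinearEquiv.prodCongr e (LinearEquiv.refl S _)).trans f⟩⟩

end proj

section group

variable {G : Type} [Group G]

/-- the trivial units in the Laurent polynomials over the group ring -/
theorem curry_TU (u : (MonoidAlgebra ℤ (Multiplicative ℤ × G))ˣ) (hu : u ∈ TU (Multiplicative ℤ × G)) :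
    Units.map (MonoidAlgebra.curryRingEquiv (R := ℤ) (M := Multiplicative ℤ)
      (N := G)).toRingHom.toMonoidHom u ∈ VU (MonoidAlgebra ℤ G) := by
  obtain ⟨⟨m, g⟩, ε, hu⟩ := hu
  refine ⟨Multiplicative.toAdd m, ⟨MonoidAlgebra.single g ε, MonoidAlgebra.single g⁻¹ ε⁻¹.val, ?_, ?_⟩, ?_⟩
  · rw [MonoidAlgebra.single_mul_single, mul_inv_cancel, Units.mul_inv]; rfl
  · rw [MonoidAlgebra.single_mul_single, inv_mul_cancel, Units.inv_mul]; rfl
  · change MonoidAlgebra.curryRingEquiv u.val = _
    rw [hu]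
    simp

/-- If the Whitehead group of `ℤ × G` is zero, then all finitely generated projective modules over
the group ring of `G` are stably free. -/
theorem stablyFree_of_wh (h : ∀ (n : ℕ) (A : (Matrix (Fin n) (Fin n)
    (MonoidAlgebra ℤ (Multiplicative ℤ × G)))ˣ), TT (TU (Multiplicative ℤ × G)) A) :
    AllStablyFree (MonoidAlgebra ℤ G) := by
  apply allStablyFree_of_mo
  intro n p hp
  apply stablyFree_of_pencil hp
  let φ := (MonoidAlgebra.curryRingEquiv (R := ℤ) (M := Multiplicative ℤ) (N := G))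
  have h1 := h n (Units.map (mpm φ.symm.toRingHom) (Pu hp))
  have h2 := TT_map (TU (Multiplicative ℤ × G)) (VU (MonoidAlgebra ℤ G)) φ.toRingHom curry_TU _ h1
  convert h2 using 1
  apply Units.ext
  ext1 i j
  change _ = φ (φ.symm ((Pu hp).val i j))
  rw [RingEquiv.apply_symm_apply]

end group

end Pool.Agent.H1.MV
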