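import Pool.Agent.H1.MV.Lin

set_option autoImplicit false
set_option linter.unusedSectionVars false
set_option linter.unusedSimpArgs false

/-!
# Block matrices over the vertex groups
-/

namespace Pool.Agent.H1.MV

open Matrix TH57.Thr Pool.Agent.K4H37.MT

section blk

variable {G V : Type} [Group G] [MulAction G V] [DecidableEq V]

theorem Ty.stab {J K : Type} {ω : J → V} {ω' : K → V} {M : Matrix J K (MonoidAlgebra ℤ G)}
    (h : Ty ω ω' Eq M) (hr : ∀ i, rep G (ω i) = ω i) (hr' : ∀ i, rep G (ω' i) = ω' i) (i : J)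
    (j : K) (g : G)
    (hg : (M i j).coeff g ≠ 0) : ω i = ω' j ∧ g • ω i = ω i := by
  have h1 := h i j g hg
  have h2 := rep_of_smul h1
  rw [hr, hr'] at h2
  refine ⟨h2, ?_⟩
  rw [← h2, inv_smul_eq_iff] at h1
  exact h1.symm

theorem inc_TU (H : Subgroup G) (u : (MonoidAlgebra ℤ H)ˣ) (hu : u ∈ TU H) :
    Units.map (inc ℤ H).toMonoidHom u ∈ TU G := by
  obtain ⟨g, ε, h⟩ := hu
  refine ⟨g, ε, ?_⟩
  change inc ℤ H (u : MonoidAlgebra ℤ H) = _
  rw [h]
  exact MonoidAlgebra.mapDomain_single

theorem tt_any {R : Type} [Ring R] {U : Subgroup Rˣ}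
    (h : ∀ (n : ℕ) (A : (Matrix (Fin n) (Fin n) R)ˣ), TT U A) {κ : Type} [Fintype κ]
    [DecidableEq κ] (A : (Matrix κ κ R)ˣ) : TT U A := by
  have h1 := TT_re U (Fintype.equivFin κ) _ (h _ (Units.map (re (Fintype.equivFin κ).symm) A))
  convert h1 using 1
  apply Units.ext
  ext i j
  simp [TH57.Thr.re]

theorem tt_block (hV : ∀ v : V, ∀ (n : ℕ)
      (A : (Matrix (Fin n) (Fin n) (MonoidAlgebra ℤ (MulAction.stabilizer G v)))ˣ),
      TT (TU (MulAction.stabilizer G v)) A) (n : ℕ) :
    ∀ (μ : Type) [Fintype μ] [DecidableEq μ] (_ : Fintype.card μ = n) (ω : μ → V)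
      (y : (Matrix μ μ (MonoidAlgebra ℤ G))ˣ) (_ : ∀ i, rep G (ω i) = ω i)
      (_ : Ty ω ω Eq y.val) (_ : Ty ω ω Eq (y⁻¹).val), TT (TU G) y := by
  classical
  induction n using Nat.strong_induction_on with
  | _ n ih =>
    intro μ _ _ hn ω y hr h1 h2
    rcases isEmpty_or_nonempty μ with hμ | ⟨⟨i₀⟩⟩
    · have : y = 1 := by
        apply Units.ext
        ext i
        exact hμ.elim i
      rw [this]
      exact TT_one _
    set θ := ω i₀ with hθ
    let e : {i // ω i = θ} ⊕ {i // ¬ ω i = θ} ≃ μ := Equiv.sumCompl _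
    have z12 : ∀ (z : Matrix μ μ (MonoidAlgebra ℤ G)), Ty ω ω Eq z → ∀ i j, ω i ≠ ω j →
        z i j = 0 := by
      intro z hz i j hij
      apply MonoidAlgebra.coeff_injective
      ext g
      by_contra hg
      exact hij (hz.stab hr hr i j g hg).1
    let toA : Matrix μ μ (MonoidAlgebra ℤ G) → Matrix {i // ω i = θ} {i // ω i = θ}
        (MonoidAlgebra ℤ G) := fun z => z.submatrix Subtype.val Subtype.val
    let toD : Matrix μ μ (MonoidAlgebra ℤ G) → Matrix {i // ¬ ω i = θ} {i // ¬ ω i = θ}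
        (MonoidAlgebra ℤ G) := fun z => z.submatrix Subtype.val Subtype.val
    have hform : ∀ (z : Matrix μ μ (MonoidAlgebra ℤ G)), Ty ω ω Eq z →
        z.submatrix e e = fromBlocks (toA z) 0 0 (toD z) := by
      intro z hz
      ext1 (i | i) (j | j)
      · rfl
      · rw [fromBlocks_apply₁₂, Matrix.zero_apply]
        exact z12 z hz _ _ (fun h => j.2 (h.symm.trans i.2))
      · rw [fromBlocks_apply₂₁, Matrix.zero_apply]
        exact z12 z hz _ _ (fun h => i.2 (h.trans j.2))
      · rfl
    have hmul : ∀ (z w : Matrix μ μ (MonoidAlgebra ℤ G)), Ty ω ω Eq z → Ty ω ω Eq w →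
        z * w = 1 → toA z * toA w = 1 ∧ toD z * toD w = 1 := by
      intro z w hz hw hzw
      have h3 : z.submatrix e e * w.submatrix e e = 1 := by
        rw [Matrix.submatrix_mul_equiv, hzw, Matrix.submatrix_one_equiv]
      rw [hform z hz, hform w hw, fromBlocks_multiply, ← fromBlocks_one, fromBlocks_inj] at h3
      obtain ⟨a1, _, _, a4⟩ := h3
      constructor
      · simpa using a1
      · simpa using a4
    obtain ⟨m1, m2⟩ := hmul _ _ h1 h2 (Units.mul_inv y)
    obtain ⟨m3, m4⟩ := hmul _ _ h2 h1 (Units.inv_mul y)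
    let a : (Matrix {i // ω i = θ} {i // ω i = θ} (MonoidAlgebra ℤ G))ˣ :=
      ⟨toA y.val, toA (y⁻¹).val, m1, m3⟩
    let d : (Matrix {i // ¬ ω i = θ} {i // ¬ ω i = θ} (MonoidAlgebra ℤ G))ˣ :=
      ⟨toD y.val, toD (y⁻¹).val, m2, m4⟩
    -- the first block
    have ha : TT (TU G) a := by
      let H := MulAction.stabilizer G θ
      have hsupp : ∀ (z : Matrix μ μ (MonoidAlgebra ℤ G)), Ty ω ω Eq z →
          ((toA z).map (toSub H)).map (inc ℤ H) = toA z := by
        intro z hz
        ext1 i j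
        rw [Matrix.map_apply, Matrix.map_apply]
        apply inc_toSub
        intro g hg
        have := (hz.stab hr hr i.1 j.1 g hg).2
        rw [i.2] at this
        exact this
      have hinj : Function.Injective (fun M : Matrix {i // ω i = θ} {i // ω i = θ}
          (MonoidAlgebra ℤ H) => M.map (inc ℤ H)) := by
        intro M N hMN
        ext1 i j
        exact inc_inj H (congrFun (congrFun hMN i) j)
      have hone : ∀ (z w : Matrix μ μ (MonoidAlgebra ℤ G)), Ty ω ω Eq z → Ty ω ω Eq w →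
          toA z * toA w = 1 → (toA z).map (toSub H) * (toA w).map (toSub H) = 1 := by
        intro z w hz hw hzw
        apply hinj
        beta_reduce
        rw [Matrix.map_mul, hsupp z hz, hsupp w hw, hzw]
        exact (Matrix.map_one _ (map_zero _) (map_one _)).symm
      let a₀ : (Matrix {i // ω i = θ} {i // ω i = θ} (MonoidAlgebra ℤ H))ˣ :=
        ⟨(toA y.val).map (toSub H), (toA (y⁻¹).val).map (toSub H), hone _ _ h1 h2 m1,
          hone _ _ h2 h1 m3⟩
      have h3 := TT_map (TU H) (TU G) (inc ℤ H) (inc_TU H) a₀ (tt_any (hV θ) a₀)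
      convert h3 using 1
      apply Units.ext
      exact (hsupp _ h1).symm
    -- the second block
    have hcard : Fintype.card {i // ¬ ω i = θ} < n := by
      rw [← hn]
      exact Fintype.card_subtype_lt (x := i₀) (by simp [hθ])
    have hd : TT (TU G) d := ih _ hcard {i // ¬ ω i = θ} rfl (fun i => ω i.1) d
      (fun i => hr i.1) (fun i j g hg => h1 i.1 j.1 g hg) (fun i j g hg => h2 i.1 j.1 g hg)
    have h5 : Units.map (re e) y = blockSum a d := by
      apply Units.ext
      exact hform y.val h1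
    have h6 := TT_re (TU G) e.symm _ (TT_blockSum ha hd)
    rw [← h5] at h6
    convert h6 using 1
    apply Units.ext
    ext i j
    simp [TH57.Thr.re]

end blk

end Pool.Agent.H1.MV
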