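import Pool.Agent.H1.MV.NilN

set_option autoImplicit false
set_option linter.unusedSectionVars false
set_option linter.unusedSimpArgs false

/-!
# Regular coherent rings
-/

namespace Pool.Agent.H1.MV

open Matrix

/-- The module `M` has a resolution of length at most `n` by finitely generated projective modules:
`0 → P → R^ι → ⋯ → R^κ → M → 0` with finitely generated free modules except perhaps the last one. -/
def FPD (R : Type) [Ring R] : ∀ (_ : ℕ) (M : Type) [AddCommGroup M] [Module R M], Prop
  | 0, M, _, _ => Module.Finite R M ∧ Module.Projective R M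
  | n + 1, M, _, _ => ∃ (ι : Type) (_ : Fintype ι) (f : (ι → R) →ₗ[R] M),
      Function.Surjective f ∧ FPD R n (LinearMap.ker f)

/-- Every finitely presented (left) module has a finite resolution by finitely generated projective
modules. -/
def RegularCoherent (R : Type) [Ring R] : Prop :=
  ∀ (M : Type) [AddCommGroup M] [Module R M] [Module.FinitePresentation R M], ∃ n, FPD R n M

section fpd

variable {R : Type} [Ring R]

theorem FPD.iso {n : ℕ} : ∀ {M N : Type} [AddCommGroup M] [Module R M] [AddCommGroup N]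
    [Module R N] (_ : M ≃ₗ[R] N) (_ : FPD R n M), FPD R n N := by
  induction n with
  | zero =>
    intro M N _ _ _ _ e h
    have h1 := h.1
    have h2 := h.2
    exact ⟨Module.Finite.equiv e, Module.Projective.of_equiv e⟩
  | succ n ih =>
    intro M N _ _ _ _ e h
    obtain ⟨ι, _, f, hf, hk⟩ := h
    refine ⟨ι, inferInstance, e.toLinearMap ∘ₗ f, e.surjective.comp hf, ?_⟩
    refine ih (LinearEquiv.ofEq _ _ ?_) hk
    ext v
    rw [LinearMap.mem_ker, LinearMap.mem_ker]
    change f v = 0 ↔ e (f v) = 0
    rw [LinearEquiv.map_eq_zero_iff]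

theorem FPD.finite {n : ℕ} {M : Type} [AddCommGroup M] [Module R M] (h : FPD R n M) :
    Module.Finite R M := by
  cases n with
  | zero => exact h.1
  | succ n =>
    obtain ⟨ι, _, f, hf, hk⟩ := h
    exact Module.Finite.of_surjective f hf

theorem FPD.of_summand {M N F : Type} [AddCommGroup M] [Module R M] [AddCommGroup N]
    [Module R N] [AddCommGroup F] [Module R F] [Module.Finite R F] [Module.Projective R F]
    (e : (M × N) ≃ₗ[R] F) : FPD R 0 M := by
  have h1 : Module.Finite R (M × N) := Module.Finite.equiv e.symm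
  have h2 : Module.Projective R (M × N) := Module.Projective.of_equiv e.symm
  refine ⟨Module.Finite.of_surjective (LinearMap.fst R M N) (fun m => ⟨(m, 0), rfl⟩), ?_⟩
  exact Module.Projective.of_split (LinearMap.inl R M N) (LinearMap.fst R M N)
    (LinearMap.fst_comp_inl ..)

/-- a surjection onto a free module splits -/
theorem split_free {E C : Type} [AddCommGroup E] [Module R E] [Fintype C] [DecidableEq C]
    (φ : E →ₗ[R] (C → R)) (hφ : Function.Surjective φ) :
    Nonempty ((LinearMap.ker φ × (C → R)) ≃ₗ[R] E) := by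
  obtain ⟨s, hs⟩ := lift_surj φ hφ LinearMap.id
  have hs' : ∀ v, φ (s v) = v := hs
  let F : (LinearMap.ker φ × (C → R)) →ₗ[R] E :=
    LinearMap.coprod (LinearMap.ker φ).subtype s
  have hF : ∀ z v, F (z, v) = (z : E) + s v := fun z v => by
    change LinearMap.coprod _ _ _ = _
    rw [LinearMap.coprod_apply]; rfl
  refine ⟨LinearEquiv.ofBijective F ⟨?_, ?_⟩⟩
  · rw [← LinearMap.ker_eq_bot, LinearMap.ker_eq_bot']
    rintro ⟨z, v⟩ h
    rw [hF] at h
    have h1 : v = 0 := by
      have h2 := congrArg φ h
      rw [map_add, hs', LinearMap.mem_ker.1 z.2, zero_add, map_zero] at h2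
      exact h2
    rw [h1, map_zero, add_zero] at h
    rw [h1]
    exact Prod.ext (Subtype.ext h) rfl
  · intro e
    refine ⟨(⟨e - s (φ e), ?_⟩, φ e), ?_⟩
    · rw [LinearMap.mem_ker, map_sub, hs', sub_self]
    · rw [hF]
      exact sub_add_cancel _ _

theorem FPD.prod_free {n : ℕ} {M C : Type} [AddCommGroup M] [Module R M] [Fintype C]
    [DecidableEq C] (h : FPD R n M) : FPD R n (M × (C → R)) := by
  cases n with
  | zero =>
    have h1 := h.1
    have h2 := h.2
    exact ⟨inferInstance, inferInstance⟩
  | succ n =>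
    obtain ⟨ι, _, f, hf, hk⟩ := h
    let F : (ι ⊕ C → R) →ₗ[R] (M × (C → R)) := (f ∘ₗ pl R).prod (prr R)
    have hF : ∀ v, F v = (f (v ∘ Sum.inl), v ∘ Sum.inr) := fun v => rfl
    refine ⟨ι ⊕ C, inferInstance, F, ?_, ?_⟩
    · rintro ⟨m, v⟩
      obtain ⟨u, hu⟩ := hf m
      refine ⟨Sum.elim u v, ?_⟩
      rw [hF, Sum.elim_comp_inl, Sum.elim_comp_inr, hu]
    · let E : LinearMap.ker f ≃ₗ[R] LinearMap.ker F :=
        { toFun := fun z => ⟨Sum.elim (z : ι → R) 0, by
            rw [LinearMap.mem_ker, hF, Sum.elim_comp_inl, Sum.elim_comp_inr,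
              LinearMap.mem_ker.1 z.2]; rfl⟩
          map_add' := by
            intro a b
            apply Subtype.ext
            funext i
            rcases i with i | i <;> simp
          map_smul' := by
            intro a b
            apply Subtype.ext
            funext i
            rcases i with i | i <;> simp
          invFun := fun z => ⟨(z : ι ⊕ C → R) ∘ Sum.inl, by
            have h1 := LinearMap.mem_ker.1 z.2
            rw [hF] at h1
            exact congrArg Prod.fst h1⟩
          left_inv := fun z => rfl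
          right_inv := by
            intro z
            apply Subtype.ext
            have h1 := LinearMap.mem_ker.1 z.2
            rw [hF] at h1
            have h2 : (z : ι ⊕ C → R) ∘ Sum.inr = 0 := congrArg Prod.snd h1
            funext i
            rcases i with i | i
            · rfl
            · exact (congrFun h2 i).symm }
      exact FPD.iso E hk

theorem FPD.of_prod_free {n : ℕ} {M C : Type} [AddCommGroup M] [Module R M] [Fintype C]
    [DecidableEq C] (h : FPD R n (M × (C → R))) : FPD R n M := by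
  classical
  cases n with
  | zero =>
    have h1 := h.1
    have h2 := h.2
    exact FPD.of_summand (LinearEquiv.refl R (M × (C → R)))
  | succ n =>
    obtain ⟨ι, _, f, hf, hk⟩ := h
    let g : (ι → R) →ₗ[R] M := LinearMap.fst R M (C → R) ∘ₗ f
    have hg : ∀ v, g v = (f v).1 := fun _ => rfl
    refine ⟨ι, inferInstance, g, ?_, ?_⟩
    · intro m
      obtain ⟨v, hv⟩ := hf (m, 0)
      exact ⟨v, by rw [hg, hv]⟩
    · let ψ : LinearMap.ker g →ₗ[R] (C → R) :=
        LinearMap.snd R M (C → R) ∘ₗ f ∘ₗ (LinearMap.ker g).subtype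
      have hψ : ∀ z, ψ z = (f (z : ι → R)).2 := fun _ => rfl
      have hs : Function.Surjective ψ := by
        intro y
        obtain ⟨v, hv⟩ := hf (0, y)
        refine ⟨⟨v, ?_⟩, ?_⟩
        · rw [LinearMap.mem_ker, hg, hv]
        · rw [hψ]
          change (f v).2 = y
          rw [hv]
      obtain ⟨e⟩ := split_free ψ hs
      let E : LinearMap.ker f ≃ₗ[R] LinearMap.ker ψ :=
        { toFun := fun z => ⟨⟨(z : ι → R), by
              rw [LinearMap.mem_ker, hg, LinearMap.mem_ker.1 z.2]; rfl⟩, by
            rw [LinearMap.mem_ker, hψ]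
            change (f (z : ι → R)).2 = 0
            rw [LinearMap.mem_ker.1 z.2]; rfl⟩
          map_add' := fun a b => rfl
          map_smul' := fun a b => rfl
          invFun := fun z => ⟨((z : LinearMap.ker g) : ι → R), by
            rw [LinearMap.mem_ker]
            have h1 := LinearMap.mem_ker.1 z.2
            have h2 := LinearMap.mem_ker.1 (z : LinearMap.ker g).2
            exact Prod.ext h2 h1⟩
          left_inv := fun z => rfl
          right_inv := fun z => rfl }
      exact FPD.iso e (FPD.iso (N := LinearMap.ker ψ) E hk).prod_free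

/-- **Schanuel's lemma** -/
theorem FPD.schanuel {n : ℕ} {M C : Type} [AddCommGroup M] [Module R M] [Fintype C]
    (h : FPD R (n + 1) M) (g : (C → R) →ₗ[R] M) (hg : Function.Surjective g) :
    FPD R n (LinearMap.ker g) := by
  classical
  obtain ⟨ι, _, f, hf, hk⟩ := h
  let E : Submodule R ((ι → R) × (C → R)) := LinearMap.ker
    (f ∘ₗ LinearMap.fst R (ι → R) (C → R) - g ∘ₗ LinearMap.snd R (ι → R) (C → R))
  have hE : ∀ p, p ∈ E ↔ f p.1 = g p.2 := by
    intro p
    change f p.1 - g p.2 = 0 ↔ _
    exact sub_eq_zero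
  let φ₁ : E →ₗ[R] (C → R) := LinearMap.snd R (ι → R) (C → R) ∘ₗ E.subtype
  let φ₂ : E →ₗ[R] (ι → R) := LinearMap.fst R (ι → R) (C → R) ∘ₗ E.subtype
  have h1 : Function.Surjective φ₁ := by
    intro v
    obtain ⟨u, hu⟩ := hf (g v)
    exact ⟨⟨(u, v), (hE _).2 hu⟩, rfl⟩
  have h2 : Function.Surjective φ₂ := by
    intro v
    obtain ⟨u, hu⟩ := hg (f v)
    exact ⟨⟨(v, u), (hE _).2 hu.symm⟩, rfl⟩
  obtain ⟨e₁⟩ := split_free φ₁ h1
  obtain ⟨e₂⟩ := split_free φ₂ h2
  let E₁ : LinearMap.ker f ≃ₗ[R] LinearMap.ker φ₁ :=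
    { toFun := fun z => ⟨⟨((z : ι → R), 0), (hE _).2 (by
        change f (z : ι → R) = g 0
        rw [LinearMap.mem_ker.1 z.2, map_zero])⟩, rfl⟩
      map_add' := by
        intro a b
        apply Subtype.ext
        apply Subtype.ext
        exact Prod.ext rfl (add_zero _).symm
      map_smul' := by
        intro a b
        apply Subtype.ext
        apply Subtype.ext
        exact Prod.ext rfl (smul_zero _).symm
      invFun := fun z => ⟨((z : E) : (ι → R) × (C → R)).1, by
        rw [LinearMap.mem_ker, (hE _).1 (z : E).2]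
        have h3 : ((z : E) : (ι → R) × (C → R)).2 = 0 := LinearMap.mem_ker.1 z.2
        rw [h3, map_zero]⟩
      left_inv := fun z => rfl
      right_inv := by
        intro z
        apply Subtype.ext
        apply Subtype.ext
        exact Prod.ext rfl (LinearMap.mem_ker.1 z.2).symm }
  let E₂ : LinearMap.ker φ₂ ≃ₗ[R] LinearMap.ker g :=
    { toFun := fun z => ⟨((z : E) : (ι → R) × (C → R)).2, by
        rw [LinearMap.mem_ker, ← (hE _).1 (z : E).2]
        have h3 : ((z : E) : (ι → R) × (C → R)).1 = 0 := LinearMap.mem_ker.1 z.2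
        rw [h3, map_zero]⟩
      map_add' := fun a b => rfl
      map_smul' := fun a b => rfl
      invFun := fun z => ⟨⟨(0, (z : C → R)), (hE _).2 (by
        change f 0 = g (z : C → R)
        rw [LinearMap.mem_ker.1 z.2, map_zero])⟩, rfl⟩
      left_inv := by
        intro z
        apply Subtype.ext
        apply Subtype.ext
        exact Prod.ext (LinearMap.mem_ker.1 z.2).symm rfl
      right_inv := fun z => rfl }
  have h3 : FPD R n E := FPD.iso e₁ (FPD.iso (N := LinearMap.ker φ₁) E₁ hk).prod_free
  exact FPD.iso E₂ (FPD.of_prod_free (FPD.iso (N := LinearMap.ker φ₂ × (ι → R)) e₂.symm h3))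

theorem FPD.mono_succ {n : ℕ} : ∀ {M : Type} [AddCommGroup M] [Module R M]
    (_ : FPD R n M), FPD R (n + 1) M := by
  classical
  induction n with
  | zero =>
    intro M _ _ h
    have h1 := h.1
    have h2 := h.2
    obtain ⟨m, f, hf⟩ := Module.Finite.exists_fin' R M
    obtain ⟨s, hs⟩ := Module.projective_lifting_property f LinearMap.id hf
    have hs' : ∀ v, f (s v) = v := fun v => LinearMap.congr_fun hs v
    refine ⟨Fin m, inferInstance, f, hf, ?_⟩
    let F : (LinearMap.ker f × M) →ₗ[R] (Fin m → R) :=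
      LinearMap.coprod (LinearMap.ker f).subtype s
    have hF : ∀ z v, F (z, v) = (z : Fin m → R) + s v := fun z v => by
      change LinearMap.coprod _ _ _ = _
      rw [LinearMap.coprod_apply]; rfl
    refine FPD.of_summand (LinearEquiv.ofBijective F ⟨?_, ?_⟩)
    · rw [← LinearMap.ker_eq_bot, LinearMap.ker_eq_bot']
      rintro ⟨z, v⟩ h
      rw [hF] at h
      have h1 : v = 0 := by
        have h2 := congrArg f h
        rw [map_add, hs', LinearMap.mem_ker.1 z.2, zero_add, map_zero] at h2
        exact h2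
      rw [h1, map_zero, add_zero] at h
      rw [h1]
      exact Prod.ext (Subtype.ext h) rfl
    · intro e
      refine ⟨(⟨e - s (f e), ?_⟩, f e), ?_⟩
      · rw [LinearMap.mem_ker, map_sub, hs', sub_self]
      · rw [hF]
        exact sub_add_cancel _ _
  | succ n ih =>
    intro M _ _ h
    obtain ⟨ι, _, f, hf, hk⟩ := h
    exact ⟨ι, inferInstance, f, hf, ih hk⟩

end fpd

section conv

variable {A : Type} [Ring A]

theorem HR.fpd {d : ℕ} : ∀ {C D : Type} [Fintype C] {M : Matrix C D A} (_ : HR A d C D M),
    FPD A d (LinearMap.range M.vecMulLinear) := by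
  classical
  induction d with
  | zero =>
    intro C D _ M H
    obtain ⟨E, hE, h⟩ := H
    have hEM : ∀ u : C → A, (u ᵥ* E) ᵥ* M = 0 := fun u => (h _).2 (by
      rw [Matrix.vecMul_vecMul, hE])
    let F : (C → A) →ₗ[A] (LinearMap.range M.vecMulLinear × LinearMap.range E.vecMulLinear) :=
      M.vecMulLinear.rangeRestrict.prod E.vecMulLinear.rangeRestrict
    have hF1 : ∀ v, ((F v).1 : D → A) = v ᵥ* M := fun _ => rfl
    have hF2 : ∀ v, ((F v).2 : C → A) = v ᵥ* E := fun _ => rfl
    have hinj : Function.Injective F := by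
      rw [← LinearMap.ker_eq_bot, LinearMap.ker_eq_bot']
      intro v hv
      have h1 : v ᵥ* M = 0 := by rw [← hF1, hv]; rfl
      have h2 : v ᵥ* E = 0 := by rw [← hF2, hv]; rfl
      rw [← (h v).1 h1, h2]
    have hsurj : Function.Surjective F := by
      rintro ⟨⟨_, ⟨v, rfl⟩⟩, ⟨_, ⟨u, rfl⟩⟩⟩
      refine ⟨v - v ᵥ* E + u ᵥ* E, ?_⟩
      apply Prod.ext
      · apply Subtype.ext
        rw [hF1, Matrix.add_vecMul, Matrix.sub_vecMul, hEM, hEM, sub_zero, add_zero]
        rfl
      · apply Subtype.ext
        rw [hF2, Matrix.add_vecMul, Matrix.sub_vecMul, Matrix.vecMul_vecMul, Matrix.vecMul_vecMul,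
          hE, sub_self, zero_add]
        rfl
    exact FPD.of_summand (LinearEquiv.ofBijective F ⟨hinj, hsurj⟩).symm
  | succ d ih =>
    intro C D _ M H
    obtain ⟨B, _, N, hN, hN'⟩ := H
    refine ⟨C, inferInstance, M.vecMulLinear.rangeRestrict,
      LinearMap.surjective_rangeRestrict _, ?_⟩
    refine FPD.iso (LinearEquiv.ofEq _ _ ?_) (ih hN')
    ext v
    rw [LinearMap.mem_ker]
    have h1 : M.vecMulLinear.rangeRestrict v = 0 ↔ v ᵥ* M = 0 :=
      ⟨fun h => congrArg Subtype.val h, fun h => Subtype.ext h⟩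
    rw [h1, hN]
    exact ⟨fun ⟨u, hu⟩ => ⟨u, hu.symm⟩, fun ⟨u, hu⟩ => ⟨u, hu.symm⟩⟩

theorem FPD.hr {d : ℕ} : ∀ {C D : Type} [Fintype C] {M : Matrix C D A}
    (_ : FPD A d (LinearMap.range M.vecMulLinear)), HR A d C D M := by
  classical
  induction d with
  | zero =>
    intro C D _ M h
    have h1 := h.1
    have h2 := h.2
    obtain ⟨s, hs⟩ := Module.projective_lifting_property M.vecMulLinear.rangeRestrict LinearMap.id
      (LinearMap.surjective_rangeRestrict _)
    have hs' : ∀ v, M.vecMulLinear.rangeRestrict (s v) = v := fun v => LinearMap.congr_fun hs v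
    let p : (C → A) →ₗ[A] (C → A) := s ∘ₗ M.vecMulLinear.rangeRestrict
    have hp : ∀ v, p (p v) = p v := by
      intro v
      change s (M.vecMulLinear.rangeRestrict (s (M.vecMulLinear.rangeRestrict v))) = _
      rw [hs']; rfl
    refine ⟨1 - mat p, ?_, ?_⟩
    · have h3 : mat p * mat p = mat p := by
        apply Matrix.ext_of_single_vecMul
        intro i
        rw [← Matrix.vecMul_vecMul, mat_apply, mat_apply, hp]
      rw [Matrix.mul_sub, Matrix.mul_one, Matrix.sub_mul, Matrix.one_mul, h3, sub_self, sub_zero]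
    · intro v
      rw [Matrix.vecMul_sub, Matrix.vecMul_one, mat_apply, sub_eq_self]
      have h1 : M.vecMulLinear.rangeRestrict v = 0 ↔ v ᵥ* M = 0 :=
        ⟨fun h => congrArg Subtype.val h, fun h => Subtype.ext h⟩
      rw [← h1]
      constructor
      · intro h
        change s (M.vecMulLinear.rangeRestrict v) = 0
        rw [h, map_zero]
      · intro h
        have h3 : M.vecMulLinear.rangeRestrict (p v) = M.vecMulLinear.rangeRestrict v := hs' _
        rw [← h3, h, map_zero]
  | succ d ih =>
    intro C D _ M h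
    have h1 := h.schanuel M.vecMulLinear.rangeRestrict (LinearMap.surjective_rangeRestrict _)
    have h2 := h1.finite
    obtain ⟨m, f, hf⟩ := Module.Finite.exists_fin' A
      (LinearMap.ker M.vecMulLinear.rangeRestrict)
    let N : Matrix (Fin m) C A :=
      mat ((LinearMap.ker M.vecMulLinear.rangeRestrict).subtype ∘ₗ f)
    have hN : ∀ u, u ᵥ* N = (f u : C → A) := fun u => mat_apply _ u
    have h3 : LinearMap.ker M.vecMulLinear.rangeRestrict = LinearMap.range N.vecMulLinear := by
      ext v
      constructor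
      · intro hv
        obtain ⟨u, hu⟩ := hf ⟨v, hv⟩
        refine ⟨u, ?_⟩
        change u ᵥ* N = v
        rw [hN, hu]
      · rintro ⟨u, hu⟩
        have hu' : u ᵥ* N = v := hu
        rw [← hu', hN]
        exact (f u).2
    refine ⟨Fin m, inferInstance, N, ?_, ih (FPD.iso (LinearEquiv.ofEq _ _ h3) h1)⟩
    intro v
    have h4 : v ᵥ* M = 0 ↔ v ∈ LinearMap.ker M.vecMulLinear.rangeRestrict := by
      rw [LinearMap.mem_ker]
      exact ⟨fun h => Subtype.ext h, fun h => congrArg Subtype.val h⟩
    rw [h4, h3]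
    exact ⟨fun ⟨u, hu⟩ => ⟨u, hu.symm⟩, fun ⟨u, hu⟩ => ⟨u, hu.symm⟩⟩

theorem RegularCoherent.nice (h : RegularCoherent A) : Nice A := by
  classical
  intro C D _ _ M
  let K := LinearMap.range M.vecMulLinear
  have hK : K.FG := Module.Finite.iff_fg.1 (Module.Finite.range _)
  have h1 : Module.FinitePresentation A ((D → A) ⧸ K) :=
    Module.finitePresentation_of_surjective K.mkQ (Submodule.mkQ_surjective _) (by
      rw [Submodule.ker_mkQ]; exact hK)
  obtain ⟨n, hn⟩ := h ((D → A) ⧸ K)
  have h2 := hn.mono_succ.schanuel K.mkQ (Submodule.mkQ_surjective _)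
  exact ⟨n, (FPD.iso (LinearEquiv.ofEq _ _ (Submodule.ker_mkQ _)) h2).hr⟩

end conv

section descent

variable {k : Type} [Ring k] {G : Type} [Group G] (H : Subgroup G)

theorem toSub_row {C D : Type} [Fintype C] (u : C → MonoidAlgebra k G)
    (M : Matrix C D (MonoidAlgebra k H)) (j : D) :
    toSub H ((u ᵥ* M.map (inc k H)) j) = ((fun c => toSub H (u c)) ᵥ* M) j := by
  change toSub H (∑ c, u c * inc k H (M c j)) = ∑ c, toSub H (u c) * M c j
  rw [toSub_sum]
  apply Finset.sum_congr rfl
  intro c _
  rw [toSub_mul_inc]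

theorem inc_row {C D : Type} [Fintype C] (u : C → MonoidAlgebra k H)
    (M : Matrix C D (MonoidAlgebra k H)) :
    (fun c => inc k H (u c)) ᵥ* M.map (inc k H) = fun j => inc k H ((u ᵥ* M) j) := by
  funext j
  change ∑ c, inc k H (u c) * inc k H (M c j) = inc k H (∑ c, u c * M c j)
  rw [map_sum]
  apply Finset.sum_congr rfl
  intro c _
  rw [map_mul]

theorem HR.descend {d : ℕ} : ∀ {C D : Type} [Fintype C] {M : Matrix C D (MonoidAlgebra k H)}
    (_ : HR (MonoidAlgebra k G) d C D (M.map (MV.inc k H))), HR (MonoidAlgebra k H) d C D M := by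
  classical
  have hinc : ∀ {C D : Type} [Fintype C] (M : Matrix C D (MonoidAlgebra k H))
      (v : C → MonoidAlgebra k H), v ᵥ* M = 0 ↔
        (fun c => MV.inc k H (v c)) ᵥ* M.map (MV.inc k H) = 0 := by
    intro C D _ M v
    rw [inc_row]
    constructor
    · intro h
      rw [h]
      funext j
      exact map_zero _
    · intro h
      funext j
      apply inc_inj H
      rw [Pi.zero_apply, map_zero]
      exact congrFun h j
  induction d with
  | zero =>
    intro C D _ M h
    obtain ⟨E, hE, h⟩ := h
    let E' : Matrix C C (MonoidAlgebra k H) := E.map (toSub H)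
    have hrow : ∀ (u : C → MonoidAlgebra k H) (c : C),
        toSub H (((fun c => MV.inc k H (u c)) ᵥ* E) c) = (u ᵥ* E') c := by
      intro u c
      change toSub H (∑ i, MV.inc k H (u i) * E i c) = ∑ i, u i * toSub H (E i c)
      rw [toSub_sum]
      apply Finset.sum_congr rfl
      intro i _
      rw [toSub_inc_mul]
    -- the rows of `E'` are killed by `M`
    have h1 : ∀ u : C → MonoidAlgebra k H, (u ᵥ* E') ᵥ* M = 0 := by
      intro u
      have h2 : ((fun c => MV.inc k H (u c)) ᵥ* E) ᵥ* M.map (MV.inc k H) = 0 := (h _).2 (by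
        rw [Matrix.vecMul_vecMul, hE])
      funext j
      have h3 := toSub_row H ((fun c => MV.inc k H (u c)) ᵥ* E) M j
      rw [h2] at h3
      have h4 : (fun c => toSub H (((fun c => MV.inc k H (u c)) ᵥ* E) c)) = u ᵥ* E' := by
        funext c
        exact hrow u c
      rw [h4] at h3
      rw [← h3]
      exact toSub_zero H
    have h2 : ∀ v : C → MonoidAlgebra k H, v ᵥ* M = 0 → v ᵥ* E' = v := by
      intro v hv
      rw [hinc, h] at hv
      funext c
      rw [← hrow, hv, toSub_inc]
    refine ⟨E', ?_, ?_⟩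
    · apply Matrix.ext_of_single_vecMul
      intro i
      rw [← Matrix.vecMul_vecMul]
      exact h2 _ (h1 _)
    · intro v
      constructor
      · exact h2 v
      · intro h3
        rw [← h3]
        exact h1 v
  | succ d ih =>
    intro C D _ M h
    obtain ⟨B, _, N, hN, hN'⟩ := h
    -- the components of the rows of `N`
    have hS : ∃ S : Finset (G ⧸ H), ∀ (b : B) (c : C) (g : G), (N b c).coeff g ≠ 0 →
        (QuotientGroup.mk g : G ⧸ H) ∈ S := by
      obtain ⟨S, hS⟩ := exists_cosets H (fun p : B × C => N p.1 p.2)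
      exact ⟨S, fun b c g hg => hS (b, c) g hg⟩
    obtain ⟨S, hS⟩ := hS
    let N' : Matrix (B × S) C (MonoidAlgebra k H) := Matrix.of fun p c => cpt H p.2.1 (N p.1 c)
    -- the rows of `N` in terms of the rows of `N'`
    have hrec : ∀ u : B → MonoidAlgebra k G, u ᵥ* N =
        (fun p : B × S => u p.1 * MonoidAlgebra.single p.2.1.out 1) ᵥ* N'.map (MV.inc k H) := by
      intro u
      funext c
      change ∑ b, u b * N b c = ∑ p : B × S, u p.1 * MonoidAlgebra.single p.2.1.out 1 *
        MV.inc k H (cpt H p.2.1 (N p.1 c))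
      rw [Fintype.sum_prod_type]
      apply Finset.sum_congr rfl
      intro b _
      have h1 := recon H (N b c) S (hS b c)
      conv_lhs => rw [← h1, Finset.mul_sum]
      rw [← Finset.sum_coe_sort S (fun q => u b * (MonoidAlgebra.single q.out 1 *
        MV.inc k H (cpt H q (N b c))))]
      apply Finset.sum_congr rfl
      intro q _
      rw [mul_assoc]
    -- the rows of `N'` are killed by `M`
    have hkill : ∀ u : B × S → MonoidAlgebra k H, (u ᵥ* N') ᵥ* M = 0 := by
      intro u
      have h1 : N' * M = 0 := by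
        ext1 p j
        have h2 : (N p.1) ᵥ* M.map (MV.inc k H) = 0 := (hN _).2 ⟨Pi.single p.1 1, by
          rw [Matrix.single_one_vecMul]; rfl⟩
        exact congrFun ((row_zero_iff H _ _).1 h2 p.2.1) j
      rw [Matrix.vecMul_vecMul, h1, Matrix.vecMul_zero]
    have hker : ∀ v : C → MonoidAlgebra k H, v ᵥ* M = 0 ↔ ∃ u, v = u ᵥ* N' := by
      intro v
      constructor
      · intro hv
        rw [hinc, hN] at hv
        obtain ⟨u, hu⟩ := hv
        rw [hrec] at hu
        refine ⟨fun p => toSub H (u p.1 * MonoidAlgebra.single p.2.1.out 1), ?_⟩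
        funext c
        rw [← toSub_row, ← hu, toSub_inc]
      · rintro ⟨u, rfl⟩
        exact hkill u
    refine ⟨B × S, inferInstance, N', hker, ih ?_⟩
    apply FPD.hr
    refine FPD.iso (LinearEquiv.ofEq _ _ ?_) hN'.fpd
    ext v
    constructor
    · rintro ⟨u, hu⟩
      refine ⟨fun p : B × S => u p.1 * MonoidAlgebra.single p.2.1.out 1, ?_⟩
      have hu' : u ᵥ* N = v := hu
      rw [← hu', hrec]
      rfl
    · rintro ⟨u, hu⟩
      have hu' : u ᵥ* N'.map (MV.inc k H) = v := hu
      have h1 : v ᵥ* M.map (MV.inc k H) = 0 := by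
        rw [← hu', row_zero_iff]
        intro q
        have h2 : (fun c => cpt H q ((u ᵥ* N'.map (MV.inc k H)) c)) =
            (fun p => cpt H q (u p)) ᵥ* N' := by
          funext c
          rw [cpt_row]
        rw [h2]
        exact hkill _
      rw [hN] at h1
      obtain ⟨w, hw⟩ := h1
      exact ⟨w, hw.symm⟩

theorem Nice.sub (h : Nice (MonoidAlgebra k G)) : Nice (MonoidAlgebra k H) := by
  intro C D _ _ M
  obtain ⟨d, hd⟩ := h C D (M.map (inc k H))
  exact ⟨d, hd.descend⟩

theorem Nice.le {H K : Subgroup G} (hHK : H ≤ K) (h : Nice (MonoidAlgebra k K)) :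
    Nice (MonoidAlgebra k H) :=
  Nice.ringEquiv (MonoidAlgebra.domCongr ℕ k (Subgroup.subgroupOfEquivOfLe hHK)).toRingEquiv
    (Nice.sub (H.subgroupOf K) h)

/-- the class of the subgroups with a regular coherent group ring -/
theorem nice_cls : Cls (fun H : Subgroup G => Nice (MonoidAlgebra k H)) where
  anti _ _ hHK h := Nice.le hHK h
  conj H g h := Nice.ringEquiv (MonoidAlgebra.domCongr ℕ k
    (H.equivMapOfInjective (MulAut.conj g).toMonoidHom (MulAut.conj g).injective).symm).toRingEquiv h

end descent

section pid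

/-- Principal ideal domains are regular coherent. -/
theorem nice_pid (A : Type) [CommRing A] [IsDomain A] [IsPrincipalIdealRing A] : Nice A := by
  classical
  intro C D _ _ M
  obtain ⟨n, ⟨b⟩⟩ := Submodule.nonempty_basis_of_pid (Pi.basisFun A C) (LinearMap.ker M.vecMulLinear)
  let N : Matrix (Fin n) C A := Matrix.of fun i => (b i : C → A)
  have hN : ∀ u : Fin n → A, u ᵥ* N = ((∑ i, u i • b i : LinearMap.ker M.vecMulLinear) : C → A) := by
    intro u
    funext c
    rw [Submodule.coe_sum, Finset.sum_apply]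
    rfl
  refine ⟨1, Fin n, inferInstance, N, ?_, 0, Matrix.zero_mul _, ?_⟩
  · intro v
    constructor
    · intro hv
      refine ⟨b.repr ⟨v, hv⟩, ?_⟩
      rw [hN, b.sum_repr]
    · rintro ⟨u, rfl⟩
      rw [hN]
      exact (∑ i, u i • b i : LinearMap.ker M.vecMulLinear).2
  · intro u
    rw [Matrix.vecMul_zero, hN]
    constructor
    · intro h
      have h1 : (∑ i, u i • b i : LinearMap.ker M.vecMulLinear) = 0 := Subtype.ext h
      funext i
      exact (Fintype.linearIndependent_iff.1 b.linearIndependent u h1 i).symm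
    · intro h
      rw [← h]
      simp

/-- the group ring of the trivial group -/
theorem nice_bot {G : Type} [Group G] (k : Type) [CommRing k] [IsDomain k]
    [IsPrincipalIdealRing k] {H : Subgroup G} (hH : H = ⊥) : Nice (MonoidAlgebra k H) := by
  subst hH
  exact Nice.ringEquiv (MonoidAlgebra.uniqueRingEquiv (R := k) (M := (⊥ : Subgroup G))).symm (nice_pid k)

end pid

end Pool.Agent.H1.MV
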