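import Pool.Agent.H1.MV.Stab

set_option autoImplicit false
set_option linter.unusedSectionVars false
set_option linter.unusedSimpArgs false

/-!
# Idempotent matrices located on a set with a group action
-/

namespace Pool.Agent.H1.MV

open Matrix

section sub

variable {k : Type} [Ring k] {G : Type} [Group G]

/-- the inclusion of group rings -/
noncomputable def inc (k : Type) [Ring k] {G : Type} [Group G] (H : Subgroup G) :
    MonoidAlgebra k H →+* MonoidAlgebra k G :=
  MonoidAlgebra.mapDomainRingHom k H.subtype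

theorem inc_inj (H : Subgroup G) : Function.Injective (inc k H) :=
  MonoidAlgebra.mapDomain_injective Subtype.val_injective

/-- the restriction to a subgroup -/
noncomputable def toSub (H : Subgroup G) (x : MonoidAlgebra k G) : MonoidAlgebra k H :=
  MonoidAlgebra.comapDomain Subtype.val Subtype.val_injective x

theorem inc_toSub (H : Subgroup G) (x : MonoidAlgebra k G) (h : ∀ g, x.coeff g ≠ 0 → g ∈ H) :
    inc k H (toSub H x) = x := by
  change MonoidAlgebra.mapDomain _ (toSub H x) = x
  apply MonoidAlgebra.mapDomain_comapDomain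
  intro g hg
  exact ⟨⟨g, h g (Finsupp.mem_support_iff.1 (Finset.mem_coe.1 hg))⟩, rfl⟩

theorem inc_coeff (H : Subgroup G) (x : MonoidAlgebra k H) (g : G)
    (h : (inc k H x).coeff g ≠ 0) : g ∈ H := by
  by_contra hg
  apply h
  change (MonoidAlgebra.mapDomain _ x).coeff g = 0
  rw [MonoidAlgebra.coeff_mapDomain]
  apply Finsupp.mapDomain_of_notMem_range
  rintro ⟨y, hy⟩
  rw [← hy] at hg
  exact hg y.2

end sub

section glue

variable {k : Type} [Ring k] {G : Type} [Group G] {Ω : Type} [MulAction G Ω]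
  {J : Type} [Fintype J] [DecidableEq J]

/-- the restriction of a located matrix to the columns of one location -/
noncomputable def desc (ε : J → Ω) (e : Matrix J J (MonoidAlgebra k G)) (θ : Ω) :
    Matrix {j // ε j = θ} {j // ε j = θ} (MonoidAlgebra k (MulAction.stabilizer G θ)) :=
  Matrix.of fun j' j => toSub (MulAction.stabilizer G θ) (e j'.1 j.1)

variable {ε : J → Ω} {e : Matrix J J (MonoidAlgebra k G)}

theorem desc_inc (h : Ty ε ε Eq e) (θ : Ω) (j' j : {j // ε j = θ}) :
    inc k (MulAction.stabilizer G θ) (desc ε e θ j' j) = e j'.1 j.1 := by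
  unfold desc
  rw [Matrix.of_apply]
  apply inc_toSub
  intro g hg
  have h1 := h j'.1 j.1 g hg
  rw [j'.2, j.2] at h1
  rw [MulAction.mem_stabilizer_iff]
  rw [inv_smul_eq_iff] at h1
  exact h1.symm

theorem desc_idem [DecidableEq Ω] (h : Ty ε ε Eq e) (he : e * e = e)
    (hgood : ∀ (g : G) j j', g • ε j = ε j' → ε j = ε j') (θ : Ω) :
    desc ε e θ * desc ε e θ = desc ε e θ := by
  classical
  ext1 j' j
  apply inc_inj
  rw [desc_inc h, Matrix.mul_apply, map_sum]
  conv_rhs => rw [← he, Matrix.mul_apply]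
  have h1 : ∀ x : {j // ε j = θ}, inc k (MulAction.stabilizer G θ)
      (desc ε e θ j' x * desc ε e θ x j) = (fun y => e j'.1 y * e y j.1) x.1 := by
    intro x
    rw [map_mul, desc_inc h, desc_inc h]
  rw [Finset.sum_congr rfl (fun x _ => h1 x)]
  have h2 : ∀ y : J, (fun y => e j'.1 y * e y j.1) y ≠ 0 → ε y = θ := by
    intro y hy
    have h3 : e j'.1 y ≠ 0 := fun h4 => hy (by beta_reduce; rw [h4, zero_mul])
    have h4 : ∃ g, (e j'.1 y).coeff g ≠ 0 := by
      by_contra hcon
      push Not at hcon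
      apply h3
      apply MonoidAlgebra.coeff_injective
      ext g
      exact hcon g
    obtain ⟨g, hg⟩ := h4
    have h5 := hgood _ _ _ (h j'.1 y g hg)
    rw [← h5, j'.2]
  rw [← Finset.sum_filter_of_ne (s := Finset.univ) (p := fun y => ε y = θ)
      (fun b _ hb => h2 b hb)]
  exact (Finset.sum_subtype (p := fun y => ε y = θ) (Finset.univ.filter fun y => ε y = θ)
    (fun y => by rw [Finset.mem_filter]; exact ⟨fun h => h.2, fun h => ⟨Finset.mem_univ _, h⟩⟩)
    (fun y => e j'.1 y * e y j.1)).symm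

/-- **Gluing**: an idempotent located matrix with stably free restrictions is stably conjugate to
a diagonal one. -/
theorem glue [DecidableEq Ω] (h : Ty ε ε Eq e) (he : e * e = e)
    (hgood : ∀ (g : G) j j', g • ε j = ε j' → ε j = ε j')
    (hS : ∀ j, StablyFree (MonoidAlgebra k (MulAction.stabilizer G (ε j)))
      (Mo (desc ε e (ε j)))) :
    ∃ (K J' : Type) (_ : Fintype K) (_ : DecidableEq K) (_ : Fintype J') (_ : DecidableEq J')
      (εK : K → Ω) (l : K → Bool) (ε' : J' → Ω) (b : J' → Bool)
      (T : Matrix (J ⊕ K) J' (MonoidAlgebra k G)) (T' : Matrix J' (J ⊕ K) (MonoidAlgebra k G)),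
      (∀ κ, ∃ j, ε j = εK κ) ∧ (∀ j', ∃ j, ε j = ε' j') ∧
      Ty (Sum.elim ε εK) ε' Eq T ∧ Ty ε' (Sum.elim ε εK) Eq T' ∧ T * T' = 1 ∧ T' * T = 1 ∧
      (fromBlocks e 0 0 (Matrix.diagonal fun κ => if l κ then 1 else 0) :
        Matrix (J ⊕ K) (J ⊕ K) (MonoidAlgebra k G)) * T
        = T * (Matrix.diagonal fun j => if b j then 1 else 0 :
          Matrix J' J' (MonoidAlgebra k G)) := by
  classical
  let Θ : Type := Set.range ε
  have hf : Finite Θ := Set.finite_range ε
  have : Fintype Θ := Fintype.ofFinite Θ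
  have h1 : ∀ θ : Θ, ∃ (s t s' t' : ℕ)
      (T : Matrix ({j // ε j = θ.1} ⊕ (Fin s ⊕ Fin t)) (Fin s' ⊕ Fin t')
        (MonoidAlgebra k (MulAction.stabilizer G θ.1)))
      (T' : Matrix (Fin s' ⊕ Fin t') ({j // ε j = θ.1} ⊕ (Fin s ⊕ Fin t))
        (MonoidAlgebra k (MulAction.stabilizer G θ.1))),
      T * T' = 1 ∧ T' * T = 1 ∧
      (fromBlocks (desc ε e θ.1) 0 0 (fromBlocks 1 0 0 0) :
        Matrix ({j // ε j = θ.1} ⊕ (Fin s ⊕ Fin t)) ({j // ε j = θ.1} ⊕ (Fin s ⊕ Fin t)) _) * T
        = T * (fromBlocks 1 0 0 0 : Matrix (Fin s' ⊕ Fin t') (Fin s' ⊕ Fin t') _) := by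
    rintro ⟨θ, j, rfl⟩
    have hi := desc_idem h he hgood (ε j)
    exact idem_single _ hi (hS j) (stablyFree_compl _ hi (hS j))
  choose s t s' t' T T' hTT' hT'T hE using h1
  let JK : Θ → Type := fun θ => {j // ε j = θ.1} ⊕ (Fin (s θ) ⊕ Fin (t θ))
  let K : Type := Σ θ : Θ, (Fin (s θ) ⊕ Fin (t θ))
  let J' : Type := Σ θ : Θ, (Fin (s' θ) ⊕ Fin (t' θ))
  let E : (Σ θ : Θ, JK θ) ≃ J ⊕ K :=
    { toFun := fun p => Sum.elim (fun j => Sum.inl j.1) (fun κ => Sum.inr ⟨p.1, κ⟩) p.2
      invFun := Sum.elim (fun j => ⟨⟨ε j, j, rfl⟩, Sum.inl ⟨j, rfl⟩⟩)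
        (fun κ => ⟨κ.1, Sum.inr κ.2⟩)
      left_inv := by
        rintro ⟨⟨θ, hθ⟩, p⟩
        rcases p with ⟨j, hj⟩ | κ
        · have hj' : ε j = θ := hj
          subst hj'
          rfl
        · rfl
      right_inv := by
        rintro (j | κ) <;> rfl }
  let ic : ∀ θ : Θ, MonoidAlgebra k (MulAction.stabilizer G θ.1) →+* MonoidAlgebra k G :=
    fun θ => inc k (MulAction.stabilizer G θ.1)
  let BT : Matrix (Σ θ : Θ, JK θ) J' (MonoidAlgebra k G) :=
    blockDiagonal' fun θ => (T θ).map (ic θ)
  let BT' : Matrix J' (Σ θ : Θ, JK θ) (MonoidAlgebra k G) :=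
    blockDiagonal' fun θ => (T' θ).map (ic θ)
  have g1 : BT * BT' = 1 := by
    rw [← blockDiagonal'_mul, ← blockDiagonal'_one]
    congr 1
    funext θ
    rw [← Matrix.map_mul, hTT' θ]
    exact Matrix.map_one _ (map_zero _) (map_one _)
  have g2 : BT' * BT = 1 := by
    rw [← blockDiagonal'_mul, ← blockDiagonal'_one]
    congr 1
    funext θ
    rw [← Matrix.map_mul, hT'T θ]
    exact Matrix.map_one _ (map_zero _) (map_one _)
  let l : K → Bool := fun κ => κ.2.isLeft
  let b : J' → Bool := fun κ => κ.2.isLeft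
  let BE : Matrix (Σ θ : Θ, JK θ) (Σ θ : Θ, JK θ) (MonoidAlgebra k G) :=
    blockDiagonal' fun θ => (fromBlocks (desc ε e θ.1) 0 0 (fromBlocks 1 0 0 0) :
      Matrix (JK θ) (JK θ) (MonoidAlgebra k (MulAction.stabilizer G θ.1))).map (ic θ)
  let BD : Matrix J' J' (MonoidAlgebra k G) :=
    blockDiagonal' fun θ => (fromBlocks 1 0 0 0 :
      Matrix (Fin (s' θ) ⊕ Fin (t' θ)) (Fin (s' θ) ⊕ Fin (t' θ))
        (MonoidAlgebra k (MulAction.stabilizer G θ.1))).map (ic θ)
  have iJ : ∀ (θ : Θ) (x y : Fin (s' θ) ⊕ Fin (t' θ)), (⟨θ, x⟩ : J') = ⟨θ, y⟩ → x = y :=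
    fun _ _ _ h => eq_of_heq (Sigma.mk.inj h).2
  have iK : ∀ (θ : Θ) (x y : Fin (s θ) ⊕ Fin (t θ)), (⟨θ, x⟩ : K) = ⟨θ, y⟩ → x = y :=
    fun _ _ _ h => eq_of_heq (Sigma.mk.inj h).2
  have g3 : BE * BT = BT * BD := by
    rw [← blockDiagonal'_mul, ← blockDiagonal'_mul]
    congr 1
    funext θ
    rw [← Matrix.map_mul, ← Matrix.map_mul]
    exact congrArg (fun M => Matrix.map M (ic θ)) (hE θ)
  have g4 : BD = Matrix.diagonal fun j => if b j then 1 else 0 := by
    ext1 ⟨θ, i⟩ ⟨θ', i'⟩
    by_cases hθ : θ = θ'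
    · subst hθ
      change blockDiagonal' _ _ _ = _
      rw [blockDiagonal'_apply_eq, Matrix.map_apply]
      rcases i with i | i <;> rcases i' with i' | i'
      · by_cases hi : i = i'
        · subst hi
          rw [Matrix.diagonal_apply_eq, fromBlocks_apply₁₁, Matrix.one_apply_eq, map_one]
          rfl
        · rw [Matrix.diagonal_apply_ne, fromBlocks_apply₁₁, Matrix.one_apply_ne hi, map_zero]
          intro h
          exact hi (Sum.inl_injective (iJ _ _ _ h))
      · rw [Matrix.diagonal_apply_ne, fromBlocks_apply₁₂, Matrix.zero_apply, map_zero]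
        intro h
        exact absurd (iJ _ _ _ h) (by simp)
      · rw [Matrix.diagonal_apply_ne, fromBlocks_apply₂₁, Matrix.zero_apply, map_zero]
        intro h
        exact absurd (iJ _ _ _ h) (by simp)
      · rw [fromBlocks_apply₂₂, Matrix.zero_apply, map_zero]
        by_cases hi : i = i'
        · subst hi
          rw [Matrix.diagonal_apply_eq]
          rfl
        · rw [Matrix.diagonal_apply_ne]
          intro h
          exact hi (Sum.inr_injective (iJ _ _ _ h))
    · change blockDiagonal' _ _ _ = _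
      rw [blockDiagonal'_apply_ne _ _ _ hθ, Matrix.diagonal_apply_ne]
      intro h
      exact hθ (congrArg Sigma.fst h)
  let ep : Matrix (J ⊕ K) (J ⊕ K) (MonoidAlgebra k G) :=
    fromBlocks e 0 0 (Matrix.diagonal fun κ => if l κ then 1 else 0)
  have g5 : ep = BE.submatrix E.symm E.symm := by
    have : ep.submatrix E E = BE := by
      ext1 ⟨θ, i⟩ ⟨θ', i'⟩
      rw [Matrix.submatrix_apply]
      by_cases hθ : θ = θ'
      · subst hθ
        change _ = blockDiagonal' _ _ _
        rw [blockDiagonal'_apply_eq, Matrix.map_apply]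
        rcases i with i | i <;> rcases i' with i' | i'
        · rw [fromBlocks_apply₁₁]
          change e i.1 i'.1 = ic θ (desc ε e θ.1 i i')
          exact (desc_inc h θ.1 i i').symm
        · rw [fromBlocks_apply₁₂, Matrix.zero_apply, map_zero]; rfl
        · rw [fromBlocks_apply₂₁, Matrix.zero_apply, map_zero]; rfl
        · rw [fromBlocks_apply₂₂]
          change (Matrix.diagonal fun κ : K => if l κ then (1 : MonoidAlgebra k G) else 0)
            ⟨θ, i⟩ ⟨θ, i'⟩ = _
          rcases i with i | i <;> rcases i' with i' | i'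
          · by_cases hi : i = i'
            · subst hi
              rw [Matrix.diagonal_apply_eq, fromBlocks_apply₁₁, Matrix.one_apply_eq, map_one]
              rfl
            · rw [Matrix.diagonal_apply_ne, fromBlocks_apply₁₁, Matrix.one_apply_ne hi, map_zero]
              intro h
              exact hi (Sum.inl_injective (iK _ _ _ h))
          · rw [Matrix.diagonal_apply_ne, fromBlocks_apply₁₂, Matrix.zero_apply, map_zero]
            intro h
            exact absurd (iK _ _ _ h) (by simp)
          · rw [Matrix.diagonal_apply_ne, fromBlocks_apply₂₁, Matrix.zero_apply, map_zero]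
            intro h
            exact absurd (iK _ _ _ h) (by simp)
          · rw [fromBlocks_apply₂₂, Matrix.zero_apply, map_zero]
            by_cases hi : i = i'
            · subst hi
              rw [Matrix.diagonal_apply_eq]
              rfl
            · rw [Matrix.diagonal_apply_ne]
              intro h
              exact hi (Sum.inr_injective (iK _ _ _ h))
      · change _ = blockDiagonal' _ _ _
        rw [blockDiagonal'_apply_ne _ _ _ hθ]
        rcases i with i | i <;> rcases i' with i' | i'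
        · change e i.1 i'.1 = 0
          by_contra hne
          have h4 : ∃ g, (e i.1 i'.1).coeff g ≠ 0 := by
            by_contra hcon
            push Not at hcon
            apply hne
            apply MonoidAlgebra.coeff_injective
            ext g
            exact hcon g
          obtain ⟨g, hg⟩ := h4
          have h5 := hgood _ _ _ (h i.1 i'.1 g hg)
          rw [i.2, i'.2] at h5
          exact hθ (Subtype.ext h5)
        · rfl
        · rfl
        · change (Matrix.diagonal fun κ : K => if l κ then (1 : MonoidAlgebra k G) else 0)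
            ⟨θ, i⟩ ⟨θ', i'⟩ = _
          rw [Matrix.diagonal_apply_ne]
          intro h
          exact hθ (congrArg Sigma.fst h)
    rw [← this]
    ext i j
    simp
  have hε : ∀ p : Σ θ : Θ, JK θ, Sum.elim ε (fun κ : K => κ.1.1) (E p) = p.1.1 := by
    rintro ⟨θ, j | κ⟩
    · exact j.2
    · rfl
  refine ⟨K, J', inferInstance, inferInstance, inferInstance, inferInstance,
    fun κ => κ.1.1, l, fun j => j.1.1, b, BT.submatrix E.symm id, BT'.submatrix id E.symm,
    fun κ => κ.1.2, fun j => j.1.2, ?_, ?_, ?_, ?_, ?_⟩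
  · intro i ⟨θ, j⟩ g hg
    rw [Matrix.submatrix_apply] at hg
    obtain ⟨p, rfl⟩ := E.surjective i
    rw [E.symm_apply_apply] at hg
    rw [hε]
    obtain ⟨θ', p⟩ := p
    by_cases hθ : θ' = θ
    · subst hθ
      change (blockDiagonal' _ _ _ : MonoidAlgebra k G).coeff g ≠ 0 at hg
      rw [id, blockDiagonal'_apply_eq, Matrix.map_apply] at hg
      have := inc_coeff _ _ _ hg
      exact inv_smul_eq_iff.2 (MulAction.mem_stabilizer_iff.1 this).symm
    · change (blockDiagonal' _ _ _ : MonoidAlgebra k G).coeff g ≠ 0 at hg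
      rw [id, blockDiagonal'_apply_ne _ _ _ hθ] at hg
      simp at hg
  · intro ⟨θ, j⟩ i g hg
    rw [Matrix.submatrix_apply] at hg
    obtain ⟨p, rfl⟩ := E.surjective i
    rw [E.symm_apply_apply] at hg
    rw [hε]
    obtain ⟨θ', p⟩ := p
    by_cases hθ : θ = θ'
    · subst hθ
      change (blockDiagonal' _ _ _ : MonoidAlgebra k G).coeff g ≠ 0 at hg
      rw [id, blockDiagonal'_apply_eq, Matrix.map_apply] at hg
      have := inc_coeff _ _ _ hg
      exact inv_smul_eq_iff.2 (MulAction.mem_stabilizer_iff.1 this).symm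
    · change (blockDiagonal' _ _ _ : MonoidAlgebra k G).coeff g ≠ 0 at hg
      rw [id, blockDiagonal'_apply_ne _ _ _ hθ] at hg
      simp at hg
  · have := Matrix.submatrix_mul_equiv BT BT' E.symm (Equiv.refl J') E.symm
    rw [g1, Matrix.submatrix_one_equiv] at this
    exact this
  · have := Matrix.submatrix_mul_equiv BT' BT (id : J' → J') E.symm (id : J' → J')
    rw [g2] at this
    rw [this]; rfl
  · have key : ep * BT.submatrix E.symm id = BT.submatrix E.symm id * BD := by
      have h1 := Matrix.submatrix_mul_equiv BE BT E.symm E.symm (id : J' → J')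
      have h2 := Matrix.submatrix_mul_equiv BT BD E.symm (Equiv.refl J') (id : J' → J')
      rw [g5, h1, g3]
      exact h2.symm
    rw [g4] at key
    convert key

end glue

end Pool.Agent.H1.MV
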