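import Pool.Agent.H1.MV.Split
import Pool.Agent.H1.MV.Coh
import Pool.Agent.H1.MV.Glue
import Pool.Agent.H1.MV.VC

set_option autoImplicit false
set_option linter.unusedSectionVars false
set_option linter.unusedSimpArgs false

/-!
# The class of a matrix located on the edges of a tree
-/

namespace Pool.Agent.H1.MV

open Matrix TH57.Thr Pool.Agent.K4H37.MT

section aux

variable {k : Type} [Ring k] {G V : Type} [Group G] [MulAction G V] {T : SimpleGraph V}

theorem inv_R11 : GInv G (fun (f' f : V × V) => f'.1 = f.1 ∧ f'.2 ≠ f.2) := by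
  rintro g x y ⟨h1, h2⟩
  refine ⟨?_, fun h => h2 (smul_left_cancel g h)⟩
  rw [Prod.smul_fst, Prod.smul_fst, h1]

theorem inv_R21 : GInv G (fun (f' f : V × V) => f'.2 = f.1 ∧ f'.1 ≠ f.2) := by
  rintro g x y ⟨h1, h2⟩
  refine ⟨?_, fun h => h2 (smul_left_cancel g h)⟩
  rw [Prod.smul_fst, Prod.smul_snd, h1]

theorem inv_R12 : GInv G (fun (f' f : V × V) => f'.1 = f.2 ∧ f'.2 ≠ f.1) := by
  rintro g x y ⟨h1, h2⟩
  refine ⟨?_, fun h => h2 (smul_left_cancel g h)⟩
  rw [Prod.smul_fst, Prod.smul_snd, h1]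

theorem inv_R22 : GInv G (fun (f' f : V × V) => f'.2 = f.2 ∧ f'.1 ≠ f.1) := by
  rintro g x y ⟨h1, h2⟩
  refine ⟨?_, fun h => h2 (smul_left_cancel g h)⟩
  rw [Prod.smul_snd, Prod.smul_snd, h1]

variable {J' K' : Type} [Fintype J'] [DecidableEq J']

/-- the diagonal matrix of a set of indices -/
def Db (R : Type) [Ring R] {J' : Type} [DecidableEq J'] (b : J' → Bool) : Matrix J' J' R :=
  Matrix.diagonal fun j => if b j then 1 else 0

theorem db_left {R : Type} [Ring R] {b : J' → Bool} {Y : Matrix J' K' R} (h : Db R b * Y = Y)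
    (j : J') (l : K') (hne : Y j l ≠ 0) : b j = true := by
  by_contra hb
  apply hne
  rw [← h]
  unfold Db
  rw [Matrix.diagonal_mul, if_neg hb, zero_mul]

theorem db_left0 {R : Type} [Ring R] {b : J' → Bool} {Y : Matrix J' K' R} (h : Db R b * Y = 0)
    (j : J') (l : K') (hne : Y j l ≠ 0) : b j = false := by
  by_contra hb
  rw [Bool.not_eq_false] at hb
  apply hne
  have := congrFun (congrFun h j) l
  unfold Db at this
  rw [Matrix.diagonal_mul, if_pos hb, one_mul] at this
  exact this

theorem db_right {R : Type} [Ring R] {b : J' → Bool} {Y : Matrix K' J' R} (h : Y * Db R b = Y)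
    (j : K') (l : J') (hne : Y j l ≠ 0) : b l = true := by
  by_contra hb
  apply hne
  rw [← h]
  unfold Db
  rw [Matrix.mul_diagonal, if_neg hb, mul_zero]

theorem db_right0 {R : Type} [Ring R] {b : J' → Bool} {Y : Matrix K' J' R} (h : Y * Db R b = 0)
    (j : K') (l : J') (hne : Y j l ≠ 0) : b l = false := by
  by_contra hb
  rw [Bool.not_eq_false] at hb
  apply hne
  have := congrFun (congrFun h j) l
  unfold Db at this
  rw [Matrix.mul_diagonal, if_pos hb, mul_one] at this
  exact this

theorem db_compl {R : Type} [Ring R] {b : J' → Bool} : Db R b * Db R b = Db R b := by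
  unfold Db
  rw [Matrix.diagonal_mul_diagonal]
  congr 1
  funext j
  by_cases h : b j
  · rw [if_pos h, mul_one]
  · rw [if_neg h, mul_zero]

theorem coeff_ne {x : MonoidAlgebra k G} {g : G} (h : x.coeff g ≠ 0) : x ≠ 0 := by
  intro h'
  rw [h'] at h
  simp at h

/-- the oriented edges of the states -/
def sig (ε' : J' → V × V) (b : J' → Bool) (j : J') : V × V := if b j then ε' j else (ε' j).swap

end aux

section core

variable {G V : Type} [Group G] [MulAction G V] [DecidableEq V] {T : SimpleGraph V}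
  {ι : Type} [Fintype ι] [DecidableEq ι]

theorem core_of_split (hT : T.IsTree)
    (hact : ∀ (g : G) (v w : V), T.Adj v w → T.Adj (g • v) (g • w)) 
    (hNil : ∀ (J : Type) [Fintype J] [DecidableEq J] (σ : J → V × V)
      (x y : Matrix J J (MonoidAlgebra ℤ G)), Ty σ σ (fun q p => nb T p q) x →
      y * (1 + x) = 1 → Triv (TU G) (1 + x))
    (ν : ι → V) (ε : ι → V × V) (hadj : ∀ j, T.Adj (ε j).1 (ε j).2)
    (hgood : ∀ (g : G) j j', g • ε j = ε j' → ε j = ε j')
    (F : (Matrix ι ι (MonoidAlgebra ℤ G))ˣ) (F1 F2 e H1 H2 : Matrix ι ι (MonoidAlgebra ℤ G))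
    (hF : F.val = F1 + F2)
    (tF1 : Ty ν ε (fun x f => x = f.1) F1) (tF2 : Ty ν ε (fun x f => x = f.2) F2)
    (he : e * e = e) (te : Ty ε ε Eq e)
    (tH1 : Ty ε ν (fun (f : V × V) (x : V) => f.1 = x) H1)
    (tH2 : Ty ε ν (fun (f : V × V) (x : V) => f.2 = x) H2)
    (eH1 : e * H1 = H1) (eH2 : e * H2 = 0)
    (hFH : (F1 * e + F2 * (1 - e)) * (H1 + H2) = 1)
    (hHF : (H1 + H2) * (F1 * e + F2 * (1 - e)) = 1)
    (hprod : F1 + F2 = (F1 * e + F2 * (1 - e)) * (1 + (H1 * F1 * (1 - e) + H2 * F1 * (1 - e)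
        + (H1 * F2 * e + H2 * F2 * e))))
    (t11 : Ty ε ε (fun f' f => f'.1 = f.1 ∧ f'.2 ≠ f.2) (H1 * F1 * (1 - e)))
    (t21 : Ty ε ε (fun f' f => f'.2 = f.1 ∧ f'.1 ≠ f.2) (H2 * F1 * (1 - e)))
    (t12 : Ty ε ε (fun f' f => f'.1 = f.2 ∧ f'.2 ≠ f.1) (H1 * F2 * e))
    (t22 : Ty ε ε (fun f' f => f'.2 = f.2 ∧ f'.1 ≠ f.1) (H2 * F2 * e))
    (hS : ∀ j, StablyFree (MonoidAlgebra ℤ (MulAction.stabilizer G (ε j)))
      (Mo (desc ε e (ε j)))) : VC V F := by
  classical
  obtain ⟨K, J', iK1, iK2, iJ1, iJ2, εK, l, ε', b, X, X', hεK, hε', tX, tX', hXX', hX'X, hE⟩ :=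
    glue te he hgood hS
  let XJ : Matrix ι J' (MonoidAlgebra ℤ G) := X.submatrix Sum.inl id
  let XK : Matrix K J' (MonoidAlgebra ℤ G) := X.submatrix Sum.inr id
  let YJ : Matrix J' ι (MonoidAlgebra ℤ G) := X'.submatrix id Sum.inl
  let YK : Matrix J' K (MonoidAlgebra ℤ G) := X'.submatrix id Sum.inr
  have hX : X = fromRows XJ XK := by
    ext (i | i) j <;> rfl
  have hX' : X' = fromCols YJ YK := by
    ext i (j | j) <;> rfl
  have q1 : XJ * YJ = 1 := by
    have h := hXX'
    rw [hX, hX', fromRows_mul_fromCols, ← fromBlocks_one, fromBlocks_inj] at h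
    exact h.1
  have q3 : (fromBlocks e 0 0 (Db (MonoidAlgebra ℤ G) l) : Matrix (ι ⊕ K) (ι ⊕ K) (MonoidAlgebra ℤ G)) * X = X * Db (MonoidAlgebra ℤ G) b := hE
  have q4 : X' * (fromBlocks e 0 0 (Db (MonoidAlgebra ℤ G) l) : Matrix (ι ⊕ K) (ι ⊕ K) (MonoidAlgebra ℤ G)) = Db (MonoidAlgebra ℤ G) b * X' := by
    calc _ = X' * (fromBlocks e 0 0 (Db (MonoidAlgebra ℤ G) l) : Matrix (ι ⊕ K) (ι ⊕ K) (MonoidAlgebra ℤ G)) * (X * X') := by
          rw [hXX', Matrix.mul_one]
      _ = X' * ((fromBlocks e 0 0 (Db (MonoidAlgebra ℤ G) l) : Matrix (ι ⊕ K) (ι ⊕ K) (MonoidAlgebra ℤ G)) * X) * X' := by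
          simp only [Matrix.mul_assoc]
      _ = _ := by rw [q3, ← Matrix.mul_assoc, hX'X, Matrix.one_mul]
  have q5 : e * XJ = XJ * Db (MonoidAlgebra ℤ G) b := by
    have h := q3
    rw [hX, fromBlocks_mul_fromRows, fromRows_mul] at h
    have h1 := (fromRows_inj h).1
    simpa using h1
  have q6 : Db (MonoidAlgebra ℤ G) l * XK = XK * Db (MonoidAlgebra ℤ G) b := by
    have h := q3
    rw [hX, fromBlocks_mul_fromRows, fromRows_mul] at h
    have h1 := (fromRows_inj h).2
    simpa using h1
  have q7 : YJ * e = Db (MonoidAlgebra ℤ G) b * YJ := by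
    have h := q4
    rw [hX', fromCols_mul_fromBlocks, mul_fromCols] at h
    have h1 := (fromCols_inj h).1
    simpa using h1
  have q8 : YK * Db (MonoidAlgebra ℤ G) l = Db (MonoidAlgebra ℤ G) b * YK := by
    have h := q4
    rw [hX', fromCols_mul_fromBlocks, mul_fromCols] at h
    have h1 := (fromCols_inj h).2
    simpa using h1
  have tXJ : Ty ε ε' Eq XJ := fun i j g hg => tX (Sum.inl i) j g hg
  have tXK : Ty εK ε' Eq XK := fun i j g hg => tX (Sum.inr i) j g hg
  have tYJ : Ty ε' ε Eq YJ := fun i j g hg => tX' i (Sum.inl j) g hg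
  have tYK : Ty ε' εK Eq YK := fun i j g hg => tX' i (Sum.inr j) g hg
  have hadj' : ∀ j, T.Adj (ε' j).1 (ε' j).2 := by
    intro j
    obtain ⟨i, hi⟩ := hε' j
    rw [← hi]; exact hadj i
  -- the nilpotent part
  set x := H1 * F1 * (1 - e) + H2 * F1 * (1 - e) + (H1 * F2 * e + H2 * F2 * e) with hx
  have hNil : Triv (TU G) (1 + x) := by
    have hty : Ty (sig ε' b) (sig ε' b) (fun q p => nb T p q) (YJ * (x * XJ)) := by
      have s1 : YJ * (x * XJ) = YJ * (H1 * F1 * (1 - e)) * XJ + YJ * (H2 * F1 * (1 - e)) * XJ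
          + (YJ * (H1 * F2 * e) * XJ + YJ * (H2 * F2 * e) * XJ) := by
        rw [hx]
        simp only [Matrix.mul_add, Matrix.add_mul, Matrix.mul_assoc]
      have r0 : (1 - e) * (1 - e) = 1 - e := one_sub_idem he
      have r1 : ∀ (A : Matrix ι ι (MonoidAlgebra ℤ G)), YJ * (A * (1 - e)) * XJ * Db (MonoidAlgebra ℤ G) b = 0 := by
        intro A
        have : YJ * (A * (1 - e)) * XJ * Db (MonoidAlgebra ℤ G) b = YJ * A * ((1 - e) * e) * XJ := by
          rw [Matrix.mul_assoc _ XJ, ← q5]
          simp only [Matrix.mul_assoc]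
        rw [this, Matrix.sub_mul, Matrix.one_mul, he, sub_self]
        simp
      have r2 : ∀ (A : Matrix ι ι (MonoidAlgebra ℤ G)), YJ * (A * e) * XJ * Db (MonoidAlgebra ℤ G) b = YJ * (A * e) * XJ := by
        intro A
        have : YJ * (A * e) * XJ * Db (MonoidAlgebra ℤ G) b = YJ * (A * (e * e)) * XJ := by
          rw [Matrix.mul_assoc _ XJ, ← q5]
          simp only [Matrix.mul_assoc]
        rw [this, he]
      have r3 : ∀ (A : Matrix ι ι (MonoidAlgebra ℤ G)), Db (MonoidAlgebra ℤ G) b * (YJ * (H1 * A) * XJ) = YJ * (H1 * A) * XJ := by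
        intro A
        have : Db (MonoidAlgebra ℤ G) b * (YJ * (H1 * A) * XJ) = YJ * (e * H1 * A) * XJ := by
          simp only [← Matrix.mul_assoc]
          rw [← q7]
        rw [this, eH1]
      have r4 : ∀ (A : Matrix ι ι (MonoidAlgebra ℤ G)), Db (MonoidAlgebra ℤ G) b * (YJ * (H2 * A) * XJ) = 0 := by
        intro A
        have : Db (MonoidAlgebra ℤ G) b * (YJ * (H2 * A) * XJ) = YJ * (e * H2 * A) * XJ := by
          simp only [← Matrix.mul_assoc]
          rw [← q7]
        rw [this, eH2]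
        simp
      rw [s1]
      refine Ty.add (Ty.add ?_ ?_) (Ty.add ?_ ?_)
      · have t : Ty ε' ε' (fun f' f => f'.1 = f.1 ∧ f'.2 ≠ f.2)
            (YJ * (H1 * F1 * (1 - e)) * XJ) := by
          refine Ty.mul (tYJ.mul t11 GInv.eq (fun x y z h h' => by rw [h]; exact h')) tXJ inv_R11
            (fun x y z h h' => by rw [← h']; exact h)
        intro j' j g hg
        have hg0 := coeff_ne hg
        have b1 : b j' = true := db_left (by rw [Matrix.mul_assoc H1]; exact r3 _) j' j hg0
        have b2 : b j = false := db_right0 (r1 _) j' j hg0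
        obtain ⟨h1, h2⟩ := t j' j g hg
        have e1 : g⁻¹ • sig ε' b j' = g⁻¹ • ε' j' := by unfold sig; rw [if_pos b1]
        have e2 : sig ε' b j = (ε' j).swap := by unfold sig; rw [if_neg (by simp [b2])]
        rw [e1, e2]
        exact ⟨(hadj' j).symm, hact g⁻¹ _ _ (hadj' j'), h1, h2⟩
      · have t : Ty ε' ε' (fun f' f => f'.2 = f.1 ∧ f'.1 ≠ f.2)
            (YJ * (H2 * F1 * (1 - e)) * XJ) := by
          refine Ty.mul (tYJ.mul t21 GInv.eq (fun x y z h h' => by rw [h]; exact h')) tXJ inv_R21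
            (fun x y z h h' => by rw [← h']; exact h)
        intro j' j g hg
        have hg0 := coeff_ne hg
        have b1 : b j' = false := db_left0 (by rw [Matrix.mul_assoc H2]; exact r4 _) j' j hg0
        have b2 : b j = false := db_right0 (r1 _) j' j hg0
        obtain ⟨h1, h2⟩ := t j' j g hg
        have e1 : g⁻¹ • sig ε' b j' = (g⁻¹ • ε' j').swap := by
          unfold sig; rw [if_neg (by simp [b1])]; rfl
        have e2 : sig ε' b j = (ε' j).swap := by unfold sig; rw [if_neg (by simp [b2])]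
        rw [e1, e2]
        exact ⟨(hadj' j).symm, (hact g⁻¹ _ _ (hadj' j')).symm, h1, h2⟩
      · have t : Ty ε' ε' (fun f' f => f'.1 = f.2 ∧ f'.2 ≠ f.1)
            (YJ * (H1 * F2 * e) * XJ) := by
          refine Ty.mul (tYJ.mul t12 GInv.eq (fun x y z h h' => by rw [h]; exact h')) tXJ inv_R12
            (fun x y z h h' => by rw [← h']; exact h)
        intro j' j g hg
        have hg0 := coeff_ne hg
        have b1 : b j' = true := db_left (by rw [Matrix.mul_assoc H1]; exact r3 _) j' j hg0
        have b2 : b j = true := db_right (r2 _) j' j hg0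
        obtain ⟨h1, h2⟩ := t j' j g hg
        have e1 : g⁻¹ • sig ε' b j' = g⁻¹ • ε' j' := by unfold sig; rw [if_pos b1]
        have e2 : sig ε' b j = ε' j := by unfold sig; rw [if_pos b2]
        rw [e1, e2]
        exact ⟨hadj' j, hact g⁻¹ _ _ (hadj' j'), h1, h2⟩
      · have t : Ty ε' ε' (fun f' f => f'.2 = f.2 ∧ f'.1 ≠ f.1)
            (YJ * (H2 * F2 * e) * XJ) := by
          refine Ty.mul (tYJ.mul t22 GInv.eq (fun x y z h h' => by rw [h]; exact h')) tXJ inv_R22
            (fun x y z h h' => by rw [← h']; exact h)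
        intro j' j g hg
        have hg0 := coeff_ne hg
        have b1 : b j' = false := db_left0 (by rw [Matrix.mul_assoc H2]; exact r4 _) j' j hg0
        have b2 : b j = true := db_right (r2 _) j' j hg0
        obtain ⟨h1, h2⟩ := t j' j g hg
        have e1 : g⁻¹ • sig ε' b j' = (g⁻¹ • ε' j').swap := by
          unfold sig; rw [if_neg (by simp [b1])]; rfl
        have e2 : sig ε' b j = ε' j := by unfold sig; rw [if_pos b2]
        rw [e1, e2]
        exact ⟨hadj' j, (hact g⁻¹ _ _ (hadj' j')).symm, h1, h2⟩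
    -- the inverse
    set z : Matrix ι ι (MonoidAlgebra ℤ G) := (F⁻¹).val * (F1 * e + F2 * (1 - e)) - 1 with hz
    have hzx : (1 + z) * (1 + x) = 1 := by
      rw [hz, add_sub_cancel, Matrix.mul_assoc, ← hprod, ← hF, Units.inv_mul]
    have hzx' : z + x + z * x = 0 := by
      have : (1 + z) * (1 + x) = 1 + (z + x + z * x) := by
        simp only [Matrix.mul_add, Matrix.add_mul, Matrix.mul_one, Matrix.one_mul]
        abel
      rw [this] at hzx
      exact add_eq_left.1 hzx
    have hinv : (1 + YJ * (z * XJ)) * (1 + YJ * (x * XJ)) = 1 := by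
      have h1 : (YJ * (z * XJ)) * (YJ * (x * XJ)) = YJ * (z * x) * XJ := by
        calc _ = YJ * z * (XJ * YJ) * x * XJ := by simp only [Matrix.mul_assoc]
          _ = _ := by rw [q1, Matrix.mul_one]; simp only [Matrix.mul_assoc]
      calc _ = 1 + (YJ * (z * XJ) + YJ * (x * XJ) + (YJ * (z * XJ)) * (YJ * (x * XJ))) := by
            simp only [Matrix.mul_add, Matrix.add_mul, Matrix.mul_one, Matrix.one_mul]
            abel
        _ = 1 + YJ * (z + x + z * x) * XJ := by
            rw [h1]
            simp only [Matrix.mul_add, Matrix.add_mul, Matrix.mul_assoc]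
        _ = 1 := by rw [hzx', Matrix.mul_zero, Matrix.zero_mul, add_zero]
    have h1 := hNil _ _ _ _ hty hinv
    have h2 := triv_uv (x * XJ) YJ h1
    rwa [Matrix.mul_assoc, q1, Matrix.mul_one] at h2
  -- the vertex part
  set F0 := F1 * e + F2 * (1 - e) with hF0
  let F0u : (Matrix ι ι (MonoidAlgebra ℤ G))ˣ := ⟨F0, H1 + H2, hFH, hHF⟩
  have hVert : VC V F0u := by
    let e₀ : J' ≃ ι ⊕ K := Fintype.equivOfCardEq (card_eq X X' hXX' hX'X).symm
    let A : Matrix (ι ⊕ K) J' (MonoidAlgebra ℤ G) := fromRows (F0 * XJ) XK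
    let A' : Matrix J' (ι ⊕ K) (MonoidAlgebra ℤ G) := fromCols (YJ * (H1 + H2)) YK
    have hA : A = (fromBlocks F0 0 0 1 : Matrix (ι ⊕ K) (ι ⊕ K) (MonoidAlgebra ℤ G)) * X := by
      rw [hX, fromBlocks_mul_fromRows]
      simp [A]
    have hA' : A' = X' * (fromBlocks (H1 + H2) 0 0 1 : Matrix (ι ⊕ K) (ι ⊕ K) (MonoidAlgebra ℤ G)) := by
      rw [hX', fromCols_mul_fromBlocks]
      simp [A']
    have hb1 : (fromBlocks F0 0 0 1 : Matrix (ι ⊕ K) (ι ⊕ K) (MonoidAlgebra ℤ G))
        * (fromBlocks (H1 + H2) 0 0 1 : Matrix (ι ⊕ K) (ι ⊕ K) (MonoidAlgebra ℤ G)) = 1 := by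
      rw [fromBlocks_multiply, hFH]
      simp
    have hb2 : (fromBlocks (H1 + H2) 0 0 1 : Matrix (ι ⊕ K) (ι ⊕ K) (MonoidAlgebra ℤ G))
        * (fromBlocks F0 0 0 1 : Matrix (ι ⊕ K) (ι ⊕ K) (MonoidAlgebra ℤ G)) = 1 := by
      rw [fromBlocks_multiply, hHF]
      simp
    have hAA' : A * A' = 1 := by
      rw [hA, hA', Matrix.mul_assoc, ← Matrix.mul_assoc X, hXX', Matrix.one_mul, hb1]
    have hA'A : A' * A = 1 := by
      rw [hA, hA', Matrix.mul_assoc, ← Matrix.mul_assoc (fromBlocks (H1 + H2) 0 0 1), hb2,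
        Matrix.one_mul, hX'X]
    let Au : (Matrix (ι ⊕ K) (ι ⊕ K) (MonoidAlgebra ℤ G))ˣ :=
      { val := A.submatrix id e₀.symm
        inv := A'.submatrix e₀.symm id
        val_inv := by
          rw [Matrix.submatrix_mul_equiv, hAA', Matrix.submatrix_id_id]
        inv_val := by
          have := Matrix.submatrix_mul_equiv A' A e₀.symm (Equiv.refl (ι ⊕ K)) e₀.symm
          rw [hA'A, Matrix.submatrix_one_equiv] at this
          exact this }
    let Xu : (Matrix (ι ⊕ K) (ι ⊕ K) (MonoidAlgebra ℤ G))ˣ :=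
      { val := X'.submatrix e₀.symm id
        inv := X.submatrix id e₀.symm
        val_inv := by
          have := Matrix.submatrix_mul_equiv X' X e₀.symm (Equiv.refl (ι ⊕ K)) e₀.symm
          rw [hX'X, Matrix.submatrix_one_equiv] at this
          exact this
        inv_val := by
          rw [Matrix.submatrix_mul_equiv, hXX', Matrix.submatrix_id_id] }
    have hprod2 : Units.map (stm K) F0u = Au * Xu := by
      apply Units.ext
      change fromBlocks F0 0 0 1 = A.submatrix id e₀.symm * X'.submatrix e₀.symm id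
      rw [Matrix.submatrix_mul_equiv, Matrix.submatrix_id_id, hA, Matrix.mul_assoc, hXX',
        Matrix.mul_one]
    apply VC.unst (μ := K)
    rw [hprod2]
    let νK : K → V := fun κ => if l κ then (εK κ).1 else (εK κ).2
    let ω' : J' → V := fun j => if b j then (ε' j).1 else (ε' j).2
    have hlK : ∀ κ j, XK κ j ≠ 0 → l κ = b j := by
      intro κ j hne
      have h := congrFun (congrFun q6 κ) j
      unfold Db at h
      rw [Matrix.diagonal_mul, Matrix.mul_diagonal] at h
      rcases hl : l κ with _ | _ <;> rcases hb : b j with _ | _ <;> rw [hl, hb] at h <;>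
        simp at h <;> first | rfl | (exact absurd h hne) | (exact absurd h.symm hne)
    have hlK' : ∀ j κ, YK j κ ≠ 0 → l κ = b j := by
      intro j κ hne
      have h := congrFun (congrFun q8 j) κ
      unfold Db at h
      rw [Matrix.diagonal_mul, Matrix.mul_diagonal] at h
      rcases hl : l κ with _ | _ <;> rcases hb : b j with _ | _ <;> rw [hl, hb] at h <;>
        simp at h <;> first | rfl | (exact absurd h hne) | (exact absurd h.symm hne)
    have tA : Ty (Sum.elim ν νK) ω' Eq A := by
      rintro (i | κ) j g hg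
      · change ((F0 * XJ) i j).coeff g ≠ 0 at hg
        have h1 : F0 * XJ = F1 * XJ * Db (MonoidAlgebra ℤ G) b + F2 * XJ * (1 - Db (MonoidAlgebra ℤ G) b) := by
          rw [hF0, Matrix.add_mul, Matrix.mul_assoc, q5, Matrix.mul_assoc F2, Matrix.sub_mul,
            Matrix.one_mul, q5, Matrix.mul_sub, Matrix.mul_sub, Matrix.mul_one,
            ← Matrix.mul_assoc, ← Matrix.mul_assoc]
        have ty1 : Ty ν ε' (fun x f => x = f.1) (F1 * XJ) :=
          tF1.mul tXJ inv_fst' (fun x y z h h' => by rw [h, h'])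
        have ty2 : Ty ν ε' (fun x f => x = f.2) (F2 * XJ) :=
          tF2.mul tXJ inv_snd' (fun x y z h h' => by rw [h, h'])
        change g⁻¹ • ν i = ω' j
        rw [h1, Matrix.add_apply, MonoidAlgebra.coeff_add, Finsupp.add_apply] at hg
        unfold Db at hg
        rcases hb : b j with _ | _
        · have z1 : (F1 * XJ * Matrix.diagonal fun j => if b j then (1 : (MonoidAlgebra ℤ G)) else 0) i j = 0 := by
            rw [Matrix.mul_diagonal, hb]; simp
          have z2 : (F2 * XJ * (1 - Matrix.diagonal (fun j => if b j then (1 : (MonoidAlgebra ℤ G)) else 0) :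
              Matrix J' J' (MonoidAlgebra ℤ G))) i j
              = (F2 * XJ) i j := by
            rw [Matrix.mul_sub, Matrix.sub_apply, Matrix.mul_diagonal, hb, Matrix.mul_one]; simp
          rw [z1, z2] at hg
          have := ty2 i j g (by simpa using hg)
          rw [this]
          simp [ω', hb]
        · have z1 : (F1 * XJ * Matrix.diagonal fun j => if b j then (1 : (MonoidAlgebra ℤ G)) else 0) i j
              = (F1 * XJ) i j := by
            rw [Matrix.mul_diagonal, hb]; simp
          have z2 : (F2 * XJ * (1 - Matrix.diagonal (fun j => if b j then (1 : (MonoidAlgebra ℤ G)) else 0) :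
              Matrix J' J' (MonoidAlgebra ℤ G))) i j
              = 0 := by
            rw [Matrix.mul_sub, Matrix.sub_apply, Matrix.mul_diagonal, hb, Matrix.mul_one]; simp
          rw [z1, z2] at hg
          have := ty1 i j g (by simpa using hg)
          rw [this]
          simp [ω', hb]
      · change (XK κ j).coeff g ≠ 0 at hg
        have h1 := hlK κ j (coeff_ne hg)
        have h2 := tXK κ j g hg
        change g⁻¹ • νK κ = ω' j
        simp only [νK, ω', h1]
        rcases hb : b j with _ | _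
        · simpa using congrArg Prod.snd h2
        · simpa using congrArg Prod.fst h2
    have tA' : Ty ω' (Sum.elim ν νK) Eq A' := by
      rintro j (i | κ) g hg
      · change ((YJ * (H1 + H2)) j i).coeff g ≠ 0 at hg
        have h1 : YJ * (H1 + H2) = Db (MonoidAlgebra ℤ G) b * (YJ * H1) + (YJ * H2 - Db (MonoidAlgebra ℤ G) b * (YJ * H2)) := by
          rw [Matrix.mul_add, ← Matrix.mul_assoc, ← Matrix.mul_assoc, ← q7, Matrix.mul_assoc,
            Matrix.mul_assoc YJ e, eH1, eH2, Matrix.mul_zero, sub_zero]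
        have ty1 : Ty ε' ν (fun f x => f.1 = x) (YJ * H1) :=
          tYJ.mul tH1 GInv.eq (fun x y z h h' => by rw [h, h'])
        have ty2 : Ty ε' ν (fun f x => f.2 = x) (YJ * H2) :=
          tYJ.mul tH2 GInv.eq (fun x y z h h' => by rw [h, h'])
        change g⁻¹ • ω' j = ν i
        rw [h1, Matrix.add_apply, MonoidAlgebra.coeff_add, Finsupp.add_apply] at hg
        unfold Db at hg
        rcases hb : b j with _ | _
        · have z1 : ((Matrix.diagonal fun j => if b j then (1 : (MonoidAlgebra ℤ G)) else 0) * (YJ * H1)) j i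
              = 0 := by
            rw [Matrix.diagonal_mul, hb]; simp
          have z2 : (YJ * H2 - (Matrix.diagonal fun j => if b j then (1 : (MonoidAlgebra ℤ G)) else 0)
              * (YJ * H2)) j i = (YJ * H2) j i := by
            rw [Matrix.sub_apply, Matrix.diagonal_mul, hb]; simp
          rw [z1, z2] at hg
          have := ty2 j i g (by simpa using hg)
          rw [← this]
          simp [ω', hb]
        · have z1 : ((Matrix.diagonal fun j => if b j then (1 : (MonoidAlgebra ℤ G)) else 0) * (YJ * H1)) j i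
              = (YJ * H1) j i := by
            rw [Matrix.diagonal_mul, hb]; simp
          have z2 : (YJ * H2 - (Matrix.diagonal fun j => if b j then (1 : (MonoidAlgebra ℤ G)) else 0)
              * (YJ * H2)) j i = 0 := by
            rw [Matrix.sub_apply, Matrix.diagonal_mul, hb]; simp
          rw [z1, z2] at hg
          have := ty1 j i g (by simpa using hg)
          rw [← this]
          simp [ω', hb]
      · change (YK j κ).coeff g ≠ 0 at hg
        have h1 := hlK' j κ (coeff_ne hg)
        have h2 := tYK j κ g hg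
        change g⁻¹ • ω' j = νK κ
        simp only [νK, ω', h1]
        rcases hb : b j with _ | _
        · simpa using congrArg Prod.snd h2
        · simpa using congrArg Prod.fst h2
    apply VC.mul
    · apply VC.typed Au (Sum.elim ν νK) (fun i => ω' (e₀.symm i))
      · intro i j g hg
        exact tA i (e₀.symm j) g hg
      · intro i j g hg
        exact tA' (e₀.symm i) j g hg
    · apply VC.typed Xu (fun i => (ε' (e₀.symm i)).1) (fun i => (Sum.elim ε εK i).1)
      · intro i j g hg
        exact congrArg Prod.fst (tX' (e₀.symm i) j g hg)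
      · intro i j g hg
        exact congrArg Prod.fst (tX i (e₀.symm j) g hg)
  obtain ⟨w, hw, hwT⟩ := hNil
  have hfin : F = F0u * w := by
    apply Units.ext
    rw [Units.val_mul, hw, hF, hprod]
  rw [hfin]
  exact VC.mul hVert (VC.of_TT hwT)

/-- A linear matrix over a tree with an acylindrical action whose edge groups have only stably free
projective modules: its class comes from the vertex groups. -/
theorem core (hT : T.IsTree)
    (hact : ∀ (g : G) (v w : V), T.Adj v w → T.Adj (g • v) (g • w)) 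
    (hNil : ∀ (J : Type) [Fintype J] [DecidableEq J] (σ : J → V × V)
      (x y : Matrix J J (MonoidAlgebra ℤ G)), Ty σ σ (fun q p => nb T p q) x →
      y * (1 + x) = 1 → Triv (TU G) (1 + x))
    (ν : ι → V) (ε : ι → V × V) (hadj : ∀ j, T.Adj (ε j).1 (ε j).2)
    (hgood : ∀ (g : G) j j', g • ε j = ε j' → ε j = ε j')
    (hno : ∀ (g : G) j j', g • ε j ≠ (ε j').swap)
    (F : (Matrix ι ι (MonoidAlgebra ℤ G))ˣ) (F1 F2 : Matrix ι ι (MonoidAlgebra ℤ G))
    (hF : F.val = F1 + F2)
    (tF1 : Ty ν ε (fun x f => x = f.1) F1) (tF2 : Ty ν ε (fun x f => x = f.2) F2)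
    (hS : ∀ j, AllStablyFree (MonoidAlgebra ℤ (MulAction.stabilizer G (ε j)))) : VC V F := by
  have D : Dat T ν ε F1 F2 (F⁻¹).val :=
    { tree := hT
      act := hact
      adj := hadj
      noinv := hno
      ty1 := tF1
      ty2 := tF2
      left := by rw [← hF, Units.inv_mul]
      right := by rw [← hF, Units.mul_inv] }
  obtain ⟨e, H1, H2, he, te, tH1, tH2, eH1, eH2, hFH, hHF, hprod, t11, t21, t12, t22⟩ := D.split
  refine core_of_split hT hact hNil ν ε hadj hgood F F1 F2 e H1 H2 hF tF1 tF2 he te tH1 tH2 eH1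
    eH2 hFH hHF hprod t11 t21 t12 t22 ?_
  intro j
  have hi := desc_idem te he hgood (ε j)
  have := mo_finite (desc ε e (ε j))
  have := mo_projective hi
  exact hS j _

end core

end Pool.Agent.H1.MV
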