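import Pool.Agent.H1.MV.NilFam

set_option autoImplicit false
set_option linter.unusedSectionVars false
set_option linter.unusedSimpArgs false

/-!
# Elimination of letters
-/

namespace Pool.Agent.H1.MV

open Matrix TH57.Thr Pool.Agent.K4H37.MT

section elim

variable {R : Type} [Ring R] {U : Subgroup Rˣ} {J : Type} [Fintype J] [DecidableEq J]

/-- the word which belongs to a word in the new letters -/
def expd {A : Type} {m : ℕ} (a₀ : A) (l : List (Fin m × {b : A // b ≠ a₀})) : List A :=
  l.flatMap fun p => List.replicate p.1 a₀ ++ [p.2.1]

theorem expd_weight {A : Type} {m : ℕ} (a₀ : A) (w : A → ℕ)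
    (l : List (Fin m × {b : A // b ≠ a₀})) :
    ((expd a₀ l).map w).sum = (l.map fun p => (p.1 : ℕ) * w a₀ + w p.2.1).sum := by
  unfold expd
  induction l with
  | nil => rfl
  | cons p l ih =>
    rw [List.flatMap_cons, List.map_append, List.sum_append, ih, List.map_cons, List.sum_cons,
      List.map_append, List.sum_append, List.map_replicate, List.sum_replicate]
    simp

theorem expd_prod {A : Type} {m : ℕ} (a₀ : A) (N : A → Matrix J J R)
    (l : List (Fin m × {b : A // b ≠ a₀})) : ∃ k : ℕ,
    (l.map fun p => (-N a₀) ^ (p.1 : ℕ) * N p.2.1).prod =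
      (-1 : Matrix J J R) ^ k * ((expd a₀ l).map N).prod := by
  unfold expd
  induction l with
  | nil => exact ⟨0, by simp⟩
  | cons p l ih =>
    obtain ⟨k, hk⟩ := ih
    refine ⟨(p.1 : ℕ) + k, ?_⟩
    rw [List.map_cons, List.prod_cons, hk, List.flatMap_cons, List.map_append, List.prod_append,
      List.map_append, List.prod_append, List.map_replicate, List.prod_replicate, List.map_singleton,
      List.prod_singleton, neg_pow, pow_add]
    have hc : ∀ (k : ℕ) (X : Matrix J J R), Commute ((-1 : Matrix J J R) ^ k) X := fun k X =>
      (Commute.neg_one_left X).pow_left k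
    calc (-1 : Matrix J J R) ^ (p.1 : ℕ) * N a₀ ^ (p.1 : ℕ) * N p.2.1 *
          ((-1) ^ k * (List.map N (List.flatMap (fun p => List.replicate (↑p.1) a₀ ++ [↑p.2]) l)).prod)
        = (-1 : Matrix J J R) ^ (p.1 : ℕ) * ((N a₀ ^ (p.1 : ℕ) * N p.2.1) * (-1) ^ k) *
            (List.map N (List.flatMap (fun p => List.replicate (↑p.1) a₀ ++ [↑p.2]) l)).prod := by
          simp only [Matrix.mul_assoc]
      _ = _ := by
          rw [← (hc k _).eq]
          simp only [Matrix.mul_assoc]

theorem elim {P : Matrix J J R → Prop} (hmul : ∀ M M', P M → P M' → P (M * M'))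
    (hneg : ∀ M, P M → P (-M)) (htriv : ∀ M n, P M → M ^ n = 0 → Triv U (1 + M)) (m d : ℕ) :
    ∀ (μ : ℕ) (_ : 1 ≤ μ) (_ : m ≤ μ + d) (A : Type) [Fintype A] (N : A → Matrix J J R)
      (w : A → ℕ) (_ : ∀ a, μ ≤ w a) (_ : ∀ a, P (N a))
      (_ : ∀ l : List A, m ≤ (l.map w).sum → (l.map N).prod = 0), Triv U (1 + ∑ a, N a) := by
  classical
  induction d with
  | zero =>
    intro μ _ hm A _ N w hw _ hz
    have h1 : ∀ a, N a = 0 := by
      intro a
      have := hz [a] (by
        have := hw a
        simp
        omega)
      simpa using this
    rw [Finset.sum_eq_zero (fun a _ => h1 a), add_zero]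
    exact Triv.one
  | succ d ihd =>
    intro μ hμ hm
    have key : ∀ (c : ℕ) (A : Type) [Fintype A] (N : A → Matrix J J R)
      (w : A → ℕ) (_ : ∀ a, μ ≤ w a) (_ : ∀ a, P (N a))
      (_ : ∀ l : List A, m ≤ (l.map w).sum → (l.map N).prod = 0)
      (_ : Fintype.card {a : A // w a = μ} ≤ c), Triv U (1 + ∑ a, N a) := by
      intro c
      induction c with
      | zero =>
        intro A _ N w hw hP hz hc
        refine ihd (μ + 1) (by omega) (by omega) A N w (fun a => ?_) hP hz
        have h1 := hw a
        have h2 : w a ≠ μ := by
          intro h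
          have : 0 < Fintype.card {a : A // w a = μ} := Fintype.card_pos_iff.2 ⟨⟨a, h⟩⟩
          omega
        omega
      | succ c ihc =>
        intro A _ N w hw hP hz hc
        by_cases hex : ∃ a₀, w a₀ = μ
        · obtain ⟨a₀, ha₀⟩ := hex
          have hN0 : N a₀ ^ m = 0 := by
            have := hz (List.replicate m a₀) (by
              rw [List.map_replicate, List.sum_replicate, ha₀, smul_eq_mul]
              exact Nat.le_mul_of_pos_right m (by omega))
            rwa [List.map_replicate, List.prod_replicate] at this
          let N' : Fin m × {b : A // b ≠ a₀} → Matrix J J R := fun p =>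
            (-N a₀) ^ (p.1 : ℕ) * N p.2.1
          let w' : Fin m × {b : A // b ≠ a₀} → ℕ := fun p => (p.1 : ℕ) * w a₀ + w p.2.1
          have hP' : ∀ p, P (N' p) := by
            rintro ⟨⟨i, hi⟩, b⟩
            change P ((-N a₀) ^ i * N b.1)
            clear hi
            induction i with
            | zero => rw [pow_zero, one_mul]; exact hP _
            | succ i ihi =>
              rw [pow_succ', mul_assoc]
              exact hmul _ _ (hneg _ (hP _)) ihi
          have h1 := ihc (Fin m × {b : A // b ≠ a₀}) N' w' (fun p => by
              have := hw p.2.1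
              change μ ≤ (p.1 : ℕ) * w a₀ + w p.2.1
              omega) hP' (fun l hl => by
              obtain ⟨k, hk⟩ := expd_prod a₀ N l
              change (l.map fun p => (-N a₀) ^ (p.1 : ℕ) * N p.2.1).prod = 0
              rw [hk, hz _ (by rw [expd_weight]; exact hl), mul_zero]) (by
              have h2 : Fintype.card {p : Fin m × {b : A // b ≠ a₀} // w' p = μ} <
                  Fintype.card {a : A // w a = μ} := by
                have hzero : ∀ p : {p : Fin m × {b : A // b ≠ a₀} // w' p = μ},
                    (p.1.1 : ℕ) = 0 ∧ w p.1.2.1 = μ := by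
                  rintro ⟨⟨i, b⟩, hp⟩
                  have h3 : (i : ℕ) * w a₀ + w b.1 = μ := hp
                  have h4 := hw b.1
                  rw [ha₀] at h3
                  have h5 : (i : ℕ) * μ = 0 := by omega
                  rcases Nat.mul_eq_zero.1 h5 with h6 | h6
                  · exact ⟨h6, by change w b.1 = μ; omega⟩
                  · omega
                refine Fintype.card_lt_of_injective_of_notMem
                  (fun p => (⟨p.1.2.1, (hzero p).2⟩ : {a : A // w a = μ})) ?_
                  (b := ⟨a₀, ha₀⟩) ?_
                · intro p q hpq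
                  apply Subtype.ext
                  apply Prod.ext
                  · apply Fin.ext
                    rw [(hzero p).1, (hzero q).1]
                  · apply Subtype.ext
                    exact congrArg (fun z : {a : A // w a = μ} => z.1) hpq
                · rintro ⟨p, hp⟩
                  exact p.1.2.2 (congrArg (fun z : {a : A // w a = μ} => z.1) hp)
              omega)
          have h2 : Triv U (1 + N a₀) := htriv _ m (hP a₀) hN0
          have h3 := Triv.mul h2 h1
          convert h3 using 1
          -- the identity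
          let V : Matrix J J R := ∑ i : Fin m, (-N a₀) ^ (i : ℕ)
          let B : Matrix J J R := ∑ b : {b : A // b ≠ a₀}, N b.1
          have e1 : ∑ p, N' p = V * B := by
            rw [Fintype.sum_prod_type, Finset.sum_mul]
            apply Finset.sum_congr rfl
            intro i _
            rw [Finset.mul_sum]
          have e2 : ∑ a, N a = N a₀ + B := by
            rw [← Finset.add_sum_erase Finset.univ N (Finset.mem_univ a₀)]
            congr 1
            refine Finset.sum_subtype (p := fun b => b ≠ a₀) _ (fun b => ?_) N
            rw [Finset.mem_erase]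
            exact ⟨fun h => h.1, fun h => ⟨h, Finset.mem_univ _⟩⟩
          have e3 : (1 + N a₀) * V = 1 := by
            have h4 := mul_neg_geom_sum (-N a₀) m
            rw [sub_neg_eq_add] at h4
            have h5 : V = ∑ i ∈ Finset.range m, (-N a₀) ^ i := (Finset.sum_range _).symm
            rw [h5, h4, neg_pow, hN0, mul_zero, sub_zero]
          rw [e1, e2, mul_add, mul_one, ← mul_assoc, e3, one_mul, add_assoc]
        · refine ihd (μ + 1) (by omega) (by omega) A N w (fun a => ?_) hP hz
          have h1 := hw a
          have h2 : w a ≠ μ := fun h => hex ⟨a, h⟩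
          omega
    intro A _ N w hw hP hz
    exact key _ A N w hw hP hz le_rfl

end elim

end Pool.Agent.H1.MV
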