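import Mathlib

set_option autoImplicit false

/-!
# Facts on trees with a group action
-/

namespace Pool.Agent.H1.MV

open SimpleGraph

section basic

variable {V : Type} {T : SimpleGraph V}

/-- the neighbour towards a vertex is unique -/
theorem toward_unique (hT : T.IsTree) {w b c c' : V} (h1 : T.Adj b c) (h2 : T.Adj b c')
    (d1 : T.dist w c < T.dist w b) (d2 : T.dist w c' < T.dist w b) : c = c' := by
  obtain ⟨p, hp, hpl⟩ := hT.connected.exists_path_of_dist w c
  obtain ⟨q, hq, hql⟩ := hT.connected.exists_path_of_dist w c'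
  have e1 := hT.dist_eq_dist_add_one_of_adj w h1
  have e2 := hT.dist_eq_dist_add_one_of_adj w h2
  have l1 : (p.concat h1.symm).length = T.dist w b := by rw [Walk.length_concat]; omega
  have l2 : (q.concat h2.symm).length = T.dist w b := by rw [Walk.length_concat]; omega
  have P1 := Walk.isPath_of_length_eq_dist _ l1
  have P2 := Walk.isPath_of_length_eq_dist _ l2
  have h3 : p.concat h1.symm = q.concat h2.symm := (hT.existsUnique_path w b).unique P1 P2
  have h4 := congrArg Walk.penultimate h3
  simpa using h4

/-- the neighbour towards a vertex exists -/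
theorem toward_exists (hT : T.IsTree) {w b : V} (h : w ≠ b) :
    ∃ c, T.Adj b c ∧ T.dist w c + 1 = T.dist w b := by
  obtain ⟨p, hp, hpl⟩ := hT.connected.exists_path_of_dist b w
  have hn : ¬ p.Nil := by
    intro hn
    exact h (hn.eq).symm
  refine ⟨p.snd, p.adj_snd hn, ?_⟩
  have h1 : T.dist w b = p.length := by rw [hpl, dist_comm]
  have h2 : T.dist p.snd w ≤ p.tail.length := dist_le _
  have h3 := p.length_tail_add_one hn
  have h4 := hT.dist_eq_dist_add_one_of_adj w (p.adj_snd hn)
  rw [dist_comm] at h2
  omega

/-- `w` is on the side of `b` of the edge `a b` -/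
def side (T : SimpleGraph V) (a b w : V) : Prop := T.dist w b < T.dist w a

theorem side_iff (hT : T.IsTree) {a b : V} (h : T.Adj a b) (w : V) :
    side T a b w ↔ ¬ side T b a w := by
  unfold side
  have := hT.dist_eq_dist_add_one_of_adj w h
  omega

theorem side_right {a b : V} (h : T.Adj a b) : side T a b b := by
  unfold side
  have : T.dist b a = 1 := dist_eq_one_iff_adj.2 h.symm
  rw [dist_self, this]; omega

theorem side_left {a b : V} : ¬ side T a b a := by
  unfold side
  rw [dist_self]; omega

/-- The endpoints of an edge different from `a b` are on the same side. -/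
theorem side_edge (hT : T.IsTree) {a b x y : V} (h : T.Adj a b) (h' : T.Adj x y)
    (hne : ¬ (x = b ∧ y = a)) (hs : side T a b x) : side T a b y := by
  by_contra hy
  unfold side at hs hy
  have e1 := hT.dist_eq_dist_add_one_of_adj x h
  have e2 := hT.dist_eq_dist_add_one_of_adj y h
  have e3 := hT.dist_eq_dist_add_one_of_adj a h'
  have e4 := hT.dist_eq_dist_add_one_of_adj b h'
  rw [dist_comm (u := a), dist_comm (u := a)] at e3
  rw [dist_comm (u := b), dist_comm (u := b)] at e4
  -- dist y a = dist x b
  have e5 : T.dist y a = T.dist x b := by omega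
  have e6 : T.dist y b = T.dist x b + 1 := by omega
  by_cases hxb : x = b
  · subst hxb
    rw [dist_self] at e5
    have : y = a := by
      rwa [hT.connected.dist_eq_zero_iff] at e5
    exact hne ⟨rfl, this⟩
  · obtain ⟨z, hz, hz'⟩ := toward_exists hT (w := b) (b := x) (Ne.symm hxb)
    have hzy : z = y := by
      apply toward_unique hT (w := a) (b := x) hz h'
      · have t : T.dist z a ≤ T.dist z b + T.dist b a := hT.connected.dist_triangle
        have t2 : T.dist b a = 1 := dist_eq_one_iff_adj.2 h.symm
        rw [dist_comm (u := a), dist_comm (u := a)]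
        rw [dist_comm (u := b), dist_comm (u := b)] at hz'
        have t3 := hT.dist_eq_dist_add_one_of_adj a hz
        rw [dist_comm (u := a), dist_comm (u := a)] at t3
        omega
      · rw [dist_comm (u := a), dist_comm (u := a)]
        omega
    subst hzy
    rw [dist_comm (u := b), dist_comm (u := b)] at hz'
    omega

end basic

section nb

variable {V : Type} {T : SimpleGraph V}

/-- the oriented edge `q` follows the oriented edge `p` without backtracking -/
def nb (T : SimpleGraph V) (p q : V × V) : Prop :=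
  T.Adj p.1 p.2 ∧ T.Adj q.1 q.2 ∧ q.1 = p.2 ∧ q.2 ≠ p.1

theorem nb_dist (hT : T.IsTree) (n : ℕ) (p : ℕ → V × V) (hp : ∀ i < n, nb T (p i) (p (i + 1)))
    (h0 : T.Adj (p 0).1 (p 0).2) :
    T.dist (p 0).1 (p n).1 = n ∧ T.dist (p 0).1 (p n).2 = n + 1 ∧ T.Adj (p n).1 (p n).2 := by
  induction n with
  | zero =>
    refine ⟨dist_self, ?_, h0⟩
    rw [dist_eq_one_iff_adj.2 h0]
  | succ n ih =>
    obtain ⟨ih1, ih2, ih3⟩ := ih (fun i hi => hp i (by omega))
    obtain ⟨h1, h2, h3, h4⟩ := hp n (by omega)
    refine ⟨by rw [h3, ih2], ?_, h2⟩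
    have h5 := hT.dist_eq_dist_add_one_of_adj (p 0).1 h2
    rw [h3, ih2] at h5
    rcases h5 with h5 | h5
    · exfalso
      apply h4
      apply toward_unique hT (w := (p 0).1) (b := (p n).2) (by rw [← h3]; exact h2) h1.symm
      · rw [ih2]; omega
      · rw [ih1, ih2]; omega
    · exact h5

/-- determinacy of non-backtracking paths -/
theorem nb_det (hT : T.IsTree) (n : ℕ) (p q : ℕ → V × V) (hp : ∀ i < n, nb T (p i) (p (i + 1)))
    (hq : ∀ i < n, nb T (q i) (q (i + 1))) (h0 : p 0 = q 0) (hn : p n = q n) :
    ∀ i ≤ n, p i = q i := by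
  induction n with
  | zero => 
    intro i hi
    have : i = 0 := by omega
    rw [this, h0]
  | succ n ih =>
    intro i hi
    rcases Nat.lt_or_ge i (n + 1) with hi' | hi'
    · refine ih (fun i hi => hp i (by omega)) (fun i hi => hq i (by omega)) ?_ i (by omega)
      have a1 := hp n (by omega)
      have a2 := hq n (by omega)
      have a0 := hp 0 (by omega)
      have a0' := hq 0 (by omega)
      have b1 := nb_dist hT n p (fun i hi => hp i (by omega)) a0.1
      have b2 := nb_dist hT n q (fun i hi => hq i (by omega)) a0'.1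
      have c1 : (p n).2 = (q n).2 := by rw [← a1.2.2.1, ← a2.2.2.1, hn]
      apply Prod.ext _ c1
      apply toward_unique hT (w := (p 0).1) (b := (p n).2) b1.2.2.symm
      · rw [c1]; exact b2.2.2.symm
      · rw [b1.1, b1.2.1]; omega
      · rw [b1.2.1, h0, b2.1]; omega
    · have : i = n + 1 := by omega
      rw [this, hn]

end nb

section act

variable {V : Type} {T : SimpleGraph V} {G : Type} [Group G] [MulAction G V]

theorem adj_smul_iff (hact : ∀ (g : G) (v w : V), T.Adj v w → T.Adj (g • v) (g • w)) (g : G)
    (v w : V) : T.Adj (g • v) (g • w) ↔ T.Adj v w := by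
  refine ⟨fun h => ?_, hact g v w⟩
  have := hact g⁻¹ _ _ h
  simpa using this

theorem dist_smul_le (hT : T.IsTree)
    (hact : ∀ (g : G) (v w : V), T.Adj v w → T.Adj (g • v) (g • w)) (g : G)
    (v w : V) : T.dist (g • v) (g • w) ≤ T.dist v w := by
  obtain ⟨p, hp⟩ := hT.connected.exists_walk_length_eq_dist v w
  let f : T →g T := ⟨fun v => g • v, fun {a b} h => hact g a b h⟩
  have := dist_le (p.map f)
  rw [Walk.length_map, hp] at this
  exact this

theorem dist_smul (hT : T.IsTree)
    (hact : ∀ (g : G) (v w : V), T.Adj v w → T.Adj (g • v) (g • w)) (g : G)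
    (v w : V) : T.dist (g • v) (g • w) = T.dist v w := by
  apply le_antisymm (dist_smul_le hT hact g v w)
  have := dist_smul_le hT hact g⁻¹ (g • v) (g • w)
  simpa using this

theorem side_smul (hT : T.IsTree)
    (hact : ∀ (g : G) (v w : V), T.Adj v w → T.Adj (g • v) (g • w)) (g : G)
    (a b w : V) : side T (g • a) (g • b) (g • w) ↔ side T a b w := by
  unfold side
  rw [dist_smul hT hact, dist_smul hT hact]

theorem nb_smul (hact : ∀ (g : G) (v w : V), T.Adj v w → T.Adj (g • v) (g • w)) (g : G)
    (p q : V × V) (h : nb T p q) : nb T (g • p) (g • q) := by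
  obtain ⟨h1, h2, h3, h4⟩ := h
  refine ⟨hact g _ _ h1, hact g _ _ h2, ?_, ?_⟩
  · rw [Prod.smul_fst, Prod.smul_snd, h3]
  · rw [Prod.smul_fst, Prod.smul_snd]
    intro h5
    exact h4 (smul_left_cancel g h5)

end act

end Pool.Agent.H1.MV
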