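import Pool.Agent.H1.MV.NilT
import Pool.Agent.H1.MV.Tree

set_option autoImplicit false
set_option linter.unusedSectionVars false
set_option linter.unusedSimpArgs false
set_option linter.unusedTactic false

/-!
# Nilpotent located matrices: passage to paths
-/

namespace Pool.Agent.H1.MV

open Matrix TH57.Thr Pool.Agent.K4H37.MT

section line

variable {k : Type} [Ring k] {G : Type} [Group G] {X : Type} [MulAction G X]
  {J : Type} [Fintype J] [DecidableEq J] {σ : J → X} {r : X → X → Prop}

/-- the relation of the line graph -/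
def lin (r : X → X → Prop) (a b : X × X) : Prop := r a.1 a.2 ∧ a.2 = b.1 ∧ r b.1 b.2

theorem lin_smul (hr : ∀ (g : G) p q, r p q → r (g • p) (g • q)) (g : G) (a b : X × X)
    (h : lin r a b) : lin r (g • a) (g • b) := by
  obtain ⟨h1, h2, h3⟩ := h
  refine ⟨hr g _ _ h1, ?_, hr g _ _ h3⟩
  rw [Prod.smul_snd, Prod.smul_fst, h2]

theorem lin_det (hD : Det r) : Det (lin r) := by
  intro n p q hp hq h0 hn
  rcases Nat.eq_zero_or_pos n with hn0 | hn0
  · intro i hi
    have : i = 0 := by omega
    rw [this, h0]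
  · have h1 := hD n (fun i => (p i).1) (fun i => (q i).1)
      (fun i hi => by
        obtain ⟨a1, a2, _⟩ := hp i hi
        beta_reduce; rw [← a2]; exact a1)
      (fun i hi => by
        obtain ⟨a1, a2, _⟩ := hq i hi
        beta_reduce; rw [← a2]; exact a1)
      (by beta_reduce; rw [h0]) (by beta_reduce; rw [hn])
    intro i hi
    rcases Nat.lt_or_ge i n with hi' | hi'
    · apply Prod.ext (h1 i hi)
      obtain ⟨_, a2, _⟩ := hp i hi'
      obtain ⟨_, b2, _⟩ := hq i hi'
      rw [a2, b2]
      exact h1 (i + 1) (by omega)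
    · have : i = n := by omega
      rw [this, hn]

/-- the arrows which occur in `x` -/
def Arr (x : Matrix J J (MonoidAlgebra k G)) : Type :=
  {a : J × (↥(suppF x)) × J // (x a.1 a.2.2).coeff a.2.1.1 ≠ 0}

noncomputable instance (x : Matrix J J (MonoidAlgebra k G)) : Fintype (Arr x) := by
  classical
  unfold Arr
  infer_instance

noncomputable instance (x : Matrix J J (MonoidAlgebra k G)) : DecidableEq (Arr x) :=
  Classical.decEq _

/-- arrows to vertices -/
noncomputable def Au (x : Matrix J J (MonoidAlgebra k G)) :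
    Matrix J (Arr x) (MonoidAlgebra k G) :=
  Matrix.of fun i a => if i = a.1.1 then
    MonoidAlgebra.single a.1.2.1.1 ((x a.1.1 a.1.2.2).coeff a.1.2.1.1) else 0

/-- vertices to arrows -/
noncomputable def Av (x : Matrix J J (MonoidAlgebra k G)) :
    Matrix (Arr x) J (MonoidAlgebra k G) :=
  Matrix.of fun a i => if i = a.1.2.2 then 1 else 0

theorem Au_Av (x : Matrix J J (MonoidAlgebra k G)) : Au x * Av x = x := by
  classical
  ext1 i i'
  rw [Matrix.mul_apply]
  have h1 : ∀ a : Arr x, Au x i a * Av x a i' =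
      (fun b : J × (↥(suppF x)) × J => if i = b.1 ∧ i' = b.2.2 then
        MonoidAlgebra.single b.2.1.1 ((x b.1 b.2.2).coeff b.2.1.1) else 0) a.1 := by
    intro a
    unfold Au Av
    rw [Matrix.of_apply, Matrix.of_apply]
    by_cases h1 : i = a.1.1
    · by_cases h2 : i' = a.1.2.2
      · rw [if_pos h1, if_pos h2, mul_one]
        exact (if_pos ⟨h1, h2⟩).symm
      · rw [if_neg h2, mul_zero]
        exact (if_neg (fun h => h2 h.2)).symm
    · rw [if_neg h1, zero_mul]
      exact (if_neg (fun h => h1 h.1)).symm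
  rw [Finset.sum_congr rfl (fun a _ => h1 a)]
  have h2 : ∑ a : Arr x, (fun b : J × (↥(suppF x)) × J => if i = b.1 ∧ i' = b.2.2 then
        MonoidAlgebra.single b.2.1.1 ((x b.1 b.2.2).coeff b.2.1.1) else 0) a.1 =
      ∑ b : J × (↥(suppF x)) × J, if i = b.1 ∧ i' = b.2.2 then
        MonoidAlgebra.single b.2.1.1 ((x b.1 b.2.2).coeff b.2.1.1) else 0 := by
    have h3 : ∀ b : J × (↥(suppF x)) × J, (if i = b.1 ∧ i' = b.2.2 then
        MonoidAlgebra.single b.2.1.1 ((x b.1 b.2.2).coeff b.2.1.1) else 0) ≠ 0 →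
        (x b.1 b.2.2).coeff b.2.1.1 ≠ 0 := by
      intro b hb h
      apply hb
      rw [h, MonoidAlgebra.single_zero, ite_self]
    rw [← Finset.sum_filter_of_ne (s := Finset.univ)
      (p := fun b : J × (↥(suppF x)) × J => (x b.1 b.2.2).coeff b.2.1.1 ≠ 0)
      (fun b _ hb => h3 b hb)]
    exact (Finset.sum_subtype (p := fun b : J × ↥(suppF x) × J =>
      (x b.1 b.2.2).coeff b.2.1.1 ≠ 0) (F := instFintypeArr x)
      (Finset.univ.filter fun b : J × ↥(suppF x) × J => (x b.1 b.2.2).coeff b.2.1.1 ≠ 0)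
      (fun b => by rw [Finset.mem_filter]; exact ⟨fun h => h.2, fun h => ⟨Finset.mem_univ _, h⟩⟩)
      (fun b : J × (↥(suppF x)) × J => if i = b.1 ∧ i' = b.2.2 then
        MonoidAlgebra.single b.2.1.1 ((x b.1 b.2.2).coeff b.2.1.1) else 0)).symm
  rw [h2, Fintype.sum_prod_type, Finset.sum_eq_single i]
  · rw [Fintype.sum_prod_type]
    conv_rhs => rw [← sum_suppF x i i']
    rw [← Finset.sum_coe_sort (suppF x)]
    apply Finset.sum_congr rfl
    intro g _
    rw [Finset.sum_eq_single i']
    · rw [if_pos ⟨rfl, rfl⟩]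
    · intro t _ ht
      exact if_neg (fun h => ht h.2.symm)
    · intro h
      exact absurd (Finset.mem_univ _) h
  · intro t _ ht
    apply Finset.sum_eq_zero
    intro b _
    exact if_neg (fun h => ht h.1.symm)
  · intro h
    exact absurd (Finset.mem_univ _) h

theorem Av_Au_apply (x : Matrix J J (MonoidAlgebra k G)) (a b : Arr x) :
    (Av x * Au x) a b = if a.1.2.2 = b.1.1 then
      MonoidAlgebra.single b.1.2.1.1 ((x b.1.1 b.1.2.2).coeff b.1.2.1.1) else 0 := by
  rw [Matrix.mul_apply]
  unfold Au Av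
  rw [Finset.sum_eq_single a.1.2.2]
  · rw [Matrix.of_apply, Matrix.of_apply, if_pos rfl, one_mul]
  · intro t _ ht
    rw [Matrix.of_apply, if_neg ht, zero_mul]
  · intro h
    exact absurd (Finset.mem_univ _) h

/-- the location of the arrows -/
noncomputable def sArr (σ : J → X) (x : Matrix J J (MonoidAlgebra k G)) (a : Arr x) : X × X :=
  (σ a.1.2.2, a.1.2.1.1⁻¹ • σ a.1.1)

theorem sArr_r {x : Matrix J J (MonoidAlgebra k G)} (hx : Ty σ σ (fun q p => r p q) x)
    (a : Arr x) : r (sArr σ x a).1 (sArr σ x a).2 :=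
  hx a.1.1 a.1.2.2 a.1.2.1.1 a.2

theorem Ty.line (hr : ∀ (g : G) p q, r p q → r (g • p) (g • q))
    {x : Matrix J J (MonoidAlgebra k G)} (hx : Ty σ σ (fun q p => r p q) x) :
    Ty (sArr σ x) (sArr σ x) (fun q p => lin r p q) (Av x * Au x) := by
  intro a b g hg
  rw [Av_Au_apply] at hg
  by_cases h : a.1.2.2 = b.1.1
  · rw [if_pos h, MonoidAlgebra.coeff_single] at hg
    have hgb : g = b.1.2.1.1 := by
      by_contra h2
      exact hg (Finsupp.single_eq_of_ne h2)
    refine ⟨sArr_r hx b, ?_, ?_⟩
    · rw [hgb]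
      change b.1.2.1.1⁻¹ • σ b.1.1 = b.1.2.1.1⁻¹ • σ a.1.2.2
      rw [h]
    · exact hr g⁻¹ _ _ (sArr_r hx a)
  · rw [if_neg h] at hg
    simp at hg

end line

section line

variable {k : Type} [CommRing k] {G : Type} [Group G] [IsDomain k] [IsPrincipalIdealRing k]

/-- **Nilpotent located matrices have the trivial class**, if paths of some length have trivial
stabilisers. -/
theorem nil_path (U : Subgroup (MonoidAlgebra k G)ˣ) (m : ℕ) :
    ∀ (X : Type) [MulAction G X] (r : X → X → Prop)
    (_ : ∀ (g : G) p q, r p q → r (g • p) (g • q)) (_ : Det r)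
    (J : Type) [Fintype J] [DecidableEq J] (σ : J → X)
    (_ : ∀ (j : J) (f : ℕ → X), f 0 = σ j → (∀ i < m, r (f i) (f (i + 1))) →
      ∀ g : G, (∀ i ≤ m, g • f i = f i) → g = 1)
    (x : Matrix J J (MonoidAlgebra k G)) (_ : Ty σ σ (fun q p => r p q) x) (n : ℕ)
    (_ : x ^ n = 0), Triv U (1 + x) := by
  induction m with
  | zero =>
    intro X _ r hr hD J _ _ σ hσ x hx n hn
    refine nil_free hr hD ?_ hx n hn
    intro g j hg
    refine hσ j (fun _ => σ j) rfl (by simp) g ?_
    intro i _
    exact hg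
  | succ m ih =>
    intro X _ r hr hD J _ _ σ hσ x hx n hn
    have h1 := ih (X × X) (lin r) (lin_smul hr) (lin_det hD) (Arr x) (sArr σ x) (by
      intro a f hf0 hf g hg
      refine hσ a.1.2.2 (fun i => if i ≤ m then (f i).1 else (f m).2) ?_ ?_ g ?_
      · beta_reduce
        rw [if_pos (Nat.zero_le _), hf0]; rfl
      · intro i hi
        beta_reduce
        by_cases h3 : i + 1 ≤ m
        · rw [if_pos (by omega), if_pos h3]
          obtain ⟨a1, a2, _⟩ := hf i (by omega)
          rw [← a2]; exact a1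
        · have h4 : i = m := by omega
          rw [if_pos (by omega), if_neg h3, h4]
          rcases Nat.eq_zero_or_pos m with h5 | h5
          · rw [h5, hf0]; exact sArr_r hx a
          · obtain ⟨_, _, a3⟩ := hf (m - 1) (by omega)
            rw [show m - 1 + 1 = m by omega] at a3
            exact a3
      · intro i hi
        beta_reduce
        by_cases h3 : i ≤ m
        · rw [if_pos h3]
          exact congrArg Prod.fst (hg i h3)
        · rw [if_neg h3]
          exact congrArg Prod.snd (hg m le_rfl)) (Av x * Au x) (Ty.line hr hx) (n + 1) (by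
      have h2 : ∀ l : ℕ, (Av x * Au x) ^ (l + 1) = Av x * x ^ l * Au x := by
        intro l
        induction l with
        | zero => rw [pow_zero, Matrix.mul_one, zero_add, pow_one]
        | succ l ihl =>
          rw [pow_succ, ihl, pow_succ]
          rw [Matrix.mul_assoc, ← Matrix.mul_assoc (Au x), Au_Av, Matrix.mul_assoc,
            Matrix.mul_assoc, Matrix.mul_assoc]
      rw [h2, hn, Matrix.mul_zero, Matrix.zero_mul])
    have h3 := triv_uv _ _ h1
    rwa [Au_Av] at h3

end line

section tree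

variable {k : Type} [Ring k] {G V : Type} [Group G] [MulAction G V] {T : SimpleGraph V}
  {J : Type} [Fintype J] [DecidableEq J] {σ : J → V × V}

theorem path_dist (hT : T.IsTree) {n : ℕ} {p q : V × V} (h : Path (nb T) n p q) :
    T.dist p.1 q.1 = n := by
  obtain ⟨f, h0, h1, h2⟩ := h
  rcases Nat.eq_zero_or_pos n with hn | hn
  · subst hn
    rw [← h0, ← h1]; exact SimpleGraph.dist_self
  · have := (nb_dist hT n f h2 (h2 0 hn).1).1
    rw [h0, h1] at this
    exact this

/-- a bound for the displacement -/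
theorem exists_bound (y : Matrix J J (MonoidAlgebra k G)) :
    ∃ R : ℕ, Ty σ σ (fun q p : V × V => T.dist p.1 q.1 ≤ R) y := by
  classical
  refine ⟨∑ p : J × J, ∑ g ∈ (y p.1 p.2).coeff.support, T.dist (σ p.2).1 (g⁻¹ • σ p.1).1, ?_⟩
  intro j l g hg
  have h1 := Finset.single_le_sum (s := (Finset.univ : Finset (J × J)))
    (f := fun p : J × J => ∑ g ∈ (y p.1 p.2).coeff.support,
      T.dist (σ p.2).1 (g⁻¹ • σ p.1).1) (fun _ _ => Nat.zero_le _) (Finset.mem_univ (j, l))
  have h2 := Finset.single_le_sum (s := (y j l).coeff.support)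
    (f := fun g => T.dist (σ l).1 (g⁻¹ • σ j).1) (fun _ _ => Nat.zero_le _)
    (Finsupp.mem_support_iff.2 hg)
  exact h2.trans h1

/-- A located matrix `x` over a tree with `1 + x` invertible is nilpotent. -/
theorem nilp_of_unit (hT : T.IsTree)
    (hact : ∀ (g : G) (v w : V), T.Adj v w → T.Adj (g • v) (g • w))
    {x y : Matrix J J (MonoidAlgebra k G)} (hx : Ty σ σ (fun q p => nb T p q) x)
    (h2 : y * (1 + x) = 1) : ∃ n, x ^ n = 0 := by
  obtain ⟨R, hR⟩ := exists_bound (T := T) (σ := σ) y
  refine ⟨R + 1, ?_⟩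
  have hx' : Ty σ σ (fun q p => nb T p q) (-x) := hx.neg
  have hpow : ∀ i, Ty σ σ (fun q p : V × V => T.dist p.1 q.1 = i) ((-x) ^ i) := fun i =>
    (hx'.pow (fun g p q h => nb_smul hact g p q h) i).mono (fun q p h => path_dist hT h)
  have h3 : ∑ i ∈ Finset.range (2 * R + 2), (-x) ^ i = y - y * (-x) ^ (2 * R + 2) := by
    have h4 := mul_neg_geom_sum (-x) (2 * R + 2)
    rw [sub_neg_eq_add] at h4
    calc _ = y * (1 + x) * ∑ i ∈ Finset.range (2 * R + 2), (-x) ^ i := by rw [h2, one_mul]
      _ = y * (1 - (-x) ^ (2 * R + 2)) := by rw [mul_assoc, h4]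
      _ = _ := by rw [mul_sub, mul_one]
  have h5 : (-x) ^ (R + 1) = y - y * (-x) ^ (2 * R + 2)
      - ∑ i ∈ (Finset.range (2 * R + 2)).erase (R + 1), (-x) ^ i := by
    rw [← h3, ← Finset.add_sum_erase (Finset.range (2 * R + 2)) _
      (Finset.mem_range.2 (by omega : R + 1 < 2 * R + 2))]
    abel
  have h6 : (-x) ^ (R + 1) = 0 := by
    apply Ty.eq_zero (hpow (R + 1)) (ρ' := fun q p : V × V => T.dist p.1 q.1 ≠ R + 1)
    · rw [h5]
      refine Ty.sub (Ty.sub ?_ ?_) ?_
      · exact hR.mono (fun q p h => by omega)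
      · refine hR.mul (hpow (2 * R + 2)) ?_ ?_
        · intro g q p h
          have : T.dist (g • p).1 (g • q).1 = T.dist p.1 q.1 := dist_smul hT hact g _ _
          rw [this]; exact h
        · intro a b c h h'
          have t : T.dist c.1 b.1 ≤ T.dist c.1 a.1 + T.dist a.1 b.1 := hT.connected.dist_triangle
          rw [SimpleGraph.dist_comm (u := b.1)] at h
          omega
      · have : ∀ s : Finset ℕ, (∀ i ∈ s, i ≠ R + 1) →
            Ty σ σ (fun q p : V × V => T.dist p.1 q.1 ≠ R + 1) (∑ i ∈ s, (-x) ^ i) := by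
          intro s
          induction s using Finset.induction_on with
          | empty => intro _; rw [Finset.sum_empty]; exact Ty.zero
          | insert a s ha ih =>
            intro h
            rw [Finset.sum_insert ha]
            refine Ty.add ((hpow a).mono ?_) (ih (fun i hi => h i (Finset.mem_insert_of_mem hi)))
            intro q p h'
            rw [h']
            exact h a (Finset.mem_insert_self _ _)
        exact this _ (fun i hi => (Finset.mem_erase.1 hi).1)
    · intro q p h h'
      exact h' h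
  rw [neg_pow] at h6
  rcases Nat.even_or_odd (R + 1) with he | ho
  · rwa [he.neg_one_pow, one_mul] at h6
  · rwa [ho.neg_one_pow, neg_one_mul, neg_eq_zero] at h6

end tree

section tree

variable {k : Type} [CommRing k] {G V : Type} [Group G] [MulAction G V] {T : SimpleGraph V}
  {J : Type} [Fintype J] [DecidableEq J] {σ : J → V × V} [IsDomain k] [IsPrincipalIdealRing k]

/-- Invertible matrices `1 + x` with a located matrix `x` over a tree with an acylindrical action
have the trivial class. -/
theorem triv_of_tree (U : Subgroup (MonoidAlgebra k G)ˣ) (hT : T.IsTree)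
    (hact : ∀ (g : G) (v w : V), T.Adj v w → T.Adj (g • v) (g • w)) (m : ℕ)
    (hm : ∀ v w : V, m ≤ T.dist v w → ∀ g : G, g • v = v → g • w = w → g = 1)
    {x y : Matrix J J (MonoidAlgebra k G)} (hx : Ty σ σ (fun q p => nb T p q) x)
    (h2 : y * (1 + x) = 1) : Triv U (1 + x) := by
  obtain ⟨n, hn⟩ := nilp_of_unit hT hact hx h2
  refine nil_path U m (V × V) (nb T) (fun g p q h => nb_smul hact g p q h)
    (fun n p q hp hq h0 hn => nb_det hT n p q hp hq h0 hn) J σ ?_ x hx n hn
  intro j f _ hf g hg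
  refine hm (f 0).1 (f m).1 ?_ g (congrArg Prod.fst (hg 0 (Nat.zero_le _)))
    (congrArg Prod.fst (hg m le_rfl))
  rw [path_dist hT ⟨f, rfl, rfl, hf⟩]

end tree

end Pool.Agent.H1.MV
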