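import Pool.Agent.H1.MV.THR
import Pool.Agent.H1.MV.NilP

set_option autoImplicit false
set_option linter.unusedSectionVars false
set_option linter.unusedSimpArgs false

/-!
# Nilpotent located matrices over groups whose local group rings are regular coherent
-/

namespace Pool.Agent.H1.MV

open Matrix TH57.Thr Pool.Agent.K4H37.MT

section comp

variable {k : Type} [Ring k] {G : Type} [Group G] {X : Type} [MulAction G X]
  {J C C' : Type} [Fintype J] [Fintype C] [DecidableEq C] [Fintype C']

/-- the components of the rows of a matrix -/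
def Cb (σ : J → X) (Y : Matrix C J (MonoidAlgebra k G)) : Type :=
  {p : C × X // ∃ j g, (Y p.1 j).coeff g ≠ 0 ∧ g • σ j = p.2}

instance Cb.finite (σ : J → X) (Y : Matrix C J (MonoidAlgebra k G)) : Finite (Cb σ Y) := by
  classical
  have h : {p : C × X | ∃ j g, (Y p.1 j).coeff g ≠ 0 ∧ g • σ j = p.2}.Finite := by
    apply Set.Finite.subset (Finset.finite_toSet
      ((Finset.univ : Finset (C × J)).biUnion fun q =>
        ((Y q.1 q.2).coeff.support).image fun g => (q.1, g • σ q.2)))
    rintro ⟨c, ω⟩ ⟨j, g, h1, h2⟩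
    rw [Finset.mem_coe, Finset.mem_biUnion]
    refine ⟨(c, j), Finset.mem_univ _, Finset.mem_image.2 ⟨g, Finsupp.mem_support_iff.2 h1, ?_⟩⟩
    exact Prod.ext rfl h2
  exact h.to_subtype

noncomputable instance Cb.fintype (σ : J → X) (Y : Matrix C J (MonoidAlgebra k G)) :
    Fintype (Cb σ Y) := Fintype.ofFinite _

/-- the matrix of the components -/
noncomputable def Yb (σ : J → X) (Y : Matrix C J (MonoidAlgebra k G)) :
    Matrix (Cb σ Y) J (MonoidAlgebra k G) :=
  res (fun p => p.1.2) σ Eq (Y.submatrix (fun p => p.1.1) id)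

/-- the summation of the components -/
noncomputable def Sb (σ : J → X) (Y : Matrix C J (MonoidAlgebra k G)) : Matrix C (Cb σ Y) (MonoidAlgebra k G) :=
  Matrix.of fun c p => if p.1.1 = c then 1 else 0

variable {σ : J → X} {Y : Matrix C J (MonoidAlgebra k G)}

theorem Yb_ty : Ty (fun p : Cb σ Y => p.1.2) σ Eq (Yb σ Y) := Ty.res

theorem Sb_mul_apply {D : Type} (Z : Matrix (Cb σ Y) D (MonoidAlgebra k G)) (c : C) (j : D) (g : G) :
    ((Sb σ Y * Z) c j).coeff g = ∑ p : Cb σ Y, if p.1.1 = c then (Z p j).coeff g else 0 := by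
  rw [Matrix.mul_apply, MonoidAlgebra.coeff_sum, Finsupp.finsetSum_apply]
  apply Finset.sum_congr rfl
  intro p _
  unfold Sb
  rw [Matrix.of_apply]
  by_cases h : p.1.1 = c
  · rw [if_pos h, if_pos h, one_mul]
  · rw [if_neg h, if_neg h, zero_mul]
    simp

theorem Sb_Yb : Sb σ Y * Yb σ Y = Y := by
  classical
  ext1 c j
  apply MonoidAlgebra.coeff_injective
  ext g
  rw [Sb_mul_apply]
  have h1 : ∀ p : Cb σ Y, (Yb σ Y p j).coeff g =
      if g⁻¹ • p.1.2 = σ j then (Y p.1.1 j).coeff g else 0 := by
    intro p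
    unfold Yb
    rw [res_coeff]
    rfl
  by_cases h : (Y c j).coeff g = 0
  · rw [h]
    apply Finset.sum_eq_zero
    intro p _
    by_cases hp : p.1.1 = c
    · rw [if_pos hp, h1, hp, h, ite_self]
    · rw [if_neg hp]
  · obtain ⟨p₀, hp₀⟩ : ∃ p₀ : Cb σ Y, p₀.1 = (c, g • σ j) :=
      ⟨⟨(c, g • σ j), j, g, h, rfl⟩, rfl⟩
    rw [Finset.sum_eq_single p₀]
    · have e1 : p₀.1.1 = c := by rw [hp₀]
      have e2 : p₀.1.2 = g • σ j := by rw [hp₀]
      rw [if_pos e1, h1, e1, e2, inv_smul_smul, if_pos rfl]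
    · intro p _ hne
      by_cases hc : p.1.1 = c
      · rw [if_pos hc, h1]
        by_cases h2 : g⁻¹ • p.1.2 = σ j
        · exfalso
          apply hne
          apply Subtype.ext
          rw [hp₀]
          exact Prod.ext hc (inv_smul_eq_iff.1 h2)
        · exact if_neg h2
      · exact if_neg hc
    · intro h
      exact absurd (Finset.mem_univ _) h

theorem Sb_ty {τ : C → X} {ρ : X → X → Prop} (h : Ty τ σ ρ Y) (hinv : GInv G ρ) :
    Ty τ (fun p : Cb σ Y => p.1.2) ρ (Sb σ Y) := by
  rintro c ⟨⟨c', ω⟩, j, g', h1, h2⟩ g hg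
  unfold Sb at hg
  rw [Matrix.of_apply] at hg
  by_cases hc : c' = c
  · subst hc
    rw [if_pos rfl, MonoidAlgebra.one_def, MonoidAlgebra.coeff_single] at hg
    have hg1 : g = 1 := by
      by_contra h3
      exact hg (Finsupp.single_eq_of_ne h3)
    rw [hg1, inv_one, one_smul]
    have h4 := hinv g' _ _ (h c' j g' h1)
    rw [smul_inv_smul] at h4
    have h5 : g' • σ j = ω := h2
    rw [h5] at h4
    exact h4
  · rw [if_neg hc] at hg
    simp at hg

theorem res_of_parts {Ω Ω' K : Type} [MulAction G Ω] [MulAction G Ω'] {a : C → Ω} {b : K → Ω'}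
    {ρ : Ω → Ω' → Prop} {U V : Matrix C K (MonoidAlgebra k G)} (hU : Ty a b ρ U)
    (hV : Ty a b (fun x y => ¬ ρ x y) V) : res a b ρ (U + V) = U := by
  classical
  ext1 c j
  apply MonoidAlgebra.coeff_injective
  ext g
  rw [res_coeff, Matrix.add_apply, MonoidAlgebra.coeff_add, Finsupp.add_apply]
  by_cases h : ρ (g⁻¹ • a c) (b j)
  · rw [if_pos h]
    have h1 : (V c j).coeff g = 0 := by
      by_contra h2
      exact hV c j g h2 h
    rw [h1, add_zero]
  · rw [if_neg h]
    by_contra h2
    exact h (hU c j g (Ne.symm h2))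

theorem res_mul {Ω K L : Type} [MulAction G Ω] [Fintype K] {a : C → Ω} {b : K → Ω}
    {c : L → Ω} (M : Matrix C K (MonoidAlgebra k G)) {P : Matrix K L (MonoidAlgebra k G)}
    (hP : Ty b c Eq P) : res a c Eq (M * P) = res a b Eq M * P := by
  have h1 : M * P = res a b Eq M * P + res a b (fun x y => ¬ x = y) M * P := by
    rw [← Matrix.add_mul]
    rw [res_add_not (a := a) (b := b) (ρ := Eq)]
  rw [h1]
  apply res_of_parts
  · exact Ty.res.mul hP GInv.eq (fun x y z h h' => h.trans h')
  · refine Ty.mul (ρ₁ := fun x y => ¬ x = y) Ty.res hP ?_ ?_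
    · intro g x y h h'
      exact h (smul_left_cancel g h')
    · intro x y z h h' h''
      exact h (h''.trans h'.symm)

/-- the coefficients of a factorisation -/
noncomputable def Ab {τ : C' → X} (σ : J → X) (Y : Matrix C J (MonoidAlgebra k G))
    (A : Matrix C C' (MonoidAlgebra k G)) : Matrix (Cb σ Y) C' (MonoidAlgebra k G) :=
  res (fun p => p.1.2) τ Eq (A.submatrix (fun p => p.1.1) id)

theorem Yb_of_mul {τ : C' → X} {A : Matrix C C' (MonoidAlgebra k G)}
    {P : Matrix C' J (MonoidAlgebra k G)} (hP : Ty τ σ Eq P) (h : Y = A * P) :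
    Yb σ Y = Ab (τ := τ) σ Y A * P := by
  classical
  unfold Ab
  have h1 : Fintype (Cb σ Y) := inferInstance
  have h2 := res_mul (a := fun p : Cb σ Y => p.1.2) (A.submatrix (fun p => p.1.1) id) hP
  rw [← h2]
  unfold Yb
  congr 1
  ext1 p j
  rw [Matrix.submatrix_apply]
  have h3 := congrFun (congrFun h p.1.1) (id j)
  rw [h3]
  rfl

end comp

section filt

variable {k : Type} [Ring k] {G : Type} [Group G] {X : Type} [MulAction G X]
  {J : Type} [Fintype J] [DecidableEq J] {σ : J → X} {r : X → X → Prop}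

/-- the restriction of the multiplication by `1 + x` to a row space -/
theorem exists_restr {C : Type} [Fintype C] {P : Matrix C J (MonoidAlgebra k G)}
    {A : Matrix C C (MonoidAlgebra k G)} {x : Matrix J J (MonoidAlgebra k G)}
    (hPx : P * x = A * P) : ∃ h : LinearMap.range P.vecMulLinear →ₗ[MonoidAlgebra k G]
      LinearMap.range P.vecMulLinear, ∀ w, ((h w : LinearMap.range P.vecMulLinear) :
        J → MonoidAlgebra k G) = (w : J → MonoidAlgebra k G) ᵥ* (1 + x) := by
  obtain ⟨h, hh⟩ := factor_inj (LinearMap.range P.vecMulLinear).subtype Subtype.val_injective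
    ((1 + x).vecMulLinear ∘ₗ (LinearMap.range P.vecMulLinear).subtype) (by
    rintro ⟨_, ⟨v, rfl⟩⟩
    refine ⟨⟨_, ⟨v + v ᵥ* A, rfl⟩⟩, ?_⟩
    change (v + v ᵥ* A) ᵥ* P = (v ᵥ* P) ᵥ* (1 + x)
    rw [Matrix.add_vecMul, Matrix.vecMul_add, Matrix.vecMul_one, Matrix.vecMul_vecMul,
      Matrix.vecMul_vecMul, hPx])
  exact ⟨h, hh⟩

theorem TR.filt (U : Subgroup (MonoidAlgebra k G)ˣ)
    (hr : ∀ (g : G) p q, r p q → r (g • p) (g • q)) (hD : Det r)
    {x : Matrix J J (MonoidAlgebra k G)} (hx : Ty σ σ (fun q p => r p q) x)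
    (hN : ∀ j, Nice (MonoidAlgebra k (MulAction.stabilizer G (rep G (σ j))))) (m : ℕ) :
    ∀ (C : Type) [Fintype C] (τ : C → X) (P : Matrix C J (MonoidAlgebra k G))
      (A : Matrix C C (MonoidAlgebra k G)) (_ : Ty τ σ Eq P)
      (_ : Ty τ τ (fun q p => r p q) A) (_ : P * x = A * P) (_ : P * x ^ m = 0)
      (h : LinearMap.range P.vecMulLinear →ₗ[MonoidAlgebra k G] LinearMap.range P.vecMulLinear)
      (_ : ∀ w, ((h w : LinearMap.range P.vecMulLinear) :
        J → MonoidAlgebra k G) = (w : J → MonoidAlgebra k G) ᵥ* (1 + x)),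
      ∃ d, TR U d (LinearMap.range P.vecMulLinear) h := by
  classical
  induction m with
  | zero =>
    intro C _ τ P A hP hA hPx h0 h hh
    rw [pow_zero, Matrix.mul_one] at h0
    have : Subsingleton (LinearMap.range P.vecMulLinear) := by
      constructor
      rintro ⟨_, ⟨u, rfl⟩⟩ ⟨_, ⟨v, rfl⟩⟩
      apply Subtype.ext
      change u ᵥ* P = v ᵥ* P
      rw [h0, Matrix.vecMul_zero, Matrix.vecMul_zero]
    exact ⟨0, TR.of_subsingleton h⟩
  | succ m ih =>
    intro C _ τ P A hP hA hPx h0 h hh
    let Y := P * x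
    have hYty : Ty τ σ (fun q p => r p q) Y := by
      change Ty τ σ (fun q p => r p q) (P * x)
      refine Ty.mul hP hx GInv.eq ?_
      intro s q p h1 h2
      rw [h1]
      exact h2
    let Q := Yb σ Y
    let S := Sb σ Y
    let B := Ab (τ := τ) σ Y A
    have hQ : Ty (fun p : Cb σ Y => p.1.2) σ Eq Q := Yb_ty
    have hS : Ty τ (fun p : Cb σ Y => p.1.2) (fun q p => r p q) S :=
      Sb_ty hYty (fun g q p h1 => hr g _ _ h1)
    have hB : Ty (fun p : Cb σ Y => p.1.2) τ Eq B := Ty.res
    have hQB : Q = B * P := Yb_of_mul hP hPx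
    have hSQ : S * Q = P * x := Sb_Yb
    have hQx : Q * x = (B * S) * Q := by
      rw [Matrix.mul_assoc, hSQ, ← Matrix.mul_assoc, hQB]
    have hBS : Ty (fun p : Cb σ Y => p.1.2) (fun p : Cb σ Y => p.1.2) (fun q p => r p q)
        (B * S) := by
      refine Ty.mul hB hS GInv.eq ?_
      intro s q p h1 h2
      rw [h1]
      exact h2
    have hQ0 : Q * x ^ m = 0 := by
      have hZ : Ty (fun p : Cb σ Y => p.1.2) σ (fun q p => Path r m p q) (Q * x ^ m) := by
        refine Ty.mul hQ (Ty.pow hr hx m) GInv.eq ?_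
        intro s q p h1 h2
        rw [h1]
        exact h2
      ext1 p j
      apply MonoidAlgebra.coeff_injective
      ext g
      by_contra hne
      have hne' : ((Q * x ^ m) p j).coeff g ≠ 0 := hne
      have h1 : ((S * (Q * x ^ m)) p.1.1 j).coeff g = 0 := by
        rw [← Matrix.mul_assoc, hSQ, Matrix.mul_assoc, ← pow_succ', h0]
        simp
      rw [Sb_mul_apply, Finset.sum_eq_single p] at h1
      · rw [if_pos rfl] at h1
        exact hne' h1
      · intro p' _ hp'
        by_cases hc : p'.1.1 = p.1.1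
        · rw [if_pos hc]
          by_contra h2
          apply hp'
          apply Subtype.ext
          refine Prod.ext hc ?_
          have q1 := hZ p j g hne'
          have q2 := hZ p' j g h2
          -- the last arrows
          have t1 : r p.1.2 (τ p.1.1) := by
            obtain ⟨⟨c, ω⟩, hp⟩ := p
            have := hS c ⟨⟨c, ω⟩, hp⟩ 1 (by
              change ((Sb σ Y) c ⟨⟨c, ω⟩, hp⟩).coeff 1 ≠ 0
              unfold Sb
              rw [Matrix.of_apply, if_pos rfl, MonoidAlgebra.one_def, MonoidAlgebra.coeff_single,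
                Finsupp.single_eq_same]
              intro h3
              apply hne'
              have : (1 : MonoidAlgebra k G) = 0 := by
                rw [MonoidAlgebra.one_def, h3, MonoidAlgebra.single_zero]
              have h4 : ((Q * x ^ m) ⟨⟨c, ω⟩, hp⟩ j) = 0 := by
                rw [← mul_one ((Q * x ^ m) ⟨⟨c, ω⟩, hp⟩ j), this, mul_zero]
              rw [h4]
              simp)
            rw [inv_one, one_smul] at this
            exact this
          have t2 : r p'.1.2 (τ p.1.1) := by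
            rw [← hc]
            obtain ⟨⟨c, ω⟩, hp⟩ := p'
            have := hS c ⟨⟨c, ω⟩, hp⟩ 1 (by
              change ((Sb σ Y) c ⟨⟨c, ω⟩, hp⟩).coeff 1 ≠ 0
              unfold Sb
              rw [Matrix.of_apply, if_pos rfl, MonoidAlgebra.one_def, MonoidAlgebra.coeff_single,
                Finsupp.single_eq_same]
              intro h3
              apply h2
              have : (1 : MonoidAlgebra k G) = 0 := by
                rw [MonoidAlgebra.one_def, h3, MonoidAlgebra.single_zero]
              have h4 : ((Q * x ^ m) ⟨⟨c, ω⟩, hp⟩ j) = 0 := by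
                rw [← mul_one ((Q * x ^ m) ⟨⟨c, ω⟩, hp⟩ j), this, mul_zero]
              rw [h4]
              simp)
            rw [inv_one, one_smul] at this
            exact this
          have t1' := hr g⁻¹ _ _ t1
          have t2' := hr g⁻¹ _ _ t2
          obtain ⟨f, f0, fn, fs⟩ := q1
          obtain ⟨f', f0', fn', fs'⟩ := q2
          have hdet := hD (m + 1)
            (fun i => if i ≤ m then f i else g⁻¹ • τ p.1.1)
            (fun i => if i ≤ m then f' i else g⁻¹ • τ p.1.1)
            (by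
              intro i hi
              by_cases h3 : i + 1 ≤ m
              · rw [if_pos (by omega), if_pos h3]; exact fs i (by omega)
              · have h4 : i = m := by omega
                rw [if_pos (by omega), if_neg h3, h4, fn]; exact t1')
            (by
              intro i hi
              by_cases h3 : i + 1 ≤ m
              · rw [if_pos (by omega), if_pos h3]; exact fs' i (by omega)
              · have h4 : i = m := by omega
                rw [if_pos (by omega), if_neg h3, h4, fn']; exact t2')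
            (by simp [f0, f0']) (by simp) m (by omega)
          rw [if_pos le_rfl, if_pos le_rfl, fn, fn'] at hdet
          exact (smul_left_cancel _ hdet).symm
        · exact if_neg hc
      · intro h3
        exact absurd (Finset.mem_univ _) h3
    obtain ⟨h', hh'⟩ := exists_restr hQx
    obtain ⟨d, hd⟩ := ih (Cb σ Y) (fun p => p.1.2) Q (B * S) hQ hBS hQx hQ0 h' hh'
    -- the inclusion
    obtain ⟨f, hf⟩ := factor_inj (LinearMap.range P.vecMulLinear).subtype Subtype.val_injective
      (LinearMap.range Q.vecMulLinear).subtype (by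
        rintro ⟨_, ⟨v, rfl⟩⟩
        refine ⟨⟨_, ⟨v ᵥ* B, rfl⟩⟩, ?_⟩
        change (v ᵥ* B) ᵥ* P = v ᵥ* Q
        rw [Matrix.vecMul_vecMul, ← hQB])
    have hf' : ∀ w, ((f w : LinearMap.range P.vecMulLinear) : J → MonoidAlgebra k G) = w := hf
    have hfinj : Function.Injective f := by
      intro a b hab
      apply Subtype.ext
      rw [← hf', ← hf', hab]
    let g := (LinearMap.range f).mkQ
    have hgsurj : Function.Surjective g := Submodule.mkQ_surjective _
    have hex : ∀ w, g w = 0 ↔ ∃ w', f w' = w := by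
      intro w
      change (LinearMap.range f).mkQ w = 0 ↔ _
      rw [Submodule.mkQ_apply, Submodule.Quotient.mk_eq_zero]
      rfl
    obtain ⟨n₁, hn₁⟩ := HR.typed hQ hN
    obtain ⟨n₂, hn₂⟩ := HR.typed hP hN
    obtain ⟨m₁, hm₁⟩ := hn₁.tr U
    obtain ⟨m₂, hm₂⟩ := hn₂.tr U
    obtain ⟨e, he⟩ := TR.quot (h'' := LinearMap.id) f g hfinj hgsurj hex (fun w => rfl)
      (fun w => rfl) hm₁ hm₂
    refine TR.ext' f g hfinj hgsurj hex ?_ ?_ hd he
    · intro w
      apply Subtype.ext
      rw [hh, hf', hf', hh']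
    · intro w
      change g (h w) = g w
      rw [← sub_eq_zero, ← map_sub, hex]
      obtain ⟨_, ⟨v, rfl⟩⟩ := w
      refine ⟨⟨_, ⟨v ᵥ* S, rfl⟩⟩, ?_⟩
      apply Subtype.ext
      rw [hf', Submodule.coe_sub, hh]
      change (v ᵥ* S) ᵥ* Q = (v ᵥ* P) ᵥ* (1 + x) - v ᵥ* P
      rw [Matrix.vecMul_vecMul, hSQ, Matrix.vecMul_add, Matrix.vecMul_one, add_sub_cancel_left,
        Matrix.vecMul_vecMul]

/-- Nilpotent located matrices have the trivial class, if the group rings of the stabilisers of the
locations are regular coherent. -/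
theorem nil_nice (U : Subgroup (MonoidAlgebra k G)ˣ)
    (hr : ∀ (g : G) p q, r p q → r (g • p) (g • q)) (hD : Det r)
    (hN : ∀ j, Nice (MonoidAlgebra k (MulAction.stabilizer G (rep G (σ j)))))
    {x : Matrix J J (MonoidAlgebra k G)} (hx : Ty σ σ (fun q p => r p q) x) {n : ℕ}
    (hn : x ^ n = 0) : Triv U (1 + x) := by
  have h1 : (1 : Matrix J J (MonoidAlgebra k G)) * x = x * 1 := by
    rw [Matrix.one_mul, Matrix.mul_one]
  obtain ⟨h, hh⟩ := exists_restr h1
  obtain ⟨d, hd⟩ := TR.filt U hr hD hx hN n J σ 1 x Ty.one hx h1 (by rw [hn, Matrix.mul_zero]) h hh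
  -- the row space of the identity
  have htop : ∀ v : J → MonoidAlgebra k G, v ∈ LinearMap.range
      (1 : Matrix J J (MonoidAlgebra k G)).vecMulLinear := fun v => ⟨v, Matrix.vecMul_one v⟩
  let e : LinearMap.range (1 : Matrix J J (MonoidAlgebra k G)).vecMulLinear ≃ₗ[MonoidAlgebra k G]
      (J → MonoidAlgebra k G) :=
    { (LinearMap.range (1 : Matrix J J (MonoidAlgebra k G)).vecMulLinear).subtype with
      invFun := fun v => ⟨v, htop v⟩
      left_inv := fun v => rfl
      right_inv := fun v => rfl }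
  have h2 : TR U d (J → MonoidAlgebra k G) (1 + x).vecMulLinear := hd.iso e (fun w => hh w)
  exact TR.free d J (1 + x) h2

end filt

end Pool.Agent.H1.MV
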