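import Pool.Agent.H1.MV.HR

set_option autoImplicit false
set_option linter.unusedSectionVars false
set_option linter.unusedSimpArgs false

/-!
# Matrices with finite resolutions over the group ring of a subgroup
-/

namespace Pool.Agent.H1.MV

open Matrix

section cpt

variable {k : Type} [Ring k] {G : Type} [Group G] (H : Subgroup G)

theorem toSub_coeff (x : MonoidAlgebra k G) (h : H) : (toSub H x).coeff h = x.coeff h := by
  unfold toSub
  rw [MonoidAlgebra.coeff_comapDomain, Finsupp.comapDomain_apply]

theorem toSub_add (x y : MonoidAlgebra k G) : toSub H (x + y) = toSub H x + toSub H y :=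
  MonoidAlgebra.comapDomain_add _ _ _ _

theorem toSub_zero : toSub H (0 : MonoidAlgebra k G) = 0 := MonoidAlgebra.comapDomain_zero _ _

theorem toSub_sum {ι : Type} (s : Finset ι) (f : ι → MonoidAlgebra k G) :
    toSub H (∑ i ∈ s, f i) = ∑ i ∈ s, toSub H (f i) :=
  map_sum (MonoidAlgebra.comapDomainAddMonoidHom (Subtype.val : H → G) Subtype.val_injective) f s

theorem inc_single (h : H) (r : k) :
    inc k H (MonoidAlgebra.single h r) = MonoidAlgebra.single (h : G) r :=
  MonoidAlgebra.mapDomain_single

theorem inc_coeff_coe (y : MonoidAlgebra k H) (h : H) : (inc k H y).coeff (h : G) = y.coeff h := by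
  change (MonoidAlgebra.mapDomain _ y).coeff _ = _
  rw [MonoidAlgebra.coeff_mapDomain]
  exact Finsupp.mapDomain_apply Subtype.val_injective _ _

theorem toSub_inc (y : MonoidAlgebra k H) : toSub H (inc k H y) = y := by
  apply MonoidAlgebra.coeff_injective
  ext h
  rw [toSub_coeff, inc_coeff_coe]

theorem toSub_mul_inc (x : MonoidAlgebra k G) (y : MonoidAlgebra k H) :
    toSub H (x * inc k H y) = toSub H x * y := by
  induction y using MonoidAlgebra.induction_linear with
  | zero => rw [map_zero, mul_zero, mul_zero, toSub_zero]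
  | add a b ha hb => rw [map_add, mul_add, mul_add, toSub_add, ha, hb]
  | single h r =>
    apply MonoidAlgebra.coeff_injective
    ext g
    rw [inc_single, toSub_coeff, MonoidAlgebra.coeff_mul_single_apply,
      MonoidAlgebra.coeff_mul_single_apply, toSub_coeff]
    rfl

theorem toSub_inc_mul (x : MonoidAlgebra k G) (y : MonoidAlgebra k H) :
    toSub H (inc k H y * x) = y * toSub H x := by
  induction y using MonoidAlgebra.induction_linear with
  | zero => rw [map_zero, zero_mul, zero_mul, toSub_zero]
  | add a b ha hb => rw [map_add, add_mul, add_mul, toSub_add, ha, hb]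
  | single h r =>
    apply MonoidAlgebra.coeff_injective
    ext g
    rw [inc_single, toSub_coeff, MonoidAlgebra.coeff_single_mul_apply,
      MonoidAlgebra.coeff_single_mul_apply, toSub_coeff]
    rfl

/-- the component of a coset -/
noncomputable def cpt (q : G ⧸ H) (x : MonoidAlgebra k G) : MonoidAlgebra k H :=
  toSub H (MonoidAlgebra.single (q.out⁻¹) 1 * x)

theorem cpt_coeff (q : G ⧸ H) (x : MonoidAlgebra k G) (h : H) :
    (cpt H q x).coeff h = x.coeff (q.out * h) := by
  unfold cpt
  rw [toSub_coeff, MonoidAlgebra.coeff_single_mul_apply, one_mul, inv_inv]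

theorem cpt_ext {x y : MonoidAlgebra k G} (h : ∀ q, cpt H q x = cpt H q y) : x = y := by
  apply MonoidAlgebra.coeff_injective
  ext g
  have h1 : (QuotientGroup.mk g : G ⧸ H).out⁻¹ * g ∈ H :=
    QuotientGroup.eq.1 (Quotient.out_eq' (QuotientGroup.mk g : G ⧸ H))
  have h2 := congrArg (fun z => z.coeff ⟨_, h1⟩) (h (QuotientGroup.mk g))
  beta_reduce at h2
  rw [cpt_coeff, cpt_coeff] at h2
  change x.coeff (_ * (_ * g)) = y.coeff (_ * (_ * g)) at h2
  rw [mul_inv_cancel_left] at h2
  exact h2

theorem cpt_zero (q : G ⧸ H) : cpt H q (0 : MonoidAlgebra k G) = 0 := by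
  unfold cpt
  rw [mul_zero, toSub_zero]

theorem recon (x : MonoidAlgebra k G) (S : Finset (G ⧸ H))
    (hS : ∀ g, x.coeff g ≠ 0 → (QuotientGroup.mk g : G ⧸ H) ∈ S) :
    ∑ q ∈ S, MonoidAlgebra.single q.out 1 * inc k H (cpt H q x) = x := by
  classical
  apply MonoidAlgebra.coeff_injective
  ext g
  rw [MonoidAlgebra.coeff_sum, Finsupp.finsetSum_apply]
  have h1 : (QuotientGroup.mk g : G ⧸ H).out⁻¹ * g ∈ H :=
    QuotientGroup.eq.1 (Quotient.out_eq' (QuotientGroup.mk g : G ⧸ H))
  have h2 : ∀ q ∈ S, q ≠ QuotientGroup.mk g →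
      (MonoidAlgebra.single q.out 1 * inc k H (cpt H q x)).coeff g = 0 := by
    intro q _ hq
    rw [MonoidAlgebra.coeff_single_mul_apply, one_mul]
    by_contra hne
    apply hq
    have h3 := inc_coeff H _ _ hne
    have h4 : (QuotientGroup.mk q.out : G ⧸ H) = QuotientGroup.mk g := QuotientGroup.eq.2 h3
    rw [← h4]
    exact (Quotient.out_eq' q).symm
  by_cases hg : (QuotientGroup.mk g : G ⧸ H) ∈ S
  · rw [Finset.sum_eq_single_of_mem _ hg h2, MonoidAlgebra.coeff_single_mul_apply, one_mul]
    have h3 := inc_coeff_coe H (cpt H (QuotientGroup.mk g) x) ⟨_, h1⟩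
    rw [cpt_coeff] at h3
    change _ = x.coeff (_ * (_ * g)) at h3
    rw [mul_inv_cancel_left] at h3
    exact h3
  · have h3 : x.coeff g = 0 := by
      by_contra hne
      exact hg (hS g hne)
    rw [h3]
    apply Finset.sum_eq_zero
    intro q hq
    apply h2 q hq
    intro h4
    rw [h4] at hq
    exact hg hq

variable {C D : Type} [Fintype C]

theorem cpt_row (q : G ⧸ H) (v : C → MonoidAlgebra k G) (M : Matrix C D (MonoidAlgebra k H))
    (j : D) : cpt H q ((v ᵥ* M.map (inc k H)) j) = ((fun c => cpt H q (v c)) ᵥ* M) j := by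
  unfold cpt
  change toSub H (_ * ∑ c, v c * inc k H (M c j)) = ∑ c, toSub H (_ * v c) * M c j
  rw [Finset.mul_sum, toSub_sum]
  apply Finset.sum_congr rfl
  intro c _
  rw [← mul_assoc, toSub_mul_inc]

theorem row_zero_iff (v : C → MonoidAlgebra k G) (M : Matrix C D (MonoidAlgebra k H)) :
    v ᵥ* M.map (inc k H) = 0 ↔ ∀ q, (fun c => cpt H q (v c)) ᵥ* M = 0 := by
  constructor
  · intro h q
    funext j
    rw [← cpt_row, h]
    exact cpt_zero H q
  · intro h
    funext j
    apply cpt_ext H
    intro q
    rw [cpt_row, h]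
    exact (cpt_zero H q).symm

/-- the finite set of cosets which meet the supports -/
theorem exists_cosets (v : C → MonoidAlgebra k G) :
    ∃ S : Finset (G ⧸ H), ∀ c g, (v c).coeff g ≠ 0 → (QuotientGroup.mk g : G ⧸ H) ∈ S := by
  classical
  refine ⟨Finset.univ.biUnion fun c => (v c).coeff.support.image fun g => QuotientGroup.mk g, ?_⟩
  intro c g hg
  exact Finset.mem_biUnion.2 ⟨c, Finset.mem_univ _,
    Finset.mem_image.2 ⟨g, Finsupp.mem_support_iff.2 hg, rfl⟩⟩

theorem HR.inc {d : ℕ} : ∀ {C D : Type} [Fintype C] {M : Matrix C D (MonoidAlgebra k H)}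
    (_ : HR (MonoidAlgebra k H) d C D M), HR (MonoidAlgebra k G) d C D (M.map (MV.inc k H)) := by
  induction d with
  | zero =>
    intro C D _ M h
    obtain ⟨E, hE, h⟩ := h
    refine ⟨E.map (MV.inc k H), ?_, ?_⟩
    · rw [← Matrix.map_mul, hE]
    · intro v
      rw [row_zero_iff]
      constructor
      · intro h1
        funext c
        apply cpt_ext H
        intro q
        rw [cpt_row, (h _).1 (h1 q)]
      · intro h1 q
        rw [h]
        funext c
        rw [← cpt_row, h1]
  | succ d ih =>
    intro C D _ M h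
    obtain ⟨B, _, N, hN, hN'⟩ := h
    refine ⟨B, inferInstance, N.map (MV.inc k H), ?_, ih hN'⟩
    intro v
    rw [row_zero_iff]
    constructor
    · intro h1
      have h2 : ∀ q, ∃ u : B → MonoidAlgebra k H, (fun c => cpt H q (v c)) = u ᵥ* N :=
        fun q => (hN _).1 (h1 q)
      choose u hu using h2
      obtain ⟨S, hS⟩ := exists_cosets H v
      refine ⟨fun b => ∑ q ∈ S, MonoidAlgebra.single q.out 1 * MV.inc k H (u q b), ?_⟩
      funext c
      change _ = ∑ b, (∑ q ∈ S, MonoidAlgebra.single q.out 1 * MV.inc k H (u q b)) *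
        MV.inc k H (N b c)
      rw [← recon H (v c) S (hS c)]
      have h3 : ∀ q, cpt H q (v c) = ∑ b, u q b * N b c := fun q => congrFun (hu q) c
      have h4 : ∀ q, MonoidAlgebra.single q.out 1 * MV.inc k H (cpt H q (v c)) =
          ∑ b, MonoidAlgebra.single q.out 1 * MV.inc k H (u q b) * MV.inc k H (N b c) := by
        intro q
        rw [h3, map_sum, Finset.mul_sum]
        apply Finset.sum_congr rfl
        intro b _
        rw [map_mul, mul_assoc]
      rw [Finset.sum_congr rfl (fun q _ => h4 q), Finset.sum_comm]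
      apply Finset.sum_congr rfl
      intro b _
      rw [Finset.sum_mul]
    · rintro ⟨u, rfl⟩ q
      rw [hN]
      refine ⟨fun b => cpt H q (u b), ?_⟩
      funext c
      rw [cpt_row]

end cpt

end Pool.Agent.H1.MV
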