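import Mathlib

set_option autoImplicit false
set_option linter.unusedSectionVars false

/-!
# Matrices over a group ring whose entries are located by a group action
-/

namespace Pool.Agent.H1.MV

open Matrix

section ty

variable {k : Type} [Ring k] {G : Type} [Group G]
variable {J K L : Type} {Ω Ω' Ω'' : Type} [MulAction G Ω] [MulAction G Ω'] [MulAction G Ω'']

theorem coeff_mul_ne_zero {x y : MonoidAlgebra k G} {g : G} (h : (x * y).coeff g ≠ 0) :
    ∃ a b, a * b = g ∧ x.coeff a ≠ 0 ∧ y.coeff b ≠ 0 := by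
  classical
  have h1 := MonoidAlgebra.support_coeff_mul_subset x y (Finsupp.mem_support_iff.2 h)
  rw [Finset.mem_mul] at h1
  obtain ⟨a, ha, b, hb, hab⟩ := h1
  exact ⟨a, b, hab, Finsupp.mem_support_iff.1 ha, Finsupp.mem_support_iff.1 hb⟩

/-- The coefficients of the entries of `M` are located: if `g` occurs in the entry `(j, l)`, then
`g⁻¹ a_j` and `b_l` are in the relation `ρ`. -/
def Ty (a : J → Ω) (b : K → Ω') (ρ : Ω → Ω' → Prop) (M : Matrix J K (MonoidAlgebra k G)) : Prop :=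
  ∀ j l g, (M j l).coeff g ≠ 0 → ρ (g⁻¹ • a j) (b l)

variable {a : J → Ω} {b : K → Ω'} {ρ ρ' : Ω → Ω' → Prop} {M N : Matrix J K (MonoidAlgebra k G)}

theorem Ty.mono (h : Ty a b ρ M) (h' : ∀ x y, ρ x y → ρ' x y) : Ty a b ρ' M :=
  fun j l g hg => h' _ _ (h j l g hg)

theorem Ty.zero : Ty a b ρ (0 : Matrix J K (MonoidAlgebra k G)) := by
  intro j l g hg
  simp at hg

theorem Ty.add (h : Ty a b ρ M) (h' : Ty a b ρ N) : Ty a b ρ (M + N) := by
  intro j l g hg
  by_cases h1 : (M j l).coeff g = 0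
  · apply h' j l g
    intro h2
    apply hg
    rw [Matrix.add_apply, MonoidAlgebra.coeff_add, Finsupp.add_apply, h1, h2, add_zero]
  · exact h j l g h1

theorem Ty.neg (h : Ty a b ρ M) : Ty a b ρ (-M) := by
  intro j l g hg
  apply h j l g
  intro h1
  apply hg
  rw [Matrix.neg_apply, MonoidAlgebra.coeff_neg, Finsupp.neg_apply, h1, neg_zero]

theorem Ty.sub (h : Ty a b ρ M) (h' : Ty a b ρ N) : Ty a b ρ (M - N) := by
  rw [sub_eq_add_neg]
  exact h.add h'.neg

theorem Ty.eq_zero (h : Ty a b ρ M) (h' : Ty a b ρ' M) (hd : ∀ x y, ρ x y → ρ' x y → False) :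
    M = 0 := by
  ext1 j l
  apply MonoidAlgebra.coeff_injective
  ext g
  by_contra hg
  exact hd _ _ (h j l g hg) (h' j l g hg)

/-- uniqueness of the decomposition into parts -/
theorem Ty.parts (h : Ty a b ρ M) (h' : Ty a b ρ' N) (hd : ∀ x y, ρ x y → ρ' x y → False)
    (hs : M + N = 0) : M = 0 ∧ N = 0 := by
  have h1 : M = -N := eq_neg_of_add_eq_zero_left hs
  have h2 : M = 0 := Ty.eq_zero h (by rw [h1]; exact h'.neg) hd
  refine ⟨h2, ?_⟩
  rw [h2, zero_add] at hs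
  exact hs

/-- an invariant relation -/
def GInv (G : Type) [Group G] {Ω Ω' : Type} [MulAction G Ω] [MulAction G Ω']
    (ρ : Ω → Ω' → Prop) : Prop :=
  ∀ (g : G) x y, ρ x y → ρ (g • x) (g • y)

theorem Ty.mul [Fintype K] {c : L → Ω''} {ρ₁ : Ω → Ω' → Prop} {ρ₂ : Ω' → Ω'' → Prop}
    {ρ₃ : Ω → Ω'' → Prop} {M : Matrix J K (MonoidAlgebra k G)}
    {N : Matrix K L (MonoidAlgebra k G)} (h : Ty a b ρ₁ M) (h' : Ty b c ρ₂ N)
    (hinv : GInv G ρ₁) (h3 : ∀ x y z, ρ₁ x y → ρ₂ y z → ρ₃ x z) : Ty a c ρ₃ (M * N) := by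
  classical
  intro j l g hg
  rw [Matrix.mul_apply, MonoidAlgebra.coeff_sum, Finsupp.finsetSum_apply] at hg
  obtain ⟨m, _, hm⟩ := Finset.exists_ne_zero_of_sum_ne_zero hg
  obtain ⟨x, y, hxy, hx, hy⟩ := coeff_mul_ne_zero hm
  have h1 := h j m x hx
  have h2 := h' m l y hy
  have h4 := hinv y⁻¹ _ _ h1
  have h5 := h3 _ _ _ h4 h2
  rw [← hxy, _root_.mul_inv_rev, mul_smul]
  exact h5

theorem Ty.one [DecidableEq J] : Ty a a Eq (1 : Matrix J J (MonoidAlgebra k G)) := by
  intro j l g hg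
  by_cases h : j = l
  · subst h
    rw [Matrix.one_apply_eq, MonoidAlgebra.one_def, MonoidAlgebra.coeff_single] at hg
    by_cases h2 : g = 1
    · subst h2
      simp
    · exact absurd (Finsupp.single_eq_of_ne h2) hg
  · rw [Matrix.one_apply_ne h] at hg
    simp at hg

theorem GInv.eq : GInv G (Eq : Ω → Ω → Prop) := by
  intro g x y h
  rw [h]

open Classical in
/-- the part of a matrix with the given location -/
noncomputable def res (a : J → Ω) (b : K → Ω') (ρ : Ω → Ω' → Prop)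
    (M : Matrix J K (MonoidAlgebra k G)) : Matrix J K (MonoidAlgebra k G) :=
  Matrix.of fun j l => MonoidAlgebra.ofCoeff ((M j l).coeff.filter fun g => ρ (g⁻¹ • a j) (b l))

open Classical in
theorem res_coeff (j : J) (l : K) (g : G) : ((res a b ρ M) j l).coeff g =
    if ρ (g⁻¹ • a j) (b l) then (M j l).coeff g else 0 := by
  unfold res
  rw [Matrix.of_apply, MonoidAlgebra.coeff_ofCoeff, Finsupp.filter_apply]

theorem Ty.res : Ty a b ρ (res a b ρ M) := by
  classical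
  intro j l g hg
  by_contra h
  rw [res_coeff, if_neg h] at hg
  exact hg rfl

theorem Ty.res_of (h : Ty a b ρ' M) : Ty a b (fun x y => ρ x y ∧ ρ' x y) (MV.res a b ρ M) := by
  classical
  intro j l g hg
  rw [res_coeff] at hg
  by_cases h1 : ρ (g⁻¹ • a j) (b l)
  · rw [if_pos h1] at hg
    exact ⟨h1, h j l g hg⟩
  · rw [if_neg h1] at hg
    exact absurd rfl hg

theorem res_add_not (M : Matrix J K (MonoidAlgebra k G)) :
    MV.res a b ρ M + MV.res a b (fun x y => ¬ ρ x y) M = M := by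
  classical
  ext1 j l
  apply MonoidAlgebra.coeff_injective
  ext g
  rw [Matrix.add_apply, MonoidAlgebra.coeff_add, Finsupp.add_apply, res_coeff, res_coeff]
  by_cases h : ρ (g⁻¹ • a j) (b l)
  · rw [if_pos h, if_neg (not_not.2 h), add_zero]
  · rw [if_neg h, if_pos h, zero_add]

theorem res_eq (h : Ty a b ρ M) : MV.res a b ρ M = M := by
  classical
  ext1 j l
  apply MonoidAlgebra.coeff_injective
  ext g
  rw [res_coeff]
  by_cases h1 : ρ (g⁻¹ • a j) (b l)
  · rw [if_pos h1]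
  · rw [if_neg h1]
    by_contra h2
    exact h1 (h j l g (Ne.symm h2))

theorem Ty.mono_at (h : Ty a b ρ M) (h' : ∀ x l, ρ x (b l) → ρ' x (b l)) : Ty a b ρ' M :=
  fun j l g hg => h' _ _ (h j l g hg)

theorem Ty.and_left {P : Ω → Prop} (hP : ∀ (g : G) j, P (g⁻¹ • a j)) (h : Ty a b ρ M) :
    Ty a b (fun x y => P x ∧ ρ x y) M :=
  fun j l g hg => ⟨hP g j, h j l g hg⟩

/-- transfer of the location along an identity -/
theorem Ty.transfer {ρ₁ ρ₂ ρ₃ : Ω → Ω' → Prop} {A B C : Matrix J K (MonoidAlgebra k G)}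
    (hA : Ty a b ρ₁ A) (hB : Ty a b ρ₂ B) (hC : Ty a b ρ₃ C) (h : A + B = C)
    (hd : ∀ x y, ρ₁ x y → ρ₂ x y → False) : Ty a b (fun x y => ρ₁ x y ∧ ρ₃ x y) A := by
  intro j l g hg
  have h1 := hA j l g hg
  refine ⟨h1, hC j l g ?_⟩
  intro h2
  rw [← h, Matrix.add_apply, MonoidAlgebra.coeff_add, Finsupp.add_apply] at h2
  by_cases h3 : (B j l).coeff g = 0
  · rw [h3, add_zero] at h2
    exact hg h2
  · exact hd _ _ h1 (hB j l g h3)

end ty

end Pool.Agent.H1.MV
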