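import Pool.Agent.H1.MV.NilFam
import Pool.Agent.H1.MV.Ty

set_option autoImplicit false
set_option linter.unusedSectionVars false
set_option linter.unusedSimpArgs false

/-!
# Nilpotent located matrices
-/

namespace Pool.Agent.H1.MV

open Matrix TH57.Thr Pool.Agent.K4H37.MT

section rep

variable {G : Type} [Group G] {Ω : Type} [MulAction G Ω]

/-- the chosen representative of the orbit -/
noncomputable def rep (G : Type) [Group G] {Ω : Type} [MulAction G Ω] (x : Ω) : Ω :=
  Quotient.out (Quotient.mk'' x : MulAction.orbitRel.Quotient G Ω)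

theorem rep_exists (x : Ω) : ∃ g : G, g • rep G x = x := by
  have h1 : (Quotient.mk'' (rep G x) : MulAction.orbitRel.Quotient G Ω) = Quotient.mk'' x :=
    Quotient.out_eq' _
  have h2 := (Quotient.eq'' (s₁ := MulAction.orbitRel G Ω)).1 h1.symm
  exact MulAction.mem_orbit_iff.1 ((MulAction.orbitRel_apply).1 h2)

theorem rep_smul (g : G) (x : Ω) : rep G (g • x) = rep G x := by
  unfold rep
  congr 1
  apply (Quotient.eq'' (s₁ := MulAction.orbitRel G Ω)).2
  exact ⟨g, rfl⟩

theorem rep_rep (x : Ω) : rep G (rep G x) = rep G x := by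
  obtain ⟨g, hg⟩ := rep_exists (G := G) x
  have := rep_smul g (rep G x)
  rw [hg] at this
  exact this.symm

theorem rep_of_smul {x y : Ω} {g : G} (h : g • x = y) : rep G x = rep G y := by
  rw [← h, rep_smul]

end rep

section dg

variable {k : Type} [Ring k] {G : Type} [Group G] {J K : Type} [DecidableEq J] [DecidableEq K]
  [Fintype J] [Fintype K]

/-- the diagonal matrix of group elements -/
noncomputable def dg (k : Type) [Ring k] (c : J → G) : (Matrix J J (MonoidAlgebra k G))ˣ where
  val := Matrix.diagonal fun j => MonoidAlgebra.single (c j) 1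
  inv := Matrix.diagonal fun j => MonoidAlgebra.single (c j)⁻¹ 1
  val_inv := by
    rw [Matrix.diagonal_mul_diagonal, ← Matrix.diagonal_one]
    congr 1
    funext j
    rw [MonoidAlgebra.single_mul_single, mul_inv_cancel, MonoidAlgebra.one_def, one_mul]
  inv_val := by
    rw [Matrix.diagonal_mul_diagonal, ← Matrix.diagonal_one]
    congr 1
    funext j
    rw [MonoidAlgebra.single_mul_single, inv_mul_cancel, MonoidAlgebra.one_def, one_mul]

theorem dg_inv (c : J → G) : (dg k c)⁻¹ = dg k (fun j => (c j)⁻¹) := by
  apply Units.ext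
  rfl

variable {Ω Ω' : Type} [MulAction G Ω] [MulAction G Ω'] {a : J → Ω} {b : K → Ω'}
  {ρ : Ω → Ω' → Prop} {M : Matrix J K (MonoidAlgebra k G)}

theorem Ty.dg_left (h : Ty a b ρ M) (c : J → G) :
    Ty (fun j => c j • a j) b ρ ((dg k c).val * M) := by
  intro j l g hg
  have h1 : ((dg k c).val * M) j l = MonoidAlgebra.single (c j) 1 * M j l :=
    Matrix.diagonal_mul _ _ _ _
  rw [h1, MonoidAlgebra.coeff_single_mul_apply, one_mul] at hg
  have h2 := h j l _ hg
  rw [_root_.mul_inv_rev, inv_inv, mul_smul] at h2
  exact h2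

theorem Ty.dg_right (h : Ty a b ρ M) (hinv : GInv G ρ) (c : K → G) :
    Ty a (fun l => (c l)⁻¹ • b l) ρ (M * (dg k c).val) := by
  intro j l g hg
  have h1 : (M * (dg k c).val) j l = M j l * MonoidAlgebra.single (c l) 1 :=
    Matrix.mul_diagonal _ _ _ _
  rw [h1, MonoidAlgebra.coeff_mul_single_apply, mul_one] at hg
  have h2 := h j l _ hg
  rw [_root_.mul_inv_rev, inv_inv, mul_smul] at h2
  have h3 := hinv (c l)⁻¹ _ _ h2
  rw [inv_smul_smul] at h3
  exact h3

end dg

section path

variable {X : Type}

/-- there is a path of length `n` -/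
def Path (r : X → X → Prop) (n : ℕ) (p q : X) : Prop :=
  ∃ f : ℕ → X, f 0 = p ∧ f n = q ∧ ∀ i < n, r (f i) (f (i + 1))

theorem Path.zero {r : X → X → Prop} (p : X) : Path r 0 p p := ⟨fun _ => p, rfl, rfl, by simp⟩

theorem Path.snoc {r : X → X → Prop} {n : ℕ} {p q s : X} (h : Path r n p q) (h' : r q s) :
    Path r (n + 1) p s := by
  obtain ⟨f, h0, h1, h2⟩ := h
  refine ⟨fun i => if i ≤ n then f i else s, ?_, ?_, ?_⟩
  · simp [h0]
  · simp
  · intro i hi
    beta_reduce
    by_cases h3 : i + 1 ≤ n
    · rw [if_pos (by omega), if_pos h3]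
      exact h2 i (by omega)
    · have h4 : i = n := by omega
      rw [if_pos (by omega), if_neg h3, h4, h1]
      exact h'

theorem Path.cons {r : X → X → Prop} {n : ℕ} {p q s : X} (h : r p q) (h' : Path r n q s) :
    Path r (n + 1) p s := by
  obtain ⟨f, h0, h1, h2⟩ := h'
  refine ⟨fun i => if i = 0 then p else f (i - 1), ?_, ?_, ?_⟩
  · simp
  · simp [h1]
  · intro i hi
    beta_reduce
    by_cases h3 : i = 0
    · rw [if_pos h3, if_neg (by omega), h3]
      simp only [zero_add, Nat.sub_self, h0]
      exact h
    · rw [if_neg h3, if_neg (by omega)]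
      have := h2 (i - 1) (by omega)
      rw [show i - 1 + 1 = i + 1 - 1 by omega] at this
      exact this

/-- determinacy of paths -/
def Det (r : X → X → Prop) : Prop :=
  ∀ (n : ℕ) (p q : ℕ → X), (∀ i < n, r (p i) (p (i + 1))) → (∀ i < n, r (q i) (q (i + 1))) →
    p 0 = q 0 → p n = q n → ∀ i ≤ n, p i = q i

variable {k : Type} [Ring k] {G : Type} [Group G] [MulAction G X] {J : Type} [Fintype J]
  [DecidableEq J] {σ : J → X} {r : X → X → Prop}

theorem Path.smul (hr : ∀ (g : G) p q, r p q → r (g • p) (g • q)) {n : ℕ} {p q : X}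
    (h : Path r n p q) (g : G) : Path r n (g • p) (g • q) := by
  obtain ⟨f, h0, h1, h2⟩ := h
  exact ⟨fun i => g • f i, by beta_reduce; rw [h0], by beta_reduce; rw [h1],
    fun i hi => hr g _ _ (h2 i hi)⟩

theorem Ty.pow (hr : ∀ (g : G) p q, r p q → r (g • p) (g • q))
    {x : Matrix J J (MonoidAlgebra k G)} (hx : Ty σ σ (fun q p => r p q) x) (n : ℕ) :
    Ty σ σ (fun q p => Path r n p q) (x ^ n) := by
  induction n with
  | zero =>
    rw [pow_zero]
    exact Ty.one.mono (fun q p h => by rw [h]; exact Path.zero _)
  | succ n ih =>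
    rw [pow_succ']
    exact hx.mul ih (fun g q p h => hr g _ _ h) (fun s q p h h' => h'.snoc h)

end path

section free

variable {k : Type} [Ring k] {G : Type} [Group G] {X : Type} [MulAction G X]
  {J : Type} [Fintype J] [DecidableEq J] {σ : J → X} {r : X → X → Prop}

/-- a product of elements of the group ring for which only one pair of factors contributes -/
theorem coeff_mul_unique (x y : MonoidAlgebra k G) (g h : G)
    (hu : ∀ u v, u * v = g * h → x.coeff u ≠ 0 → y.coeff v ≠ 0 → v = h) :
    (x * y).coeff (g * h) = x.coeff g * y.coeff h := by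
  rw [MonoidAlgebra.coeff_mul_apply_right]
  rw [Finsupp.sum_eq_single h]
  · rw [mul_inv_cancel_right]
  · intro v hv hne
    by_contra h1
    apply hne
    refine hu (g * h * v⁻¹) v (by group) (fun h2 => h1 (by rw [h2, zero_mul])) hv
  · intro _
    rw [mul_zero]

theorem coeff_mul_none (x y : MonoidAlgebra k G) (g : G)
    (hu : ∀ u v, u * v = g → x.coeff u ≠ 0 → y.coeff v ≠ 0 → False) :
    (x * y).coeff g = 0 := by
  by_contra h
  obtain ⟨a, b, h1, h2, h3⟩ := coeff_mul_ne_zero h
  exact hu a b h1 h2 h3

open Classical in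
/-- the coefficient matrix of a letter -/
noncomputable def Lm (σ : J → X) (x : Matrix J J (MonoidAlgebra k G)) (a : X × G × X) :
    Matrix J J k :=
  Matrix.of fun j' j => if σ j' = a.1 ∧ σ j = a.2.2 then (x j' j).coeff a.2.1 else 0

theorem Lm_words (hr : ∀ (g : G) p q, r p q → r (g • p) (g • q)) (hD : Det r)
    (hσ : ∀ (g : G) j j', g • σ j = σ j' → σ j = σ j' ∧ g = 1)
    {x : Matrix J J (MonoidAlgebra k G)} (hx : Ty σ σ (fun q p => r p q) x) :
    ∀ (w : List (X × G × X)), w ≠ [] → (w.map (Lm σ x)).prod = 0 ∨
      ∃ (h : G) (t' t : X), (∃ j, σ j = t') ∧ Path r w.length t (h⁻¹ • t') ∧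
        ∀ j' j, ((σ j' = t' ∧ σ j = t) → (w.map (Lm σ x)).prod j' j =
          ((x ^ w.length) j' j).coeff h) ∧
          (¬ (σ j' = t' ∧ σ j = t) → (w.map (Lm σ x)).prod j' j = 0) := by
  classical
  intro w
  induction w with
  | nil => intro h; exact absurd rfl h
  | cons a w ih =>
    intro _
    by_cases hL : Lm σ x a = 0
    · left
      rw [List.map_cons, List.prod_cons, hL, Matrix.zero_mul]
    -- the letter is legitimate
    have hex : ∃ j' j, Lm σ x a j' j ≠ 0 := by
      by_contra hcon
      push Not at hcon
      exact hL (by ext j' j; exact hcon j' j)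
    obtain ⟨j₁, j₀, h10⟩ := hex
    have hL0 : σ j₁ = a.1 ∧ σ j₀ = a.2.2 ∧ (x j₁ j₀).coeff a.2.1 ≠ 0 := by
      unfold Lm at h10
      rw [Matrix.of_apply] at h10
      by_cases h : σ j₁ = a.1 ∧ σ j₀ = a.2.2
      · rw [if_pos h] at h10
        exact ⟨h.1, h.2, h10⟩
      · rw [if_neg h] at h10
        exact absurd rfl h10
    have hra : r a.2.2 (a.2.1⁻¹ • a.1) := by
      have := hx j₁ j₀ a.2.1 hL0.2.2
      rw [hL0.1, hL0.2.1] at this
      exact this
    by_cases hw : w = []
    · subst hw
      right
      refine ⟨a.2.1, a.1, a.2.2, ⟨j₁, hL0.1⟩, ?_, ?_⟩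
      · exact (Path.zero _).snoc hra
      · intro j' j
        have e1 : ((List.map (Lm σ x) [a]).prod) = Lm σ x a := by simp
        have e2 : x ^ ([a] : List (X × G × X)).length = x := by simp
        rw [e1, e2]
        unfold Lm
        rw [Matrix.of_apply]
        exact ⟨fun h => if_pos h, fun h => if_neg h⟩
    · rcases ih hw with h0 | ⟨h, t', t, ⟨jt, hjt⟩, hp, hM⟩
      · left
        rw [List.map_cons, List.prod_cons, h0, Matrix.mul_zero]
      · by_cases hc : a.2.2 = t'
        · right
          refine ⟨a.2.1 * h, a.1, t, ⟨j₁, hL0.1⟩, ?_, ?_⟩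
          · rw [_root_.mul_inv_rev, mul_smul]
            refine hp.snoc ?_
            rw [← hc]
            exact hr h⁻¹ _ _ hra
          · intro j'' j
            rw [List.map_cons, List.prod_cons, Matrix.mul_apply]
            constructor
            · rintro ⟨hj'', hj⟩
              rw [List.length_cons, pow_succ', Matrix.mul_apply, MonoidAlgebra.coeff_sum,
                Finsupp.finsetSum_apply]
              apply Finset.sum_congr rfl
              intro j' _
              -- uniqueness of the factors
              have huniq : ∀ u v, u * v = a.2.1 * h → (x j'' j').coeff u ≠ 0 →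
                  ((x ^ w.length) j' j).coeff v ≠ 0 → v = h ∧ σ j' = t' := by
                intro u v huv hu hv
                have p1 := hx j'' j' u hu
                obtain ⟨f, f0, fn, fs⟩ := hx.pow hr w.length j' j v hv
                have p3 : r (v⁻¹ • σ j') ((a.2.1 * h)⁻¹ • a.1) := by
                  have := hr v⁻¹ _ _ p1
                  rw [← mul_smul, ← _root_.mul_inv_rev, huv, hj''] at this
                  exact this
                obtain ⟨f', f0', fn', fs'⟩ := hp
                have p4 : r (h⁻¹ • t') ((a.2.1 * h)⁻¹ • a.1) := by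
                  rw [_root_.mul_inv_rev, mul_smul, ← hc]
                  exact hr h⁻¹ _ _ hra
                have hdet := hD (w.length + 1)
                  (fun i => if i ≤ w.length then f i else (a.2.1 * h)⁻¹ • a.1)
                  (fun i => if i ≤ w.length then f' i else (a.2.1 * h)⁻¹ • a.1)
                  (by
                    intro i hi
                    by_cases h3 : i + 1 ≤ w.length
                    · rw [if_pos (by omega), if_pos h3]; exact fs i (by omega)
                    · have h4 : i = w.length := by omega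
                      rw [if_pos (by omega), if_neg h3, h4, fn]; exact p3)
                  (by
                    intro i hi
                    by_cases h3 : i + 1 ≤ w.length
                    · rw [if_pos (by omega), if_pos h3]; exact fs' i (by omega)
                    · have h4 : i = w.length := by omega
                      rw [if_pos (by omega), if_neg h3, h4, fn']; exact p4)
                  (by simp [f0, f0', hj]) (by simp) w.length (by omega)
                rw [if_pos le_rfl, if_pos le_rfl, fn, fn', ← hjt] at hdet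
                have h5 : (h * v⁻¹) • σ j' = σ jt := by
                  rw [mul_smul, hdet, smul_inv_smul]
                obtain ⟨h6, h7⟩ := hσ _ _ _ h5
                refine ⟨(mul_inv_eq_one.1 h7).symm, by rw [h6, hjt]⟩
              by_cases hj' : σ j' = t'
              · rw [((hM j' j).1 ⟨hj', hj⟩)]
                rw [coeff_mul_unique _ _ _ _ (fun u v h1 h2 h3 => (huniq u v h1 h2 h3).1)]
                unfold Lm
                rw [Matrix.of_apply, if_pos ⟨hj'', by rw [hj', hc]⟩]
              · rw [((hM j' j).2 (fun h => hj' h.1)), mul_zero]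
                rw [coeff_mul_none _ _ _ (fun u v h1 h2 h3 => hj' (huniq u v h1 h2 h3).2)]
            · intro hn
              apply Finset.sum_eq_zero
              intro j' _
              by_cases hj'' : σ j'' = a.1
              · have hj : ¬ σ j = t := fun h => hn ⟨hj'', h⟩
                rw [((hM j' j).2 (fun h => hj h.2)), mul_zero]
              · unfold Lm
                rw [Matrix.of_apply, if_neg (fun h => hj'' h.1), zero_mul]
        · left
          rw [List.map_cons, List.prod_cons]
          ext j'' j
          rw [Matrix.mul_apply, Matrix.zero_apply]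
          apply Finset.sum_eq_zero
          intro j' _
          by_cases hj' : σ j' = t'
          · unfold Lm
            rw [Matrix.of_apply, if_neg (fun h => hc (h.2.symm.trans hj')), zero_mul]
          · rw [((hM j' j).2 (fun h => hj' h.1)), mul_zero]

open Classical in
/-- the group elements which occur in `x` -/
noncomputable def suppF (x : Matrix J J (MonoidAlgebra k G)) : Finset G :=
  (Finset.univ : Finset (J × J)).biUnion fun p => (x p.1 p.2).coeff.support

theorem mem_suppF {x : Matrix J J (MonoidAlgebra k G)} {j' j : J} {g : G}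
    (h : (x j' j).coeff g ≠ 0) : g ∈ suppF x := by
  classical
  unfold suppF
  rw [Finset.mem_biUnion]
  exact ⟨(j', j), Finset.mem_univ _, Finsupp.mem_support_iff.2 h⟩

theorem sum_suppF (x : Matrix J J (MonoidAlgebra k G)) (j' j : J) :
    ∑ g ∈ suppF x, MonoidAlgebra.single g ((x j' j).coeff g) = x j' j := by
  conv_rhs => rw [← MonoidAlgebra.sum_coeff_single (x j' j)]
  rw [Finsupp.sum_of_support_subset _ (s := suppF x)]
  · intro g hg
    exact mem_suppF (Finsupp.mem_support_iff.1 hg)
  · intro g _
    exact MonoidAlgebra.single_zero g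

end free

section free

variable {k : Type} [CommRing k] {G : Type} [Group G] {X : Type} [MulAction G X]
  {J : Type} [Fintype J] [DecidableEq J] {σ : J → X} {r : X → X → Prop}
  [IsDomain k] [IsPrincipalIdealRing k] {U : Subgroup (MonoidAlgebra k G)ˣ}

theorem nil_free' (hr : ∀ (g : G) p q, r p q → r (g • p) (g • q)) (hD : Det r)
    (hσ : ∀ (g : G) j j', g • σ j = σ j' → σ j = σ j' ∧ g = 1)
    {x : Matrix J J (MonoidAlgebra k G)} (hx : Ty σ σ (fun q p => r p q) x) (n : ℕ)
    (hn : x ^ n = 0) : Triv U (1 + x) := by
  classical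
  let Sg : Finset X := Finset.univ.image σ
  let S : Finset (X × G × X) := Sg ×ˢ (suppF x ×ˢ Sg)
  have h1 := nil_family (R := MonoidAlgebra k G) (U := U) (n + 1) J (↥S)
    (fun a => Lm σ x a.1) (fun a => MonoidAlgebra.single a.1.2.1 1) (by
      intro w hw
      have h2 : (w.map fun a => Lm σ x a.1) = (w.map Subtype.val).map (Lm σ x) := by
        rw [List.map_map]; rfl
      rw [h2]
      have hw' : (w.map Subtype.val : List (X × G × X)) ≠ [] := by
        intro h
        have := congrArg List.length h
        rw [List.length_map, hw] at this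
        simp at this
      rcases Lm_words hr hD hσ hx _ hw' with h0 | ⟨h, t', t, _, _, hM⟩
      · exact h0
      · ext j' j
        rw [Matrix.zero_apply]
        by_cases hc : σ j' = t' ∧ σ j = t
        · rw [(hM j' j).1 hc, List.length_map, hw, pow_succ, hn, Matrix.zero_mul]
          simp
        · rw [(hM j' j).2 hc])
  convert h1 using 2
  ext1 j' j
  rw [Matrix.sum_apply]
  have h3 : ∀ a : ↥S, (MonoidAlgebra.single a.1.2.1 (1 : k) •
      (Lm σ x a.1).map (algebraMap k (MonoidAlgebra k G))) j' j
      = (fun b : X × G × X => MonoidAlgebra.single b.2.1 (Lm σ x b j' j)) a.1 := by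
    intro a
    rw [Matrix.smul_apply, Matrix.map_apply, smul_eq_mul]
    change MonoidAlgebra.single a.1.2.1 (1 : k) * MonoidAlgebra.single 1 (Lm σ x a.1 j' j) = _
    rw [MonoidAlgebra.single_mul_single, mul_one, one_mul]
  rw [Finset.sum_congr rfl (fun a _ => h3 a),
    Finset.sum_coe_sort S (fun b : X × G × X => MonoidAlgebra.single b.2.1 (Lm σ x b j' j))]
  rw [Finset.sum_product]
  rw [Finset.sum_eq_single (σ j')]
  · rw [Finset.sum_product]
    conv_lhs => rw [← sum_suppF x j' j]
    apply Finset.sum_congr rfl
    intro g _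
    rw [Finset.sum_eq_single (σ j)]
    · congr 1
      unfold Lm
      rw [Matrix.of_apply, if_pos ⟨rfl, rfl⟩]
    · intro t _ ht
      unfold Lm
      rw [Matrix.of_apply, if_neg (fun h => ht h.2.symm)]
      exact MonoidAlgebra.single_zero _
    · intro h
      exact absurd (Finset.mem_image_of_mem _ (Finset.mem_univ _)) h
  · intro t _ ht
    apply Finset.sum_eq_zero
    intro b _
    unfold Lm
    rw [Matrix.of_apply, if_neg (fun h => ht h.1.symm)]
    exact MonoidAlgebra.single_zero _
  · intro h
    exact absurd (Finset.mem_image_of_mem _ (Finset.mem_univ _)) h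

theorem triv_conj {R : Type} [Ring R] {U : Subgroup Rˣ} {x : Matrix J J R} (g : (Matrix J J R)ˣ)
    (h : Triv U (1 + g⁻¹.val * x * g.val)) : Triv U (1 + x) := by
  obtain ⟨w, hw, hT⟩ := h
  refine ⟨g * w * g⁻¹, ?_, TT_conj U _ _ hT⟩
  rw [Units.val_mul, Units.val_mul, hw, mul_add, add_mul, mul_one, Units.mul_inv]
  congr 1
  rw [← mul_assoc, ← mul_assoc, Units.mul_inv, one_mul, mul_assoc, Units.mul_inv, mul_one]

theorem nil_free (hr : ∀ (g : G) p q, r p q → r (g • p) (g • q)) (hD : Det r)
    (hσ : ∀ (g : G) j, g • σ j = σ j → g = 1)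
    {x : Matrix J J (MonoidAlgebra k G)} (hx : Ty σ σ (fun q p => r p q) x) (n : ℕ)
    (hn : x ^ n = 0) : Triv U (1 + x) := by
  have hc : ∀ j, ∃ g : G, g • rep G (σ j) = σ j := fun j => rep_exists _
  choose c hc using hc
  have hc' : ∀ j, (c j)⁻¹ • σ j = rep G (σ j) := by
    intro j
    rw [inv_smul_eq_iff, hc]
  apply triv_conj (dg k c)
  have hinv : GInv G (fun (q p : X) => r p q) := fun g q p h => hr g _ _ h
  have h1 : Ty (fun j => rep G (σ j)) (fun j => rep G (σ j)) (fun q p => r p q)
      ((dg k c)⁻¹.val * x * (dg k c).val) := by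
    have h2 := (hx.dg_left (fun j => (c j)⁻¹)).dg_right hinv c
    rw [dg_inv]
    have h3 : (fun j => (c j)⁻¹ • σ j) = fun j => rep G (σ j) := funext hc'
    rw [h3] at h2
    exact h2
  refine nil_free' hr hD ?_ h1 n ?_
  · intro g j j' h
    have h2 := rep_of_smul h
    rw [rep_rep, rep_rep] at h2
    refine ⟨h2, ?_⟩
    rw [← h2] at h
    have h4 : (c j * g * (c j)⁻¹) • σ j = σ j := by
      rw [mul_smul, mul_smul, hc' j, h, hc]
    have h5 := hσ _ _ h4
    rw [mul_inv_eq_one] at h5
    exact mul_eq_left.1 h5
  · have h2 : ∀ m : ℕ, ((dg k c)⁻¹.val * x * (dg k c).val) ^ m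
        = (dg k c)⁻¹.val * x ^ m * (dg k c).val := by
      intro m
      induction m with
      | zero => simp
      | succ m ih =>
        rw [pow_succ, ih, pow_succ]
        calc _ = (dg k c)⁻¹.val * x ^ m * ((dg k c).val * (dg k c)⁻¹.val) * x * (dg k c).val := by
              simp only [mul_assoc]
          _ = _ := by rw [Units.mul_inv, mul_one]; simp only [mul_assoc]
    rw [h2, hn, mul_zero, zero_mul]

end free

end Pool.Agent.H1.MV
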