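import Pool.Agent.H1.MV.Res2
import Pool.Agent.H1.MV.Glue
import Pool.Agent.H1.MV.NilT

set_option autoImplicit false
set_option linter.unusedSectionVars false
set_option linter.unusedSimpArgs false

/-!
# Matrices with finite free resolutions
-/

namespace Pool.Agent.H1.MV

open Matrix TH57.Thr Pool.Agent.K4H37.MT

section hr

/-- The matrix `M` starts a finite exact sequence of length `d`: the row vectors killed by `M` are
the row space of a matrix with the same property for `d - 1`; for `d = 0` they are the image of an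
idempotent matrix. -/
def HR (A : Type) [Ring A] : ∀ (_ : ℕ) (C D : Type) [Fintype C] (_ : Matrix C D A), Prop
  | 0, C, _, _, M => ∃ E : Matrix C C A, E * E = E ∧ ∀ v : C → A, v ᵥ* M = 0 ↔ v ᵥ* E = v
  | d + 1, C, _, _, M => ∃ (B : Type) (_ : Fintype B) (N : Matrix B C A),
      (∀ v : C → A, v ᵥ* M = 0 ↔ ∃ u : B → A, v = u ᵥ* N) ∧ HR A d B C N

/-- All kernels of matrices have finite resolutions by finitely generated projective modules. -/
def Nice (A : Type) [Ring A] : Prop :=
  ∀ (C D : Type) [Fintype C] [Fintype D] (M : Matrix C D A), ∃ d, HR A d C D M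

variable {A : Type} [Ring A]

theorem HR.mono_succ {d : ℕ} : ∀ {C D : Type} [Fintype C] {M : Matrix C D A} (_ : HR A d C D M),
    HR A (d + 1) C D M := by
  classical
  induction d with
  | zero =>
    intro C D _ M H
    obtain ⟨E, hE, h⟩ := H
    refine ⟨C, inferInstance, E, ?_, 1 - E, ?_, ?_⟩
    · intro v
      rw [h]
      constructor
      · intro h1
        exact ⟨v, h1.symm⟩
      · rintro ⟨u, rfl⟩
        rw [Matrix.vecMul_vecMul, hE]
    · rw [Matrix.mul_sub, Matrix.mul_one, Matrix.sub_mul, Matrix.one_mul, hE, sub_self, sub_zero]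
    · intro v
      rw [Matrix.vecMul_sub, Matrix.vecMul_one, sub_eq_self]
  | succ d ih =>
    intro C D _ M H
    obtain ⟨B, _, N, hN, hN'⟩ := H
    exact ⟨B, inferInstance, N, hN, ih hN'⟩

theorem HR.mono {d e : ℕ} (hde : d ≤ e) {C D : Type} [Fintype C] {M : Matrix C D A}
    (H : HR A d C D M) : HR A e C D M := by
  induction hde with
  | refl => exact H
  | step _ ih => exact ih.mono_succ

theorem vecMul_submatrix_equiv' {C D C' D' : Type} [Fintype C] [Fintype C'] (e : C' ≃ C)
    (f : D' → D) (M : Matrix C D A) (v : C' → A) :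
    v ᵥ* M.submatrix e f = ((v ∘ e.symm) ᵥ* M) ∘ f := by
  funext j
  change ∑ i, v i * M (e i) (f j) = ∑ i, v (e.symm i) * M i (f j)
  rw [← Equiv.sum_comp e]
  simp

theorem HR.reindex_aux (d : ℕ) {B C C' : Type} [Fintype B] (e : C' ≃ C) {N : Matrix B C A}
    (H : HR A d B C N) : HR A d B C' (N.submatrix id e) := by
  have hz : ∀ v : B → A, v ᵥ* N.submatrix id e = 0 ↔ v ᵥ* N = 0 := by
    intro v
    have h0 : v ᵥ* N.submatrix id e = (v ᵥ* N) ∘ e := rfl
    rw [h0]
    constructor
    · intro h
      funext j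
      have := congrFun h (e.symm j)
      simpa using this
    · intro h
      rw [h]; rfl
  cases d with
  | zero =>
    obtain ⟨E, hE, h⟩ := H
    exact ⟨E, hE, fun v => (hz v).trans (h v)⟩
  | succ d =>
    obtain ⟨B', _, N', hN, hN'⟩ := H
    exact ⟨B', inferInstance, N', fun v => (hz v).trans (hN v), hN'⟩

theorem HR.reindex {d : ℕ} {C D C' D' : Type} [Fintype C] [Fintype C'] (e : C' ≃ C)
    (f : D' ≃ D) {M : Matrix C D A} (H : HR A d C D M) : HR A d C' D' (M.submatrix e f) := by
  have h1 : ∀ v : C' → A, v ᵥ* M.submatrix e f = 0 ↔ (v ∘ e.symm) ᵥ* M = 0 := by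
    intro v
    rw [vecMul_submatrix_equiv']
    constructor
    · intro h
      funext j
      have := congrFun h (f.symm j)
      simpa using this
    · intro h
      rw [h]; rfl
  cases d with
  | zero =>
    obtain ⟨E, hE, h⟩ := H
    refine ⟨E.submatrix e e, ?_, ?_⟩
    · rw [Matrix.submatrix_mul_equiv, hE]
    · intro v
      rw [h1, h, vecMul_submatrix_equiv']
      constructor
      · intro h2
        rw [h2]
        funext i
        simp
      · intro h2
        funext i
        have := congrFun h2 (e.symm i)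
        simpa using this
  | succ d =>
    obtain ⟨B, _, N, hN, hN'⟩ := H
    refine ⟨B, inferInstance, N.submatrix id e, ?_, HR.reindex_aux d e hN'⟩
    intro v
    rw [h1, hN]
    constructor
    · rintro ⟨u, hu⟩
      refine ⟨u, ?_⟩
      funext i
      have h3 := congrFun hu (e i)
      rw [Function.comp_apply, Equiv.symm_apply_apply] at h3
      exact h3
    · rintro ⟨u, hu⟩
      refine ⟨u, ?_⟩
      funext i
      have := congrFun hu (e.symm i)
      simp only [Function.comp_apply]
      rw [this]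
      change ∑ b, u b * N b (e (e.symm i)) = _
      rw [Equiv.apply_symm_apply]; rfl

theorem HR.unit {d : ℕ} : ∀ {C D : Type} [Fintype C] [DecidableEq C] [Fintype D] [DecidableEq D]
    (P : (Matrix C C A)ˣ) (Q : (Matrix D D A)ˣ) {M : Matrix C D A} (_ : HR A d C D M),
    HR A d C D (P.val * M * Q.val) := by
  classical
  have key : ∀ {C D : Type} [Fintype C] [DecidableEq C] [Fintype D] [DecidableEq D]
      (P : (Matrix C C A)ˣ) (Q : (Matrix D D A)ˣ) (M : Matrix C D A) (v : C → A),
      v ᵥ* (P.val * M * Q.val) = 0 ↔ (v ᵥ* P.val) ᵥ* M = 0 := by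
    intro C D _ _ _ _ P Q M v
    constructor
    · intro hv
      have h2 := congrArg (fun w => w ᵥ* (Q⁻¹).val) hv
      beta_reduce at h2
      rw [Matrix.zero_vecMul, Matrix.vecMul_vecMul, Matrix.mul_assoc, Matrix.mul_assoc,
        Units.mul_inv, Matrix.mul_one, ← Matrix.vecMul_vecMul] at h2
      exact h2
    · intro hv
      rw [← Matrix.vecMul_vecMul, ← Matrix.vecMul_vecMul, hv, Matrix.zero_vecMul]
  induction d with
  | zero =>
    intro C D _ _ _ _ P Q M H
    obtain ⟨E, hE, h⟩ := H
    refine ⟨P.val * E * (P⁻¹).val, ?_, ?_⟩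
    · calc P.val * E * (P⁻¹).val * (P.val * E * (P⁻¹).val)
          = P.val * E * ((P⁻¹).val * P.val) * E * (P⁻¹).val := by simp only [Matrix.mul_assoc]
        _ = P.val * E * (P⁻¹).val := by
          rw [Units.inv_mul, Matrix.mul_one, Matrix.mul_assoc P.val E E, hE]
    · intro v
      rw [key, h, ← Matrix.vecMul_vecMul, ← Matrix.vecMul_vecMul]
      constructor
      · intro h1
        rw [h1, Matrix.vecMul_vecMul, Units.mul_inv, Matrix.vecMul_one]
      · intro h1
        have h2 := congrArg (fun w => w ᵥ* P.val) h1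
        beta_reduce at h2
        rw [Matrix.vecMul_vecMul _ (P⁻¹).val, Units.inv_mul, Matrix.vecMul_one] at h2
        exact h2
  | succ d ih =>
    intro C D _ _ _ _ P Q M H
    obtain ⟨B, _, N, hN, hN'⟩ := H
    refine ⟨B, inferInstance, 1 * N * (P⁻¹).val, ?_, ih 1 P⁻¹ hN'⟩
    intro v
    rw [key, hN]
    constructor
    · rintro ⟨u, hu⟩
      refine ⟨u, ?_⟩
      rw [Matrix.one_mul, ← Matrix.vecMul_vecMul, ← hu, Matrix.vecMul_vecMul, Units.mul_inv,
        Matrix.vecMul_one]
    · rintro ⟨u, hu⟩
      refine ⟨u, ?_⟩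
      rw [hu, Matrix.one_mul, Matrix.vecMul_vecMul, Matrix.mul_assoc, Units.inv_mul,
        Matrix.mul_one]

theorem vecMul_blockDiagonal {Θ : Type} [Fintype Θ] [DecidableEq Θ] {C D : Θ → Type}
    [∀ θ, Fintype (C θ)] (M : ∀ θ, Matrix (C θ) (D θ) A) (v : (Σ θ, C θ) → A) (θ : Θ) (j : D θ) :
    (v ᵥ* blockDiagonal' M) ⟨θ, j⟩ = ((fun c => v ⟨θ, c⟩) ᵥ* M θ) j := by
  change ∑ i : (Σ θ, C θ), v i * blockDiagonal' M i ⟨θ, j⟩ = ∑ c, v ⟨θ, c⟩ * M θ c j
  rw [Fintype.sum_sigma, Finset.sum_eq_single θ]
  · apply Finset.sum_congr rfl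
    intro c _
    rw [blockDiagonal'_apply_eq]
  · intro θ' _ hθ
    apply Finset.sum_eq_zero
    intro c _
    rw [blockDiagonal'_apply_ne M _ _ hθ, mul_zero]
  · intro h
    exact absurd (Finset.mem_univ _) h

theorem HR.blocks {Θ : Type} [Fintype Θ] [DecidableEq Θ] {d : ℕ} : ∀ {C D : Θ → Type}
    [∀ θ, Fintype (C θ)] {M : ∀ θ, Matrix (C θ) (D θ) A} (_ : ∀ θ, HR A d (C θ) (D θ) (M θ)),
    HR A d (Σ θ, C θ) (Σ θ, D θ) (blockDiagonal' M) := by
  induction d with
  | zero =>
    intro C D _ M H
    choose E hE h using H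
    refine ⟨blockDiagonal' E, ?_, ?_⟩
    · rw [← blockDiagonal'_mul]
      congr 1
      funext θ
      exact hE θ
    · intro v
      constructor
      · intro hv
        funext ⟨θ, c⟩
        rw [vecMul_blockDiagonal]
        have h1 : (fun c => v ⟨θ, c⟩) ᵥ* M θ = 0 := by
          funext j
          have := congrFun hv ⟨θ, j⟩
          rw [vecMul_blockDiagonal] at this
          exact this
        exact congrFun ((h θ _).1 h1) c
      · intro hv
        funext ⟨θ, j⟩
        rw [vecMul_blockDiagonal]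
        have h1 : (fun c => v ⟨θ, c⟩) ᵥ* M θ = 0 := by
          rw [h]
          funext c
          have := congrFun hv ⟨θ, c⟩
          rw [vecMul_blockDiagonal] at this
          exact this
        exact congrFun h1 j
  | succ d ih =>
    intro C D _ M H
    choose B iB N hN hN' using H
    refine ⟨Σ θ, B θ, inferInstance, blockDiagonal' N, ?_, ih hN'⟩
    intro v
    constructor
    · intro hv
      have h1 : ∀ θ, ∃ u : B θ → A, (fun c => v ⟨θ, c⟩) = u ᵥ* N θ := by
        intro θ
        apply (hN θ _).1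
        funext j
        have := congrFun hv ⟨θ, j⟩
        rw [vecMul_blockDiagonal] at this
        exact this
      choose u hu using h1
      refine ⟨fun p => u p.1 p.2, ?_⟩
      funext ⟨θ, c⟩
      rw [vecMul_blockDiagonal]
      exact congrFun (hu θ) c
    · rintro ⟨u, rfl⟩
      funext ⟨θ, j⟩
      rw [vecMul_blockDiagonal]
      have h1 : (fun c => (u ᵥ* blockDiagonal' N) ⟨θ, c⟩) = (fun b => u ⟨θ, b⟩) ᵥ* N θ := by
        funext c
        rw [vecMul_blockDiagonal]
      rw [h1, (hN θ _).2 ⟨_, rfl⟩]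
      rfl

/-- the resolution of the row space -/
theorem HR.tr (U : Subgroup Aˣ) {d : ℕ} : ∀ {C D : Type} [Fintype C] [Fintype D]
    {M : Matrix C D A} (_ : HR A d C D M),
    ∃ n, TR U n (LinearMap.range M.vecMulLinear) LinearMap.id := by
  classical
  induction d with
  | zero =>
    intro C D _ _ M H
    obtain ⟨E, hE, h⟩ := H
    have hEM : ∀ u : C → A, (u ᵥ* E) ᵥ* M = 0 := fun u => (h _).2 (by
      rw [Matrix.vecMul_vecMul, hE])
    let F : (C → A) →ₗ[A] (LinearMap.range M.vecMulLinear × LinearMap.range E.vecMulLinear) :=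
      M.vecMulLinear.rangeRestrict.prod E.vecMulLinear.rangeRestrict
    have hF1 : ∀ v, ((F v).1 : D → A) = v ᵥ* M := fun _ => rfl
    have hF2 : ∀ v, ((F v).2 : C → A) = v ᵥ* E := fun _ => rfl
    have hinj : Function.Injective F := by
      rw [← LinearMap.ker_eq_bot, LinearMap.ker_eq_bot']
      intro v hv
      have h1 : v ᵥ* M = 0 := by rw [← hF1, hv]; rfl
      have h2 : v ᵥ* E = 0 := by rw [← hF2, hv]; rfl
      rw [← (h v).1 h1, h2]
    have hsurj : Function.Surjective F := by
      rintro ⟨⟨_, ⟨v, rfl⟩⟩, ⟨_, ⟨u, rfl⟩⟩⟩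
      refine ⟨v - v ᵥ* E + u ᵥ* E, ?_⟩
      apply Prod.ext
      · apply Subtype.ext
        rw [hF1, Matrix.add_vecMul, Matrix.sub_vecMul, hEM, hEM, sub_zero, add_zero]
        rfl
      · apply Subtype.ext
        rw [hF2, Matrix.add_vecMul, Matrix.sub_vecMul, Matrix.vecMul_vecMul, Matrix.vecMul_vecMul,
          hE, sub_self, zero_add]
        rfl
    exact ⟨0, C, LinearMap.range E.vecMulLinear, inferInstance, inferInstance, inferInstance,
      inferInstance, (LinearEquiv.ofBijective F ⟨hinj, hsurj⟩).symm, 1, Triv.one,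
      fun w q => by rw [Matrix.vecMul_one]; rfl⟩
  | succ d ih =>
    intro C D _ _ M H
    obtain ⟨B, _, N, hN, hN'⟩ := H
    obtain ⟨n, hn⟩ := ih hN'
    refine ⟨n + 1, C, LinearMap.range N.vecMulLinear, inferInstance, inferInstance, inferInstance,
      inferInstance, (LinearMap.range N.vecMulLinear).subtype, M.vecMulLinear.rangeRestrict, 1,
      LinearMap.id, ⟨Subtype.val_injective, ?_, LinearMap.surjective_rangeRestrict _, ?_, ?_⟩,
      Triv.one, hn⟩
    · intro v
      have h1 : M.vecMulLinear.rangeRestrict v = 0 ↔ v ᵥ* M = 0 :=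
        ⟨fun h => congrArg Subtype.val h, fun h => Subtype.ext h⟩
      rw [h1, hN]
      constructor
      · rintro ⟨u, rfl⟩
        exact ⟨⟨_, ⟨u, rfl⟩⟩, rfl⟩
      · rintro ⟨⟨_, ⟨u, rfl⟩⟩, rfl⟩
        exact ⟨u, rfl⟩
    · intro v
      rw [Matrix.vecMul_one]; rfl
    · intro z
      rw [Matrix.vecMul_one]; rfl

/-- transport along an isomorphism of rings -/
theorem HR.ringEquiv {A' : Type} [Ring A'] (φ : A ≃+* A') {d : ℕ} : ∀ {C D : Type} [Fintype C]
    {M : Matrix C D A} (_ : HR A d C D M), HR A' d C D (M.map φ) := by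
  have key : ∀ {C D : Type} [Fintype C] (M : Matrix C D A) (v : C → A'),
      v ᵥ* M.map φ = φ ∘ ((φ.symm ∘ v) ᵥ* M) := by
    intro C D _ M v
    funext j
    change ∑ i, v i * φ (M i j) = φ (∑ i, φ.symm (v i) * M i j)
    rw [map_sum]
    apply Finset.sum_congr rfl
    intro i _
    rw [map_mul, RingEquiv.apply_symm_apply]
  induction d with
  | zero =>
    intro C D _ M H
    obtain ⟨E, hE, h⟩ := H
    refine ⟨E.map φ, ?_, ?_⟩
    · have h1 : (E * E).map φ = E.map φ * E.map φ := Matrix.map_mul (f := (φ : A →+* A'))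
      rw [← h1, hE]
    · intro v
      have h1 : v ᵥ* M.map φ = 0 ↔ (φ.symm ∘ v) ᵥ* M = 0 := by
        rw [key]
        constructor
        · intro h
          funext j
          apply φ.injective
          rw [Pi.zero_apply, map_zero]
          exact congrFun h j
        · intro h
          rw [h]
          funext j
          exact map_zero φ
      rw [h1, h, key]
      constructor
      · intro h2
        rw [h2]
        funext i
        exact φ.apply_symm_apply _
      · intro h2
        funext i
        have := congrFun h2 i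
        change _ = φ.symm (v i)
        rw [← this]
        exact (φ.symm_apply_apply _).symm
  | succ d ih =>
    intro C D _ M H
    obtain ⟨B, _, N, hN, hN'⟩ := H
    refine ⟨B, inferInstance, N.map φ, ?_, ih hN'⟩
    intro v
    have h1 : v ᵥ* M.map φ = 0 ↔ (φ.symm ∘ v) ᵥ* M = 0 := by
      rw [key]
      constructor
      · intro h
        funext j
        apply φ.injective
        rw [Pi.zero_apply, map_zero]
        exact congrFun h j
      · intro h
        rw [h]
        funext j
        exact map_zero φ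
    rw [h1, hN]
    constructor
    · rintro ⟨u, hu⟩
      refine ⟨φ ∘ u, ?_⟩
      rw [key]
      have h2 : φ.symm ∘ (φ ∘ u) = u := by
        funext i
        exact φ.symm_apply_apply _
      rw [h2, ← hu]
      funext i
      exact (φ.apply_symm_apply _).symm
    · rintro ⟨u, hu⟩
      refine ⟨φ.symm ∘ u, ?_⟩
      rw [hu, key]
      funext i
      exact φ.symm_apply_apply _

theorem Nice.ringEquiv {A' : Type} [Ring A'] (φ : A ≃+* A') (h : Nice A) : Nice A' := by
  intro C D _ _ M
  obtain ⟨d, hd⟩ := h C D (M.map φ.symm)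
  refine ⟨d, ?_⟩
  have h1 := hd.ringEquiv φ
  convert h1 using 1
  ext i j
  simp

theorem HR.of_isEmpty {C D : Type} [Fintype C] [IsEmpty D] (M : Matrix C D A) : HR A 0 C D M := by
  classical
  refine ⟨1, Matrix.one_mul _, fun v => ?_⟩
  rw [Matrix.vecMul_one]
  exact ⟨fun _ => rfl, fun _ => Subsingleton.elim _ _⟩

end hr

end Pool.Agent.H1.MV
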