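import Pool.Agent.H1.MV.Stab

set_option autoImplicit false
set_option linter.unusedSectionVars false
set_option linter.unusedSimpArgs false

/-!
# The reduced projective class group
-/

namespace Pool.Agent.H1.MV

open Matrix

section kz

variable (S : Type) [Ring S]

/-- finitely generated projective modules -/
structure PM : Type 1 where
  /-- the module -/
  M : Type
  [ac : AddCommGroup M]
  [md : Module S M]
  fin : Module.Finite S M
  proj : Module.Projective S M

attribute [instance] PM.ac PM.md PM.fin PM.proj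

variable {S}

/-- stable equivalence -/
def SE (P Q : Type) [AddCommGroup P] [Module S P] [AddCommGroup Q] [Module S Q] : Prop :=
  ∃ a b : ℕ, Nonempty ((P × (Fin a → S)) ≃ₗ[S] (Q × (Fin b → S)))

theorem SE.refl (P : Type) [AddCommGroup P] [Module S P] : SE (S := S) P P :=
  ⟨0, 0, ⟨LinearEquiv.refl S _⟩⟩

theorem SE.of_equiv {P Q : Type} [AddCommGroup P] [Module S P] [AddCommGroup Q] [Module S Q]
    (e : P ≃ₗ[S] Q) : SE (S := S) P Q :=
  ⟨0, 0, ⟨LinearEquiv.prodCongr e (LinearEquiv.refl S _)⟩⟩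

theorem SE.symm {P Q : Type} [AddCommGroup P] [Module S P] [AddCommGroup Q] [Module S Q]
    (h : SE (S := S) P Q) : SE (S := S) Q P := by
  obtain ⟨a, b, ⟨e⟩⟩ := h
  exact ⟨b, a, ⟨e.symm⟩⟩

/-- sums of free modules -/
def finAdd (S : Type) [Ring S] (a b : ℕ) : ((Fin a → S) × (Fin b → S)) ≃ₗ[S] (Fin (a + b) → S) :=
  (LinearEquiv.sumArrowLequivProdArrow (Fin a) (Fin b) S S).symm.trans
    (LinearEquiv.funCongrLeft S S finSumFinEquiv.symm)

theorem SE.trans {P Q R : Type} [AddCommGroup P] [Module S P] [AddCommGroup Q] [Module S Q]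
    [AddCommGroup R] [Module S R] (h : SE (S := S) P Q) (h' : SE (S := S) Q R) :
    SE (S := S) P R := by
  obtain ⟨a, b, ⟨e⟩⟩ := h
  obtain ⟨c, d, ⟨f⟩⟩ := h'
  -- P × S^a × S^c ≅ Q × S^b × S^c ≅ Q × S^c × S^b ≅ R × S^d × S^b
  let e1 : (P × (Fin (a + c) → S)) ≃ₗ[S] ((P × (Fin a → S)) × (Fin c → S)) :=
    (LinearEquiv.prodCongr (LinearEquiv.refl S P) (finAdd S a c).symm).trans
      (LinearEquiv.prodAssoc S P (Fin a → S) (Fin c → S)).symm
  let e2 : ((P × (Fin a → S)) × (Fin c → S)) ≃ₗ[S] ((Q × (Fin b → S)) × (Fin c → S)) :=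
    LinearEquiv.prodCongr e (LinearEquiv.refl S _)
  let e3 : ((Q × (Fin b → S)) × (Fin c → S)) ≃ₗ[S] ((Q × (Fin c → S)) × (Fin b → S)) :=
    ((LinearEquiv.prodAssoc S Q (Fin b → S) (Fin c → S)).trans
      (LinearEquiv.prodCongr (LinearEquiv.refl S Q) (LinearEquiv.prodComm S _ _))).trans
      (LinearEquiv.prodAssoc S Q (Fin c → S) (Fin b → S)).symm
  let e4 : ((Q × (Fin c → S)) × (Fin b → S)) ≃ₗ[S] ((R × (Fin d → S)) × (Fin b → S)) :=
    LinearEquiv.prodCongr f (LinearEquiv.refl S _)
  let e5 : ((R × (Fin d → S)) × (Fin b → S)) ≃ₗ[S] (R × (Fin (d + b) → S)) :=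
    (LinearEquiv.prodAssoc S R (Fin d → S) (Fin b → S)).trans
      (LinearEquiv.prodCongr (LinearEquiv.refl S R) (finAdd S d b))
  exact ⟨a + c, d + b, ⟨(((e1.trans e2).trans e3).trans e4).trans e5⟩⟩

theorem SE.prod {P Q P' Q' : Type} [AddCommGroup P] [Module S P] [AddCommGroup Q] [Module S Q]
    [AddCommGroup P'] [Module S P'] [AddCommGroup Q'] [Module S Q']
    (h : SE (S := S) P P') (h' : SE (S := S) Q Q') : SE (S := S) (P × Q) (P' × Q') := by
  obtain ⟨a, b, ⟨e⟩⟩ := h
  obtain ⟨c, d, ⟨f⟩⟩ := h'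
  refine ⟨a + c, b + d, ⟨?_⟩⟩
  exact (((LinearEquiv.prodCongr (LinearEquiv.refl S (P × Q)) (finAdd S a c).symm).trans
    (LinearEquiv.prodProdProdComm S P Q (Fin a → S) (Fin c → S))).trans
      (LinearEquiv.prodCongr e f)).trans
    ((LinearEquiv.prodProdProdComm S P' (Fin b → S) Q' (Fin d → S)).trans
      (LinearEquiv.prodCongr (LinearEquiv.refl S (P' × Q')) (finAdd S b d)))

instance PM.setoid : Setoid (PM S) where
  r P Q := SE (S := S) P.M Q.M
  iseqv := ⟨fun P => SE.refl P.M, fun h => h.symm, fun h h' => h.trans h'⟩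

variable (S) in
/-- the reduced projective class group -/
def KZ : Type 1 := Quotient (PM.setoid (S := S))

/-- the class of a module -/
def kz (P : Type) [AddCommGroup P] [Module S P] [Module.Finite S P] [Module.Projective S P] : KZ S :=
  Quotient.mk _ ⟨P, inferInstance, inferInstance⟩

theorem kz_eq {P Q : Type} [AddCommGroup P] [Module S P] [Module.Finite S P]
    [Module.Projective S P] [AddCommGroup Q] [Module S Q] [Module.Finite S Q]
    [Module.Projective S Q] : kz (S := S) P = kz Q ↔ SE (S := S) P Q := Quotient.eq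

/-- a complement of a finitely generated projective module -/
theorem exists_compl (P : Type) [AddCommGroup P] [Module S P] [Module.Finite S P]
    [Module.Projective S P] : ∃ (Q : Type) (_ : AddCommGroup Q) (_ : Module S Q) (n : ℕ)
    (_ : Module.Finite S Q) (_ : Module.Projective S Q),
    Nonempty ((P × Q) ≃ₗ[S] (Fin n → S)) := by
  obtain ⟨n, f, hf⟩ := Module.Finite.exists_fin' S P
  obtain ⟨s, hs⟩ := Module.projective_lifting_property f LinearMap.id hf
  have hs' : ∀ v, f (s v) = v := fun v => LinearMap.congr_fun hs v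
  let F : (P × LinearMap.ker f) →ₗ[S] (Fin n → S) :=
    LinearMap.coprod s (LinearMap.ker f).subtype
  have hF : ∀ v z, F (v, z) = s v + (z : Fin n → S) := fun v z => by
    change LinearMap.coprod _ _ _ = _
    rw [LinearMap.coprod_apply]; rfl
  have hb : Function.Bijective F := by
    constructor
    · rw [← LinearMap.ker_eq_bot, LinearMap.ker_eq_bot']
      rintro ⟨v, z⟩ h
      rw [hF] at h
      have h1 : v = 0 := by
        have h2 := congrArg f h
        rw [map_add, hs', LinearMap.mem_ker.1 z.2, add_zero, map_zero] at h2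
        exact h2
      rw [h1, map_zero, zero_add] at h
      rw [h1]
      exact Prod.ext rfl (Subtype.ext h)
    · intro e
      refine ⟨(f e, ⟨e - s (f e), ?_⟩), ?_⟩
      · rw [LinearMap.mem_ker, map_sub, hs', sub_self]
      · rw [hF]
        exact add_sub_cancel _ _
  let e := LinearEquiv.ofBijective F hb
  have h1 : Module.Finite S (P × LinearMap.ker f) := Module.Finite.equiv e.symm
  have h2 : Module.Projective S (P × LinearMap.ker f) := Module.Projective.of_equiv e.symm
  refine ⟨LinearMap.ker f, inferInstance, inferInstance, n, ?_, ?_, ⟨e⟩⟩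
  · exact Module.Finite.of_surjective (LinearMap.snd S P (LinearMap.ker f)) (fun m => ⟨(0, m), rfl⟩)
  · exact Module.Projective.of_split (LinearMap.inr S P (LinearMap.ker f))
      (LinearMap.snd S P (LinearMap.ker f)) (LinearMap.snd_comp_inr ..)

/-- stable freeness in terms of the class -/
theorem se_free {P : Type} [AddCommGroup P] [Module S P] {n : ℕ} :
    SE (S := S) P (Fin n → S) ↔ StablyFree S P := by
  constructor
  · rintro ⟨a, b, ⟨e⟩⟩
    exact ⟨a, n + b, ⟨e.trans (finAdd S n b)⟩⟩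
  · rintro ⟨s, t, ⟨e⟩⟩
    refine ⟨s + n, t, ⟨?_⟩⟩
    -- P × S^s × S^n ≅ S^t × S^n ≅ S^n × S^t
    exact (((LinearEquiv.prodCongr (LinearEquiv.refl S P) (finAdd S s n).symm).trans
      (LinearEquiv.prodAssoc S P (Fin s → S) (Fin n → S)).symm).trans
      (LinearEquiv.prodCongr e (LinearEquiv.refl S _))).trans (LinearEquiv.prodComm S _ _)

noncomputable instance : CommMonoid (KZ S) where
  mul := Quotient.map₂ (fun P Q => ⟨P.M × Q.M, inferInstance, inferInstance⟩)
    (fun _ _ h _ _ h' => SE.prod h h')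
  one := Quotient.mk _ ⟨PUnit, inferInstance, inferInstance⟩
  mul_assoc := by
    rintro ⟨P⟩ ⟨Q⟩ ⟨R⟩
    exact Quotient.sound (SE.of_equiv (LinearEquiv.prodAssoc S _ _ _))
  one_mul := by
    rintro ⟨P⟩
    exact Quotient.sound (SE.of_equiv (LinearEquiv.uniqueProd))
  mul_one := by
    rintro ⟨P⟩
    exact Quotient.sound (SE.of_equiv (LinearEquiv.prodUnique))
  mul_comm := by
    rintro ⟨P⟩ ⟨Q⟩
    exact Quotient.sound (SE.of_equiv (LinearEquiv.prodComm S _ _))

theorem kz_mul {P Q : Type} [AddCommGroup P] [Module S P] [Module.Finite S P]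
    [Module.Projective S P] [AddCommGroup Q] [Module S Q] [Module.Finite S Q]
    [Module.Projective S Q] : kz (S := S) P * kz Q = kz (P × Q) := rfl

theorem kz_one_iff {P : Type} [AddCommGroup P] [Module S P] [Module.Finite S P]
    [Module.Projective S P] : kz (S := S) P = 1 ↔ StablyFree S P := by
  have h1 : (1 : KZ S) = kz (Fin 0 → S) := by
    refine Quotient.sound (SE.of_equiv ?_)
    exact ⟨⟨⟨fun _ => 0, fun _ _ => Subsingleton.elim _ _⟩, fun _ _ => Subsingleton.elim _ _⟩,
      fun _ => PUnit.unit, fun _ => Subsingleton.elim _ _, fun _ => Subsingleton.elim _ _⟩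
  rw [h1, kz_eq, se_free]

theorem kz_free (n : ℕ) : kz (S := S) (Fin n → S) = 1 := by
  rw [kz_one_iff, ← se_free (n := n)]
  exact SE.refl _

theorem kz_inv (x : KZ S) : ∃ y : KZ S, y * x = 1 := by
  obtain ⟨P⟩ := x
  obtain ⟨Q, _, _, n, _, _, ⟨e⟩⟩ := exists_compl (S := S) P.M
  refine ⟨kz Q, ?_⟩
  change kz (S := S) (Q × P.M) = 1
  rw [← kz_free n, kz_eq]
  exact SE.of_equiv ((LinearEquiv.prodComm S _ _).trans e)

noncomputable instance : CommGroup (KZ S) where
  inv x := (kz_inv x).choose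
  inv_mul_cancel x := (kz_inv x).choose_spec

end kz

end Pool.Agent.H1.MV
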