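import Pool.Agent.H1.MV.Elim
import Pool.Agent.H1.MV.NilT

set_option autoImplicit false
set_option linter.unusedSectionVars false
set_option linter.unusedSimpArgs false

/-!
# Nilpotent located matrices with stable arrows
-/

namespace Pool.Agent.H1.MV

open Matrix TH57.Thr Pool.Agent.K4H37.MT

section supp

variable {k : Type} [Ring k] {G : Type} [Group G] {J K L : Type}

/-- the entries are supported in a subgroup -/
def SpIn (S : Subgroup G) (M : Matrix J K (MonoidAlgebra k G)) : Prop :=
  ∀ i j g, (M i j).coeff g ≠ 0 → g ∈ S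

theorem SpIn.add {S : Subgroup G} {M N : Matrix J K (MonoidAlgebra k G)} (h : SpIn S M)
    (h' : SpIn S N) : SpIn S (M + N) := by
  intro i j g hg
  by_cases h1 : (M i j).coeff g = 0
  · apply h' i j g
    intro h2
    apply hg
    rw [Matrix.add_apply, MonoidAlgebra.coeff_add, Finsupp.add_apply, h1, h2, add_zero]
  · exact h i j g h1

theorem SpIn.neg {S : Subgroup G} {M : Matrix J K (MonoidAlgebra k G)} (h : SpIn S M) :
    SpIn S (-M) := by
  intro i j g hg
  apply h i j g
  intro h1
  apply hg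
  rw [Matrix.neg_apply, MonoidAlgebra.coeff_neg, Finsupp.neg_apply, h1, neg_zero]

theorem SpIn.one [DecidableEq J] {S : Subgroup G} :
    SpIn S (1 : Matrix J J (MonoidAlgebra k G)) := by
  intro i j g hg
  by_cases h : i = j
  · subst h
    rw [Matrix.one_apply_eq, MonoidAlgebra.one_def, MonoidAlgebra.coeff_single] at hg
    by_cases h2 : g = 1
    · rw [h2]; exact one_mem _
    · exact absurd (Finsupp.single_eq_of_ne h2) hg
  · rw [Matrix.one_apply_ne h] at hg
    simp at hg

theorem SpIn.mul [Fintype K] {S : Subgroup G} {M : Matrix J K (MonoidAlgebra k G)}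
    {N : Matrix K L (MonoidAlgebra k G)} (h : SpIn S M) (h' : SpIn S N) : SpIn S (M * N) := by
  classical
  intro j l g hg
  rw [Matrix.mul_apply, MonoidAlgebra.coeff_sum, Finsupp.finsetSum_apply] at hg
  obtain ⟨m, _, hm⟩ := Finset.exists_ne_zero_of_sum_ne_zero hg
  obtain ⟨x, y, hxy, hx, hy⟩ := coeff_mul_ne_zero hm
  rw [← hxy]
  exact mul_mem (h j m x hx) (h' m l y hy)

theorem SpIn.pow [Fintype J] [DecidableEq J] {S : Subgroup G}
    {M : Matrix J J (MonoidAlgebra k G)} (h : SpIn S M) (n : ℕ) : SpIn S (M ^ n) := by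
  induction n with
  | zero => rw [pow_zero]; exact SpIn.one
  | succ n ih => rw [pow_succ]; exact ih.mul h

theorem SpIn.sum {S : Subgroup G} {ι : Type} (s : Finset ι)
    (f : ι → Matrix J K (MonoidAlgebra k G)) (h : ∀ i ∈ s, SpIn S (f i)) :
    SpIn S (∑ i ∈ s, f i) := by
  classical
  induction s using Finset.induction_on with
  | empty =>
    intro i j g hg
    rw [Finset.sum_empty, Matrix.zero_apply] at hg
    simp at hg
  | insert a s ha ih =>
    rw [Finset.sum_insert ha]
    exact (h a (Finset.mem_insert_self _ _)).add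
      (ih (fun i hi => h i (Finset.mem_insert_of_mem hi)))

/-- all invertible matrices over the group ring of a subgroup have the trivial class -/
def HT (k : Type) [Ring k] {G : Type} [Group G] (U : Subgroup (MonoidAlgebra k G)ˣ)
    (S : Subgroup G) : Prop :=
  ∀ (J : Type) [Fintype J] [DecidableEq J] (z : (Matrix J J (MonoidAlgebra k G))ˣ),
    SpIn S z.val → SpIn S (z⁻¹).val → TT U z

/-- the unit `1 + M` for a nilpotent matrix -/
def nunit {R : Type} [Ring R] (M : R) (n : ℕ) (hn : M ^ n = 0) : Rˣ where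
  val := 1 + M
  inv := ∑ i ∈ Finset.range n, (-M) ^ i
  val_inv := by
    have h4 := mul_neg_geom_sum (-M) n
    rw [sub_neg_eq_add] at h4
    rw [h4, neg_pow, hn, mul_zero, sub_zero]
  inv_val := by
    have h4 := geom_sum_mul_neg (-M) n
    rw [sub_neg_eq_add] at h4
    rw [h4, neg_pow, hn, mul_zero, sub_zero]

theorem HT.triv [Fintype J] [DecidableEq J] {U : Subgroup (MonoidAlgebra k G)ˣ} {S : Subgroup G}
    (h : HT k U S) {M : Matrix J J (MonoidAlgebra k G)} (hM : SpIn S M) {n : ℕ}
    (hn : M ^ n = 0) : Triv U (1 + M) :=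
  ⟨nunit M n hn, rfl, h J _ (SpIn.one.add hM)
    (SpIn.sum _ _ (fun i _ => hM.neg.pow i))⟩

end supp

section letters

variable {k : Type} [Ring k] {G : Type} [Group G] {Y : Type} [MulAction G Y]
  {J : Type} [Fintype J] [DecidableEq J] {σ : J → Y}

theorem ty_false {a b : J → Y} {M : Matrix J J (MonoidAlgebra k G)}
    (h : Ty a b (fun _ _ => False) M) : M = 0 := by
  ext1 i j
  apply MonoidAlgebra.coeff_injective
  ext g
  by_contra hg
  exact h i j g hg

theorem triv_type {U : Subgroup (MonoidAlgebra k G)ˣ} {p₀ q₀ : Y}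
    {M : Matrix J J (MonoidAlgebra k G)}
    (hM : Ty σ σ (fun q p => ∃ g : G, q = g • q₀ ∧ p = g • p₀) M) {n : ℕ} (hn : M ^ n = 0)
    (hloop : ∀ h : G, h • q₀ = p₀ →
      HT k U (Subgroup.closure ((MulAction.stabilizer G p₀ : Set G) ∪ {h}))) :
    Triv U (1 + M) := by
  classical
  by_cases hex : ∃ h : G, h • q₀ = p₀
  · obtain ⟨h, hh⟩ := hex
    have hc : ∀ j, ∃ c : G, (∃ g : G, σ j = g • p₀) → c • p₀ = σ j := by
      intro j
      by_cases h1 : ∃ g : G, σ j = g • p₀
      · obtain ⟨g, hg⟩ := h1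
        exact ⟨g, fun _ => hg.symm⟩
      · exact ⟨1, fun h2 => absurd h2 h1⟩
    choose c hc using hc
    apply triv_conj (dg k c)
    have hinv : GInv G (fun (q p : Y) => ∃ g : G, q = g • q₀ ∧ p = g • p₀) := by
      rintro u q p ⟨g, h1, h2⟩
      exact ⟨u * g, by rw [h1, mul_smul], by rw [h2, mul_smul]⟩
    have h1 : Ty (fun j => (c j)⁻¹ • σ j) (fun j => (c j)⁻¹ • σ j)
        (fun q p => ∃ g : G, q = g • q₀ ∧ p = g • p₀) ((dg k c)⁻¹.val * M * (dg k c).val) := by
      have h2 := (hM.dg_left (fun j => (c j)⁻¹)).dg_right hinv c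
      rw [dg_inv]
      exact h2
    have h2 : ∀ m : ℕ, ((dg k c)⁻¹.val * M * (dg k c).val) ^ m
        = (dg k c)⁻¹.val * M ^ m * (dg k c).val := by
      intro m
      induction m with
      | zero => simp
      | succ m ih =>
        rw [pow_succ, ih, pow_succ]
        calc _ = (dg k c)⁻¹.val * M ^ m * ((dg k c).val * (dg k c)⁻¹.val) * M * (dg k c).val := by
              simp only [mul_assoc]
          _ = _ := by rw [Units.mul_inv, mul_one]; simp only [mul_assoc]
    refine (hloop h hh).triv (n := n) ?_ (by rw [h2, hn, mul_zero, zero_mul])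
    intro i j g hg
    obtain ⟨v, hv1, hv2⟩ := h1 i j g hg
    beta_reduce at hv1 hv2
    have hj : (c j)⁻¹ • σ j = p₀ := by
      have : ∃ g : G, σ j = g • p₀ := ⟨c j * v, by rw [mul_smul, ← hv2, smul_inv_smul]⟩
      rw [← hc j this, inv_smul_smul]
    have hi : (c i)⁻¹ • σ i = p₀ := by
      have : ∃ g : G, σ i = g • p₀ := by
        refine ⟨c i * g * v * h⁻¹, ?_⟩
        rw [mul_smul, mul_smul, mul_smul, ← hh, inv_smul_smul, ← hv1, smul_inv_smul,
          smul_inv_smul]
      rw [← hc i this, inv_smul_smul]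
    rw [hj] at hv2
    rw [hi] at hv1
    have e1 : v ∈ MulAction.stabilizer G p₀ := hv2.symm
    have e2 : g * v * h⁻¹ ∈ MulAction.stabilizer G p₀ := by
      change (g * v * h⁻¹) • p₀ = p₀
      rw [mul_smul, mul_smul]
      nth_rewrite 1 [← hh]
      rw [inv_smul_smul, ← hv1, smul_inv_smul]
    have e3 : g = g * v * h⁻¹ * h * v⁻¹ := by group
    rw [e3]
    refine mul_mem (mul_mem ?_ ?_) (inv_mem ?_)
    · exact Subgroup.subset_closure (Or.inl e2)
    · exact Subgroup.subset_closure (Or.inr rfl)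
    · exact Subgroup.subset_closure (Or.inl e1)
  · apply triv_unip M (fun j => if ∃ g : G, σ j = g • q₀ then 1 else 0)
    intro i j hij
    have h1 : ∃ g, (M i j).coeff g ≠ 0 := by
      by_contra hcon
      push Not at hcon
      apply hij
      apply MonoidAlgebra.coeff_injective
      ext g
      rw [hcon g]; simp
    obtain ⟨g, hg⟩ := h1
    obtain ⟨u, hu1, hu2⟩ := hM i j g hg
    have h2 : ∃ g : G, σ i = g • q₀ := ⟨g * u, by rw [mul_smul, ← hu1, smul_inv_smul]⟩
    have h3 : ¬ ∃ g : G, σ j = g • q₀ := by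
      rintro ⟨v, hv⟩
      apply hex
      refine ⟨u⁻¹ * v, ?_⟩
      rw [mul_smul, ← hv, hu2, inv_smul_smul]
    rw [if_pos h2, if_neg h3]
    exact Nat.one_pos

theorem Path.trans {t : Y → Y → Prop} {m n : ℕ} {p q s : Y} (h : Path t m p q)
    (h' : Path t n q s) : Path t (m + n) p s := by
  induction n generalizing s with
  | zero =>
    obtain ⟨f, h0, h1, _⟩ := h'
    rw [add_zero]
    rw [← h1, h0]
    exact h
  | succ n ih =>
    obtain ⟨f, h0, h1, h2⟩ := h'
    have h3 : Path t n q (f n) := ⟨f, h0, rfl, fun i hi => h2 i (by omega)⟩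
    have h4 := (ih h3).snoc (h2 n (Nat.lt_succ_self n))
    rw [h1] at h4
    exact h4

theorem Path.stab {t : Y → Y → Prop}
    (hst : ∀ p q, t p q → MulAction.stabilizer G p ≤ MulAction.stabilizer G q) {n : ℕ} {p q : Y}
    (h : Path t n p q) : MulAction.stabilizer G p ≤ MulAction.stabilizer G q := by
  obtain ⟨f, h0, h1, h2⟩ := h
  have : ∀ i ≤ n, MulAction.stabilizer G p ≤ MulAction.stabilizer G (f i) := by
    intro i
    induction i with
    | zero => intro _; rw [h0]
    | succ i ih => intro hi; exact (ih (by omega)).trans (hst _ _ (h2 i (by omega)))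
  have h3 := this n le_rfl
  rwa [h1] at h3

/-- the type of the arrows -/
abbrev Om (G Y : Type) [Group G] [MulAction G Y] : Type := MulAction.orbitRel.Quotient G (Y × Y)

/-- the orbit of a pair -/
def om (G : Type) {Y : Type} [Group G] [MulAction G Y] (q p : Y) : Om G Y := Quotient.mk'' (q, p)

theorem om_smul (g : G) (q p : Y) : om G (g • q) (g • p) = om G q p := by
  apply (Quotient.eq'' (s₁ := MulAction.orbitRel G (Y × Y))).2
  exact ⟨g, rfl⟩

theorem om_eq {q p q' p' : Y} (h : om G q p = om G q' p') : ∃ g : G, q = g • q' ∧ p = g • p' := by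
  have h1 := (Quotient.eq'' (s₁ := MulAction.orbitRel G (Y × Y))).1 h
  obtain ⟨g, hg⟩ := h1
  exact ⟨g, (congrArg Prod.fst hg).symm, (congrArg Prod.snd hg).symm⟩

/-- the relation of a word -/
def Wr (t : Y → Y → Prop) : List (Om G Y) → Y → Y → Prop
  | [], q, p => q = p
  | α :: w, q, p => ∃ s, om G q s = α ∧ t s q ∧ Wr t w s p

theorem Wr.path {t : Y → Y → Prop} : ∀ {w : List (Om G Y)} {q p : Y} (_ : Wr t w q p),
    Path t w.length p q := by
  intro w
  induction w with
  | nil =>
    intro q p h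
    have : q = p := h
    rw [this]
    exact Path.zero _
  | cons α w ih =>
    intro q p h
    obtain ⟨s, _, h2, h3⟩ := h
    exact (ih h3).snoc h2

theorem det_last {t : Y → Y → Prop} (hD : Det t) {l : ℕ} {p q s s' : Y} (h : Path t l p s)
    (h1 : t s q) (h' : Path t l p s') (h1' : t s' q) : s = s' := by
  obtain ⟨f, f0, fn, fs⟩ := h
  obtain ⟨f', f0', fn', fs'⟩ := h'
  have hdet := hD (l + 1) (fun i => if i ≤ l then f i else q) (fun i => if i ≤ l then f' i else q)
    (by
      intro i hi
      by_cases h3 : i + 1 ≤ l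
      · rw [if_pos (by omega), if_pos h3]; exact fs i (by omega)
      · have h4 : i = l := by omega
        rw [if_pos (by omega), if_neg h3, h4, fn]; exact h1)
    (by
      intro i hi
      by_cases h3 : i + 1 ≤ l
      · rw [if_pos (by omega), if_pos h3]; exact fs' i (by omega)
      · have h4 : i = l := by omega
        rw [if_pos (by omega), if_neg h3, h4, fn']; exact h1')
    (by simp [f0, f0']) (by simp) l (by omega)
  rw [if_pos le_rfl, if_pos le_rfl, fn, fn'] at hdet
  exact hdet

theorem res_add' {a : J → Y} {b : J → Y} {ρ : Y → Y → Prop}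
    (M N : Matrix J J (MonoidAlgebra k G)) :
    MV.res a b ρ (M + N) = MV.res a b ρ M + MV.res a b ρ N := by
  classical
  ext1 i j
  apply MonoidAlgebra.coeff_injective
  ext g
  rw [Matrix.add_apply, MonoidAlgebra.coeff_add, Finsupp.add_apply, res_coeff, res_coeff, res_coeff,
    Matrix.add_apply, MonoidAlgebra.coeff_add, Finsupp.add_apply]
  by_cases h : ρ (g⁻¹ • a i) (b j)
  · rw [if_pos h, if_pos h, if_pos h]
  · rw [if_neg h, if_neg h, if_neg h, add_zero]

theorem res_none {a : J → Y} {b : J → Y} {ρ ρ' : Y → Y → Prop}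
    {M : Matrix J J (MonoidAlgebra k G)} (h : Ty a b ρ' M)
    (hd : ∀ x y, ρ x y → ρ' x y → False) : MV.res a b ρ M = 0 := by
  classical
  ext1 i j
  apply MonoidAlgebra.coeff_injective
  ext g
  rw [res_coeff]
  by_cases h1 : ρ (g⁻¹ • a i) (b j)
  · rw [if_pos h1]
    by_contra h2
    exact hd _ _ h1 (h i j g h2)
  · rw [if_neg h1]
    simp

theorem word_prod {t : Y → Y → Prop} (ht : ∀ (g : G) p q, t p q → t (g • p) (g • q)) (hD : Det t)
    {x : Matrix J J (MonoidAlgebra k G)} (hx : Ty σ σ (fun q p => t p q) x)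
    (w : List (Om G Y)) :
    (w.map fun α => MV.res σ σ (fun q p => om G q p = α) x).prod =
      MV.res σ σ (Wr t w) (x ^ w.length) := by
  induction w with
  | nil =>
    rw [List.map_nil, List.prod_nil, List.length_nil, pow_zero]
    exact (res_eq Ty.one).symm
  | cons α w ih =>
    rw [List.map_cons, List.prod_cons, ih, List.length_cons, pow_succ']
    obtain ⟨l, hl⟩ : ∃ l, l = w.length := ⟨_, rfl⟩
    rw [← hl]
    have hginv : GInv G (fun q s : Y => om G q s = α ∧ t s q) := by
      rintro g q s ⟨h1, h2⟩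
      exact ⟨by rw [om_smul]; exact h1, ht g _ _ h2⟩
    have hginv' : GInv G (fun q s : Y => ¬ om G q s = α ∧ t s q) := by
      rintro g q s ⟨h1, h2⟩
      exact ⟨by rw [om_smul]; exact h1, ht g _ _ h2⟩
    have hpow : Ty σ σ (fun q p => Path t l p q) (x ^ l) := hx.pow ht l
    have tN : Ty σ σ (fun q s => om G q s = α ∧ t s q)
        (MV.res σ σ (fun q p => om G q p = α) x) := Ty.res_of hx
    have tN' : Ty σ σ (fun q s => ¬ om G q s = α ∧ t s q)
        (MV.res σ σ (fun q p => ¬ om G q p = α) x) := Ty.res_of hx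
    have tA : Ty σ σ (Wr t w) (MV.res σ σ (Wr t w) (x ^ l)) := Ty.res
    have tB : Ty σ σ (fun q p => ¬ Wr t w q p ∧ Path t l p q)
        (MV.res σ σ (fun q p => ¬ Wr t w q p) (x ^ l)) := Ty.res_of hpow
    have e1 : x * x ^ l = MV.res σ σ (fun q p => om G q p = α) x * MV.res σ σ (Wr t w) (x ^ l) +
        (MV.res σ σ (fun q p => om G q p = α) x * MV.res σ σ (fun q p => ¬ Wr t w q p) (x ^ l) +
        MV.res σ σ (fun q p => ¬ om G q p = α) x * x ^ l) := by
      rw [← add_assoc, ← mul_add, res_add_not, ← add_mul, res_add_not]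
    have d1 : Ty σ σ (Wr t (α :: w))
        (MV.res σ σ (fun q p => om G q p = α) x * MV.res σ σ (Wr t w) (x ^ l)) :=
      tN.mul tA hginv (fun q s p h1 h2 => ⟨s, h1.1, h1.2, h2⟩)
    have d2 : Ty σ σ (fun q p => ¬ Wr t (α :: w) q p)
        (MV.res σ σ (fun q p => om G q p = α) x * MV.res σ σ (fun q p => ¬ Wr t w q p) (x ^ l)) := by
      refine tN.mul tB hginv ?_
      rintro q s p ⟨h1, h2⟩ ⟨h3, h4⟩ ⟨s', h5, h6, h7⟩
      have h8 : s = s' := det_last hD h4 h2 (by rw [hl]; exact h7.path) h6
      rw [h8] at h3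
      exact h3 h7
    have d3 : Ty σ σ (fun q p => ¬ Wr t (α :: w) q p)
        (MV.res σ σ (fun q p => ¬ om G q p = α) x * x ^ l) := by
      refine tN'.mul hpow hginv' ?_
      rintro q s p ⟨h1, h2⟩ h4 ⟨s', h5, h6, h7⟩
      have h8 : s = s' := det_last hD h4 h2 (by rw [hl]; exact h7.path) h6
      rw [h8] at h1
      exact h1 h5
    rw [e1, res_add', res_eq d1, res_none (d2.add d3) (fun q p h h' => h' h), add_zero]

/-- **Nilpotent located matrices with stable arrows** -/
theorem triv_stable {U : Subgroup (MonoidAlgebra k G)ˣ} {t : Y → Y → Prop}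
    (ht : ∀ (g : G) p q, t p q → t (g • p) (g • q)) (hD : Det t)
    (hst : ∀ p q, t p q → MulAction.stabilizer G p ≤ MulAction.stabilizer G q)
    (hloop : ∀ (p q : Y) (h : G) (m : ℕ), Path t (m + 1) p q → h • q = p →
      HT k U (Subgroup.closure ((MulAction.stabilizer G p : Set G) ∪ {h})))
    {x : Matrix J J (MonoidAlgebra k G)} (hx : Ty σ σ (fun q p => t p q) x) {n : ℕ}
    (hn : x ^ n = 0) : Triv U (1 + x) := by
  classical
  let P : Matrix J J (MonoidAlgebra k G) → Prop := fun M => M = 0 ∨ ∃ (p₀ q₀ : Y) (m : ℕ),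
    Path t (m + 1) p₀ q₀ ∧ Ty σ σ (fun q p => ∃ g : G, q = g • q₀ ∧ p = g • p₀) M
  have hmul : ∀ M M', P M → P M' → P (M * M') := by
    rintro M M' (h | ⟨p₀, q₀, m, h1, h2⟩) (h' | ⟨p₁, q₁, m', h1', h2'⟩)
    · left; rw [h, zero_mul]
    · left; rw [h, zero_mul]
    · left; rw [h', mul_zero]
    · have hinv : GInv G (fun (q p : Y) => ∃ g : G, q = g • q₀ ∧ p = g • p₀) := by
        rintro u q p ⟨g, h1, h2⟩
        exact ⟨u * g, by rw [h1, mul_smul], by rw [h2, mul_smul]⟩
      by_cases hex : ∃ h : G, p₀ = h • q₁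
      · obtain ⟨h, hh⟩ := hex
        right
        refine ⟨h • p₁, q₀, m' + 1 + m, ?_, ?_⟩
        · have h3 := h1'.smul ht h
          rw [← hh] at h3
          exact h3.trans h1
        · refine h2.mul h2' hinv ?_
          rintro q s p ⟨g, hg1, hg2⟩ ⟨g', hg1', hg2'⟩
          refine ⟨g' * h⁻¹, ?_, ?_⟩
          · have h4 : g⁻¹ * g' * h⁻¹ ∈ MulAction.stabilizer G p₀ := by
              change (g⁻¹ * g' * h⁻¹) • p₀ = p₀
              nth_rewrite 1 [hh]
              rw [mul_smul, mul_smul, inv_smul_smul, ← hg1', hg2, inv_smul_smul]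
            have h5 := h1.stab hst h4
            have h6 : (g⁻¹ * g' * h⁻¹) • q₀ = q₀ := h5
            rw [mul_smul, mul_smul, inv_smul_eq_iff, ← mul_smul, ← hg1] at h6
            exact h6.symm
          · rw [mul_smul, inv_smul_smul, hg2']
      · left
        refine ty_false (a := σ) (b := σ) ?_
        refine h2.mul h2' hinv ?_
        rintro q s p ⟨g, hg1, hg2⟩ ⟨g', hg1', hg2'⟩
        apply hex
        refine ⟨g⁻¹ * g', ?_⟩
        rw [mul_smul, ← hg1', hg2, inv_smul_smul]
  have hneg : ∀ M, P M → P (-M) := by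
    rintro M (h | ⟨p₀, q₀, m, h1, h2⟩)
    · left; rw [h, neg_zero]
    · right; exact ⟨p₀, q₀, m, h1, h2.neg⟩
  have htriv : ∀ M n, P M → M ^ n = 0 → Triv U (1 + M) := by
    rintro M n (h | ⟨p₀, q₀, m, h1, h2⟩) hn
    · rw [h, add_zero]
      exact Triv.one
    · exact triv_type h2 hn (fun h hh => hloop p₀ q₀ h m h1 hh)
  -- the letters
  let A : Finset (Om G Y) := (Finset.univ : Finset (J × ↥(suppF x) × J)).image
    fun a => om G (a.2.1.1⁻¹ • σ a.1) (σ a.2.2)
  let N : ↥A → Matrix J J (MonoidAlgebra k G) := fun α =>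
    MV.res σ σ (fun q p => om G q p = α.1) x
  have hsum : ∑ α, N α = x := by
    ext1 i j
    apply MonoidAlgebra.coeff_injective
    ext g
    rw [Matrix.sum_apply, MonoidAlgebra.coeff_sum, Finsupp.finsetSum_apply]
    by_cases hg : (x i j).coeff g = 0
    · rw [hg]
      apply Finset.sum_eq_zero
      intro α _
      change ((MV.res σ σ (fun q p => om G q p = α.1) x) i j).coeff g = 0
      rw [res_coeff, hg, ite_self]
    · have hmem : om G (g⁻¹ • σ i) (σ j) ∈ A :=
        Finset.mem_image.2 ⟨(i, ⟨g, mem_suppF hg⟩, j), Finset.mem_univ _, rfl⟩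
      rw [Finset.sum_eq_single (⟨_, hmem⟩ : ↥A)]
      · change ((MV.res σ σ (fun q p => om G q p = _) x) i j).coeff g = _
        rw [res_coeff, if_pos rfl]
      · intro α _ hα
        change ((MV.res σ σ (fun q p => om G q p = α.1) x) i j).coeff g = 0
        rw [res_coeff, if_neg]
        intro h
        exact hα (Subtype.ext h.symm)
      · intro h
        exact absurd (Finset.mem_univ _) h
  have hP : ∀ α, P (N α) := by
    intro α
    by_cases h0 : N α = 0
    · left; exact h0
    · right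
      have h1 : ∃ i j g, ((N α) i j).coeff g ≠ 0 := by
        by_contra hcon
        push Not at hcon
        apply h0
        ext1 i j
        apply MonoidAlgebra.coeff_injective
        ext g
        rw [hcon i j g]; simp
      obtain ⟨i, j, g, hg⟩ := h1
      have h2 : Ty σ σ (fun q p => om G q p = α.1 ∧ t p q) (N α) := Ty.res_of hx
      obtain ⟨h3, h4⟩ := h2 i j g hg
      refine ⟨σ j, g⁻¹ • σ i, 0, (Path.zero _).snoc h4, ?_⟩
      refine h2.mono ?_
      rintro q p ⟨h5, _⟩
      rw [← h3] at h5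
      exact om_eq h5
  have hwords : ∀ l : List ↥A, n ≤ (l.map fun _ => 1).sum → (l.map N).prod = 0 := by
    intro l hl
    have h1 : l.map N = (l.map Subtype.val).map
        (fun α => MV.res σ σ (fun q p => om G q p = α) x) := by
      rw [List.map_map]; rfl
    rw [h1, word_prod ht hD hx]
    have h2 : (l.map fun _ => 1).sum = l.length := by simp
    rw [h2] at hl
    have h3 : x ^ (l.map Subtype.val).length = 0 := by
      rw [List.length_map]
      exact pow_eq_zero_of_le hl hn
    rw [h3]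
    exact res_none (ρ' := fun _ _ => False) Ty.zero (fun _ _ _ h => h)
  have := elim (U := U) hmul hneg htriv n n 1 le_rfl (by omega) ↥A N (fun _ => 1)
    (fun _ => le_rfl) hP hwords
  rwa [hsum] at this

end letters

end Pool.Agent.H1.MV
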