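import Pool.Agent.H1.MV.Mem

set_option autoImplicit false
set_option linter.unusedSectionVars false
set_option linter.unusedSimpArgs false

/-!
# Locations with memory: transfer of the classes
-/

namespace Pool.Agent.H1.MV

open Matrix TH57.Thr Pool.Agent.K4H37.MT

section alg

variable {R : Type} [Ring R] {U : Subgroup Rˣ} {I J : Type} [Fintype I] [DecidableEq I] [Fintype J]
  [DecidableEq J]

/-- a purely algebraic form of the transfer -/
theorem transfer_alg {Mt : Matrix I I R} {S : Matrix I J R} {E : Matrix J I R}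
    {a b : Matrix J J R} {n : ℕ} (hE : ∀ i, E * (Mt ^ i * S) = a ^ i * b)
    (hMt : Mt ^ n = 0) (ha : a ^ n = 0) (h1 : Triv U (1 + Mt)) (h2 : Triv U (1 + a))
    (h3 : Triv U (1 + (Mt + S * E))) : Triv U (1 + (a + b)) := by
  -- the inverse of `1 + Mt`
  have hW : Triv U ((nunit Mt n hMt)⁻¹).val := Triv.inv (w := nunit Mt n hMt) h1
  have h4 := Triv.mul hW h3
  have e1 : ((nunit Mt n hMt)⁻¹).val * (1 + (Mt + S * E)) =
      1 + (((nunit Mt n hMt)⁻¹).val * S) * E := by
    rw [← add_assoc, mul_add, Matrix.mul_assoc _ S E]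
    congr 1
    exact (nunit Mt n hMt).inv_mul
  rw [e1] at h4
  have h5 : Triv U (1 + E * (((nunit Mt n hMt)⁻¹).val * S)) := triv_uv _ _ h4
  have e2 : E * (((nunit Mt n hMt)⁻¹).val * S) = ((nunit a n ha)⁻¹).val * b := by
    change E * ((∑ i ∈ Finset.range n, (-Mt) ^ i) * S) = (∑ i ∈ Finset.range n, (-a) ^ i) * b
    rw [Matrix.sum_mul, Matrix.mul_sum, Matrix.sum_mul]
    apply Finset.sum_congr rfl
    intro i _
    rcases Nat.even_or_odd i with he | ho
    · rw [he.neg_pow, he.neg_pow, hE]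
    · rw [ho.neg_pow, ho.neg_pow, Matrix.neg_mul, Matrix.mul_neg, hE, Matrix.neg_mul]
  rw [e2] at h5
  have h6 := Triv.mul h2 h5
  convert h6 using 1
  rw [mul_add, mul_one, ← mul_assoc]
  have e3 : (1 + a) * ((nunit a n ha)⁻¹).val = 1 := (nunit a n ha).mul_inv
  rw [e3, one_mul, add_assoc]

theorem nilp_alg {Mt : Matrix I I R} {S : Matrix I J R} {E : Matrix J I R}
    {a b : Matrix J J R} {n : ℕ} (hE : ∀ i, E * (Mt ^ i * S) = a ^ i * b)
    (hMt : Mt ^ n = 0) (hab : (a + b) ^ n = 0) : (Mt + S * E) ^ (n + n + n) = 0 := by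
  obtain ⟨M, hM⟩ : ∃ M, M = Mt + S * E := ⟨_, rfl⟩
  rw [← hM]
  have h1 : ∀ l i, E * (M ^ l * (Mt ^ i * S)) = (a + b) ^ l * (a ^ i * b) := by
    intro l
    induction l with
    | zero =>
      intro i
      rw [pow_zero, pow_zero, Matrix.one_mul, Matrix.one_mul, hE]
    | succ l ih =>
      intro i
      have h2 : M ^ (l + 1) * (Mt ^ i * S) = M ^ l * (Mt ^ (i + 1) * S) +
          M ^ l * (Mt ^ 0 * S) * (E * (Mt ^ i * S)) := by
        rw [pow_succ, pow_succ', pow_zero, Matrix.one_mul]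
        nth_rewrite 2 [hM]
        simp only [Matrix.mul_add, Matrix.add_mul, Matrix.mul_assoc]
      calc E * (M ^ (l + 1) * (Mt ^ i * S))
          = E * (M ^ l * (Mt ^ (i + 1) * S)) +
              (E * (M ^ l * (Mt ^ 0 * S))) * (E * (Mt ^ i * S)) := by
            rw [h2, Matrix.mul_add, ← Matrix.mul_assoc E (M ^ l * (Mt ^ 0 * S))]
        _ = (a + b) ^ l * (a ^ (i + 1) * b) + (a + b) ^ l * (a ^ 0 * b) * (a ^ i * b) := by
            rw [ih, ih, hE]
        _ = (a + b) ^ (l + 1) * (a ^ i * b) := by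
            rw [pow_succ' a i, pow_succ (a + b) l, pow_zero, Matrix.one_mul,
              Matrix.mul_assoc a, Matrix.mul_assoc _ b, ← Matrix.mul_add, ← Matrix.add_mul,
              ← Matrix.mul_assoc]
  have h2 : ∀ i, n ≤ i → M ^ (i + 1) * S = Mt * (M ^ i * S) := by
    intro i hi
    have h3 := h1 i 0
    rw [pow_zero, Matrix.one_mul, pow_eq_zero_of_le hi hab, Matrix.zero_mul] at h3
    rw [pow_succ', Matrix.mul_assoc]
    nth_rewrite 1 [hM]
    rw [Matrix.add_mul, Matrix.mul_assoc S, h3, Matrix.mul_zero, add_zero]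
  have h3 : ∀ i, M ^ (n + i) * S = Mt ^ i * (M ^ n * S) := by
    intro i
    induction i with
    | zero => rw [add_zero, pow_zero, Matrix.one_mul]
    | succ i ih =>
      rw [← add_assoc, h2 (n + i) (by omega), ih, pow_succ', Matrix.mul_assoc]
  have h4 : ∀ i, n + n ≤ i → M ^ i * S = 0 := by
    intro i hi
    obtain ⟨j, rfl⟩ : ∃ j, i = n + j := ⟨i - n, by omega⟩
    rw [h3, pow_eq_zero_of_le (by omega : n ≤ j) hMt, Matrix.zero_mul]
  have h5 : ∀ i, M ^ (n + n + i) = M ^ (n + n) * Mt ^ i := by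
    intro i
    induction i with
    | zero => rw [add_zero, pow_zero, mul_one]
    | succ i ih =>
      rw [← add_assoc, pow_succ]
      nth_rewrite 2 [hM]
      rw [mul_add, ← Matrix.mul_assoc _ S E, h4 (n + n + i) (by omega), Matrix.zero_mul, add_zero,
        ih, pow_succ, mul_assoc]
  rw [h5, hMt, mul_zero]

end alg

section mem

variable {k : Type} [Ring k] {G : Type} [Group G] {Y : Type} [MulAction G Y]
  {J : Type} [Fintype J] [DecidableEq J]
  {σ : J → Y} {x : Matrix J J (MonoidAlgebra k G)} {r t : Y → Y → Prop} {n : ℕ}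

theorem Mt_lv {a b : Ms σ x r t n} (h : Mt σ x r t n a b ≠ 0) : a.lv = b.lv + 1 := by
  unfold Mt at h
  rw [Matrix.of_apply] at h
  by_contra h1
  apply h
  rw [if_neg (fun h2 => h1 h2.1)]

theorem Mt_pow_lv (i : ℕ) : ∀ {a b : Ms σ x r t n} (_ : (Mt σ x r t n ^ i) a b ≠ 0),
    a.lv = b.lv + i := by
  classical
  induction i with
  | zero =>
    intro a b h
    rw [pow_zero] at h
    by_cases hab : a = b
    · rw [hab, add_zero]
    · rw [Matrix.one_apply_ne hab] at h
      exact absurd rfl h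
  | succ i ih =>
    intro a b h
    rw [pow_succ, Matrix.mul_apply] at h
    obtain ⟨c, _, hc⟩ := Finset.exists_ne_zero_of_sum_ne_zero h
    have h1 := ih (fun h2 => hc (by rw [h2, zero_mul]))
    have h2 := Mt_lv (fun h2 => hc (by rw [h2, mul_zero]))
    omega

theorem Mt_nil : Mt σ x r t n ^ n = 0 := by
  ext1 a b
  by_contra h
  have h1 := Mt_pow_lv n h
  have h2 := a.lt
  omega

theorem MtSm_lv (i : ℕ) {a : Ms σ x r t n} {j : J}
    (h : (Mt σ x r t n ^ i * Sm σ x r t n) a j ≠ 0) : a.lv = i := by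
  rw [Matrix.mul_apply] at h
  obtain ⟨c, _, hc⟩ := Finset.exists_ne_zero_of_sum_ne_zero h
  have h1 := Mt_pow_lv i (fun h2 => hc (by rw [h2, zero_mul]))
  have h2 : c.lv = 0 := by
    by_contra h3
    apply hc
    unfold Sm
    rw [Matrix.of_apply, if_neg (fun h4 => h3 h4.1), mul_zero]
  omega

/-- the key identity -/
theorem Em_pow (hn : 0 < n) (hr : ∀ (g : G) p q, r p q → r (g • p) (g • q))
    (ht : ∀ (g : G) p q, t p q → t (g • p) (g • q)) (hx : Ty σ σ (fun q p => r p q) x)
    (hxt : MV.res σ σ (fun q p => t p q) x ^ n = 0) (i : ℕ) :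
    Em σ x r t n * (Mt σ x r t n ^ i * Sm σ x r t n) =
      MV.res σ σ (fun q p => t p q) x ^ i * MV.res σ σ (fun q p => ¬ t p q) x := by
  induction i with
  | zero => rw [pow_zero, pow_zero, Matrix.one_mul, Matrix.one_mul, Em_Sm hn hr ht hx]
  | succ i ih =>
    by_cases hi : i + 1 < n
    · have e1 : Em σ x r t n * (Mt σ x r t n ^ (i + 1) * Sm σ x r t n) =
          (Em σ x r t n * Mt σ x r t n) * (Mt σ x r t n ^ i * Sm σ x r t n) := by
        rw [pow_succ', Matrix.mul_assoc, Matrix.mul_assoc]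
      have e2 : MV.res σ σ (fun q p => t p q) x ^ (i + 1) * MV.res σ σ (fun q p => ¬ t p q) x =
          (MV.res σ σ (fun q p => t p q) x * Em σ x r t n) *
            (Mt σ x r t n ^ i * Sm σ x r t n) := by
        rw [pow_succ', Matrix.mul_assoc, ← ih, ← Matrix.mul_assoc]
      rw [e1, e2]
      ext1 j j'
      rw [Matrix.mul_apply, Matrix.mul_apply]
      apply Finset.sum_congr rfl
      intro a _
      by_cases h0 : (Mt σ x r t n ^ i * Sm σ x r t n) a j' = 0
      · rw [h0, mul_zero, mul_zero]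
      · have h1 := MtSm_lv i h0
        rw [mul_Em, Em_Mt hr ht j a (by omega)]
    · have h1 : Mt σ x r t n ^ (i + 1) = 0 := pow_eq_zero_of_le (by omega) Mt_nil
      rw [h1, pow_eq_zero_of_le (by omega : n ≤ i + 1) hxt, Matrix.zero_mul, Matrix.mul_zero,
        Matrix.zero_mul]

/-- the matrix on the locations with memory -/
noncomputable def Mm (σ : J → Y) (x : Matrix J J (MonoidAlgebra k G)) (r t : Y → Y → Prop)
    (n : ℕ) : Matrix (Ms σ x r t n) (Ms σ x r t n) (MonoidAlgebra k G) :=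
  Mt σ x r t n + Sm σ x r t n * Em σ x r t n

theorem Mm_nil (hn : 0 < n) (hr : ∀ (g : G) p q, r p q → r (g • p) (g • q))
    (ht : ∀ (g : G) p q, t p q → t (g • p) (g • q)) (hx : Ty σ σ (fun q p => r p q) x)
    (hxt : MV.res σ σ (fun q p => t p q) x ^ n = 0) (hxn : x ^ n = 0) :
    Mm σ x r t n ^ (n + n + n) = 0 := by
  have h := nilp_alg (Mt := Mt σ x r t n) (S := Sm σ x r t n) (E := Em σ x r t n)
    (a := MV.res σ σ (fun q p => t p q) x) (b := MV.res σ σ (fun q p => ¬ t p q) x) (n := n)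
    (Em_pow hn hr ht hx hxt) Mt_nil (by rw [res_add_not]; exact hxn)
  exact h

theorem Mm_triv {U : Subgroup (MonoidAlgebra k G)ˣ} (hn : 0 < n)
    (hr : ∀ (g : G) p q, r p q → r (g • p) (g • q))
    (ht : ∀ (g : G) p q, t p q → t (g • p) (g • q)) (hx : Ty σ σ (fun q p => r p q) x)
    (hxt : MV.res σ σ (fun q p => t p q) x ^ n = 0)
    (h1 : Triv U (1 + MV.res σ σ (fun q p => t p q) x)) (h2 : Triv U (1 + Mm σ x r t n)) :
    Triv U (1 + x) := by
  have h3 : Triv U (1 + Mt σ x r t n) := by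
    apply triv_unip _ (fun a => a.lv)
    intro a b h
    have := Mt_lv h
    omega
  have h4 := transfer_alg (Mt := Mt σ x r t n) (S := Sm σ x r t n) (E := Em σ x r t n)
    (a := MV.res σ σ (fun q p => t p q) x) (b := MV.res σ σ (fun q p => ¬ t p q) x) (n := n)
    (Em_pow hn hr ht hx hxt) Mt_nil hxt h3 h1 h2
  rwa [res_add_not] at h4

theorem Mm_ty (hx : Ty σ σ (fun q p => r p q) x) (htr : ∀ p q, t p q → r p q) :
    Ty (fun a : Ms σ x r t n => a.loc) (fun a => a.loc) (fun q p => mr r t p q)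
      (Mm σ x r t n) := by
  classical
  unfold Mm
  refine Ty.add ?_ ?_
  · intro a b g hg
    unfold Mt at hg
    rw [Matrix.of_apply] at hg
    by_cases h1 : a.lv = b.lv + 1 ∧ a.src = b.src
    · rw [if_pos h1, MonoidAlgebra.coeff_single] at hg
      have hgb : g = a.el * (b.el)⁻¹ := by
        by_contra h2
        exact hg (Finsupp.single_eq_of_ne h2)
      rw [hgb, Finsupp.single_eq_same] at hg
      have h2 : t (σ b.cur) ((a.el * (b.el)⁻¹)⁻¹ • σ a.cur) := (Ty.res : Ty σ σ
        (fun q p => t p q) (MV.res σ σ (fun q p => t p q) x)) _ _ _ hg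
      rw [hgb]
      refine ⟨htr _ _ h2, Or.inl ⟨h2, ?_⟩⟩
      change (a.el * (b.el)⁻¹)⁻¹ • a.el • σ a.src = b.el • σ b.src
      rw [h1.2, ← mul_smul]
      congr 1
      group
    · rw [if_neg h1] at hg
      simp at hg
  · intro a b g hg
    have h0 : (Sm σ x r t n * Em σ x r t n) a b = Sm σ x r t n a b.cur := by
      rw [Matrix.mul_apply]
      unfold Em
      rw [Finset.sum_eq_single b.cur]
      · rw [Matrix.of_apply, if_pos rfl, mul_one]
      · intro j' _ hj'
        rw [Matrix.of_apply, if_neg hj', mul_zero]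
      · intro h
        exact absurd (Finset.mem_univ _) h
    rw [h0] at hg
    unfold Sm at hg
    rw [Matrix.of_apply] at hg
    by_cases h1 : a.lv = 0 ∧ a.src = b.cur
    · rw [if_pos h1, MonoidAlgebra.coeff_single] at hg
      have hgb : g = a.el := by
        by_contra h2
        exact hg (Finsupp.single_eq_of_ne h2)
      rw [hgb, Finsupp.single_eq_same] at hg
      obtain ⟨h2, h3⟩ := (Ty.res_of hx : Ty σ σ (fun q p => ¬ t p q ∧ r p q)
        (MV.res σ σ (fun q p => ¬ t p q) x)) _ _ _ hg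
      rw [hgb]
      refine ⟨h3, Or.inr ⟨h2, ?_⟩⟩
      change (a.el)⁻¹ • a.el • σ a.src = σ b.cur
      rw [inv_smul_smul, h1.2]
    · rw [if_neg h1] at hg
      simp at hg

end mem

end Pool.Agent.H1.MV
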