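import Pool.Agent.H1.MV.Zn

set_option autoImplicit false
set_option linter.unusedSectionVars false
set_option linter.unusedSimpArgs false

/-!
# Modules of idempotent matrices
-/

namespace Pool.Agent.H1.MV

open Matrix TH57.Thr

section mo

variable {R : Type} [Ring R] {m n : Type} [Fintype m] [DecidableEq m] [Fintype n] [DecidableEq n]

theorem mem_mo_iff {e : Matrix m m R} (he : e * e = e) (v : m → R) : v ∈ Mo e ↔ v ᵥ* e = v := by
  constructor
  · intro h
    exact mo_fix he ⟨v, h⟩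
  · intro h
    exact ⟨v, h⟩

/-- conjugation -/
def moConj {e : Matrix m m R} {f : Matrix n n R} (T : Matrix m n R) (T' : Matrix n m R)
    (h1 : T * T' = 1) (h2 : T' * T = 1) (h : e * T = T * f) : Mo e ≃ₗ[R] Mo f where
  toFun v := ⟨(v : m → R) ᵥ* T, by
    obtain ⟨_, ⟨w, rfl⟩⟩ := v
    refine ⟨w ᵥ* T, ?_⟩
    change (w ᵥ* T) ᵥ* f = (w ᵥ* e) ᵥ* T
    rw [Matrix.vecMul_vecMul, Matrix.vecMul_vecMul, h]⟩
  map_add' v w := Subtype.ext (Matrix.add_vecMul _ _ _)
  map_smul' r v := Subtype.ext (Matrix.smul_vecMul _ _ _)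
  invFun v := ⟨(v : n → R) ᵥ* T', by
    obtain ⟨_, ⟨w, rfl⟩⟩ := v
    refine ⟨w ᵥ* T', ?_⟩
    change (w ᵥ* T') ᵥ* e = (w ᵥ* f) ᵥ* T'
    have h3 : T' * e = f * T' := by
      calc T' * e = T' * e * (T * T') := by rw [h1, Matrix.mul_one]
        _ = T' * (e * T) * T' := by simp only [Matrix.mul_assoc]
        _ = f * T' := by rw [h, ← Matrix.mul_assoc, h2, Matrix.one_mul]
    rw [Matrix.vecMul_vecMul, Matrix.vecMul_vecMul, h3]⟩
  left_inv v := by
    apply Subtype.ext
    change ((v : m → R) ᵥ* T) ᵥ* T' = v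
    rw [Matrix.vecMul_vecMul, h1, Matrix.vecMul_one]
  right_inv v := by
    apply Subtype.ext
    change ((v : n → R) ᵥ* T') ᵥ* T = v
    rw [Matrix.vecMul_vecMul, h2, Matrix.vecMul_one]

theorem row_diag (v : m ⊕ n → R) (A : Matrix m m R) (B : Matrix n n R) :
    v ᵥ* fromBlocks A 0 0 B = Sum.elim ((v ∘ Sum.inl) ᵥ* A) ((v ∘ Sum.inr) ᵥ* B) := by
  rw [Matrix.vecMul_fromBlocks, Matrix.vecMul_zero, Matrix.vecMul_zero, add_zero, zero_add]

/-- block sums -/
def moBlocks (A : Matrix m m R) (B : Matrix n n R) : Mo (fromBlocks A 0 0 B) ≃ₗ[R] (Mo A × Mo B) where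
  toFun v := (⟨(v : m ⊕ n → R) ∘ Sum.inl, by
      obtain ⟨_, ⟨w, rfl⟩⟩ := v
      refine ⟨w ∘ Sum.inl, ?_⟩
      change (w ∘ Sum.inl) ᵥ* A = (w ᵥ* _) ∘ Sum.inl
      rw [row_diag]; rfl⟩,
    ⟨(v : m ⊕ n → R) ∘ Sum.inr, by
      obtain ⟨_, ⟨w, rfl⟩⟩ := v
      refine ⟨w ∘ Sum.inr, ?_⟩
      change (w ∘ Sum.inr) ᵥ* B = (w ᵥ* _) ∘ Sum.inr
      rw [row_diag]; rfl⟩)
  map_add' v w := rfl
  map_smul' r v := rfl
  invFun p := ⟨Sum.elim (p.1 : m → R) (p.2 : n → R), by
    obtain ⟨⟨_, ⟨w, rfl⟩⟩, ⟨_, ⟨w', rfl⟩⟩⟩ := p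
    refine ⟨Sum.elim w w', ?_⟩
    change Sum.elim w w' ᵥ* _ = Sum.elim (w ᵥ* A) (w' ᵥ* B)
    rw [row_diag]; rfl⟩
  left_inv v := by
    apply Subtype.ext
    exact Sum.elim_comp_inl_inr _
  right_inv p := rfl

/-- the module of a diagonal matrix -/
def moDiag (b : m → Bool) : Mo (Matrix.diagonal fun j => if b j then (1 : R) else 0) ≃ₗ[R]
    ({j // b j = true} → R) where
  toFun v j := (v : m → R) j.1
  map_add' v w := rfl
  map_smul' r v := rfl
  invFun w := ⟨fun j => if h : b j = true then w ⟨j, h⟩ else 0, by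
    refine ⟨fun j => if h : b j = true then w ⟨j, h⟩ else 0, ?_⟩
    funext j
    change ((fun j => if h : b j = true then w ⟨j, h⟩ else 0) ᵥ* Matrix.diagonal _) j = _
    rw [Matrix.vecMul_diagonal]
    by_cases h : b j = true
    · simp [h]
    · simp [h]⟩
  left_inv v := by
    obtain ⟨_, ⟨w, rfl⟩⟩ := v
    apply Subtype.ext
    funext j
    change (if h : b j = true then (w ᵥ* Matrix.diagonal _) j else 0) = (w ᵥ* Matrix.diagonal _) j
    rw [Matrix.vecMul_diagonal]
    by_cases h : b j = true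
    · simp [h]
    · simp [h]
  right_inv w := by
    funext j
    change (if h : b j.1 = true then w ⟨j.1, h⟩ else 0) = w j
    rw [dif_pos j.2]

/-- stable freeness from a conjugation -/
theorem stablyFree_of_conj {J K J' : Type} [Fintype J] [DecidableEq J] [Fintype K] [DecidableEq K]
    [Fintype J'] [DecidableEq J'] {e : Matrix J J R} (l : K → Bool) (b : J' → Bool)
    (T : Matrix (J ⊕ K) J' R) (T' : Matrix J' (J ⊕ K) R) (h1 : T * T' = 1) (h2 : T' * T = 1)
    (h : (fromBlocks e 0 0 (Matrix.diagonal fun κ => if l κ then 1 else 0) :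
        Matrix (J ⊕ K) (J ⊕ K) R) * T
        = T * (Matrix.diagonal fun j => if b j then 1 else 0 : Matrix J' J' R)) :
    StablyFree R (Mo e) := by
  let e1 := (moBlocks e (Matrix.diagonal fun κ => if l κ then (1 : R) else 0)).symm
  let e2 := moConj T T' h1 h2 h
  let e3 := moDiag (R := R) b
  let e4 : (Mo e × (Fin (Fintype.card {κ // l κ = true}) → R)) ≃ₗ[R]
      (Mo e × Mo (Matrix.diagonal fun κ => if l κ then (1 : R) else 0)) :=
    LinearEquiv.prodCongr (LinearEquiv.refl R _)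
      ((LinearEquiv.funCongrLeft R R (Fintype.equivFin {κ // l κ = true})).trans
        (moDiag (R := R) l).symm)
  exact ⟨_, Fintype.card {j // b j = true}, ⟨(((e4.trans e1).trans e2).trans e3).trans
    (LinearEquiv.funCongrLeft R R (Fintype.equivFin {j // b j = true}).symm)⟩⟩

/-- extension of scalars -/
theorem stablyFree_map {S : Type} [Ring S] (φ : R →+* S) {e : Matrix m m R} (he : e * e = e)
    (h : StablyFree R (Mo e)) : StablyFree S (Mo (e.map φ)) := by
  obtain ⟨s, t, s', t', T, T', h1, h2, h3⟩ := idem_single e he h (stablyFree_compl e he h)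
  have d1 : ∀ (a b : ℕ) (Q : Type) [Ring Q], (fromBlocks 1 0 0 0 : Matrix (Fin a ⊕ Fin b) (Fin a ⊕ Fin b) Q) =
      Matrix.diagonal fun κ => if κ.isLeft then 1 else 0 := by
    intro a b Q _
    ext1 (i | i) (j | j)
    · by_cases h : i = j
      · subst h; simp
      · simp [h, Matrix.one_apply_ne h]
    · simp
    · simp
    · by_cases h : i = j
      · subst h; simp
      · simp [h]
  refine stablyFree_of_conj (K := Fin s ⊕ Fin t) (J' := Fin s' ⊕ Fin t') Sum.isLeft Sum.isLeft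
    (T.map φ) (T'.map φ) ?_ ?_ ?_
  · rw [← Matrix.map_mul, h1]
    exact Matrix.map_one _ (map_zero _) (map_one _)
  · rw [← Matrix.map_mul, h2]
    exact Matrix.map_one _ (map_zero _) (map_one _)
  · have h4 := congrArg (fun M => M.map φ) h3
    beta_reduce at h4
    rw [Matrix.map_mul, Matrix.map_mul] at h4
    have e1 : ((fromBlocks 1 0 0 0 : Matrix (Fin s' ⊕ Fin t') (Fin s' ⊕ Fin t') R)).map φ =
        (fromBlocks 1 0 0 0 : Matrix (Fin s' ⊕ Fin t') (Fin s' ⊕ Fin t') S) := by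
      rw [Matrix.fromBlocks_map]
      congr 1
      · exact Matrix.map_one _ (map_zero _) (map_one _)
      · exact Matrix.map_zero _ (map_zero _)
      · exact Matrix.map_zero _ (map_zero _)
      · exact Matrix.map_zero _ (map_zero _)
    have e2 : (fromBlocks e 0 0 (fromBlocks 1 0 0 0) :
        Matrix (m ⊕ (Fin s ⊕ Fin t)) (m ⊕ (Fin s ⊕ Fin t)) R).map φ =
        fromBlocks (e.map φ) 0 0 (fromBlocks 1 0 0 0) := by
      rw [Matrix.fromBlocks_map, Matrix.fromBlocks_map]
      congr 1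
      · exact Matrix.map_zero _ (map_zero _)
      · exact Matrix.map_zero _ (map_zero _)
      · congr 1
        · exact Matrix.map_one _ (map_zero _) (map_one _)
        · exact Matrix.map_zero _ (map_zero _)
        · exact Matrix.map_zero _ (map_zero _)
        · exact Matrix.map_zero _ (map_zero _)
    rw [e1, e2, d1, d1] at h4
    exact h4

end mo

end Pool.Agent.H1.MV
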