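import Pool.Agent.H1.MV.NilN
import Mathlib.SetTheory.Ordinal.Rank

set_option autoImplicit false
set_option linter.unusedSectionVars false
set_option linter.unusedSimpArgs false

/-!
# The rank of a subgroup at a position
-/

namespace Pool.Agent.H1.MV

open Relation

section nodes

variable {G : Type} [Group G] {X : Type} [MulAction G X] (r : X → X → Prop)
  (𝒩 : Subgroup G → Prop)

/-- one step forward: the elements which fix the new position remain -/
def Es (z z' : Subgroup G × X) : Prop := r z.2 z'.2 ∧ z'.1 = z.1 ⊓ MulAction.stabilizer G z'.2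

/-- some steps forward, after which the subgroup is smaller -/
def Dsc (z' z : Subgroup G × X) : Prop := ¬ 𝒩 z.1 ∧ ReflTransGen (Es r) z z' ∧ z'.1 ≠ z.1

/-- `n` steps forward -/
def Stn : ℕ → Subgroup G × X → Subgroup G × X → Prop
  | 0, z, z' => z = z'
  | n + 1, z, z' => ∃ y, Es r z y ∧ Stn n y z'

variable {r 𝒩}

theorem Es.le {z z' : Subgroup G × X} (h : Es r z z') : z'.1 ≤ z.1 := by
  rw [h.2]; exact inf_le_left

theorem rtg_le {z z' : Subgroup G × X} (h : ReflTransGen (Es r) z z') : z'.1 ≤ z.1 := by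
  induction h with
  | refl => exact le_rfl
  | tail _ h ih => exact h.le.trans ih

theorem exists_stn {z z' : Subgroup G × X} (h : ReflTransGen (Es r) z z') : ∃ n, Stn r n z z' := by
  induction h using ReflTransGen.head_induction_on with
  | refl => exact ⟨0, rfl⟩
  | head h _ ih =>
    obtain ⟨n, hn⟩ := ih
    exact ⟨n + 1, _, h, hn⟩

theorem Stn.rtg {n : ℕ} : ∀ {z z' : Subgroup G × X} (_ : Stn r n z z'),
    ReflTransGen (Es r) z z' := by
  induction n with
  | zero =>
    intro z z' h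
    have : z = z' := h
    rw [this]
  | succ n ih =>
    intro z z' h
    obtain ⟨y, h1, h2⟩ := h
    exact (ReflTransGen.single h1).trans (ih h2)

theorem bad_child {z : Subgroup G × X} (h : ¬ Acc (Dsc r 𝒩) z) :
    ∃ z', Dsc r 𝒩 z' z ∧ ¬ Acc (Dsc r 𝒩) z' := by
  by_contra hcon
  push Not at hcon
  exact h (Acc.intro z hcon)

theorem bad_of_rtg (hC : Cls 𝒩) {z z' : Subgroup G × X} (h : ReflTransGen (Es r) z z')
    (hz' : ¬ Acc (Dsc r 𝒩) z') : ¬ Acc (Dsc r 𝒩) z := by
  obtain ⟨z'', h1, h2⟩ := bad_child hz'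
  intro hacc
  apply h2
  refine hacc.inv (x := z) ⟨fun h3 => h1.1 (hC.anti _ _ (rtg_le h) h3), h.trans h1.2.1, ?_⟩
  intro h3
  apply h1.2.2
  apply le_antisymm (rtg_le h1.2.1)
  rw [h3]
  exact rtg_le h

theorem dsc_wf (hC : Cls 𝒩) (hray : ∀ f : ℕ → X, (∀ i, r (f i) (f (i + 1))) →
    (∃ n, 𝒩 (Fx G n f)) ∨ ∃ n, ∀ m, n ≤ m → Fx G m f = Fx G n f) :
    WellFounded (Dsc r 𝒩) := by
  classical
  constructor
  intro z₀
  by_contra hz₀
  -- the distance to the next drop
  have hd : ∀ z : {z : Subgroup G × X // ¬ Acc (Dsc r 𝒩) z}, ∃ n : ℕ, ∃ z',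
      Stn r n z.1 z' ∧ ¬ Acc (Dsc r 𝒩) z' ∧ z'.1 ≠ z.1.1 := by
    intro z
    obtain ⟨z', h1, h2⟩ := bad_child z.2
    obtain ⟨n, hn⟩ := exists_stn h1.2.1
    exact ⟨n, z', hn, h2, h1.2.2⟩
  let d : {z : Subgroup G × X // ¬ Acc (Dsc r 𝒩) z} → ℕ := fun z => Nat.find (hd z)
  have hstep : ∀ z : {z : Subgroup G × X // ¬ Acc (Dsc r 𝒩) z},
      ∃ y : {z : Subgroup G × X // ¬ Acc (Dsc r 𝒩) z}, Es r z.1 y.1 ∧
        (y.1.1 ≠ z.1.1 ∨ d y < d z) := by
    intro z
    obtain ⟨z', h1, h2, h3⟩ := Nat.find_spec (hd z)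
    obtain ⟨n, hn⟩ : ∃ n, n = Nat.find (hd z) := ⟨_, rfl⟩
    have hdz : d z = n := hn.symm
    rw [← hn] at h1
    cases n with
    | zero =>
      have : z.1 = z' := h1
      exact absurd (congrArg Prod.fst this).symm h3
    | succ n =>
      obtain ⟨y, hy, hy'⟩ := h1
      refine ⟨⟨y, bad_of_rtg hC hy'.rtg h2⟩, hy, ?_⟩
      by_cases h4 : y.1 = z.1.1
      · right
        rw [hdz]
        refine Nat.lt_succ_of_le (Nat.find_min' _ ⟨z', hy', h2, ?_⟩)
        change z'.1 ≠ y.1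
        rw [h4]
        exact h3
      · left
        exact h4
  choose nx hnx1 hnx2 using hstep
  let S : ℕ → {z : Subgroup G × X // ¬ Acc (Dsc r 𝒩) z} := fun n => Nat.rec ⟨z₀, hz₀⟩ (fun _ z => nx z) n
  have hS : ∀ n, S (n + 1) = nx (S n) := fun _ => rfl
  let f : ℕ → X := fun i => (S (i + 1)).1.2
  have hf : ∀ i, r (f i) (f (i + 1)) := by
    intro i
    change r (S (i + 1)).1.2 (S (i + 1 + 1)).1.2
    rw [hS (i + 1)]
    exact (hnx1 (S (i + 1))).1
  have hgrp : ∀ n, (S (n + 1)).1.1 = (S 0).1.1 ⊓ Fx G n f := by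
    intro n
    induction n with
    | zero =>
      rw [hS 0, (hnx1 (S 0)).2]
      congr 1
      ext g
      constructor
      · intro hg i hi
        have : i = 0 := by omega
        subst this
        exact hg
      · intro hg
        exact hg 0 le_rfl
    | succ n ih =>
      rw [hS (n + 1), (hnx1 (S (n + 1))).2, ih, inf_assoc]
      congr 1
      ext g
      constructor
      · rintro ⟨h1, h2⟩ i hi
        rcases Nat.lt_or_ge n i with h3 | h3
        · have : i = n + 1 := by omega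
          subst this
          exact h2
        · exact h1 i h3
      · intro h1
        exact ⟨fun i hi => h1 i (by omega), h1 (n + 1) le_rfl⟩
  rcases hray f hf with ⟨n, hn⟩ | ⟨n, hn⟩
  · obtain ⟨z', h1, _⟩ := bad_child (S (n + 1)).2
    apply h1.1
    rw [hgrp]
    exact hC.anti _ _ inf_le_right hn
  · have hconst : ∀ m, n ≤ m → (S (m + 1)).1.1 = (S (n + 1)).1.1 := by
      intro m hm
      rw [hgrp, hgrp, hn m hm]
    have hdec : ∀ m, d (S (n + 1 + (m + 1))) < d (S (n + 1 + m)) := by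
      intro m
      have h1 := hnx2 (S (n + 1 + m))
      rw [← hS (n + 1 + m)] at h1
      rcases h1 with h1 | h1
      · exfalso
        apply h1
        have e1 := hconst (n + (m + 1)) (by omega)
        have e2 := hconst (n + m) (by omega)
        rw [show n + (m + 1) + 1 = n + 1 + m + 1 by omega] at e1
        rw [show n + m + 1 = n + 1 + m by omega] at e2
        rw [e1, e2]
      · exact h1
    have : ∀ m, d (S (n + 1 + m)) + m ≤ d (S (n + 1)) := by
      intro m
      induction m with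
      | zero => simp
      | succ m ih =>
        have := hdec m
        omega
    have h5 := this (d (S (n + 1)) + 1)
    omega

end nodes

section rank

variable {G : Type} [Group G] {X : Type} [MulAction G X] {r : X → X → Prop}
  {𝒩 : Subgroup G → Prop}

/-- the rank -/
noncomputable def rk (hwf : WellFounded (Dsc r 𝒩)) (z : Subgroup G × X) : Ordinal.{0} :=
  (hwf.apply z).rank

theorem rk_lt (hwf : WellFounded (Dsc r 𝒩)) {z z' : Subgroup G × X} (h : Dsc r 𝒩 z' z) :
    rk hwf z' < rk hwf z := Acc.rank_lt_of_rel (hwf.apply z) h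

theorem rk_le (hwf : WellFounded (Dsc r 𝒩)) {z z' : Subgroup G × X}
    (h : ∀ y, Dsc r 𝒩 y z → ∃ y', Dsc r 𝒩 y' z' ∧ rk hwf y ≤ rk hwf y') :
    rk hwf z ≤ rk hwf z' := by
  unfold rk
  rw [(hwf.apply z).rank_eq]
  apply Ordinal.iSup_le
  rintro ⟨y, hy⟩
  obtain ⟨y', h1, h2⟩ := h y hy
  rw [Order.succ_le_iff]
  exact lt_of_le_of_lt h2 (rk_lt hwf h1)

theorem rtg_lift {D₀ D₁ : Subgroup G} (hD : D₀ ≤ D₁) {c : X} {z : Subgroup G × X}
    (h : ReflTransGen (Es r) (D₀, c) z) :
    ∃ D', ReflTransGen (Es r) (D₁, c) (D', z.2) ∧ z.1 = D₀ ⊓ D' := by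
  induction h with
  | refl => exact ⟨D₁, ReflTransGen.refl, (inf_eq_left.2 hD).symm⟩
  | @tail y z _ h ih =>
    obtain ⟨D', h1, h2⟩ := ih
    refine ⟨D' ⊓ MulAction.stabilizer G z.2, h1.tail ⟨h.1, rfl⟩, ?_⟩
    rw [h.2, h2, inf_assoc]

theorem rk_mono (hC : Cls 𝒩) (hwf : WellFounded (Dsc r 𝒩)) (z : Subgroup G × X) :
    ∀ D' : Subgroup G, z.1 ≤ D' → rk hwf z ≤ rk hwf (D', z.2) := by
  induction z using hwf.induction with
  | _ z ih =>
    intro D' hD'
    apply rk_le
    intro y hy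
    obtain ⟨h1, h2, h3⟩ := hy
    obtain ⟨D'', h4, h5⟩ := rtg_lift (D₀ := z.1) (c := z.2) hD' h2
    refine ⟨(D'', y.2), ⟨fun h => h1 (hC.anti _ _ hD' h), h4, ?_⟩, ?_⟩
    · intro h6
      apply h3
      have h7 : D'' = D' := h6
      rw [h5, h7]
      exact inf_eq_left.2 hD'
    · apply ih y ⟨h1, h2, h3⟩
      rw [h5]
      exact inf_le_right

theorem rk_stable (hwf : WellFounded (Dsc r 𝒩)) {z z' : Subgroup G × X}
    (h : ReflTransGen (Es r) z z') (he : z'.1 = z.1) : rk hwf z' ≤ rk hwf z := by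
  apply rk_le
  intro y hy
  obtain ⟨h1, h2, h3⟩ := hy
  exact ⟨y, ⟨by rwa [he] at h1, h.trans h2, by rwa [he] at h3⟩, le_rfl⟩

/-- translation of a node -/
def tnode (g : G) (z : Subgroup G × X) : Subgroup G × X :=
  (z.1.map (MulAut.conj g).toMonoidHom, g • z.2)

theorem map_conj_stab (g : G) (c : X) :
    (MulAction.stabilizer G c).map (MulAut.conj g).toMonoidHom = MulAction.stabilizer G (g • c) := by
  ext u
  constructor
  · rintro ⟨v, hv, rfl⟩
    change (g * v * g⁻¹) • g • c = g • c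
    rw [← mul_smul, mul_assoc, inv_mul_cancel, mul_one, mul_smul]
    have : v • c = c := hv
    rw [this]
  · intro hu
    have hu' : u • g • c = g • c := hu
    refine ⟨g⁻¹ * u * g, ?_, ?_⟩
    · change (g⁻¹ * u * g) • c = c
      rw [mul_smul, mul_smul, hu', inv_smul_smul]
    · change g * (g⁻¹ * u * g) * g⁻¹ = u
      group

theorem map_conj_inf (g : G) (A B : Subgroup G) :
    (A ⊓ B).map (MulAut.conj g).toMonoidHom =
      A.map (MulAut.conj g).toMonoidHom ⊓ B.map (MulAut.conj g).toMonoidHom :=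
  Subgroup.map_inf _ _ _ (MulAut.conj g).injective

theorem Es.smul (hr : ∀ (g : G) p q, r p q → r (g • p) (g • q)) (g : G) {z z' : Subgroup G × X}
    (h : Es r z z') : Es r (tnode g z) (tnode g z') := by
  refine ⟨hr g _ _ h.1, ?_⟩
  change z'.1.map _ = z.1.map _ ⊓ MulAction.stabilizer G (g • z'.2)
  rw [h.2, map_conj_inf, map_conj_stab]

theorem rtg_smul (hr : ∀ (g : G) p q, r p q → r (g • p) (g • q)) (g : G) {z z' : Subgroup G × X}
    (h : ReflTransGen (Es r) z z') : ReflTransGen (Es r) (tnode g z) (tnode g z') := by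
  induction h with
  | refl => exact ReflTransGen.refl
  | tail _ h ih => exact ih.tail (h.smul hr g)

theorem conj_inj' (g : G) {A B : Subgroup G}
    (h : A.map (MulAut.conj g).toMonoidHom = B.map (MulAut.conj g).toMonoidHom) : A = B :=
  Subgroup.map_injective (MulAut.conj g).injective h

theorem Dsc.smul (hC : Cls 𝒩) (hr : ∀ (g : G) p q, r p q → r (g • p) (g • q)) (g : G)
    {z z' : Subgroup G × X} (h : Dsc r 𝒩 z' z) : Dsc r 𝒩 (tnode g z') (tnode g z) := by
  obtain ⟨h1, h2, h3⟩ := h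
  exact ⟨fun h => h1 (hC.conj _ g h), rtg_smul hr g h2, fun h => h3 (conj_inj' g h)⟩

theorem tnode_inv (g : G) (z : Subgroup G × X) : tnode g (tnode g⁻¹ z) = z := by
  apply Prod.ext
  · change (z.1.map _).map _ = z.1
    rw [Subgroup.map_map]
    have : (MulAut.conj g).toMonoidHom.comp (MulAut.conj g⁻¹).toMonoidHom = MonoidHom.id G := by
      ext x
      change g * (g⁻¹ * x * g⁻¹⁻¹) * g⁻¹ = x
      group
    rw [this, Subgroup.map_id]
  · change g • g⁻¹ • z.2 = z.2
    rw [smul_inv_smul]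

theorem rk_smul_le (hC : Cls 𝒩) (hr : ∀ (g : G) p q, r p q → r (g • p) (g • q))
    (hwf : WellFounded (Dsc r 𝒩)) (g : G) (z : Subgroup G × X) :
    rk hwf (tnode g z) ≤ rk hwf z := by
  induction z using hwf.induction with
  | _ z ih =>
    apply rk_le
    intro y hy
    have h1 : Dsc r 𝒩 (tnode g⁻¹ y) z := by
      have h2 := hy.smul hC hr g⁻¹
      have h3 : tnode g⁻¹ (tnode g z) = z := by
        have := tnode_inv g⁻¹ z
        rwa [inv_inv] at this
      rwa [h3] at h2
    refine ⟨_, h1, ?_⟩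
    have h4 := ih _ h1
    rwa [tnode_inv] at h4

theorem rk_smul (hC : Cls 𝒩) (hr : ∀ (g : G) p q, r p q → r (g • p) (g • q))
    (hwf : WellFounded (Dsc r 𝒩)) (g : G) (z : Subgroup G × X) :
    rk hwf (tnode g z) = rk hwf z := by
  apply le_antisymm (rk_smul_le hC hr hwf g z)
  have h1 := rk_smul_le hC hr hwf g⁻¹ (tnode g z)
  have h2 : tnode g⁻¹ (tnode g z) = z := by
    have := tnode_inv g⁻¹ z
    rwa [inv_inv] at this
  rwa [h2] at h1

open Classical in
/-- the rank, which is zero for subgroups in the class only -/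
noncomputable def rho (hwf : WellFounded (Dsc r 𝒩)) (z : Subgroup G × X) : Ordinal.{0} :=
  if 𝒩 z.1 then 0 else Order.succ (rk hwf z)

theorem rho_zero (hwf : WellFounded (Dsc r 𝒩)) {z : Subgroup G × X} :
    rho hwf z = 0 ↔ 𝒩 z.1 := by
  unfold rho
  by_cases h : 𝒩 z.1
  · simp [h]
  · simp [h]

theorem rho_mono (hC : Cls 𝒩) (hwf : WellFounded (Dsc r 𝒩)) {D D' : Subgroup G} (c : X)
    (h : D ≤ D') : rho hwf (D, c) ≤ rho hwf (D', c) := by
  unfold rho
  by_cases h1 : 𝒩 D
  · rw [if_pos h1]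
    exact zero_le
  · have h2 : ¬ 𝒩 D' := fun h3 => h1 (hC.anti _ _ h h3)
    rw [if_neg h1, if_neg h2]
    exact Order.succ_le_succ (rk_mono hC hwf (D, c) D' h)

theorem rho_rtg (hC : Cls 𝒩) (hwf : WellFounded (Dsc r 𝒩)) {z z' : Subgroup G × X}
    (h : ReflTransGen (Es r) z z') : rho hwf z' ≤ rho hwf z ∧
      (z'.1 ≠ z.1 → ¬ 𝒩 z.1 → rho hwf z' < rho hwf z) := by
  by_cases h1 : 𝒩 z.1
  · have h2 : 𝒩 z'.1 := hC.anti _ _ (rtg_le h) h1
    rw [(rho_zero hwf).2 h1, (rho_zero hwf).2 h2]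
    exact ⟨le_rfl, fun _ h3 => absurd h1 h3⟩
  · by_cases h2 : 𝒩 z'.1
    · rw [(rho_zero hwf).2 h2]
      refine ⟨zero_le, fun _ _ => ?_⟩
      rw [pos_iff_ne_zero]
      intro h3
      exact h1 ((rho_zero hwf).1 h3)
    · unfold rho
      rw [if_neg h1, if_neg h2]
      constructor
      · apply Order.succ_le_succ
        by_cases h3 : z'.1 = z.1
        · exact rk_stable hwf h h3
        · exact (rk_lt hwf ⟨h1, h, h3⟩).le
      · intro h3 _
        exact Order.succ_lt_succ (rk_lt hwf ⟨h1, h, h3⟩)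

theorem rho_smul (hC : Cls 𝒩) (hr : ∀ (g : G) p q, r p q → r (g • p) (g • q))
    (hwf : WellFounded (Dsc r 𝒩)) (g : G) (z : Subgroup G × X) :
    rho hwf (tnode g z) = rho hwf z := by
  unfold rho
  by_cases h : 𝒩 z.1
  · have h2 : 𝒩 (tnode g z).1 := by
      apply hC.conj _ g⁻¹
      have := congrArg Prod.fst (tnode_inv g⁻¹ z)
      rw [inv_inv] at this
      change (tnode g⁻¹ (tnode g z)).1 = z.1 at this
      change 𝒩 (tnode g⁻¹ (tnode g z)).1
      rw [this]
      exact h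
    rw [if_pos h, if_pos h2]
  · have h2 : ¬ 𝒩 (tnode g z).1 := fun h3 => h (hC.conj _ g h3)
    rw [if_neg h, if_neg h2, rk_smul hC hr]

end rank

end Pool.Agent.H1.MV
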