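import Pool.Agent.H1.MV.Mem2
import Pool.Agent.H1.MV.Rank

set_option autoImplicit false
set_option linter.unusedSectionVars false
set_option linter.unusedSimpArgs false

/-!
# Nilpotent located matrices: induction on the rank
-/

namespace Pool.Agent.H1.MV

open Matrix TH57.Thr Pool.Agent.K4H37.MT Relation

section nob

/-- locations over a base -/
structure Nob (G : Type) [Group G] {X Y : Type} [MulAction G X] [MulAction G Y]
    (rX : X → X → Prop) (r : Y → Y → Prop) (b : Y → X) : Prop where
  smul : ∀ (g : G) p q, r p q → r (g • p) (g • q)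
  det : Det r
  bs : ∀ (g : G) y, b (g • y) = g • b y
  step : ∀ y y', r y y' → rX (b y) (b y')
  mem : ∀ y y', r y y' → ∀ g : G, g • y = y → g • b y' = b y' → g • y' = y'
  ker : ∀ g : G, (∀ c : X, g • c = c) → ∀ y : Y, g • y = y

variable {G : Type} [Group G] {X : Type} [MulAction G X] {rX : X → X → Prop}

theorem Nob.next {Y : Type} [MulAction G Y] {r t : Y → Y → Prop} {b : Y → X}
    (h : Nob G rX r b) (ht : ∀ (g : G) p q, t p q → t (g • p) (g • q)) :
    Nob G rX (mr r t) (fun y : Y × Y => b y.2) where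
  smul := mr_smul h.smul ht
  det := mr_det h.det
  bs g y := h.bs g y.2
  step y y' hy := h.step _ _ hy.1
  mem y y' hy g h1 h2 := by
    have e1 : g • y.1 = y.1 := congrArg Prod.fst h1
    have e2 : g • y.2 = y.2 := congrArg Prod.snd h1
    have h3 := h.mem _ _ hy.1 g e2 h2
    apply Prod.ext ?_ h3
    change g • y'.1 = y'.1
    rcases hy.2 with ⟨_, h4⟩ | ⟨_, h4⟩
    · rw [h4, e1]
    · rw [h4, e2]
  ker g hg y := Prod.ext (h.ker g hg y.1) (h.ker g hg y.2)

theorem Path.map {Y Z : Type} {r : Y → Y → Prop} {s : Z → Z → Prop} (f : Y → Z)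
    (h : ∀ p q, r p q → s (f p) (f q)) {n : ℕ} {p q : Y} (h' : Path r n p q) :
    Path s n (f p) (f q) := by
  obtain ⟨g, h0, h1, h2⟩ := h'
  exact ⟨fun i => f (g i), by beta_reduce; rw [h0], by beta_reduce; rw [h1],
    fun i hi => h _ _ (h2 i hi)⟩

theorem Tm.path {Y : Type} {r t : Y → Y → Prop} (htr : ∀ p q, t p q → r p q) {i : ℕ} :
    ∀ {y₀ y : Y} (_ : Tm r t i y₀ y), ∃ y₁, r y₀ y₁ ∧ ¬ t y₀ y₁ ∧ Path r i y₁ y := by
  induction i with
  | zero =>
    intro y₀ y h
    exact ⟨y, h.1, h.2, Path.zero _⟩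
  | succ i ih =>
    intro y₀ y h
    obtain ⟨z, h1, h2⟩ := h
    obtain ⟨y₁, h3, h4, h5⟩ := ih h1
    exact ⟨y₁, h3, h4, h5.snoc (htr _ _ h2)⟩

/-- elements which fix the ends fix the path -/
theorem path_fix {Y : Type} [MulAction G Y] {r : Y → Y → Prop}
    (hr : ∀ (g : G) p q, r p q → r (g • p) (g • q)) (hD : Det r) {n : ℕ} {f : ℕ → Y}
    (hf : ∀ i < n, r (f i) (f (i + 1))) {g : G} (h0 : g • f 0 = f 0) (hn : g • f n = f n) :
    ∀ i ≤ n, g • f i = f i :=
  hD n (fun i => g • f i) f (fun i hi => hr g _ _ (hf i hi)) hf h0 hn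

variable {𝒩 : Subgroup G → Prop}

theorem tm_rho (hC : Cls 𝒩) (hwf : WellFounded (Dsc rX 𝒩)) {Y : Type} [MulAction G Y]
    {r t : Y → Y → Prop} {b : Y → X} (h : Nob G rX r b) (htr : ∀ p q, t p q → r p q)
    {ρ₀ : Ordinal.{0}} (hrest : ∀ p q, r p q → ¬ t p q →
      rho hwf (MulAction.stabilizer G p, b p) ≤ ρ₀ →
      rho hwf (MulAction.stabilizer G p ⊓ MulAction.stabilizer G (b q), b q) < ρ₀)
    {i : ℕ} {y₀ y : Y} (hT : Tm r t i y₀ y)
    (h0 : rho hwf (MulAction.stabilizer G y₀, b y₀) ≤ ρ₀) :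
    rho hwf (MulAction.stabilizer G ((y₀, y) : Y × Y), b y) < ρ₀ := by
  obtain ⟨y₁, h1, h2, hP⟩ := hT.path htr
  obtain ⟨f, hf0, hf1, hf2⟩ := hP
  have hpath : Path r (i + 1) y₀ y := Path.cons h1 ⟨f, hf0, hf1, hf2⟩
  -- the elements of the stabiliser fix the path
  have hfix : ∀ g ∈ MulAction.stabilizer G ((y₀, y) : Y × Y), g • y₀ = y₀ ∧
      ∀ j ≤ i, g • f j = f j := by
    intro g hg
    have e0 : g • y₀ = y₀ := congrArg Prod.fst hg
    have e1 : g • y = y := congrArg Prod.snd hg
    refine ⟨e0, ?_⟩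
    have h3 := path_fix h.smul h.det (n := i + 1)
      (f := fun j => if j = 0 then y₀ else f (j - 1)) (by
        intro j hj
        beta_reduce
        by_cases hj0 : j = 0
        · subst hj0
          rw [if_pos rfl, if_neg (by omega)]
          change r y₀ (f 0)
          rw [hf0]
          exact h1
        · rw [if_neg hj0, if_neg (by omega)]
          have := hf2 (j - 1) (by omega)
          rw [show j - 1 + 1 = j + 1 - 1 by omega] at this
          exact this) (g := g) (by simp [e0]) (by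
        beta_reduce
        rw [if_neg (by omega), show i + 1 - 1 = i by omega, hf1, e1])
    intro j hj
    have h4 := h3 (j + 1) (by omega)
    beta_reduce at h4
    rw [if_neg (by omega), show j + 1 - 1 = j by omega] at h4
    exact h4
  obtain ⟨D, hD⟩ : ∃ D, D = MulAction.stabilizer G ((y₀, y) : Y × Y) := ⟨_, rfl⟩
  rw [← hD] at hfix ⊢
  have hb : ∀ j ≤ i, D ≤ MulAction.stabilizer G (b (f j)) := by
    intro j hj g hg
    change g • b (f j) = b (f j)
    rw [← h.bs, (hfix g hg).2 j hj]
  have hr : ∀ j ≤ i, ReflTransGen (Es rX) (D, b (f 0)) (D, b (f j)) := by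
    intro j
    induction j with
    | zero => intro _; exact ReflTransGen.refl
    | succ j ih =>
      intro hj
      refine (ih (by omega)).tail ⟨h.step _ _ (hf2 j (by omega)), ?_⟩
      exact (inf_eq_left.2 (hb (j + 1) hj)).symm
  have h5 := (rho_rtg hC hwf (hr i le_rfl)).1
  rw [hf0, hf1] at h5
  refine lt_of_le_of_lt (h5.trans (rho_mono hC hwf (b y₁) ?_)) (hrest _ _ h1 h2 h0)
  intro g hg
  refine ⟨(hfix g hg).1, ?_⟩
  have := hb 0 (Nat.zero_le _) hg
  rwa [hf0] at this

end nob

section main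

variable {k : Type} [Ring k] {G : Type} [Group G]
  {X : Type} [MulAction G X] {rX : X → X → Prop} {𝒩 : Subgroup G → Prop}

theorem nil_rho (U : Subgroup (MonoidAlgebra k G)ˣ)
    (hrX : ∀ (g : G) p q, rX p q → rX (g • p) (g • q)) (hC : Cls 𝒩)
    (hN : ∀ H, 𝒩 H → Nice (MonoidAlgebra k H)) (hwf : WellFounded (Dsc rX 𝒩))
    (hend : ∀ (D : Subgroup G) (c : X) (h : G) (m : ℕ), ¬ 𝒩 D → D ≤ MulAction.stabilizer G c →
      (∀ d ∈ D, h * d * h⁻¹ ∈ D) → (∀ g : G, (∀ c : X, g • c = c) → g ∈ D) →
      Path rX (m + 1) c (h⁻¹ • c) → HT k U (Subgroup.closure ((D : Set G) ∪ {h})))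
    (ρ₀ : Ordinal.{0}) :
    ∀ (Y : Type) [MulAction G Y] (r : Y → Y → Prop) (b : Y → X) (_ : Nob G rX r b) (J : Type)
      [Fintype J] [DecidableEq J] (σ : J → Y) (x : Matrix J J (MonoidAlgebra k G))
      (_ : Ty σ σ (fun q p => r p q) x) (n : ℕ) (_ : x ^ n = 0)
      (_ : ∀ j, rho hwf (MulAction.stabilizer G (σ j), b (σ j)) ≤ ρ₀), Triv U (1 + x) := by
  classical
  induction ρ₀ using WellFoundedLT.induction with
  | _ ρ₀ IH =>
    intro Y _ r b hY J _ _ σ x hx n hn hρ
    by_cases h0 : ρ₀ = 0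
    · refine nil_nice U hY.smul hY.det (fun j => hN _ (hC.rep ?_)) hx hn
      have h1 := hρ j
      rw [h0] at h1
      exact (rho_zero hwf (z := (MulAction.stabilizer G (σ j), b (σ j)))).1
        (le_antisymm h1 zero_le)
    · -- invariance of the rank
      have hinv : ∀ (g : G) (D : Subgroup G) (c : X),
          rho hwf (D.map (MulAut.conj g).toMonoidHom, g • c) = rho hwf (D, c) :=
        fun g D c => rho_smul hC hrX hwf g (D, c)
      have hinv1 : ∀ (g : G) (p : Y), rho hwf (MulAction.stabilizer G (g • p), b (g • p)) =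
          rho hwf (MulAction.stabilizer G p, b p) := by
        intro g p
        rw [← map_conj_stab, hY.bs, hinv]
      have hinv2 : ∀ (g : G) (p q : Y), rho hwf (MulAction.stabilizer G (g • p) ⊓
          MulAction.stabilizer G (b (g • q)), b (g • q)) =
          rho hwf (MulAction.stabilizer G p ⊓ MulAction.stabilizer G (b q), b q) := by
        intro g p q
        rw [hY.bs, ← map_conj_stab, ← map_conj_stab, ← map_conj_inf, hinv]
      let t : Y → Y → Prop := fun p q => r p q ∧
        rho hwf (MulAction.stabilizer G p, b p) ≤ ρ₀ ∧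
        rho hwf (MulAction.stabilizer G p ⊓ MulAction.stabilizer G (b q), b q) = ρ₀
      have htr : ∀ p q, t p q → r p q := fun _ _ h => h.1
      have ht : ∀ (g : G) p q, t p q → t (g • p) (g • q) := by
        rintro g p q ⟨h1, h2, h3⟩
        exact ⟨hY.smul g _ _ h1, by rw [hinv1]; exact h2, by rw [hinv2]; exact h3⟩
      -- one arrow
      have harr : ∀ p q, r p q →
          rho hwf (MulAction.stabilizer G p ⊓ MulAction.stabilizer G (b q), b q) ≤
            rho hwf (MulAction.stabilizer G p, b p) ∧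
          (MulAction.stabilizer G p ⊓ MulAction.stabilizer G (b q) ≠ MulAction.stabilizer G p →
            ¬ 𝒩 (MulAction.stabilizer G p) →
          rho hwf (MulAction.stabilizer G p ⊓ MulAction.stabilizer G (b q), b q) <
            rho hwf (MulAction.stabilizer G p, b p)) := fun p q h =>
        rho_rtg hC hwf (ReflTransGen.single (show Es rX (MulAction.stabilizer G p, b p)
          (MulAction.stabilizer G p ⊓ MulAction.stabilizer G (b q), b q) from
          ⟨hY.step _ _ h, rfl⟩))
      have hnot : ∀ p q, t p q → ¬ 𝒩 (MulAction.stabilizer G p) := by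
        rintro p q ⟨h1, h2, h3⟩ h4
        have h5 := (harr p q h1).1
        rw [h3, (rho_zero hwf (z := (MulAction.stabilizer G p, b p))).2 h4] at h5
        exact h0 (le_antisymm h5 zero_le)
      have hst : ∀ p q, t p q → MulAction.stabilizer G p ≤ MulAction.stabilizer G q := by
        rintro p q hpq
        obtain ⟨h1, h2, h3⟩ := hpq
        have h4 := hnot p q ⟨h1, h2, h3⟩
        have h5 : MulAction.stabilizer G p ⊓ MulAction.stabilizer G (b q) =
            MulAction.stabilizer G p := by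
          by_contra h6
          have h7 := (harr p q h1).2 h6 h4
          rw [h3] at h7
          exact absurd h2 (not_le.2 h7)
        intro g hg
        have h6 : g ∈ MulAction.stabilizer G (b q) := (inf_eq_left.1 h5) hg
        exact hY.mem _ _ h1 g hg h6
      have hrest : ∀ p q, r p q → ¬ t p q → rho hwf (MulAction.stabilizer G p, b p) ≤ ρ₀ →
          rho hwf (MulAction.stabilizer G p ⊓ MulAction.stabilizer G (b q), b q) < ρ₀ := by
        intro p q h1 h2 h3
        refine lt_of_le_of_ne ((harr p q h1).1.trans h3) ?_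
        intro h4
        exact h2 ⟨h1, h3, h4⟩
      -- the stable part
      have hxn : x ^ (n + 1) = 0 := by rw [pow_succ, hn, zero_mul]
      have hxt : MV.res σ σ (fun q p => t p q) x ^ (n + 1) = 0 := by
        rw [pow_res htr hY.smul ht hY.det hx, hxn]
        exact res_none (ρ' := fun _ _ => False) Ty.zero (fun _ _ _ h => h)
      have hDt : Det t := fun m p q hp hq e1 e2 =>
        hY.det m p q (fun i hi => (hp i hi).1) (fun i hi => (hq i hi).1) e1 e2
      have h1 : Triv U (1 + MV.res σ σ (fun q p => t p q) x) := by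
        refine triv_stable ht hDt hst ?_ Ty.res hxt
        intro p q h m hP hh
        have hq : q = h⁻¹ • p := by rw [← hh, inv_smul_smul]
        have h2 := hP.stab hst
        refine hend (MulAction.stabilizer G p) (b p) h m ?_ ?_ ?_ (fun g hg => hY.ker g hg p) ?_
        · obtain ⟨f, f0, _, f2⟩ := hP
          have := hnot _ _ (f2 0 (Nat.succ_pos _))
          rwa [f0] at this
        · intro g hg
          change g • b p = b p
          rw [← hY.bs]
          congr 1
        · intro d hd
          have h3 : d • q = q := h2 hd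
          change (h * d * h⁻¹) • p = p
          rw [mul_smul, mul_smul, ← hq, h3, hh]
        · have h3 : Path r (m + 1) p q := hP.mono htr
          have h4 := h3.map b (fun p q h => hY.step p q h)
          rw [hq, hY.bs] at h4
          exact h4
      refine Mm_triv (n := n + 1) (Nat.succ_pos _) hY.smul ht hx hxt h1 ?_
      -- the rest
      let ρ₁ : Ordinal.{0} := (Finset.univ : Finset (Ms σ x r t (n + 1))).sup fun a =>
        rho hwf (MulAction.stabilizer G a.loc, b a.loc.2)
      have hρ₁ : ρ₁ < ρ₀ := by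
        have hbot : (⊥ : Ordinal.{0}) < ρ₀ := by
          rw [bot_lt_iff_ne_bot]
          exact h0
        refine (Finset.sup_lt_iff hbot).2 ?_
        intro a _
        refine tm_rho hC hwf hY htr hrest a.tm ?_
        rw [hinv1]
        exact hρ _
      refine IH ρ₁ hρ₁ (Y × Y) (mr r t) (fun y => b y.2) (hY.next ht) (Ms σ x r t (n + 1))
        (fun a => a.loc) (Mm σ x r t (n + 1)) (Mm_ty hx htr) (n + 1 + (n + 1) + (n + 1))
        (Mm_nil (Nat.succ_pos _) hY.smul ht hx hxt hxn) ?_
      intro a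
      exact Finset.le_sup (f := fun a : Ms σ x r t (n + 1) =>
        rho hwf (MulAction.stabilizer G a.loc, b a.loc.2)) (Finset.mem_univ a)

/-- **Nilpotent located matrices**: the stabilisers along each ray are finally constant or in the
class. -/
theorem nil_rays (U : Subgroup (MonoidAlgebra k G)ˣ)
    (hrX : ∀ (g : G) p q, rX p q → rX (g • p) (g • q)) (hdX : Det rX) (hC : Cls 𝒩)
    (hN : ∀ H, 𝒩 H → Nice (MonoidAlgebra k H))
    (hray : ∀ f : ℕ → X, (∀ i, rX (f i) (f (i + 1))) →
      (∃ n, 𝒩 (Fx G n f)) ∨ ∃ n, ∀ m, n ≤ m → Fx G m f = Fx G n f)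
    (hend : ∀ (D : Subgroup G) (c : X) (h : G) (m : ℕ), ¬ 𝒩 D → D ≤ MulAction.stabilizer G c →
      (∀ d ∈ D, h * d * h⁻¹ ∈ D) → (∀ g : G, (∀ c : X, g • c = c) → g ∈ D) →
      Path rX (m + 1) c (h⁻¹ • c) → HT k U (Subgroup.closure ((D : Set G) ∪ {h})))
    {J : Type} [Fintype J] [DecidableEq J] {σ : J → X} {x : Matrix J J (MonoidAlgebra k G)}
    (hx : Ty σ σ (fun q p => rX p q) x) {n : ℕ} (hn : x ^ n = 0) : Triv U (1 + x) := by
  classical
  have hwf := dsc_wf hC hray
  let ρ₀ : Ordinal.{0} := (Finset.univ : Finset J).sup fun j =>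
    rho hwf (MulAction.stabilizer G (σ j), σ j)
  refine nil_rho U hrX hC hN hwf hend ρ₀ X rX id
    ⟨hrX, hdX, fun _ _ => rfl, fun _ _ h => h, fun _ _ _ _ _ h => h, fun _ h => h⟩ J σ x hx n
    hn ?_
  intro j
  exact Finset.le_sup (f := fun j => rho hwf (MulAction.stabilizer G (σ j), σ j))
    (Finset.mem_univ j)

end main

end Pool.Agent.H1.MV
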