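import Pool.Graph.R_pool_sql_team_seeded_c8625f6e.K4H37.MT.Two

set_option autoImplicit false
set_option linter.unusedSectionVars false
set_option linter.unusedSimpArgs false

/-!
# Trivial classes: exchange of factors, triangular matrices, nilpotent families
-/

namespace Pool.Agent.H1.MV

open Matrix TH57.Thr Pool.Agent.K4H37.MT

section uv

variable {R : Type} [Ring R] {κ μ ν : Type} [Fintype κ] [DecidableEq κ] [Fintype μ] [DecidableEq μ]
  [Fintype ν] [DecidableEq ν] {U : Subgroup Rˣ}

/-- a trivial corner -/
theorem Triv.unst {W : Matrix κ κ R} (h : Triv U (fromBlocks W 0 0 (1 : Matrix μ μ R))) :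
    Triv U W := by
  obtain ⟨x, hx, hxT⟩ := h
  obtain ⟨a, ha⟩ := corner_unit x W 0 (1 : (Matrix μ μ R)ˣ) hx
  refine ⟨a, ha, ?_⟩
  apply TT_unst (μ := μ)
  convert hxT using 1
  apply Units.ext
  rw [hx]
  change fromBlocks a.val 0 0 1 = _
  rw [ha]

theorem triv_uv (A : Matrix κ μ R) (B : Matrix μ κ R) (h : Triv U (1 + B * A)) :
    Triv U (1 + A * B) := by
  apply Triv.unst (μ := μ)
  have h1 : Triv U (fromBlocks (1 : Matrix κ κ R) (-A) 0 (1 + B * A)) :=
    Triv.upper _ Triv.one h
  have h2 : Triv U (fromBlocks (1 : Matrix κ κ R) 0 B (1 : Matrix μ μ R)) :=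
    Triv.lower _ Triv.one Triv.one
  have h3 : Triv U (fromBlocks (1 : Matrix κ κ R) A 0 (1 : Matrix μ μ R)) :=
    Triv.upper _ Triv.one Triv.one
  have h4 : Triv U (fromBlocks (1 : Matrix κ κ R) 0 (-B) (1 : Matrix μ μ R)) :=
    Triv.lower _ Triv.one Triv.one
  have h5 := Triv.mul (Triv.mul h3 (Triv.mul h2 h1)) h4
  convert h5 using 1
  rw [Matrix.fromBlocks_multiply, Matrix.fromBlocks_multiply, Matrix.fromBlocks_multiply]
  congr 1
  · simp only [Matrix.mul_one, Matrix.mul_zero, Matrix.zero_mul, Matrix.one_mul, add_zero,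
      zero_add, Matrix.mul_neg, Matrix.neg_mul, Matrix.mul_add, Matrix.add_mul, neg_neg]
    abel
  · simp only [Matrix.mul_one, Matrix.mul_zero, Matrix.zero_mul, Matrix.one_mul, add_zero,
      zero_add, Matrix.mul_neg, Matrix.neg_mul, Matrix.mul_add, Matrix.add_mul, neg_neg]
    abel
  · simp only [Matrix.mul_one, Matrix.mul_zero, Matrix.zero_mul, Matrix.one_mul, add_zero,
      zero_add, Matrix.mul_neg, Matrix.neg_mul, Matrix.mul_add, Matrix.add_mul, neg_neg]
    abel
  · simp only [Matrix.mul_one, Matrix.mul_zero, Matrix.zero_mul, Matrix.one_mul, add_zero,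
      zero_add, Matrix.mul_neg, Matrix.neg_mul, Matrix.mul_add, Matrix.add_mul, neg_neg]
    abel

/-- triangular matrices with respect to a rank function -/
theorem triv_tri (W : Matrix κ κ R) (ρ : κ → ℕ) (h : ∀ i j, i ≠ j → W i j ≠ 0 → ρ j < ρ i)
    (hd : ∀ i, ∃ u ∈ U, W i i = (u : R)) : Triv U W := by
  let e₀ : Fin (Fintype.card κ) ≃ κ := (Fintype.equivFin κ).symm
  let σ := Tuple.sort (ρ ∘ e₀)
  have hmono : Monotone ((ρ ∘ e₀) ∘ σ) := Tuple.monotone_sort _
  let e : Fin (Fintype.card κ) ≃ κ := (σ : Equiv.Perm _).trans e₀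
  have h1 : Triv U (W.submatrix e e) := by
    apply Triv.fin
    · intro i j hij
      by_contra hne
      have h2 := h (e i) (e j) (fun h => (ne_of_lt hij) (e.injective h)) hne
      have h3 : ρ (e i) ≤ ρ (e j) := hmono (le_of_lt hij)
      omega
    · intro i
      exact hd (e i)
  have h2 := h1.re e.symm
  convert h2 using 1
  ext i j
  simp

theorem triv_unip (N : Matrix κ κ R) (ρ : κ → ℕ) (h : ∀ i j, N i j ≠ 0 → ρ j < ρ i) :
    Triv U (1 + N) := by
  apply triv_tri _ ρ
  · intro i j hij h1
    apply h
    rwa [Matrix.add_apply, Matrix.one_apply_ne hij, zero_add] at h1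
  · intro i
    refine ⟨1, one_mem _, ?_⟩
    rw [Matrix.add_apply, Matrix.one_apply_eq]
    have : N i i = 0 := by
      by_contra h1
      exact lt_irrefl _ (h i i h1)
    rw [this, add_zero]; rfl

end uv

section fam

variable {k : Type} [CommRing k] [IsDomain k] [IsPrincipalIdealRing k] {R : Type} [Ring R]
  [Algebra k R] {U : Subgroup Rˣ}

theorem nil_family (n : ℕ) : ∀ (J : Type) [Fintype J] [DecidableEq J] (A : Type) [Fintype A]
    (L : A → Matrix J J k) (c : A → R),
    (∀ w : List A, w.length = n → (w.map L).prod = 0) →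
    Triv U (1 + ∑ a, c a • (L a).map (algebraMap k R)) := by
  induction n with
  | zero =>
    intro J _ _ A _ L c h
    have h1 : (1 : Matrix J J k) = 0 := h [] rfl
    have h2 : IsEmpty J := by
      by_contra hne
      rw [not_isEmpty_iff] at hne
      obtain ⟨j⟩ := hne
      have := congrFun (congrFun h1 j) j
      rw [Matrix.one_apply_eq] at this
      exact one_ne_zero this
    have h3 : (1 + ∑ a, c a • (L a).map (algebraMap k R) : Matrix J J R) = 1 := by
      ext j
      exact h2.elim j
    rw [h3]
    exact Triv.one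
  | succ n ih =>
    intro J _ _ A _ L c h
    let W : Submodule k (J → k) := ⨆ a, LinearMap.range (Matrix.mulVecLin (L a))
    let b := Module.finBasis k W
    let r := Module.finrank k W
    have hmem : ∀ a j, L a *ᵥ Pi.single j 1 ∈ W := fun a j =>
      (le_iSup (fun a => LinearMap.range (Matrix.mulVecLin (L a))) a) ⟨Pi.single j 1, rfl⟩
    let io : Matrix J (Fin r) k := Matrix.of fun i l => (b l : J → k) i
    let M : A → Matrix (Fin r) J k := fun a => Matrix.of fun l j => b.repr ⟨_, hmem a j⟩ l
    have hio : ∀ a, io * M a = L a := by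
      intro a
      ext i j
      have h1 : ((∑ l, b.repr ⟨_, hmem a j⟩ l • b l : W) : J → k) = L a *ᵥ Pi.single j 1 := by
        rw [b.sum_repr]
      have h2 := congrFun h1 i
      have h2' : (L a *ᵥ Pi.single j 1) i = L a i j := by rw [Matrix.mulVec_single_one]; rfl
      rw [Matrix.mul_apply]
      rw [← h2', ← h2, Submodule.coe_sum, Finset.sum_apply]
      apply Finset.sum_congr rfl
      intro l _
      simp only [io, M, Matrix.of_apply, Submodule.coe_smul, Pi.smul_apply, smul_eq_mul]
      ring
    let L' : A → Matrix (Fin r) (Fin r) k := fun a => M a * io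
    have hcomm : ∀ w : List A, io * (w.map L').prod = (w.map L).prod * io := by
      intro w
      induction w with
      | nil => simp
      | cons a w ihw =>
        rw [List.map_cons, List.prod_cons, List.map_cons, List.prod_cons, Matrix.mul_assoc (L a),
          ← ihw, ← Matrix.mul_assoc, ← Matrix.mul_assoc, ← Matrix.mul_assoc, hio]
    have hz : ∀ w : List A, w.length = n → (w.map L).prod * io = 0 := by
      intro w hw
      have h1 : W ≤ LinearMap.ker (Matrix.mulVecLin (w.map L).prod) := by
        apply iSup_le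
        rintro a _ ⟨x, rfl⟩
        rw [LinearMap.mem_ker, Matrix.mulVecLin_apply, Matrix.mulVecLin_apply, Matrix.mulVec_mulVec]
        have h2 := h (w ++ [a]) (by simp [hw])
        rw [List.map_append, List.prod_append, List.map_singleton, List.prod_singleton] at h2
        rw [h2, Matrix.zero_mulVec]
      ext i l
      have h2 := h1 (b l).2
      rw [LinearMap.mem_ker, Matrix.mulVecLin_apply] at h2
      exact congrFun h2 i
    have hinj : ∀ N : Matrix (Fin r) (Fin r) k, io * N = 0 → N = 0 := by
      intro N hN
      ext l j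
      have h1 : ∑ l, N l j • b l = 0 := by
        apply Subtype.ext
        funext i
        have h2 := congrFun (congrFun hN i) j
        rw [Matrix.mul_apply] at h2
        rw [Submodule.coe_sum, Finset.sum_apply]
        rw [Submodule.coe_zero, Pi.zero_apply]
        rw [← show (0 : Matrix J (Fin r) k) i j = 0 from rfl, ← h2]
        apply Finset.sum_congr rfl
        intro l _
        simp only [io, Matrix.of_apply, Submodule.coe_smul, Pi.smul_apply, smul_eq_mul]
        ring
      exact Fintype.linearIndependent_iff.1 b.linearIndependent (fun l => N l j) h1 l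
    have hL' : ∀ w : List A, w.length = n → (w.map L').prod = 0 := by
      intro w hw
      apply hinj
      rw [hcomm, hz w hw]
    have h1 := ih (Fin r) A L' c hL'
    have e1 : (∑ a, c a • (L' a).map (algebraMap k R))
        = (∑ a, c a • (M a).map (algebraMap k R)) * io.map (algebraMap k R) := by
      rw [Matrix.sum_mul]
      apply Finset.sum_congr rfl
      intro a _
      rw [Matrix.smul_mul, ← Matrix.map_mul]
    have e2 : (∑ a, c a • (L a).map (algebraMap k R))
        = io.map (algebraMap k R) * (∑ a, c a • (M a).map (algebraMap k R)) := by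
      rw [Matrix.mul_sum]
      apply Finset.sum_congr rfl
      intro a _
      rw [← hio a]
      ext i j
      rw [Matrix.smul_apply, Matrix.map_apply, Matrix.mul_apply, Matrix.mul_apply, map_sum,
        Finset.smul_sum]
      apply Finset.sum_congr rfl
      intro l _
      rw [Matrix.map_apply, Matrix.smul_apply, Matrix.map_apply, map_mul, smul_eq_mul, smul_eq_mul,
        ← mul_assoc, ← mul_assoc, Algebra.commutes]
    rw [e1] at h1
    rw [e2]
    exact triv_uv _ _ h1

end fam

end Pool.Agent.H1.MV
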