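import Pool.Agent.H1.MV.NilT
import Pool.Agent.H1.MV.Tree

set_option autoImplicit false
set_option linter.unusedSectionVars false
set_option linter.unusedSimpArgs false

/-!
# Representatives of the edges
-/

namespace Pool.Agent.H1.MV

section orient

variable {G V : Type} [Group G] [MulAction G V] {T : SimpleGraph V}

/-- the orbit of an oriented edge -/
def qo (G : Type) {V : Type} [Group G] [MulAction G V] (f : V × V) :
    MulAction.orbitRel.Quotient G (V × V) := Quotient.mk'' f

/-- the chosen orientation -/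
def pos (G : Type) {V : Type} [Group G] [MulAction G V] (f : V × V) : Prop :=
  WellOrderingRel (qo G f) (qo G f.swap)

theorem qo_smul (g : G) (f : V × V) : qo G (g • f) = qo G f := by
  unfold qo
  apply (Quotient.eq'' (s₁ := MulAction.orbitRel G (V × V))).2
  exact ⟨g, rfl⟩

theorem pos_smul (g : G) (f : V × V) : pos G (g • f) ↔ pos G f := by
  unfold pos
  have : (g • f).swap = g • f.swap := rfl
  rw [this, qo_smul, qo_smul]

theorem qo_ne (hinv : ∀ (g : G) (v w : V), T.Adj v w → ¬ (g • v = w ∧ g • w = v)) {f : V × V}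
    (hf : T.Adj f.1 f.2) : qo G f ≠ qo G f.swap := by
  intro h
  have h2 := (Quotient.eq'' (s₁ := MulAction.orbitRel G (V × V))).1 h
  obtain ⟨g, hg⟩ := MulAction.mem_orbit_iff.1 ((MulAction.orbitRel_apply).1 h2)
  apply hinv g f.1 f.2 hf
  have h3 := congrArg Prod.fst hg
  have h4 := congrArg Prod.snd hg
  exact ⟨h4, h3⟩

theorem pos_or (hinv : ∀ (g : G) (v w : V), T.Adj v w → ¬ (g • v = w ∧ g • w = v)) {f : V × V}
    (hf : T.Adj f.1 f.2) : pos G f ∨ pos G f.swap := by
  unfold pos
  rw [Prod.swap_swap]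
  rcases trichotomous_of WellOrderingRel (qo G f) (qo G f.swap) with h | h | h
  · exact Or.inl h
  · exact absurd h (qo_ne hinv hf)
  · exact Or.inr h

theorem pos_asymm {f : V × V} (h : pos G f) (h' : pos G f.swap) : False := by
  unfold pos at h h'
  rw [Prod.swap_swap] at h'
  exact asymm_of WellOrderingRel h h'

/-- the chosen oriented representative of an edge -/
def IsE (G : Type) {V : Type} [Group G] [MulAction G V] (T : SimpleGraph V) (f : V × V) : Prop :=
  T.Adj f.1 f.2 ∧ pos G f ∧ rep G f = f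

theorem isE_good {f f' : V × V} (h : IsE G T f) (h' : IsE G T f') {g : G} (hg : g • f = f') :
    f = f' := by
  have := rep_of_smul hg
  rwa [h.2.2, h'.2.2] at this

theorem isE_no {f f' : V × V} (h : IsE G T f) (h' : IsE G T f') (g : G) : g • f ≠ f'.swap := by
  intro hg
  have h1 : pos G (g • f) := (pos_smul g f).2 h.2.1
  rw [hg] at h1
  exact pos_asymm h'.2.1 h1

theorem isE_exists (hact : ∀ (g : G) (v w : V), T.Adj v w → T.Adj (g • v) (g • w))
    (hinv : ∀ (g : G) (v w : V), T.Adj v w → ¬ (g • v = w ∧ g • w = v)) {a b : V}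
    (hab : T.Adj a b) : ∃ (h : G) (f : V × V), IsE G T f ∧ (h • f = (a, b) ∨ h • f = (b, a)) := by
  have key : ∀ f : V × V, T.Adj f.1 f.2 → pos G f → ∃ (h : G), IsE G T (rep G f) ∧
      h • rep G f = f := by
    intro f hf hp
    obtain ⟨h, hh⟩ := rep_exists (G := G) f
    refine ⟨h, ⟨?_, ?_, rep_rep f⟩, hh⟩
    · rw [← hh] at hf
      exact (adj_smul_iff hact h _ _).1 hf
    · rw [← hh] at hp
      exact (pos_smul h _).1 hp
  rcases pos_or hinv (f := (a, b)) hab with hp | hp
  · obtain ⟨h, h1, h2⟩ := key (a, b) hab hp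
    exact ⟨h, _, h1, Or.inl h2⟩
  · obtain ⟨h, h1, h2⟩ := key (b, a) hab.symm hp
    exact ⟨h, _, h1, Or.inr h2⟩

end orient

end Pool.Agent.H1.MV
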