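import Pool.Agent.H1.MV.KZ

set_option autoImplicit false
set_option linter.unusedSectionVars false
set_option linter.unusedSimpArgs false

/-!
# The class of a pair of submodules
-/

namespace Pool.Agent.H1.MV

open Matrix

section rel

variable {S : Type} [Ring S] {V : Type} [AddCommGroup V] [Module S V]

/-- factoring through a surjection -/
theorem factor_surj {A P Q : Type} [AddCommGroup A] [Module S A] [AddCommGroup P] [Module S P]
    [AddCommGroup Q] [Module S Q] (f : A →ₗ[S] P) (hf : Function.Surjective f) (g : A →ₗ[S] Q)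
    (h : ∀ a, f a = 0 → g a = 0) : ∃ ρ : P →ₗ[S] Q, ∀ a, ρ (f a) = g a := by
  choose s hs using hf
  have key : ∀ a b, f a = f b → g a = g b := by
    intro a b hab
    rw [← sub_eq_zero, ← map_sub]
    apply h
    rw [map_sub, hab, sub_self]
  refine ⟨{ toFun := fun p => g (s p), map_add' := ?_, map_smul' := ?_ }, ?_⟩
  · intro x y
    rw [← map_add]
    apply key
    rw [hs, map_add, hs, hs]
  · intro r x
    rw [RingHom.id_apply, ← map_smul]
    apply key
    rw [hs, map_smul, hs]
  · intro a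
    exact key _ _ (hs _)

/-- The submodule `B` is contained in `A`, the quotient is finitely generated and projective, and its
class is `x`. -/
def RC (A B : Submodule S V) (x : KZ S) : Prop :=
  B ≤ A ∧ ∃ (P : Type) (_ : AddCommGroup P) (_ : Module S P) (_ : Module.Finite S P)
    (_ : Module.Projective S P) (f : A →ₗ[S] P),
    Function.Surjective f ∧ (∀ a : A, f a = 0 ↔ (a : V) ∈ B) ∧ kz P = x

theorem RC.unique {A B : Submodule S V} {x y : KZ S} (h : RC A B x) (h' : RC A B y) : x = y := by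
  obtain ⟨_, P, _, _, _, _, f, hf, hf0, hx⟩ := h
  obtain ⟨_, Q, _, _, _, _, g, hg, hg0, hy⟩ := h'
  obtain ⟨ρ, hρ⟩ := factor_surj f hf g (fun a ha => (hg0 a).2 ((hf0 a).1 ha))
  obtain ⟨τ, hτ⟩ := factor_surj g hg f (fun a ha => (hf0 a).2 ((hg0 a).1 ha))
  rw [← hx, ← hy, kz_eq]
  refine SE.of_equiv (LinearEquiv.ofLinearMap ρ τ ?_ ?_)
  · apply LinearMap.ext
    intro q
    obtain ⟨a, rfl⟩ := hg q
    change ρ (τ (g a)) = g a
    rw [hτ, hρ]
  · apply LinearMap.ext
    intro p
    obtain ⟨a, rfl⟩ := hf p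
    change τ (ρ (f a)) = f a
    rw [hρ, hτ]

theorem RC.chain {A B C : Submodule S V} {x y : KZ S} (h : RC A B x) (h' : RC B C y) :
    RC A C (x * y) := by
  obtain ⟨hAB, P, _, _, _, _, f, hf, hf0, hx⟩ := h
  obtain ⟨hBC, Q, _, _, _, _, g, hg, hg0, hy⟩ := h'
  obtain ⟨s, hs⟩ := Module.projective_lifting_property f LinearMap.id hf
  have hs' : ∀ v, f (s v) = v := fun v => LinearMap.congr_fun hs v
  -- the projection to `B`
  let π : A →ₗ[S] B :=
    LinearMap.codRestrict B (A.subtype ∘ₗ (LinearMap.id - s ∘ₗ f)) (by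
      intro a
      change ((a - s (f a) : A) : V) ∈ B
      rw [← hf0, map_sub, hs', sub_self])
  have hπ : ∀ a : A, ((π a : B) : V) = (a : V) - (s (f a) : A) := fun a => rfl
  refine ⟨hBC.trans hAB, P × Q, inferInstance, inferInstance, inferInstance, inferInstance,
    f.prod (g ∘ₗ π), ?_, ?_, ?_⟩
  · rintro ⟨p, q⟩
    obtain ⟨b, hb⟩ := hg q
    let b' : A := ⟨(b : V), hAB b.2⟩
    have hb' : f b' = 0 := (hf0 b').2 b.2
    refine ⟨s p + b', ?_⟩
    apply Prod.ext
    · change f (s p + b') = p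
      rw [map_add, hs', hb', add_zero]
    · change g (π (s p + b')) = q
      have h1 : π (s p + b') = b := by
        apply Subtype.ext
        rw [hπ, map_add, hs', hb', add_zero, Submodule.coe_add]
        exact add_sub_cancel_left _ _
      rw [h1, hb]
  · intro a
    constructor
    · intro h
      have h1 : f a = 0 := congrArg Prod.fst h
      have h2 : g (π a) = 0 := congrArg Prod.snd h
      rw [hg0, hπ, h1, map_zero] at h2
      simpa using h2
    · intro h
      have h1 : f a = 0 := (hf0 a).2 (hBC h)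
      apply Prod.ext
      · exact h1
      · change g (π a) = 0
        rw [hg0, hπ, h1, map_zero]
        simpa using h
  · rw [← hx, ← hy]
    rfl

theorem RC.map {A B : Submodule S V} {x : KZ S} (h : RC A B x) (φ : V ≃ₗ[S] V) :
    RC (A.map φ.toLinearMap) (B.map φ.toLinearMap) x := by
  obtain ⟨hAB, P, _, _, _, _, f, hf, hf0, hx⟩ := h
  have hmem : ∀ a : A.map φ.toLinearMap, φ.symm (a : V) ∈ A := by
    rintro ⟨_, ⟨a, ha, rfl⟩⟩
    change φ.symm (φ a) ∈ A
    rw [LinearEquiv.symm_apply_apply]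
    exact ha
  let ψ : A.map φ.toLinearMap →ₗ[S] A :=
    LinearMap.codRestrict A (φ.symm.toLinearMap ∘ₗ (A.map φ.toLinearMap).subtype) hmem
  have hψ : ∀ a : A.map φ.toLinearMap, ((ψ a : A) : V) = φ.symm (a : V) := fun a => rfl
  refine ⟨Submodule.map_mono hAB, P, inferInstance, inferInstance, inferInstance, inferInstance,
    f ∘ₗ ψ, ?_, ?_, hx⟩
  · intro p
    obtain ⟨a, ha⟩ := hf p
    refine ⟨⟨φ a, ⟨a, a.2, rfl⟩⟩, ?_⟩
    change f (ψ _) = p
    rw [← ha]
    congr 1
    apply Subtype.ext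
    rw [hψ]
    exact φ.symm_apply_apply _
  · intro a
    change f (ψ a) = 0 ↔ _
    rw [hf0, hψ]
    constructor
    · intro h
      exact ⟨_, h, φ.apply_symm_apply _⟩
    · rintro ⟨b, hb, hba⟩
      rw [← hba]
      change φ.symm (φ b) ∈ B
      rw [LinearEquiv.symm_apply_apply]
      exact hb

theorem RC.retract {A A' B : Submodule S V} {x : KZ S} (h : RC A' B x) (hBA : B ≤ A) (hA : A ≤ A')
    (e : V →ₗ[S] V) (he : ∀ a ∈ A', e a ∈ A) (he' : ∀ a ∈ A, e a = a) : ∃ y, RC A B y := by
  obtain ⟨hAB, P, _, _, _, _, f, hf, hf0, hx⟩ := h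
  let ι : A →ₗ[S] A' := Submodule.inclusion hA
  let E : A' →ₗ[S] A := LinearMap.codRestrict A (e ∘ₗ A'.subtype) (fun a => he a a.2)
  have hE : ∀ a : A', ((E a : A) : V) = e a := fun a => rfl
  let P₁ := LinearMap.range (f ∘ₗ ι)
  let g : A →ₗ[S] P₁ := (f ∘ₗ ι).rangeRestrict
  have hg : Function.Surjective g := LinearMap.surjective_rangeRestrict _
  have hg0 : ∀ a : A, g a = 0 ↔ (a : V) ∈ B := by
    intro a
    have h1 : g a = 0 ↔ f (ι a) = 0 :=
      ⟨fun h => congrArg Subtype.val h, fun h => Subtype.ext h⟩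
    rw [h1, hf0]
    rfl
  obtain ⟨ρ, hρ⟩ := factor_surj f hf (g ∘ₗ E) (by
    intro a ha
    change g (E a) = 0
    rw [hg0, hE]
    rw [hf0] at ha
    rw [he' _ (hBA ha)]
    exact ha)
  have hρ' : ∀ p : P₁, ρ (p : P) = p := by
    rintro ⟨_, ⟨a, rfl⟩⟩
    change ρ (f (ι a)) = _
    rw [hρ]
    change g (E (ι a)) = _
    have h1 : E (ι a) = a := Subtype.ext (he' a a.2)
    rw [h1]
    rfl
  have h1 : Module.Finite S P₁ := Module.Finite.of_surjective ρ (fun p => ⟨p, hρ' p⟩)
  have h2 : Module.Projective S P₁ := by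
    apply Module.Projective.of_split P₁.subtype ρ
    apply LinearMap.ext
    intro p
    exact hρ' p
  exact ⟨_, hBA, P₁, inferInstance, inferInstance, h1, h2, g, hg, hg0, rfl⟩

end rel

end Pool.Agent.H1.MV
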