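import Pool.Agent.H1.MV.NilFam

set_option autoImplicit false
set_option linter.unusedSectionVars false
set_option linter.unusedSimpArgs false

/-!
# Finite free resolutions with automorphisms of trivial class
-/

namespace Pool.Agent.H1.MV

open Matrix TH57.Thr Pool.Agent.K4H37.MT

section lin

variable {R : Type} [Ring R] {C D : Type} [Fintype C] [DecidableEq C] [Fintype D] [DecidableEq D]
  {W K : Type} [AddCommGroup W] [Module R W] [AddCommGroup K] [Module R K]

/-- lifting along a surjection -/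
theorem lift_surj (π : W →ₗ[R] K) (hπ : Function.Surjective π) (f : (C → R) →ₗ[R] K) :
    ∃ g : (C → R) →ₗ[R] W, ∀ v, π (g v) = f v := by
  choose s hs using hπ
  refine ⟨(Pi.basisFun R C).constr ℕ fun i => s (f (Pi.single i 1)), ?_⟩
  have h1 : π ∘ₗ ((Pi.basisFun R C).constr ℕ fun i => s (f (Pi.single i 1))) = f := by
    apply (Pi.basisFun R C).ext
    intro i
    rw [LinearMap.comp_apply, Module.Basis.constr_basis, hs, Pi.basisFun_apply]
  intro v
  exact LinearMap.congr_fun h1 v

/-- factoring through an injection -/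
theorem factor_inj {L : Type} [AddCommGroup L] [Module R L] (ι : K →ₗ[R] W)
    (hι : Function.Injective ι) (f : L →ₗ[R] W) (h : ∀ l, ∃ z, ι z = f l) :
    ∃ g : L →ₗ[R] K, ∀ l, ι (g l) = f l := by
  choose g hg using h
  refine ⟨{ toFun := g, map_add' := ?_, map_smul' := ?_ }, hg⟩
  · intro x y
    apply hι
    rw [map_add, hg, hg, hg, map_add]
  · intro r x
    apply hι
    rw [map_smul, hg, hg, map_smul]
    rfl

/-- the matrix of a linear map, acting on rows -/
def mat (f : (C → R) →ₗ[R] (D → R)) : Matrix C D R := Matrix.of fun i => f (Pi.single i 1)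

theorem mat_apply (f : (C → R) →ₗ[R] (D → R)) (v : C → R) : v ᵥ* mat f = f v := by
  have h1 : (mat f).vecMulLinear = f := by
    apply (Pi.basisFun R C).ext
    intro i
    rw [Pi.basisFun_apply, Matrix.vecMulLinear_apply, Matrix.single_one_vecMul]
    rfl
  exact LinearMap.congr_fun h1 v

end lin

section res

variable {R : Type} [Ring R] (U : Subgroup Rˣ)

/-- One step of a resolution: `0 → K → R^C → W → 0` with compatible endomorphisms. -/
structure Stp {W K C : Type} [AddCommGroup W] [Module R W] [AddCommGroup K] [Module R K]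
    [Fintype C] [DecidableEq C] (h : W →ₗ[R] W) (ι : K →ₗ[R] (C → R)) (π : (C → R) →ₗ[R] W)
    (a : Matrix C C R) (k : K →ₗ[R] K) : Prop where
  inj : Function.Injective ι
  ex : ∀ v, π v = 0 ↔ ∃ z, ι z = v
  surj : Function.Surjective π
  comm : ∀ v, π (v ᵥ* a) = h (π v)
  commk : ∀ z, ι (k z) = ι z ᵥ* a

/-- The module `W` has a resolution of length `n` by finitely generated projective modules, and the
endomorphism `h` of `W` lifts to automorphisms of the modules with trivial classes. -/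
def TR : ∀ (_ : ℕ) (W : Type) [AddCommGroup W] [Module R W] (_ : W →ₗ[R] W), Prop
  | 0, W, _, _, h => ∃ (C Q : Type) (_ : Fintype C) (_ : DecidableEq C) (_ : AddCommGroup Q)
      (_ : Module R Q) (e : (W × Q) ≃ₗ[R] (C → R))
      (a : Matrix C C R), Triv U a ∧ ∀ w q, e (h w, q) = e (w, q) ᵥ* a
  | n + 1, W, _, _, h => ∃ (C K : Type) (_ : Fintype C) (_ : DecidableEq C) (_ : AddCommGroup K)
      (_ : Module R K) (ι : K →ₗ[R] (C → R)) (π : (C → R) →ₗ[R] W) (a : Matrix C C R)
      (k : K →ₗ[R] K), Stp h ι π a k ∧ Triv U a ∧ TR n K k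

variable {U}

theorem TR.iso {n : ℕ} {W W' : Type} [AddCommGroup W] [Module R W] [AddCommGroup W'] [Module R W']
    {h : W →ₗ[R] W} {h' : W' →ₗ[R] W'} (H : TR U n W h) (f : W ≃ₗ[R] W')
    (hf : ∀ w, f (h w) = h' (f w)) : TR U n W' h' := by
  cases n with
  | zero =>
    obtain ⟨C, Q, _, _, _, _, e, a, ha, he⟩ := H
    refine ⟨C, Q, inferInstance, inferInstance, inferInstance, inferInstance,
      (LinearEquiv.prodCongr f.symm (LinearEquiv.refl R Q)).trans e, a, ha, ?_⟩
    intro w q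
    have h1 : f.symm (h' w) = h (f.symm w) := by
      apply f.injective
      rw [LinearEquiv.apply_symm_apply, hf, LinearEquiv.apply_symm_apply]
    change e (f.symm (h' w), q) = e (f.symm w, q) ᵥ* a
    rw [h1, he]
  | succ n =>
    obtain ⟨C, K, _, _, _, _, ι, π, a, k, hs, ha, hk⟩ := H
    refine ⟨C, K, inferInstance, inferInstance, inferInstance, inferInstance, ι,
      f.toLinearMap ∘ₗ π, a, k, ⟨hs.inj, ?_, ?_, ?_, hs.commk⟩, ha, hk⟩
    · intro v
      rw [← hs.ex]
      constructor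
      · intro h1
        apply f.injective
        rw [map_zero]; exact h1
      · intro h1
        change f (π v) = 0
        rw [h1, map_zero]
    · exact f.surjective.comp hs.surj
    · intro v
      change f (π (v ᵥ* a)) = h' (f (π v))
      rw [hs.comm, hf]

/-- a free module -/
theorem TR.of_free {W C : Type} [AddCommGroup W] [Module R W] [Fintype C] [DecidableEq C]
    {h : W →ₗ[R] W} (e : W ≃ₗ[R] (C → R)) {a : Matrix C C R} (ha : Triv U a)
    (he : ∀ w, e (h w) = e w ᵥ* a) : TR U 0 W h :=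
  ⟨C, PUnit, inferInstance, inferInstance, inferInstance, inferInstance,
    (LinearEquiv.prodUnique (R := R) (M := W) (M₂ := PUnit)).trans e, a, ha, fun w _ => he w⟩

theorem TR.of_subsingleton {W : Type} [AddCommGroup W] [Module R W] [Subsingleton W]
    (h : W →ₗ[R] W) : TR U 0 W h := by
  refine TR.of_free (C := Empty) ⟨⟨⟨fun _ => 0, fun _ _ => Subsingleton.elim _ _⟩,
    fun _ _ => Subsingleton.elim _ _⟩, fun _ => 0, fun _ => Subsingleton.elim _ _,
    fun _ => Subsingleton.elim _ _⟩ Triv.one (a := 1) fun _ => Subsingleton.elim _ _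

/-- the first step of a resolution -/
theorem TR.start {n : ℕ} {W : Type} [AddCommGroup W] [Module R W] {h : W →ₗ[R] W}
    (H : TR U n W h) : ∃ (C K : Type) (_ : Fintype C) (_ : DecidableEq C) (_ : AddCommGroup K)
      (_ : Module R K) (ι : K →ₗ[R] (C → R)) (π : (C → R) →ₗ[R] W) (a : Matrix C C R)
      (k : K →ₗ[R] K), Stp h ι π a k ∧ Triv U a ∧ TR U (n - 1) K k := by
  cases n with
  | zero =>
    obtain ⟨C, Q, _, _, _, _, e, a, ha, he⟩ := H
    refine ⟨C, Q, inferInstance, inferInstance, inferInstance, inferInstance,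
      e.toLinearMap ∘ₗ LinearMap.inr R W Q, LinearMap.fst R W Q ∘ₗ e.symm.toLinearMap, a,
      LinearMap.id, ⟨?_, ?_, ?_, ?_, ?_⟩, ha, ?_⟩
    · intro x y hxy
      have h1 := e.injective hxy
      exact congrArg Prod.snd h1
    · intro v
      obtain ⟨⟨w, q⟩, rfl⟩ := e.surjective v
      change (e.symm (e (w, q))).1 = 0 ↔ ∃ z, e (0, z) = e (w, q)
      rw [LinearEquiv.symm_apply_apply]
      constructor
      · intro h1
        have h1' : w = 0 := h1
        exact ⟨q, by rw [h1']⟩
      · rintro ⟨z, hz⟩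
        exact (congrArg Prod.fst (e.injective hz)).symm
    · intro w
      refine ⟨e (w, 0), ?_⟩
      change (e.symm (e (w, 0))).1 = w
      rw [LinearEquiv.symm_apply_apply]
    · intro v
      obtain ⟨⟨w, q⟩, rfl⟩ := e.surjective v
      change (e.symm (e (w, q) ᵥ* a)).1 = h (e.symm (e (w, q))).1
      rw [← he, LinearEquiv.symm_apply_apply, LinearEquiv.symm_apply_apply]
    · intro z
      change e (0, z) = e (0, z) ᵥ* a
      rw [← he, map_zero]
    · refine ⟨C, W, inferInstance, inferInstance, inferInstance, inferInstance,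
        (LinearEquiv.prodComm R Q W).trans e, 1, Triv.one, ?_⟩
      intro q w
      rw [Matrix.vecMul_one]
      rfl
  | succ n => exact H

theorem TR.mono_succ {n : ℕ} : ∀ {W : Type} [AddCommGroup W] [Module R W] {h : W →ₗ[R] W}
    (_ : TR U n W h), TR U (n + 1) W h := by
  induction n with
  | zero =>
    intro W _ _ h H
    exact H.start
  | succ n ih =>
    intro W _ _ h H
    obtain ⟨C, K, _, _, _, _, ι, π, a, k, hs, ha, hk⟩ := H
    exact ⟨C, K, inferInstance, inferInstance, inferInstance, inferInstance, ι, π, a, k, hs, ha,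
      ih hk⟩

theorem TR.mono {n m : ℕ} (hnm : n ≤ m) {W : Type} [AddCommGroup W] [Module R W] {h : W →ₗ[R] W}
    (H : TR U n W h) : TR U m W h := by
  induction hnm with
  | refl => exact H
  | step _ ih => exact ih.mono_succ

/-- rows of a block matrix -/
theorem row_blocks {C D : Type} [Fintype C] [DecidableEq C] [Fintype D] [DecidableEq D]
    (v : C ⊕ D → R) (A : Matrix C C R) (G : Matrix D C R) (B : Matrix D D R) :
    v ᵥ* fromBlocks A 0 G B = Sum.elim ((v ∘ Sum.inl) ᵥ* A + (v ∘ Sum.inr) ᵥ* G)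
      ((v ∘ Sum.inr) ᵥ* B) := by
  rw [Matrix.vecMul_fromBlocks, Matrix.vecMul_zero, zero_add]

/-- the left part of a row -/
def pl {C D : Type} (R : Type) [Ring R] : (C ⊕ D → R) →ₗ[R] (C → R) where
  toFun v := v ∘ Sum.inl
  map_add' _ _ := rfl
  map_smul' _ _ := rfl

/-- the right part of a row -/
def prr {C D : Type} (R : Type) [Ring R] : (C ⊕ D → R) →ₗ[R] (D → R) where
  toFun v := v ∘ Sum.inr
  map_add' _ _ := rfl
  map_smul' _ _ := rfl

/-- **Horseshoe**: resolutions of a submodule and of a quotient give one of the module. -/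
theorem TR.ext : ∀ (n : ℕ) {W' W W'' : Type} [AddCommGroup W'] [Module R W'] [AddCommGroup W]
    [Module R W] [AddCommGroup W''] [Module R W''] {h' : W' →ₗ[R] W'} {h : W →ₗ[R] W}
    {h'' : W'' →ₗ[R] W''} (f : W' →ₗ[R] W) (g : W →ₗ[R] W'') (_ : Function.Injective f)
    (_ : Function.Surjective g) (_ : ∀ w, g w = 0 ↔ ∃ w', f w' = w)
    (_ : ∀ w, h (f w) = f (h' w)) (_ : ∀ w, g (h w) = h'' (g w)) (_ : TR U n W' h')
    (_ : TR U n W'' h''), TR U n W h := by
  intro n
  induction n with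
  | zero =>
    intro W' W W'' _ _ _ _ _ _ h' h h'' f g hf hg hex hh' hh'' H' H''
    obtain ⟨C', Q', _, _, _, _, e', a', ha', he'⟩ := H'
    obtain ⟨C'', Q'', _, _, _, _, e'', a'', ha'', he''⟩ := H''
    obtain ⟨s₀, hs₀⟩ := lift_surj g hg (LinearMap.fst R W'' Q'' ∘ₗ e''.symm.toLinearMap)
    let s : W'' →ₗ[R] W := s₀ ∘ₗ e''.toLinearMap ∘ₗ LinearMap.inl R W'' Q''
    have hs : ∀ w, g (s w) = w := by
      intro w
      change g (s₀ (e'' (w, 0))) = w
      rw [hs₀]
      change (e''.symm (e'' (w, 0))).1 = w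
      rw [LinearEquiv.symm_apply_apply]
    -- the correction
    obtain ⟨γ, hγ⟩ := factor_inj f hf (h ∘ₗ s - s ∘ₗ h'') (by
      intro v
      rw [← hex]
      change g (h (s v) - s (h'' v)) = 0
      rw [map_sub, hh'', hs, hs, sub_self])
    have hγ' : ∀ w, h (s w) = f (γ w) + s (h'' w) := by
      intro w
      rw [hγ]
      change _ = h (s w) - s (h'' w) + s (h'' w)
      rw [sub_add_cancel]
    -- the inverse isomorphism
    let P : (C' ⊕ C'' → R) →ₗ[R] (W' × Q') := e'.symm.toLinearMap ∘ₗ pl R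
    let P' : (C' ⊕ C'' → R) →ₗ[R] (W'' × Q'') := e''.symm.toLinearMap ∘ₗ prr R
    let Ψ : (C' ⊕ C'' → R) →ₗ[R] (W × (Q' × Q'')) :=
      (f ∘ₗ LinearMap.fst R W' Q' ∘ₗ P + s ∘ₗ LinearMap.fst R W'' Q'' ∘ₗ P').prod
        ((LinearMap.snd R W' Q' ∘ₗ P).prod (LinearMap.snd R W'' Q'' ∘ₗ P'))
    have hΨ : ∀ w' q' w'' q'', Ψ (Sum.elim (e' (w', q')) (e'' (w'', q''))) =
        (f w' + s w'', (q', q'')) := by
      intro w' q' w'' q''
      change (f (e'.symm (Sum.elim (e' (w', q')) (e'' (w'', q'')) ∘ Sum.inl)).1 +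
        s (e''.symm (Sum.elim (e' (w', q')) (e'' (w'', q'')) ∘ Sum.inr)).1,
        ((e'.symm (Sum.elim (e' (w', q')) (e'' (w'', q'')) ∘ Sum.inl)).2,
        (e''.symm (Sum.elim (e' (w', q')) (e'' (w'', q'')) ∘ Sum.inr)).2)) = _
      rw [Sum.elim_comp_inl, Sum.elim_comp_inr, LinearEquiv.symm_apply_apply,
        LinearEquiv.symm_apply_apply]
    have hex2 : ∀ v : C' ⊕ C'' → R, ∃ w' q' w'' q'', v = Sum.elim (e' (w', q')) (e'' (w'', q'')) := by
      intro v
      obtain ⟨⟨w', q'⟩, h1⟩ := e'.surjective (v ∘ Sum.inl)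
      obtain ⟨⟨w'', q''⟩, h2⟩ := e''.surjective (v ∘ Sum.inr)
      refine ⟨w', q', w'', q'', ?_⟩
      rw [h1, h2, Sum.elim_comp_inl_inr]
    have hinj : Function.Injective Ψ := by
      rw [← LinearMap.ker_eq_bot, LinearMap.ker_eq_bot']
      intro v hv
      obtain ⟨w', q', w'', q'', rfl⟩ := hex2 v
      rw [hΨ] at hv
      have h1 : f w' + s w'' = 0 := congrArg Prod.fst hv
      have h2 : q' = 0 := congrArg (fun p => p.2.1) hv
      have h3 : q'' = 0 := congrArg (fun p => p.2.2) hv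
      have h4 : w'' = 0 := by
        have := congrArg g h1
        rw [map_add, hs, (hex _).2 ⟨_, rfl⟩, zero_add, map_zero] at this
        exact this
      have h5 : w' = 0 := by
        apply hf
        rw [h4, map_zero, add_zero] at h1
        rw [h1, map_zero]
      rw [h2, h3, h4, h5, Prod.mk_zero_zero, Prod.mk_zero_zero, map_zero, map_zero,
        Sum.elim_zero_zero]
    have hsurj : Function.Surjective Ψ := by
      rintro ⟨w, q', q''⟩
      obtain ⟨w', hw'⟩ := (hex (w - s (g w))).1 (by rw [map_sub, hs, sub_self])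
      refine ⟨Sum.elim (e' (w', q')) (e'' (g w, q'')), ?_⟩
      rw [hΨ, hw', sub_add_cancel]
    let e : (C' ⊕ C'' → R) ≃ₗ[R] (W × (Q' × Q'')) := LinearEquiv.ofBijective Ψ ⟨hinj, hsurj⟩
    let Γ : (C'' → R) →ₗ[R] (C' → R) := e'.toLinearMap ∘ₗ LinearMap.inl R W' Q' ∘ₗ γ ∘ₗ
      LinearMap.fst R W'' Q'' ∘ₗ e''.symm.toLinearMap
    refine ⟨C' ⊕ C'', Q' × Q'', inferInstance, inferInstance, inferInstance, inferInstance, e.symm,
      fromBlocks a' 0 (mat Γ) a'', Triv.lower _ ha' ha'', ?_⟩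
    intro w q
    obtain ⟨v, hv⟩ := e.surjective (w, q)
    rw [← hv, LinearEquiv.symm_apply_apply]
    apply e.injective
    rw [LinearEquiv.apply_symm_apply, row_blocks]
    obtain ⟨w', q', w'', q'', rfl⟩ := hex2 v
    change (h w, q) = Ψ _
    have hv' : Ψ _ = (w, q) := hv
    rw [hΨ] at hv'
    have hw : f w' + s w'' = w := congrArg Prod.fst hv'
    have hq : (q', q'') = q := congrArg Prod.snd hv'
    rw [Sum.elim_comp_inl, Sum.elim_comp_inr, mat_apply, ← he', ← he'']
    have h1 : Γ (e'' (w'', q'')) = e' (γ w'', 0) := by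
      change e' (γ (e''.symm (e'' (w'', q''))).1, 0) = _
      rw [LinearEquiv.symm_apply_apply]
    rw [h1, ← map_add, Prod.mk_add_mk, add_zero, hΨ, ← hw, ← hq, map_add, hh', hγ', map_add]
    congr 1
    abel
  | succ n ih =>
    intro W' W W'' _ _ _ _ _ _ h' h h'' f g hf hg hex hh' hh'' H' H''
    obtain ⟨C', K', _, _, _, _, ι', π', a', k', hs', ha', hk'⟩ := H'
    obtain ⟨C'', K'', _, _, _, _, ι'', π'', a'', k'', hs'', ha'', hk''⟩ := H''
    obtain ⟨s, hs⟩ := lift_surj g hg π''
    obtain ⟨γ₀, hγ₀⟩ := factor_inj f hf (h ∘ₗ s - s ∘ₗ a''.vecMulLinear) (by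
      intro v
      rw [← hex]
      change g (h (s v) - s (v ᵥ* a'')) = 0
      rw [map_sub, hh'', hs, hs, hs''.comm, sub_self])
    obtain ⟨γ, hγ⟩ := lift_surj π' hs'.surj γ₀
    let π : (C' ⊕ C'' → R) →ₗ[R] W := f ∘ₗ π' ∘ₗ pl R + s ∘ₗ prr R
    have hπ : ∀ v, π v = f (π' (v ∘ Sum.inl)) + s (v ∘ Sum.inr) := fun _ => rfl
    have hgπ : ∀ v, g (π v) = π'' (v ∘ Sum.inr) := by
      intro v
      rw [hπ, map_add, hs, (hex _).2 ⟨_, rfl⟩, zero_add]
    let a : Matrix (C' ⊕ C'') (C' ⊕ C'') R := fromBlocks a' 0 (mat γ) a''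
    have hcomm : ∀ v, π (v ᵥ* a) = h (π v) := by
      intro v
      have h2 : h (s (v ∘ Sum.inr)) = f (π' (γ (v ∘ Sum.inr))) + s ((v ∘ Sum.inr) ᵥ* a'') := by
        rw [hγ, hγ₀]
        change _ = h (s (v ∘ Sum.inr)) - s ((v ∘ Sum.inr) ᵥ* a'') + s ((v ∘ Sum.inr) ᵥ* a'')
        rw [sub_add_cancel]
      rw [row_blocks, hπ, hπ, Sum.elim_comp_inl, Sum.elim_comp_inr, mat_apply, map_add, map_add,
        map_add, hh', h2, hs'.comm]
      abel
    let K := LinearMap.ker π
    obtain ⟨k, hk⟩ : ∃ k : K →ₗ[R] K, ∀ z : K, ((k z : K) : C' ⊕ C'' → R) = (z : C' ⊕ C'' → R) ᵥ* a := by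
      obtain ⟨k, hk⟩ := factor_inj K.subtype K.subtype_injective (a.vecMulLinear ∘ₗ K.subtype) (by
        intro z
        refine ⟨⟨(z : C' ⊕ C'' → R) ᵥ* a, ?_⟩, rfl⟩
        rw [LinearMap.mem_ker, hcomm, LinearMap.mem_ker.1 z.2, map_zero])
      exact ⟨k, hk⟩
    refine ⟨C' ⊕ C'', K, inferInstance, inferInstance, inferInstance, inferInstance, K.subtype, π, a,
      k, ⟨K.subtype_injective, ?_, ?_, hcomm, hk⟩, Triv.lower _ ha' ha'', ?_⟩
    · intro v
      constructor
      · intro h1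
        exact ⟨⟨v, h1⟩, rfl⟩
      · rintro ⟨z, rfl⟩
        exact z.2
    · intro w
      obtain ⟨v'', hv''⟩ := hs''.surj (g w)
      obtain ⟨w', hw'⟩ := (hex (w - s v'')).1 (by rw [map_sub, hs, hv'', sub_self])
      obtain ⟨v', hv'⟩ := hs'.surj w'
      refine ⟨Sum.elim v' v'', ?_⟩
      rw [hπ, Sum.elim_comp_inl, Sum.elim_comp_inr, hv', hw']
      abel
    · -- the kernels
      obtain ⟨F, hF⟩ : ∃ F : K' →ₗ[R] K, ∀ z, ((F z : K) : C' ⊕ C'' → R) = Sum.elim (ι' z) 0 := by
        refine ⟨{ toFun := fun z => ⟨Sum.elim (ι' z) 0, ?_⟩, map_add' := ?_, map_smul' := ?_ }, ?_⟩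
        · rw [LinearMap.mem_ker, hπ, Sum.elim_comp_inl, Sum.elim_comp_inr, map_zero, add_zero,
            (hs'.ex _).2 ⟨z, rfl⟩, map_zero]
        · intro x y
          apply Subtype.ext
          funext i
          rcases i with i | i <;> simp
        · intro r x
          apply Subtype.ext
          funext i
          rcases i with i | i <;> simp
        · intro z
          rfl
      obtain ⟨Γ, hΓ⟩ := factor_inj ι'' hs''.inj (prr R ∘ₗ K.subtype) (by
        intro z
        rw [← hs''.ex]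
        change π'' ((z : C' ⊕ C'' → R) ∘ Sum.inr) = 0
        rw [← hgπ, LinearMap.mem_ker.1 z.2, map_zero])
      have hΓ' : ∀ z : K, ι'' (Γ z) = (z : C' ⊕ C'' → R) ∘ Sum.inr := hΓ
      refine ih F Γ ?_ ?_ ?_ ?_ ?_ hk' hk''
      · intro x y hxy
        apply hs'.inj
        have h1 := congrArg (fun z : K => (z : C' ⊕ C'' → R) ∘ Sum.inl) hxy
        beta_reduce at h1
        rw [hF, hF, Sum.elim_comp_inl, Sum.elim_comp_inl] at h1
        exact h1
      · intro z''
        obtain ⟨w', hw'⟩ := (hex (s (ι'' z''))).1 (by rw [hs, (hs''.ex _).2 ⟨z'', rfl⟩])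
        obtain ⟨v', hv'⟩ := hs'.surj w'
        refine ⟨⟨Sum.elim (-v') (ι'' z''), ?_⟩, ?_⟩
        · rw [LinearMap.mem_ker, hπ, Sum.elim_comp_inl, Sum.elim_comp_inr, map_neg, map_neg, hv',
            hw', neg_add_cancel]
        · apply hs''.inj
          rw [hΓ', Sum.elim_comp_inr]
      · intro z
        constructor
        · intro h1
          have h2 : (z : C' ⊕ C'' → R) ∘ Sum.inr = 0 := by rw [← hΓ', h1, map_zero]
          have h3 : π' ((z : C' ⊕ C'' → R) ∘ Sum.inl) = 0 := by
            apply hf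
            have h4 := LinearMap.mem_ker.1 z.2
            rw [hπ, h2, map_zero, add_zero] at h4
            rw [h4, map_zero]
          obtain ⟨z', hz'⟩ := (hs'.ex _).1 h3
          refine ⟨z', ?_⟩
          apply Subtype.ext
          rw [hF, hz']
          funext i
          rcases i with i | i
          · rfl
          · exact (congrFun h2 i).symm
        · rintro ⟨z', rfl⟩
          apply hs''.inj
          rw [hΓ', hF, Sum.elim_comp_inr, map_zero]
      · intro z
        apply Subtype.ext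
        rw [hk, hF, hF, row_blocks, Sum.elim_comp_inl, Sum.elim_comp_inr, Matrix.zero_vecMul,
          Matrix.zero_vecMul, add_zero, hs'.commk]
      · intro z
        apply hs''.inj
        rw [hΓ', hk, row_blocks, Sum.elim_comp_inr, hs''.commk, hΓ']

end res

end Pool.Agent.H1.MV
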