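import Pool.Agent.H1.MV.Res

set_option autoImplicit false
set_option linter.unusedSectionVars false
set_option linter.unusedSimpArgs false

/-!
# Comparison of resolutions
-/

namespace Pool.Agent.H1.MV

open Matrix TH57.Thr Pool.Agent.K4H37.MT

section res2

variable {R : Type} [Ring R] {U : Subgroup Rˣ}

/-- a corner of an upper triangular matrix -/
theorem triv_corner {C E : Type} [Fintype C] [DecidableEq C] [Fintype E] [DecidableEq E]
    {a : Matrix C C R} (X : Matrix C E R) {b : Matrix E E R} (hb : Triv U b)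
    (h : Triv U (fromBlocks a X 0 b)) : Triv U a := by
  obtain ⟨w, hw, _⟩ := hb
  have h1 : Triv U (fromBlocks (1 : Matrix C C R) (-(X * (w⁻¹).val)) 0 (1 : Matrix E E R)) :=
    Triv.upper _ Triv.one Triv.one
  have h2 := Triv.mul h1 h
  have h3 : (fromBlocks (1 : Matrix C C R) (-(X * (w⁻¹).val)) 0 (1 : Matrix E E R)) *
      fromBlocks a X 0 b = fromBlocks a 0 0 1 * fromBlocks 1 0 0 b := by
    rw [Matrix.fromBlocks_multiply, Matrix.fromBlocks_multiply, ← hw]
    congr 1
    · simp
    · rw [Matrix.one_mul, Matrix.neg_mul, Matrix.mul_assoc, Units.inv_mul]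
      simp
    · simp
    · simp
  rw [h3] at h2
  have h4 : Triv U (fromBlocks (1 : Matrix C C R) 0 0 b) := Triv.lower _ Triv.one ⟨w, hw, ‹_›⟩
  exact Triv.unst (Triv.of_mul_right h4 h2)

/-- conjugation by an isomorphism of free modules -/
theorem triv_iso {C C' : Type} [Fintype C] [DecidableEq C] [Fintype C'] [DecidableEq C']
    (e : (C → R) ≃ₗ[R] (C' → R)) {a : Matrix C C R} {a' : Matrix C' C' R}
    (he : ∀ v, e (v ᵥ* a) = e v ᵥ* a') (h : Triv U a') : Triv U a := by
  let E := mat e.toLinearMap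
  let E' := mat e.symm.toLinearMap
  have hE : ∀ v, v ᵥ* E = e v := mat_apply e.toLinearMap
  have hE' : ∀ v, v ᵥ* E' = e.symm v := mat_apply e.symm.toLinearMap
  have h1 : E' * E = 1 := by
    apply Matrix.ext_of_single_vecMul
    intro i
    rw [← Matrix.vecMul_vecMul, hE', hE, LinearEquiv.apply_symm_apply, Matrix.vecMul_one]
  have h1' : E * E' = 1 := by
    apply Matrix.ext_of_single_vecMul
    intro i
    rw [← Matrix.vecMul_vecMul, hE, hE', LinearEquiv.symm_apply_apply, Matrix.vecMul_one]
  have h2 : a = 1 + E * (a' - 1) * E' := by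
    have h3 : a * E = E * a' := by
      apply Matrix.ext_of_single_vecMul
      intro i
      rw [← Matrix.vecMul_vecMul, ← Matrix.vecMul_vecMul, hE, hE, he]
    calc a = a * (E * E') := by rw [h1', Matrix.mul_one]
      _ = E * a' * E' := by rw [← Matrix.mul_assoc, h3]
      _ = _ := by
        rw [Matrix.mul_sub, Matrix.sub_mul, Matrix.mul_one, h1']
        abel
  rw [h2]
  apply triv_uv
  rw [← Matrix.mul_assoc, h1, Matrix.one_mul, add_sub_cancel]
  exact h

/-- **Comparison**: if a finitely generated free module with an endomorphism has a resolution by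
automorphisms with trivial classes, then the endomorphism is an automorphism with trivial class. -/
theorem TR.free (n : ℕ) : ∀ (C : Type) [Fintype C] [DecidableEq C] (a : Matrix C C R)
    (_ : TR U n (C → R) a.vecMulLinear), Triv U a := by
  induction n using Nat.strong_induction_on with
  | _ n IH =>
    intro C _ _ a H
    rcases Nat.eq_zero_or_pos n with hn | hn
    · subst hn
      obtain ⟨C', Q, _, _, _, _, e, a', ha', he⟩ := H
      -- a stable isomorphism
      let F : (C ⊕ C' → R) →ₗ[R] (C' ⊕ C → R) :=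
        { toFun := fun v => Sum.elim (e (v ∘ Sum.inl, (e.symm (v ∘ Sum.inr)).2))
            (e.symm (v ∘ Sum.inr)).1
          map_add' := by
            intro v w
            funext i
            have h1 : (v + w) ∘ Sum.inr = v ∘ Sum.inr + w ∘ Sum.inr := rfl
            have h2 : (v + w) ∘ Sum.inl = v ∘ Sum.inl + w ∘ Sum.inl := rfl
            rw [h1, h2, map_add]
            rcases i with i | i
            · change e (_ + _, _ + _) i = e _ i + e _ i
              rw [← Prod.mk_add_mk, map_add]; rfl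
            · rfl
          map_smul' := by
            intro r v
            funext i
            have h1 : (r • v) ∘ Sum.inr = r • (v ∘ Sum.inr) := rfl
            have h2 : (r • v) ∘ Sum.inl = r • (v ∘ Sum.inl) := rfl
            rw [h1, h2, map_smul]
            rcases i with i | i
            · change e (r • _, r • _) i = r * e _ i
              rw [← Prod.smul_mk, map_smul]; rfl
            · rfl }
      let F' : (C' ⊕ C → R) →ₗ[R] (C ⊕ C' → R) :=
        { toFun := fun v => Sum.elim (e.symm (v ∘ Sum.inl)).1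
            (e (v ∘ Sum.inr, (e.symm (v ∘ Sum.inl)).2))
          map_add' := by
            intro v w
            funext i
            have h1 : (v + w) ∘ Sum.inr = v ∘ Sum.inr + w ∘ Sum.inr := rfl
            have h2 : (v + w) ∘ Sum.inl = v ∘ Sum.inl + w ∘ Sum.inl := rfl
            rw [h1, h2, map_add]
            rcases i with i | i
            · rfl
            · change e (_ + _, _ + _) i = e _ i + e _ i
              rw [← Prod.mk_add_mk, map_add]; rfl
          map_smul' := by
            intro r v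
            funext i
            have h1 : (r • v) ∘ Sum.inr = r • (v ∘ Sum.inr) := rfl
            have h2 : (r • v) ∘ Sum.inl = r • (v ∘ Sum.inl) := rfl
            rw [h1, h2, map_smul]
            rcases i with i | i
            · rfl
            · change e (r • _, r • _) i = r * e _ i
              rw [← Prod.smul_mk, map_smul]; rfl }
      have hF : ∀ v, F v = Sum.elim (e (v ∘ Sum.inl, (e.symm (v ∘ Sum.inr)).2))
            (e.symm (v ∘ Sum.inr)).1 := fun _ => rfl
      have hF' : ∀ v, F' v = Sum.elim (e.symm (v ∘ Sum.inl)).1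
            (e (v ∘ Sum.inr, (e.symm (v ∘ Sum.inl)).2)) := fun _ => rfl
      let E : (C ⊕ C' → R) ≃ₗ[R] (C' ⊕ C → R) :=
        { F with
          invFun := F'
          left_inv := by
            intro v
            change F' (F v) = v
            rw [hF, hF', Sum.elim_comp_inl, Sum.elim_comp_inr, LinearEquiv.symm_apply_apply]
            change Sum.elim (v ∘ Sum.inl) (e (e.symm (v ∘ Sum.inr))) = v
            rw [LinearEquiv.apply_symm_apply, Sum.elim_comp_inl_inr]
          right_inv := by
            intro v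
            change F (F' v) = v
            rw [hF', hF, Sum.elim_comp_inl, Sum.elim_comp_inr, LinearEquiv.symm_apply_apply]
            change Sum.elim (e (e.symm (v ∘ Sum.inl))) (v ∘ Sum.inr) = v
            rw [LinearEquiv.apply_symm_apply, Sum.elim_comp_inl_inr] }
      apply Triv.unst (μ := C')
      refine triv_iso E (a' := fromBlocks a' 0 0 1) ?_ (Triv.lower _ ha' Triv.one)
      intro v
      change F (v ᵥ* fromBlocks a 0 0 1) = F v ᵥ* fromBlocks a' 0 0 1
      have hb : ∀ {C₁ C₂ : Type} [Fintype C₁] [DecidableEq C₁] [Fintype C₂] [DecidableEq C₂]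
          (b : Matrix C₁ C₁ R) (v : C₁ ⊕ C₂ → R),
          v ᵥ* fromBlocks b 0 0 (1 : Matrix C₂ C₂ R) = Sum.elim ((v ∘ Sum.inl) ᵥ* b)
            (v ∘ Sum.inr) := by
        intro C₁ C₂ _ _ _ _ b v
        rw [row_blocks, Matrix.vecMul_zero, add_zero, Matrix.vecMul_one]
      rw [hb, hF, hF, hb, Sum.elim_comp_inl, Sum.elim_comp_inr, Sum.elim_comp_inl,
        Sum.elim_comp_inr]
      have h1 := he (v ∘ Sum.inl) (e.symm (v ∘ Sum.inr)).2
      rw [← h1]
      rfl
    · obtain ⟨D, L, _, _, _, _, ι, π, δ, l, hs, hδ, hL⟩ := H.start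
      obtain ⟨E, L₁, _, _, _, _, ι₁, π₁, ℓ, l₁, hs₁, hℓ, hL₁⟩ := hL.start
      obtain ⟨s, hs'⟩ := lift_surj π hs.surj (LinearMap.id : (C → R) →ₗ[R] (C → R))
      obtain ⟨φ, hφ⟩ := factor_inj ι hs.inj (δ.vecMulLinear ∘ₗ s - s ∘ₗ a.vecMulLinear) (by
        intro p
        rw [← hs.ex]
        change π (s p ᵥ* δ - s (p ᵥ* a)) = 0
        rw [map_sub, hs.comm, hs', hs']
        change p ᵥ* a - p ᵥ* a = 0
        rw [sub_self])
      have hφ' : ∀ p, s p ᵥ* δ = s (p ᵥ* a) + ι (φ p) := by
        intro p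
        rw [hφ]
        change _ = _ + (s p ᵥ* δ - s (p ᵥ* a))
        abel
      obtain ⟨ψ, hψ⟩ := lift_surj π₁ hs₁.surj φ
      let P : (C ⊕ E → R) →ₗ[R] (D → R) := s ∘ₗ pl R + ι ∘ₗ π₁ ∘ₗ prr R
      have hP : ∀ v, P v = s (v ∘ Sum.inl) + ι (π₁ (v ∘ Sum.inr)) := fun _ => rfl
      have hπP : ∀ v, π (P v) = v ∘ Sum.inl := by
        intro v
        rw [hP, map_add, hs', (hs.ex _).2 ⟨_, rfl⟩, add_zero]; rfl
      let b : Matrix (C ⊕ E) (C ⊕ E) R := fromBlocks a (mat ψ) 0 ℓ
      have hrow : ∀ v : C ⊕ E → R, v ᵥ* b = Sum.elim ((v ∘ Sum.inl) ᵥ* a)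
          (ψ (v ∘ Sum.inl) + (v ∘ Sum.inr) ᵥ* ℓ) := by
        intro v
        rw [Matrix.vecMul_fromBlocks, Matrix.vecMul_zero, add_zero, mat_apply]
      obtain ⟨F, hF⟩ : ∃ F : L₁ →ₗ[R] (C ⊕ E → R), ∀ z, F z = Sum.elim (0 : C → R) (ι₁ z) := by
        refine ⟨{ toFun := fun z => Sum.elim (0 : C → R) (ι₁ z), map_add' := ?_, map_smul' := ?_ }, fun z => rfl⟩
        · intro x y
          funext i
          rcases i with i | i <;> simp
        · intro r x
          funext i
          rcases i with i | i <;> simp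
      have hT : TR U (n - 1 - 1) (C ⊕ E → R) b.vecMulLinear := by
        refine TR.ext (n - 1 - 1) (h' := l₁) (h := b.vecMulLinear) (h'' := δ.vecMulLinear) F P
          ?_ ?_ ?_ ?_ ?_ hL₁ ?_
        · intro x y hxy
          apply hs₁.inj
          have h1 := congrArg (fun z : C ⊕ E → R => z ∘ Sum.inr) hxy
          beta_reduce at h1
          rw [hF, hF, Sum.elim_comp_inr, Sum.elim_comp_inr] at h1
          exact h1
        · intro d
          obtain ⟨z, hz⟩ := (hs.ex (d - s (π d))).1 (by
            rw [map_sub, hs']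
            change π d - π d = 0
            rw [sub_self])
          obtain ⟨e, he⟩ := hs₁.surj z
          refine ⟨Sum.elim (π d) e, ?_⟩
          rw [hP, Sum.elim_comp_inl, Sum.elim_comp_inr, he, hz]
          abel
        · intro v
          constructor
          · intro h1
            have h2 : v ∘ Sum.inl = 0 := by rw [← hπP, h1, map_zero]
            have h3 : π₁ (v ∘ Sum.inr) = 0 := by
              apply hs.inj
              rw [map_zero, ← h1, hP, h2, map_zero, zero_add]
            obtain ⟨z, hz⟩ := (hs₁.ex _).1 h3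
            refine ⟨z, ?_⟩
            rw [hF, hz]
            funext i
            rcases i with i | i
            · exact (congrFun h2 i).symm
            · rfl
          · rintro ⟨z, rfl⟩
            rw [hP, hF, Sum.elim_comp_inl, Sum.elim_comp_inr, map_zero, (hs₁.ex _).2 ⟨_, rfl⟩,
              map_zero, add_zero]
        · intro z
          change F z ᵥ* b = F (l₁ z)
          rw [hrow, hF, hF, Sum.elim_comp_inl, Sum.elim_comp_inr, map_zero, Matrix.zero_vecMul,
            zero_add, hs₁.commk]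
        · intro v
          change P (v ᵥ* b) = P v ᵥ* δ
          rw [hrow, hP, hP, Sum.elim_comp_inl, Sum.elim_comp_inr, Matrix.add_vecMul, hφ', map_add,
            map_add, hψ, hs₁.comm, ← hs.commk]
          abel
        · apply TR.mono (Nat.zero_le _)
          exact TR.of_free (LinearEquiv.refl R _) hδ fun _ => rfl
      exact triv_corner _ hℓ (IH (n - 1 - 1) (by omega) (C ⊕ E) b hT)

/-- a resolution of a quotient -/
theorem TR.quot {n m : ℕ} {W' W W'' : Type} [AddCommGroup W'] [Module R W'] [AddCommGroup W]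
    [Module R W] [AddCommGroup W''] [Module R W''] {h' : W' →ₗ[R] W'} {h : W →ₗ[R] W}
    {h'' : W'' →ₗ[R] W''} (f : W' →ₗ[R] W) (g : W →ₗ[R] W'') (hf : Function.Injective f)
    (hg : Function.Surjective g) (hex : ∀ w, g w = 0 ↔ ∃ w', f w' = w)
    (hh' : ∀ w, h (f w) = f (h' w)) (hh'' : ∀ w, g (h w) = h'' (g w)) (H' : TR U n W' h')
    (H : TR U m W h) : ∃ d, TR U d W'' h'' := by
  obtain ⟨C, K, _, _, _, _, ι, π, a, k, hs, ha, hK⟩ := H.start
  let ρ : (C → R) →ₗ[R] W'' := g ∘ₗ π
  have hcomm : ∀ v, ρ (v ᵥ* a) = h'' (ρ v) := by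
    intro v
    change g (π (v ᵥ* a)) = h'' (g (π v))
    rw [hs.comm, hh'']
  let E := LinearMap.ker ρ
  obtain ⟨k', hk'⟩ : ∃ k' : E →ₗ[R] E, ∀ z : E, ((k' z : E) : C → R) = (z : C → R) ᵥ* a := by
    obtain ⟨k', hk'⟩ := factor_inj E.subtype E.subtype_injective (a.vecMulLinear ∘ₗ E.subtype) (by
      intro z
      refine ⟨⟨(z : C → R) ᵥ* a, ?_⟩, rfl⟩
      rw [LinearMap.mem_ker, hcomm, LinearMap.mem_ker.1 z.2, map_zero])
    exact ⟨k', hk'⟩
  obtain ⟨F, hF⟩ := factor_inj E.subtype E.subtype_injective ι (by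
    intro z
    refine ⟨⟨ι z, ?_⟩, rfl⟩
    rw [LinearMap.mem_ker]
    change g (π (ι z)) = 0
    rw [(hs.ex _).2 ⟨z, rfl⟩, map_zero])
  have hF' : ∀ z, ((F z : E) : C → R) = ι z := hF
  obtain ⟨Γ, hΓ⟩ := factor_inj f hf (π ∘ₗ E.subtype) (by
    intro z
    rw [← hex]
    exact LinearMap.mem_ker.1 z.2)
  have hΓ' : ∀ z : E, f (Γ z) = π (z : C → R) := hΓ
  refine ⟨max (m - 1) n + 1, C, E, inferInstance, inferInstance, inferInstance, inferInstance,
    E.subtype, ρ, a, k', ⟨E.subtype_injective, ?_, hg.comp hs.surj, hcomm, hk'⟩, ha, ?_⟩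
  · intro v
    constructor
    · intro h1
      exact ⟨⟨v, h1⟩, rfl⟩
    · rintro ⟨z, rfl⟩
      exact z.2
  · refine TR.ext (max (m - 1) n) F Γ ?_ ?_ ?_ ?_ ?_ (hK.mono (le_max_left _ _))
      (H'.mono (le_max_right _ _))
    · intro x y hxy
      apply hs.inj
      rw [← hF', ← hF', hxy]
    · intro w'
      obtain ⟨v, hv⟩ := hs.surj (f w')
      refine ⟨⟨v, ?_⟩, ?_⟩
      · rw [LinearMap.mem_ker]
        change g (π v) = 0
        rw [hv, (hex _).2 ⟨_, rfl⟩]
      · apply hf
        rw [hΓ', hv]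
    · intro z
      constructor
      · intro h1
        have h2 : π (z : C → R) = 0 := by rw [← hΓ', h1, map_zero]
        obtain ⟨y, hy⟩ := (hs.ex _).1 h2
        exact ⟨y, Subtype.ext (by rw [hF', hy])⟩
      · rintro ⟨y, rfl⟩
        apply hf
        rw [hΓ', hF', (hs.ex _).2 ⟨_, rfl⟩, map_zero]
    · intro z
      apply Subtype.ext
      rw [hk', hF', hF', hs.commk]
    · intro z
      apply hf
      rw [hΓ', hk', hs.comm, ← hh', hΓ']

/-- exact sequences with arbitrary lengths -/
theorem TR.ext' {n m : ℕ} {W' W W'' : Type} [AddCommGroup W'] [Module R W'] [AddCommGroup W]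
    [Module R W] [AddCommGroup W''] [Module R W''] {h' : W' →ₗ[R] W'} {h : W →ₗ[R] W}
    {h'' : W'' →ₗ[R] W''} (f : W' →ₗ[R] W) (g : W →ₗ[R] W'') (hf : Function.Injective f)
    (hg : Function.Surjective g) (hex : ∀ w, g w = 0 ↔ ∃ w', f w' = w)
    (hh' : ∀ w, h (f w) = f (h' w)) (hh'' : ∀ w, g (h w) = h'' (g w)) (H' : TR U n W' h')
    (H'' : TR U m W'' h'') : ∃ d, TR U d W h :=
  ⟨max n m, TR.ext (max n m) f g hf hg hex hh' hh'' (H'.mono (le_max_left _ _))
    (H''.mono (le_max_right _ _))⟩

end res2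

end Pool.Agent.H1.MV
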