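import Pool.Agent.H1.MV.MoL

set_option autoImplicit false
set_option linter.unusedSectionVars false
set_option linter.unusedSimpArgs false

/-!
# Projective modules over Laurent polynomial rings
-/

namespace Pool.Agent.H1.MV

open Matrix

/-- The module `M` has a resolution of length at most `n` by finitely generated stably free
modules. -/
def SFR (R : Type) [Ring R] : ∀ (_ : ℕ) (M : Type) [AddCommGroup M] [Module R M], Prop
  | 0, M, _, _ => StablyFree R M
  | n + 1, M, _, _ => ∃ (ι : Type) (_ : Fintype ι) (f : (ι → R) →ₗ[R] M),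
      Function.Surjective f ∧ SFR R n (LinearMap.ker f)

section sfr

variable {R : Type} [Ring R]

theorem StablyFree.iso {M N : Type} [AddCommGroup M] [Module R M] [AddCommGroup N] [Module R N]
    (e : M ≃ₗ[R] N) (h : StablyFree R M) : StablyFree R N := by
  rw [← se_free (n := 0)] at h ⊢
  exact (SE.of_equiv e.symm).trans h

theorem StablyFree.of_free {C : Type} [Fintype C] : StablyFree R (C → R) := by
  classical
  rw [← se_free (n := Fintype.card C)]
  exact SE.of_equiv (LinearEquiv.funCongrLeft R R (Fintype.equivFin C).symm)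

theorem StablyFree.prod {M N : Type} [AddCommGroup M] [Module R M] [AddCommGroup N] [Module R N]
    (h : StablyFree R M) (h' : StablyFree R N) : StablyFree R (M × N) := by
  rw [← se_free (n := 0)] at h h' ⊢
  refine (SE.prod h h').trans (SE.of_equiv ?_)
  exact ⟨⟨⟨fun _ => 0, fun _ _ => Subsingleton.elim _ _⟩, fun _ _ => Subsingleton.elim _ _⟩,
      fun _ => 0, fun _ => Subsingleton.elim _ _, fun _ => Subsingleton.elim _ _⟩

theorem StablyFree.of_prod {M N : Type} [AddCommGroup M] [Module R M] [AddCommGroup N] [Module R N]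
    (h : StablyFree R M) (h' : StablyFree R (M × N)) : StablyFree R N := by
  obtain ⟨s, t, ⟨e⟩⟩ := h
  rw [← se_free (n := t)] at h' ⊢
  -- N ~ N × R^t ≅ N × M × R^s ~ M × N
  have h1 : SE (S := R) N (N × (Fin t → R)) :=
    ⟨t, 0, ⟨((LinearEquiv.prodUnique (R := R) (M := N × (Fin t → R)) (M₂ := Fin 0 → R))).symm⟩⟩
  have h2 : SE (S := R) (N × (Fin t → R)) (N × (M × (Fin s → R))) :=
    SE.of_equiv (LinearEquiv.prodCongr (LinearEquiv.refl R N) e.symm)
  have h3 : SE (S := R) (N × (M × (Fin s → R))) ((N × M) × (Fin s → R)) :=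
    SE.of_equiv (LinearEquiv.prodAssoc R N M (Fin s → R)).symm
  have h4 : SE (S := R) ((N × M) × (Fin s → R)) (N × M) :=
    ⟨0, s, ⟨LinearEquiv.prodUnique (R := R) (M := (N × M) × (Fin s → R)) (M₂ := Fin 0 → R)⟩⟩
  exact (((h1.trans h2).trans h3).trans h4).trans
    ((SE.of_equiv (LinearEquiv.prodComm R N M)).trans h')

theorem SFR.iso {n : ℕ} {M N : Type} [AddCommGroup M] [Module R M] [AddCommGroup N]
    [Module R N] (e : M ≃ₗ[R] N) (h : SFR R n M) : SFR R n N := by
  cases n with
  | zero => exact StablyFree.iso e h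
  | succ n =>
    obtain ⟨ι, _, f, hf, hk⟩ := h
    refine ⟨ι, inferInstance, e.toLinearMap ∘ₗ f, e.surjective.comp hf, ?_⟩
    have h1 : LinearMap.ker (e.toLinearMap ∘ₗ f) = LinearMap.ker f := by
      ext v
      rw [LinearMap.mem_ker, LinearMap.mem_ker]
      change e (f v) = 0 ↔ f v = 0
      rw [LinearEquiv.map_eq_zero_iff]
    rw [h1]
    exact hk

theorem SFR.mono_succ {n : ℕ} : ∀ {M : Type} [AddCommGroup M] [Module R M]
    (_ : SFR R n M), SFR R (n + 1) M := by
  induction n with
  | zero =>
    intro M _ _ h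
    obtain ⟨s, t, ⟨e⟩⟩ := h
    let f : (Fin t → R) →ₗ[R] M := LinearMap.fst R M (Fin s → R) ∘ₗ e.symm.toLinearMap
    have hf : ∀ v, f v = (e.symm v).1 := fun _ => rfl
    refine ⟨Fin t, inferInstance, f, ?_, ?_⟩
    · intro m
      exact ⟨e (m, 0), by rw [hf, LinearEquiv.symm_apply_apply]⟩
    · let E : (Fin s → R) ≃ₗ[R] LinearMap.ker f :=
        { toFun := fun v => ⟨e (0, v), by rw [LinearMap.mem_ker, hf, LinearEquiv.symm_apply_apply]⟩
          map_add' := fun a b => Subtype.ext (by
            change e (0, a + b) = e (0, a) + e (0, b)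
            rw [← map_add, Prod.mk_add_mk, add_zero])
          map_smul' := fun r a => Subtype.ext (by
            change e (0, r • a) = r • e (0, a)
            rw [← map_smul, Prod.smul_mk, smul_zero])
          invFun := fun z => (e.symm z).2
          left_inv := fun v => by
            change (e.symm (e (0, v))).2 = v
            rw [LinearEquiv.symm_apply_apply]
          right_inv := fun z => by
            apply Subtype.ext
            change e (0, (e.symm z).2) = z
            have h1 : (e.symm (z : Fin t → R)).1 = 0 := LinearMap.mem_ker.1 z.2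
            rw [← h1, Prod.mk.eta, LinearEquiv.apply_symm_apply] }
      exact StablyFree.iso E StablyFree.of_free
  | succ n ih =>
    intro M _ _ h
    obtain ⟨ι, _, f, hf, hk⟩ := h
    exact ⟨ι, inferInstance, f, hf, ih hk⟩

theorem SFR.mono {n m : ℕ} (hnm : n ≤ m) {M : Type} [AddCommGroup M] [Module R M]
    (h : SFR R n M) : SFR R m M := by
  induction hnm with
  | refl => exact h
  | step _ ih => exact ih.mono_succ

theorem SFR.prod_free {n : ℕ} {M C : Type} [AddCommGroup M] [Module R M] [Fintype C]
    [DecidableEq C] (h : SFR R n M) : SFR R n (M × (C → R)) := by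
  cases n with
  | zero => exact StablyFree.prod h StablyFree.of_free
  | succ n =>
    obtain ⟨ι, _, f, hf, hk⟩ := h
    let F : (ι ⊕ C → R) →ₗ[R] (M × (C → R)) := (f ∘ₗ pl R).prod (prr R)
    have hF : ∀ v, F v = (f (v ∘ Sum.inl), v ∘ Sum.inr) := fun v => rfl
    refine ⟨ι ⊕ C, inferInstance, F, ?_, ?_⟩
    · rintro ⟨m, v⟩
      obtain ⟨u, hu⟩ := hf m
      refine ⟨Sum.elim u v, ?_⟩
      rw [hF, Sum.elim_comp_inl, Sum.elim_comp_inr, hu]
    · let E : LinearMap.ker f ≃ₗ[R] LinearMap.ker F :=
        { toFun := fun z => ⟨Sum.elim (z : ι → R) 0, by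
            rw [LinearMap.mem_ker, hF, Sum.elim_comp_inl, Sum.elim_comp_inr,
              LinearMap.mem_ker.1 z.2]; rfl⟩
          map_add' := by
            intro a b
            apply Subtype.ext
            funext i
            rcases i with i | i <;> simp
          map_smul' := by
            intro a b
            apply Subtype.ext
            funext i
            rcases i with i | i <;> simp
          invFun := fun z => ⟨(z : ι ⊕ C → R) ∘ Sum.inl, by
            have h1 := LinearMap.mem_ker.1 z.2
            rw [hF] at h1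
            exact congrArg Prod.fst h1⟩
          left_inv := fun z => rfl
          right_inv := by
            intro z
            apply Subtype.ext
            have h1 := LinearMap.mem_ker.1 z.2
            rw [hF] at h1
            have h2 : (z : ι ⊕ C → R) ∘ Sum.inr = 0 := congrArg Prod.snd h1
            funext i
            rcases i with i | i
            · rfl
            · exact (congrFun h2 i).symm }
      exact SFR.iso E hk

/-- **Schanuel's lemma** -/
theorem schanuel {P Q W : Type} [AddCommGroup P] [Module R P] [AddCommGroup Q] [Module R Q]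
    [AddCommGroup W] [Module R W] [Module.Projective R P] [Module.Projective R Q]
    (f : P →ₗ[R] W) (g : Q →ₗ[R] W) (hf : Function.Surjective f) (hg : Function.Surjective g) :
    Nonempty ((LinearMap.ker f × Q) ≃ₗ[R] (LinearMap.ker g × P)) := by
  -- both are the pullback
  have key : ∀ {P Q : Type} [AddCommGroup P] [Module R P] [AddCommGroup Q] [Module R Q]
      [Module.Projective R Q] (f : P →ₗ[R] W) (g : Q →ₗ[R] W) (_ : Function.Surjective f),
      Nonempty ((LinearMap.ker f × Q) ≃ₗ[R] LinearMap.eqLocus (f ∘ₗ LinearMap.fst R P Q)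
        (g ∘ₗ LinearMap.snd R P Q)) := by
    intro P Q _ _ _ _ _ f g hf
    obtain ⟨s, hs⟩ := Module.projective_lifting_property f g hf
    have hs' : ∀ q, f (s q) = g q := fun q => LinearMap.congr_fun hs q
    refine ⟨{ toFun := fun p => ⟨((p.1 : P) + s p.2, p.2), ?_⟩, map_add' := ?_, map_smul' := ?_,
              invFun := fun z => (⟨(z : P × Q).1 - s (z : P × Q).2, ?_⟩, (z : P × Q).2),
              left_inv := ?_, right_inv := ?_ }⟩
    · change f ((p.1 : P) + s p.2) = g p.2
      rw [map_add, LinearMap.mem_ker.1 p.1.2, zero_add, hs']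
    · intro a b
      apply Subtype.ext
      apply Prod.ext
      · change ((a.1 : P) + (b.1 : P)) + s (a.2 + b.2) = ((a.1 : P) + s a.2) + ((b.1 : P) + s b.2)
        rw [map_add]
        abel
      · rfl
    · intro r a
      apply Subtype.ext
      apply Prod.ext
      · change r • (a.1 : P) + s (r • a.2) = r • ((a.1 : P) + s a.2)
        rw [map_smul, smul_add]
      · rfl
    · have h1 : f (z : P × Q).1 = g (z : P × Q).2 := z.2
      rw [LinearMap.mem_ker, map_sub, hs', h1, sub_self]
    · intro p
      apply Prod.ext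
      · apply Subtype.ext
        change ((p.1 : P) + s p.2) - s p.2 = _
        rw [add_sub_cancel_right]
      · rfl
    · intro z
      apply Subtype.ext
      apply Prod.ext
      · change (z : P × Q).1 - s (z : P × Q).2 + s (z : P × Q).2 = _
        rw [sub_add_cancel]
      · rfl
  obtain ⟨e₁⟩ := key f g hf
  obtain ⟨e₂⟩ := key g f hg
  let e₃ : LinearMap.eqLocus (f ∘ₗ LinearMap.fst R P Q) (g ∘ₗ LinearMap.snd R P Q) ≃ₗ[R]
      LinearMap.eqLocus (g ∘ₗ LinearMap.fst R Q P) (f ∘ₗ LinearMap.snd R Q P) :=
        { toFun := fun z => ⟨((z : P × Q).2, (z : P × Q).1), (z.2 : f (z : P × Q).1 = g (z : P × Q).2).symm⟩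
          map_add' := fun _ _ => rfl
          map_smul' := fun _ _ => rfl
          invFun := fun z => ⟨((z : Q × P).2, (z : Q × P).1), (z.2 : g (z : Q × P).1 = f (z : Q × P).2).symm⟩
          left_inv := fun _ => rfl
          right_inv := fun _ => rfl }
  exact ⟨(e₁.trans e₃).trans e₂.symm⟩

/-- **Cancellation**: the difference of modules with finite resolutions is stably free if it is
projective. -/
theorem SFR.diff (k : ℕ) : ∀ {A B P : Type} [AddCommGroup A] [Module R A] [AddCommGroup B]
    [Module R B] [AddCommGroup P] [Module R P] (_ : Module.Projective R P)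
    (_ : SFR R k A) (_ : SFR R k B) (_ : B ≃ₗ[R] (A × P)), StablyFree R P := by
  classical
  induction k with
  | zero =>
    intro A B P _ _ _ _ _ _ hP hA hB e
    exact StablyFree.of_prod hA (StablyFree.iso e hB)
  | succ k ih =>
    intro A B P _ _ _ _ _ _ hP hA hB e
    obtain ⟨ι, _, f, hf, hk⟩ := hA
    obtain ⟨κ, _, g, hg, hl⟩ := hB
    -- a cover of `A × P`
    let F : ((ι → R) × P) →ₗ[R] (A × P) := LinearMap.prodMap f LinearMap.id
    have hF : Function.Surjective F := by
      rintro ⟨a, p⟩
      obtain ⟨v, hv⟩ := hf a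
      exact ⟨(v, p), Prod.ext hv rfl⟩
    let G : (κ → R) →ₗ[R] (A × P) := e.toLinearMap ∘ₗ g
    have hG : Function.Surjective G := e.surjective.comp hg
    obtain ⟨E⟩ := schanuel F G hF hG
    -- the kernels
    have eF : LinearMap.ker f ≃ₗ[R] LinearMap.ker F :=
      { toFun := fun z => ⟨((z : ι → R), 0), Prod.ext (LinearMap.mem_ker.1 z.2) rfl⟩
        map_add' := fun a b => Subtype.ext (Prod.ext rfl (add_zero _).symm)
        map_smul' := fun r a => Subtype.ext (Prod.ext rfl (smul_zero _).symm)
        invFun := fun z => ⟨(z : (ι → R) × P).1, congrArg Prod.fst (LinearMap.mem_ker.1 z.2)⟩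
        left_inv := fun _ => rfl
        right_inv := fun z => Subtype.ext (Prod.ext rfl
          (congrArg Prod.snd (LinearMap.mem_ker.1 z.2)).symm) }
    have eG : LinearMap.ker G = LinearMap.ker g := by
      ext v
      rw [LinearMap.mem_ker, LinearMap.mem_ker]
      change e (g v) = 0 ↔ g v = 0
      rw [LinearEquiv.map_eq_zero_iff]
    -- ker f × R^κ ≅ ker g × R^ι × P
    have h1 : SFR R k (LinearMap.ker f × (κ → R)) := hk.prod_free
    have h2 : SFR R k (LinearMap.ker g × (ι → R)) := hl.prod_free
    refine ih hP h2 h1 ?_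
    rw [eG] at E
    let E1 : (LinearMap.ker f × (κ → R)) ≃ₗ[R] (LinearMap.ker F × (κ → R)) :=
      LinearEquiv.prodCongr eF (LinearEquiv.refl R _)
    exact (E1.trans E).trans (LinearEquiv.prodAssoc R (LinearMap.ker g) (ι → R) P).symm

end sfr

section hrs

/-- `HR` with a stably free last kernel -/
def HRs (A : Type) [Ring A] : ∀ (_ : ℕ) (C D : Type) [Fintype C] (_ : Matrix C D A), Prop
  | 0, C, _, _, M => ∃ (_ : DecidableEq C) (E : Matrix C C A), E * E = E ∧ StablyFree A (Mo E) ∧
      ∀ v : C → A, v ᵥ* M = 0 ↔ v ᵥ* E = v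
  | d + 1, C, _, _, M => ∃ (B : Type) (_ : Fintype B) (N : Matrix B C A),
      (∀ v : C → A, v ᵥ* M = 0 ↔ ∃ u : B → A, v = u ᵥ* N) ∧ HRs A d B C N

variable {S : Type} [Ring S]

theorem HR.stably (hS : AllStablyFree S) {d : ℕ} : ∀ {C D : Type} [Fintype C] {M : Matrix C D S}
    (_ : HR S d C D M), HRs S d C D M := by
  classical
  induction d with
  | zero =>
    intro C D _ M h
    obtain ⟨E, hE, h⟩ := h
    have := mo_finite E
    have := mo_projective hE
    exact ⟨inferInstance, E, hE, hS (Mo E), h⟩
  | succ d ih =>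
    intro C D _ M h
    obtain ⟨B, _, N, hN, hN'⟩ := h
    exact ⟨B, inferInstance, N, hN, ih hN'⟩

theorem HRs.const {d : ℕ} : ∀ {C D : Type} [Fintype C] {M : Matrix C D S} (_ : HRs S d C D M),
    HRs (Lau S) d C D (M.map (Cc S)) := by
  induction d with
  | zero =>
    intro C D _ M h
    obtain ⟨_, E, hE, hE', h⟩ := h
    refine ⟨inferInstance, E.map (Cc S), ?_, stablyFree_map (Cc S) hE hE', ?_⟩
    · rw [← Matrix.map_mul, hE]
    · intro v
      rw [row_C_zero_iff]
      constructor
      · intro h1
        apply cv_ext'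
        intro n
        rw [cv_mul_C, (h _).1 (h1 n)]
      · intro h1 n
        rw [h, ← cv_mul_C, h1]
  | succ d ih =>
    intro C D _ M h
    obtain ⟨B, _, N, hN, hN'⟩ := h
    refine ⟨B, inferInstance, N.map (Cc S), ?_, ih hN'⟩
    intro v
    rw [row_C_zero_iff, row_C_range]
    exact forall_congr' fun n => hN _

theorem HRs.sfr {d : ℕ} : ∀ {C D : Type} [Fintype C] {M : Matrix C D S} (_ : HRs S d C D M),
    SFR S (d + 1) (LinearMap.range M.vecMulLinear) := by
  induction d with
  | zero =>
    intro C D _ M h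
    obtain ⟨_, E, hE, hE', h⟩ := h
    refine ⟨C, inferInstance, M.vecMulLinear.rangeRestrict, LinearMap.surjective_rangeRestrict _, ?_⟩
    have h1 : LinearMap.ker M.vecMulLinear.rangeRestrict = Mo E := by
      ext v
      rw [LinearMap.ker_rangeRestrict, LinearMap.mem_ker, mem_mo_iff hE]
      exact h v
    rw [h1]
    exact hE'
  | succ d ih =>
    intro C D _ M h
    obtain ⟨B, _, N, hN, hN'⟩ := h
    refine ⟨C, inferInstance, M.vecMulLinear.rangeRestrict, LinearMap.surjective_rangeRestrict _, ?_⟩
    have h1 : LinearMap.ker M.vecMulLinear.rangeRestrict = LinearMap.range N.vecMulLinear := by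
      ext v
      rw [LinearMap.ker_rangeRestrict, LinearMap.mem_ker, LinearMap.mem_range]
      refine (hN v).trans ?_
      exact ⟨fun ⟨u, hu⟩ => ⟨u, hu.symm⟩, fun ⟨u, hu⟩ => ⟨u, hu.symm⟩⟩
    rw [h1]
    exact ih hN'

/-- **Projective modules over Laurent polynomial rings** -/
theorem allStablyFree_lau [IsNoetherianRing S] (hN : Nice S) (hS : AllStablyFree S) :
    AllStablyFree (Lau S) := by
  classical
  apply allStablyFree_of_mo
  intro n p hp
  obtain ⟨a, a', K, P, P', f, g, c1, c2, c3⟩ := syz_seq (Fin n) (Fin n) p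
  obtain ⟨d₁, h₁⟩ := hN _ _ P
  obtain ⟨d₂, h₂⟩ := hN _ _ P'
  have H₁ := ((h₁.stably hS).const.sfr).mono (le_max_left (d₁ + 1) (d₂ + 1))
  have H₂ := ((h₂.stably hS).const.sfr).mono (le_max_right (d₁ + 1) (d₂ + 1))
  have hproj : Module.Projective (Lau S) (LinearMap.range p.vecMulLinear) := mo_projective hp
  obtain ⟨s, hs⟩ := Module.projective_lifting_property (h := hproj) g LinearMap.id c2
  have hs' : ∀ v, g (s v) = v := fun v => LinearMap.congr_fun hs v
  refine SFR.diff _ hproj H₁ H₂ ?_
  -- the splitting
  let F := LinearMap.coprod f s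
  have hF : ∀ x y, F (x, y) = f x + s y := fun x y => LinearMap.coprod_apply _ _ _
  have hgf : ∀ x, g (f x) = 0 := fun x => (c3 _).2 ⟨x, rfl⟩
  refine (LinearEquiv.ofBijective F ⟨?_, ?_⟩).symm
  · rw [← LinearMap.ker_eq_bot, LinearMap.ker_eq_bot']
    rintro ⟨x, y⟩ h
    rw [hF] at h
    have h1 : y = 0 := by
      have h2 := congrArg g h
      rw [map_add, hgf, hs', zero_add, map_zero] at h2
      exact h2
    rw [h1, map_zero, add_zero] at h
    rw [h1]
    exact Prod.ext (c1 (h.trans (map_zero f).symm)) rfl
  · intro w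
    obtain ⟨w', hw'⟩ := (c3 (w - s (g w))).1 (by rw [map_sub, hs', sub_self])
    refine ⟨(w', g w), ?_⟩
    rw [hF, hw']
    exact sub_add_cancel _ _

end hrs

section zpn

theorem AllStablyFree.ringEquiv {R S : Type} [Ring R] [Ring S] (e : R ≃+* S)
    (h : AllStablyFree R) : AllStablyFree S := by
  apply allStablyFree_of_mo
  intro n p hp
  have h1 : (p.map e.symm) * (p.map e.symm) = p.map e.symm := by
    rw [← Matrix.map_mul, hp]
  have h2 : (p.map (e.symm : S →+* R)) * (p.map (e.symm : S →+* R)) = p.map (e.symm : S →+* R) := h1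
  have := mo_finite (p.map (e.symm : S →+* R))
  have := mo_projective h2
  have h3 := stablyFree_map (e : R →+* S) h2 (h (Mo (p.map (e.symm : S →+* R))))
  have h4 : (p.map (e.symm : S →+* R)).map (e : R →+* S) = p := by
    ext1 i j
    exact e.apply_symm_apply _
  rw [h4] at h3
  exact h3

theorem allStablyFree_int : AllStablyFree ℤ := by
  intro P _ _ _ _
  have h1 : Module.Free ℤ P := inferInstance
  exact StablyFree.iso (Module.finBasis ℤ P).equivFun.symm StablyFree.of_free

/-- Finitely generated projective modules over the integral group rings of free abelian groups are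
stably free. -/
theorem allStablyFree_zp (n : ℕ) : AllStablyFree (MonoidAlgebra ℤ (Zp n)) := by
  induction n with
  | zero =>
    exact AllStablyFree.ringEquiv (MonoidAlgebra.uniqueRingEquiv (R := ℤ) (M := Zp 0)).symm
      allStablyFree_int
  | succ n ih =>
    have h1 : AllStablyFree (Lau (MonoidAlgebra ℤ (Zp n))) := allStablyFree_lau (nice_zp n) ih
    have h2 : AllStablyFree (MonoidAlgebra ℤ (Multiplicative ℤ × Zp n)) :=
      AllStablyFree.ringEquiv MonoidAlgebra.curryRingEquiv.symm h1
    exact AllStablyFree.ringEquiv (MonoidAlgebra.domCongr ℤ ℤ (zpSucc n).symm).toRingEquiv h2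

end zpn

end Pool.Agent.H1.MV
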