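import Pool.Agent.H1.MV.Ty
import Pool.Agent.H1.MV.Tree

set_option autoImplicit false
set_option linter.unusedSectionVars false

/-!
# Splitting along the edges of a tree
-/

namespace Pool.Agent.H1.MV

open Matrix

section split

variable {k : Type} [Ring k] {G V : Type} [Group G] [MulAction G V] {T : SimpleGraph V}

/-- both ends of `f'` are on the side of the first vertex of `f` -/
def E1 (T : SimpleGraph V) (f' f : V × V) : Prop := side T f.2 f.1 f'.1 ∧ side T f.2 f.1 f'.2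

/-- both ends of `f'` are on the side of the second vertex of `f` -/
def E2 (T : SimpleGraph V) (f' f : V × V) : Prop := side T f.1 f.2 f'.1 ∧ side T f.1 f.2 f'.2

theorem side_disj {a b w : V} (h : side T a b w) (h' : side T b a w) : False := by
  unfold side at h h'
  omega

theorem E1_inv (hT : T.IsTree) (hact : ∀ (g : G) (v w : V), T.Adj v w → T.Adj (g • v) (g • w)) :
    GInv G (E1 T) := by
  rintro g x y ⟨h1, h2⟩
  exact ⟨(side_smul hT hact g _ _ _).2 h1, (side_smul hT hact g _ _ _).2 h2⟩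

theorem E2_inv (hT : T.IsTree) (hact : ∀ (g : G) (v w : V), T.Adj v w → T.Adj (g • v) (g • w)) :
    GInv G (E2 T) := by
  rintro g x y ⟨h1, h2⟩
  exact ⟨(side_smul hT hact g _ _ _).2 h1, (side_smul hT hact g _ _ _).2 h2⟩

/-- trichotomy -/
theorem trich (hT : T.IsTree) {f' f : V × V} (hf' : T.Adj f'.1 f'.2) (hf : T.Adj f.1 f.2)
    (hne : f' ≠ f.swap) : f' = f ∨ E1 T f' f ∨ E2 T f' f := by
  by_cases h0 : f' = f
  · exact Or.inl h0
  right
  have n1 : ¬ (f'.1 = f.1 ∧ f'.2 = f.2) := fun h => h0 (Prod.ext h.1 h.2)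
  have n2 : ¬ (f'.1 = f.2 ∧ f'.2 = f.1) := fun h => hne (Prod.ext h.1 h.2)
  by_cases h1 : side T f.1 f.2 f'.1
  · right
    refine ⟨h1, side_edge hT hf hf' n2 h1⟩
  · left
    have h2 : side T f.2 f.1 f'.1 := by
      rw [side_iff hT hf.symm]; exact h1
    exact ⟨h2, side_edge hT hf.symm hf' n1 h2⟩

variable {I J : Type} [Fintype I] [Fintype J] [DecidableEq I] [DecidableEq J]

/-- the common hypotheses -/
structure Dat (T : SimpleGraph V) (ν : I → V) (ε : J → V × V)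
    (F1 F2 : Matrix I J (MonoidAlgebra k G)) (F' : Matrix J I (MonoidAlgebra k G)) : Prop where
  tree : T.IsTree
  act : ∀ (g : G) (v w : V), T.Adj v w → T.Adj (g • v) (g • w)
  adj : ∀ j, T.Adj (ε j).1 (ε j).2
  noinv : ∀ (g : G) j j', g • ε j ≠ (ε j').swap
  ty1 : Ty ν ε (fun x f => x = f.1) F1
  ty2 : Ty ν ε (fun x f => x = f.2) F2
  left : F' * (F1 + F2) = 1
  right : (F1 + F2) * F' = 1

variable {ν : I → V} {ε : J → V × V} {F1 F2 : Matrix I J (MonoidAlgebra k G)}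
  {F' : Matrix J I (MonoidAlgebra k G)}

/-- the roles of the two vertices of the edges exchanged -/
theorem Dat.swap (D : Dat T ν ε F1 F2 F') : Dat T ν (fun j => (ε j).swap) F2 F1 F' where
  tree := D.tree
  act := D.act
  adj j := (D.adj j).symm
  noinv g j j' h := by
    apply D.noinv g j j'
    have := congrArg Prod.swap h
    rw [Prod.swap_swap] at this
    exact Prod.swap_injective h
  ty1 := D.ty2
  ty2 := D.ty1
  left := by rw [add_comm]; exact D.left
  right := by rw [add_comm]; exact D.right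

theorem Dat.adj' (D : Dat T ν ε F1 F2 F') (g : G) (j : J) : T.Adj (g • ε j).1 (g • ε j).2 :=
  D.act g _ _ (D.adj j)

theorem Dat.ne' (D : Dat T ν ε F1 F2 F') (g : G) (j : J) : (g • ε j).1 ≠ (g • ε j).2 :=
  (D.adj' g j).ne

/-- decomposition by the position relative to an edge -/
theorem Dat.three (D : Dat T ν ε F1 F2 F') {K : Type} (φ : K → V × V)
    (hφ : ∀ l, T.Adj (φ l).1 (φ l).2) (hno : ∀ (g : G) j l, g • ε j ≠ (φ l).swap)
    (M : Matrix J K (MonoidAlgebra k G)) :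
    M = res ε φ Eq M + res ε φ (E1 T) M + res ε φ (E2 T) M := by
  classical
  ext1 j l
  apply MonoidAlgebra.coeff_injective
  ext g
  rw [Matrix.add_apply, MonoidAlgebra.coeff_add, Finsupp.add_apply, Matrix.add_apply,
    MonoidAlgebra.coeff_add, Finsupp.add_apply, res_coeff, res_coeff, res_coeff]
  have h1 := trich D.tree (D.adj' g⁻¹ j) (hφ l) (hno g⁻¹ j l)
  have d1 : ¬ ((g⁻¹ • ε j) = φ l ∧ E1 T (g⁻¹ • ε j) (φ l)) := by
    rintro ⟨h, h'⟩
    rw [h] at h'
    exact side_left h'.2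
  have d2 : ¬ ((g⁻¹ • ε j) = φ l ∧ E2 T (g⁻¹ • ε j) (φ l)) := by
    rintro ⟨h, h'⟩
    rw [h] at h'
    exact side_left h'.1
  have d3 : ¬ (E1 T (g⁻¹ • ε j) (φ l) ∧ E2 T (g⁻¹ • ε j) (φ l)) := by
    rintro ⟨h, h'⟩
    exact side_disj h.1 h'.1
  by_cases c1 : (g⁻¹ • ε j) = φ l
  · have c2 : ¬ E1 T (g⁻¹ • ε j) (φ l) := fun h => d1 ⟨c1, h⟩
    have c3 : ¬ E2 T (g⁻¹ • ε j) (φ l) := fun h => d2 ⟨c1, h⟩
    simp only [c1, if_true] at c2 c3 ⊢
    simp only [c2, c3, if_false, add_zero]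
  · by_cases c2 : E1 T (g⁻¹ • ε j) (φ l)
    · have c3 : ¬ E2 T (g⁻¹ • ε j) (φ l) := fun h => d3 ⟨c2, h⟩
      simp only [c1, c2, c3, if_true, if_false, add_zero, zero_add]
    · have c3 : E2 T (g⁻¹ • ε j) (φ l) := by tauto
      simp only [c1, c2, c3, if_true, if_false, add_zero, zero_add]

/-- the local idempotent -/
noncomputable def al0 (ε : J → V × V) (F1 : Matrix I J (MonoidAlgebra k G))
    (F' : Matrix J I (MonoidAlgebra k G)) : Matrix J J (MonoidAlgebra k G) :=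
  res ε ε Eq (F' * F1)

/-- the part of the inverse at the first vertices -/
noncomputable def Hfst (ν : I → V) (ε : J → V × V) (F' : Matrix J I (MonoidAlgebra k G)) :
    Matrix J I (MonoidAlgebra k G) :=
  res ε ν (fun f x => f.1 = x) F'

/-- the part of the inverse at the second vertices -/
noncomputable def Hsnd (ν : I → V) (ε : J → V × V) (F' : Matrix J I (MonoidAlgebra k G)) :
    Matrix J I (MonoidAlgebra k G) :=
  res ε ν (fun f x => f.2 = x) F'

/-- the far part of the inverse -/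
noncomputable def Hfar (ν : I → V) (ε : J → V × V) (F' : Matrix J I (MonoidAlgebra k G)) :
    Matrix J I (MonoidAlgebra k G) :=
  res ε ν (fun f x => f.1 ≠ x ∧ f.2 ≠ x) F'

theorem Dat.hsum (D : Dat T ν ε F1 F2 F') : F' = Hfst ν ε F' + Hsnd ν ε F' + Hfar ν ε F' := by
  classical
  ext1 j l
  apply MonoidAlgebra.coeff_injective
  ext g
  unfold Hfst Hsnd Hfar
  rw [Matrix.add_apply, MonoidAlgebra.coeff_add, Finsupp.add_apply, Matrix.add_apply,
    MonoidAlgebra.coeff_add, Finsupp.add_apply, res_coeff, res_coeff, res_coeff]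
  have h1 := D.ne' g⁻¹ j
  by_cases c1 : (g⁻¹ • ε j).1 = ν l
  · have c2 : ¬ (g⁻¹ • ε j).2 = ν l := fun h => h1 (c1.trans h.symm)
    rw [if_pos c1, if_neg c2, if_neg (fun h => h.1 c1)]
    simp
  · by_cases c2 : (g⁻¹ • ε j).2 = ν l
    · rw [if_neg c1, if_pos c2, if_neg (fun h => h.2 c2)]
      simp
    · rw [if_neg c1, if_neg c2, if_pos ⟨c1, c2⟩]
      simp

theorem inv_fst : GInv G (fun (f : V × V) (x : V) => f.1 = x) := by
  intro g x y h
  rw [← h]; rfl

theorem inv_snd : GInv G (fun (f : V × V) (x : V) => f.2 = x) := by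
  intro g x y h
  rw [← h]; rfl

theorem inv_fst' : GInv G (fun (x : V) (f : V × V) => x = f.1) := by
  intro g x y h
  rw [h]; rfl

theorem inv_snd' : GInv G (fun (x : V) (f : V × V) => x = f.2) := by
  intro g x y h
  rw [h]; rfl

theorem inv_far : GInv G (fun (f : V × V) (x : V) => f.1 ≠ x ∧ f.2 ≠ x) := by
  rintro g x y ⟨h1, h2⟩
  refine ⟨fun h => h1 (smul_left_cancel g h), fun h => h2 (smul_left_cancel g h)⟩

/-- first consequence of the identity `F α = F₁` -/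
theorem Dat.facts (D : Dat T ν ε F1 F2 F') :
    al0 ε F1 F' * al0 ε F1 F' = al0 ε F1 F' ∧
    ∃ A1 A2 : Matrix J J (MonoidAlgebra k G), Ty ε ε (E1 T) A1 ∧ Ty ε ε (E2 T) A2 ∧
      F' * F1 = al0 ε F1 F' + A1 + A2 ∧ F' * F1 * al0 ε F1 F' = al0 ε F1 F' + A2 := by
  set a := F' * F1 with ha
  set a0 := al0 ε F1 F' with ha0
  set A1 := res ε ε (E1 T) a
  set A2 := res ε ε (E2 T) a
  have h3 : a = a0 + A1 + A2 := D.three ε D.adj D.noinv a
  have t0 : Ty ε ε Eq a0 := Ty.res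
  have t1 : Ty ε ε (E1 T) A1 := Ty.res
  have t2 : Ty ε ε (E2 T) A2 := Ty.res
  have hFa : (F1 + F2) * a = F1 := by
    rw [ha, ← Matrix.mul_assoc, D.right, Matrix.one_mul]
  have e1 : ((F1 + F2) * A1 + F1 * a0 - F1) + ((F1 + F2) * A2 + F2 * a0) = 0 := by
    have : (F1 + F2) * a = (F1 + F2) * A1 + F1 * a0 + ((F1 + F2) * A2 + F2 * a0) := by
      conv_lhs => rw [h3]
      simp only [Matrix.mul_add, Matrix.add_mul]
      abel
    rw [hFa] at this
    rw [sub_add_eq_add_sub, ← this, sub_self]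
  have p1 : Ty ν ε (fun x f => side T f.2 f.1 x) ((F1 + F2) * A1 + F1 * a0 - F1) := by
    refine Ty.sub (Ty.add ?_ ?_) ?_
    · rw [Matrix.add_mul]
      refine Ty.add ?_ ?_
      · exact D.ty1.mul t1 inv_fst' (fun x y z h h' => by rw [h]; exact h'.1)
      · exact D.ty2.mul t1 inv_snd' (fun x y z h h' => by rw [h]; exact h'.2)
    · have h4 : Ty ν ε (fun x f => x = f.1) (F1 * a0) :=
        D.ty1.mul t0 inv_fst' (fun x y z h h' => by rw [h, h'])
      refine h4.mono_at ?_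
      intro x l h
      rw [h]; exact side_right (D.adj l).symm
    · refine D.ty1.mono_at ?_
      intro x l h
      rw [h]; exact side_right (D.adj l).symm
  have p2 : Ty ν ε (fun x f => side T f.1 f.2 x) ((F1 + F2) * A2 + F2 * a0) := by
    refine Ty.add ?_ ?_
    · rw [Matrix.add_mul]
      refine Ty.add ?_ ?_
      · exact D.ty1.mul t2 inv_fst' (fun x y z h h' => by rw [h]; exact h'.1)
      · exact D.ty2.mul t2 inv_snd' (fun x y z h h' => by rw [h]; exact h'.2)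
    · have h4 : Ty ν ε (fun x f => x = f.2) (F2 * a0) :=
        D.ty2.mul t0 inv_snd' (fun x y z h h' => by rw [h, h'])
      refine h4.mono_at ?_
      intro x l h
      rw [h]; exact side_right (D.adj l)
  obtain ⟨q1, q2⟩ := p1.parts p2 (fun x f h h' => side_disj h h') e1
  -- `A2 = - β a0`
  have r2 : A2 + F' * F2 * a0 = 0 := by
    have := congrArg (F' * ·) q2
    simp only [Matrix.mul_add, Matrix.mul_zero] at this
    rw [← Matrix.mul_assoc, D.left, Matrix.one_mul, ← Matrix.mul_assoc] at this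
    exact this
  have r3 : F' * F1 + F' * F2 = 1 := by rw [← Matrix.mul_add]; exact D.left
  have r4 : a * a0 = a0 + A2 := by
    have h5 : a + F' * F2 = 1 := r3
    have h6 : a * a0 + F' * F2 * a0 = a0 := by rw [← Matrix.add_mul, h5, Matrix.one_mul]
    have h7 : A2 = - (F' * F2 * a0) := eq_neg_of_add_eq_zero_left r2
    rw [h7]
    conv_rhs => lhs; rw [← h6]
    abel
  refine ⟨?_, A1, A2, t1, t2, h3, r4⟩
  -- idempotency
  have r5 : (a0 * a0 - a0) + (A1 * a0 + (A2 * a0 - A2)) = 0 := by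
    have : a * a0 = a0 * a0 + A1 * a0 + A2 * a0 := by
      conv_lhs => rw [h3]
      simp only [Matrix.add_mul]
    rw [r4] at this
    have h8 : (a0 * a0 - a0) + (A1 * a0 + (A2 * a0 - A2))
      = (a0 * a0 + A1 * a0 + A2 * a0) - (a0 + A2) := by abel
    rw [h8, ← this, sub_self]
  have s1 : Ty ε ε Eq (a0 * a0 - a0) :=
    (t0.mul t0 GInv.eq (fun x y z h h' => h.trans h')).sub t0
  have s2 : Ty ε ε (fun x y => E1 T x y ∨ E2 T x y) (A1 * a0 + (A2 * a0 - A2)) := by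
    refine Ty.add ?_ (Ty.sub ?_ ?_)
    · exact t1.mul t0 (E1_inv D.tree D.act) (fun x y z h h' => by rw [← h']; exact Or.inl h)
    · exact t2.mul t0 (E2_inv D.tree D.act) (fun x y z h h' => by rw [← h']; exact Or.inr h)
    · exact t2.mono (fun x y h => Or.inr h)
  obtain ⟨w1, _⟩ := s1.parts s2 (by
    rintro x y h (h' | h')
    · rw [h] at h'; exact side_left h'.2
    · rw [h] at h'; exact side_left h'.1) r5
  exact sub_eq_zero.1 w1

/-- the star of the first vertex of `f` contains `f'` -/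
def St (f' f : V × V) : Prop := f'.1 = f.1 ∨ f'.2 = f.1

theorem ty_H (D : Dat T ν ε F1 F2 F') (X : Matrix J J (MonoidAlgebra k G)) (hX : Ty ε ε Eq X) :
    Ty ε ε (fun f' f => f'.1 = f.1) (Hfst ν ε F' * F1 * X) ∧
    Ty ε ε (fun f' f => f'.2 = f.1) (Hsnd ν ε F' * F1 * X) ∧
    Ty ε ε (fun f' f => f'.1 ≠ f.1 ∧ f'.2 ≠ f.1) (Hfar ν ε F' * F1 * X) := by
  have a1 : Ty ν ε (fun x f => x = f.1) (F1 * X) :=
    D.ty1.mul hX inv_fst' (fun x y z h h' => by rw [h, h'])
  have h1 : Ty ε ν (fun (f : V × V) (x : V) => f.1 = x) (Hfst ν ε F') := Ty.res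
  have h2 : Ty ε ν (fun (f : V × V) (x : V) => f.2 = x) (Hsnd ν ε F') := Ty.res
  have h3 : Ty ε ν (fun (f : V × V) (x : V) => f.1 ≠ x ∧ f.2 ≠ x) (Hfar ν ε F') := Ty.res
  refine ⟨?_, ?_, ?_⟩
  · rw [Matrix.mul_assoc]
    exact h1.mul a1 inv_fst (fun x y z h h' => by rw [h, h'])
  · rw [Matrix.mul_assoc]
    exact h2.mul a1 inv_snd (fun x y z h h' => by rw [h, h'])
  · rw [Matrix.mul_assoc]
    exact h3.mul a1 inv_far (fun x y z h h' => by rw [← h']; exact h)

/-- `H F₁ α₀ = α₀` -/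
theorem Dat.h_al (D : Dat T ν ε F1 F2 F') :
    (Hfst ν ε F' + Hsnd ν ε F') * F1 * al0 ε F1 F' = al0 ε F1 F' := by
  obtain ⟨_, A1, A2, t1, t2, h3, r4⟩ := D.facts
  set a0 := al0 ε F1 F' with ha0
  have t0 : Ty ε ε Eq a0 := Ty.res
  obtain ⟨b1, b2, b3⟩ := ty_H D a0 t0
  have e1 : ((Hfst ν ε F' + Hsnd ν ε F') * F1 * a0 - a0) + (Hfar ν ε F' * F1 * a0 - A2) = 0 := by
    have : F' * F1 * a0 = (Hfst ν ε F' + Hsnd ν ε F') * F1 * a0 + Hfar ν ε F' * F1 * a0 := by
      conv_lhs => rw [D.hsum]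
      simp only [Matrix.add_mul]
    rw [r4] at this
    have h8 : ((Hfst ν ε F' + Hsnd ν ε F') * F1 * a0 - a0) + (Hfar ν ε F' * F1 * a0 - A2)
      = ((Hfst ν ε F' + Hsnd ν ε F') * F1 * a0 + Hfar ν ε F' * F1 * a0) - (a0 + A2) := by abel
    rw [h8, ← this, sub_self]
  have p1 : Ty ε ε (fun f' f => f'.1 = f.1 ∨ f'.2 = f.1)
      ((Hfst ν ε F' + Hsnd ν ε F') * F1 * a0 - a0) := by
    rw [Matrix.add_mul, Matrix.add_mul]
    refine Ty.sub (Ty.add ?_ ?_) ?_
    · exact b1.mono (fun x y h => Or.inl h)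
    · exact b2.mono (fun x y h => Or.inr h)
    · exact t0.mono (fun x y h => Or.inl (by rw [h]))
  have p2 : Ty ε ε (fun f' f => f'.1 ≠ f.1 ∧ f'.2 ≠ f.1) (Hfar ν ε F' * F1 * a0 - A2) := by
    refine b3.sub (t2.mono ?_)
    rintro x y ⟨h1, h2⟩
    refine ⟨fun h => ?_, fun h => ?_⟩
    · rw [h] at h1; exact side_left h1
    · rw [h] at h2; exact side_left h2
  obtain ⟨w1, _⟩ := p1.parts p2 (by
    rintro x y (h | h) ⟨h1, h2⟩
    · exact h1 h
    · exact h2 h) e1
  exact sub_eq_zero.1 w1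

/-- the steps across the first vertex -/
theorem Dat.steps (D : Dat T ν ε F1 F2 F') :
    Ty ε ε (fun f' f => f'.1 = f.1 ∧ E1 T f' f) (Hfst ν ε F' * F1 * (1 - al0 ε F1 F')) ∧
    Ty ε ε (fun f' f => f'.2 = f.1 ∧ E1 T f' f) (Hsnd ν ε F' * F1 * (1 - al0 ε F1 F')) := by
  obtain ⟨_, A1, A2, t1, t2, h3, r4⟩ := D.facts
  set a0 := al0 ε F1 F' with ha0
  have t0 : Ty ε ε Eq a0 := Ty.res
  have t0' : Ty ε ε Eq (1 - a0) := Ty.one.sub t0
  obtain ⟨b1, b2, b3⟩ := ty_H D (1 - a0) t0'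
  have e1 : Hfst ν ε F' * F1 * (1 - a0) + Hsnd ν ε F' * F1 * (1 - a0)
      + Hfar ν ε F' * F1 * (1 - a0) = A1 := by
    have : F' * F1 * (1 - a0) = Hfst ν ε F' * F1 * (1 - a0) + Hsnd ν ε F' * F1 * (1 - a0)
        + Hfar ν ε F' * F1 * (1 - a0) := by
      conv_lhs => rw [D.hsum]
      simp only [Matrix.add_mul]
    rw [← this, Matrix.mul_sub, Matrix.mul_one, r4, h3]
    abel
  constructor
  · have c1 : Ty ε ε (fun f' f => f'.1 ≠ f'.2 ∧ f'.1 = f.1) (Hfst ν ε F' * F1 * (1 - a0)) :=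
      b1.and_left (P := fun f => f.1 ≠ f.2) (fun g j => D.ne' _ j)
    have c2 : Ty ε ε (fun f' f => f'.1 ≠ f'.2 → f'.1 ≠ f.1)
        (Hsnd ν ε F' * F1 * (1 - a0) + Hfar ν ε F' * F1 * (1 - a0)) := by
      refine Ty.add (b2.mono ?_) (b3.mono ?_)
      · intro x y h h' h2
        exact h' (h2.trans h.symm)
      · intro x y h _
        exact h.1
    have := c1.transfer c2 t1 (by rw [← add_assoc]; exact e1) (fun x y h h' => h' h.1 h.2)
    exact this.mono (fun x y h => ⟨h.1.2, h.2⟩)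
  · have c1 : Ty ε ε (fun f' f => f'.1 ≠ f'.2 ∧ f'.2 = f.1) (Hsnd ν ε F' * F1 * (1 - a0)) :=
      b2.and_left (P := fun f => f.1 ≠ f.2) (fun g j => D.ne' _ j)
    have c2 : Ty ε ε (fun f' f => f'.1 ≠ f'.2 → f'.2 ≠ f.1)
        (Hfst ν ε F' * F1 * (1 - a0) + Hfar ν ε F' * F1 * (1 - a0)) := by
      refine Ty.add (b1.mono ?_) (b3.mono ?_)
      · intro x y h h' h2
        exact h' (h.trans h2.symm)
      · intro x y h _
        exact h.2
    have := c1.transfer c2 t1 (by rw [← e1]; abel) (fun x y h h' => h' h.1 h.2)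
    exact this.mono (fun x y h => ⟨h.1.2, h.2⟩)

/-- `F₁ H₁ + F₂ H₂ = 1` -/
theorem Dat.fh (D : Dat T ν ε F1 F2 F') : F1 * Hfst ν ε F' + F2 * Hsnd ν ε F' = 1 := by
  have h1 : Ty ε ν (fun (f : V × V) (x : V) => f.1 = x) (Hfst ν ε F') := Ty.res
  have h2 : Ty ε ν (fun (f : V × V) (x : V) => f.2 = x) (Hsnd ν ε F') := Ty.res
  have h3 : Ty ε ν (fun (f : V × V) (x : V) => f.1 ≠ x ∧ f.2 ≠ x) (Hfar ν ε F') := Ty.res
  have g1 : Ty ε ν (fun (f : V × V) (x : V) => f.1 ≠ f.2 ∧ f.1 = x) (Hfst ν ε F') :=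
    h1.and_left (P := fun f => f.1 ≠ f.2) (fun g j => D.ne' _ j)
  have g2 : Ty ε ν (fun (f : V × V) (x : V) => f.1 ≠ f.2 ∧ f.2 = x) (Hsnd ν ε F') :=
    h2.and_left (P := fun f => f.1 ≠ f.2) (fun g j => D.ne' _ j)
  have e1 : (F1 * Hfst ν ε F' + F2 * Hsnd ν ε F' - 1) + (F1 * Hsnd ν ε F' + F2 * Hfst ν ε F'
      + (F1 + F2) * Hfar ν ε F') = 0 := by
    have h5 := D.right
    rw [D.hsum] at h5
    have h6 : (F1 * Hfst ν ε F' + F2 * Hsnd ν ε F' - 1) + (F1 * Hsnd ν ε F' + F2 * Hfst ν ε F'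
      + (F1 + F2) * Hfar ν ε F') =
      (F1 + F2) * (Hfst ν ε F' + Hsnd ν ε F' + Hfar ν ε F') - 1 := by
      simp only [Matrix.mul_add, Matrix.add_mul]
      abel
    rw [h6, h5, sub_self]
  have p1 : Ty ν ν Eq (F1 * Hfst ν ε F' + F2 * Hsnd ν ε F' - 1) := by
    refine Ty.sub (Ty.add ?_ ?_) Ty.one
    · exact D.ty1.mul h1 inv_fst' (fun x y z h h' => by rw [h, h'])
    · exact D.ty2.mul h2 inv_snd' (fun x y z h h' => by rw [h, h'])
  have p2 : Ty ν ν (fun x y => x ≠ y) (F1 * Hsnd ν ε F' + F2 * Hfst ν ε F'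
      + (F1 + F2) * Hfar ν ε F') := by
    rw [Matrix.add_mul]
    refine Ty.add (Ty.add ?_ ?_) (Ty.add ?_ ?_)
    · exact D.ty1.mul g2 inv_fst' (fun x y z h h' => by rw [h, ← h'.2]; exact h'.1)
    · exact D.ty2.mul g1 inv_snd' (fun x y z h h' => by rw [h, ← h'.2]; exact h'.1.symm)
    · exact D.ty1.mul h3 inv_fst' (fun x y z h h' => by rw [h]; exact h'.1)
    · exact D.ty2.mul h3 inv_snd' (fun x y z h h' => by rw [h]; exact h'.2)
  obtain ⟨w1, _⟩ := p1.parts p2 (fun x y h h' => h' h) e1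
  exact sub_eq_zero.1 w1

/-- the local idempotents on the columns of the inverse, one edge at a time -/
theorem Dat.edge_al (D : Dat T ν ε F1 F2 F') (i : I) (f : V × V) (hf : T.Adj f.1 f.2)
    (hno : ∀ (g : G) j, g • ε j ≠ f.swap) (hi : f.1 = ν i) (c cf : Matrix J Unit (MonoidAlgebra k G))
    (hc : c = Matrix.of fun j _ => F' j i) (hcf : cf = res ε (fun _ : Unit => f) Eq c) :
    al0 ε F1 F' * cf = cf := by
  obtain ⟨_, A1, A2, t1, t2, h3, r4⟩ := D.facts
  set a0 := al0 ε F1 F' with ha0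
  have t0 : Ty ε ε Eq a0 := Ty.res
  set φ : Unit → V × V := fun _ => f
  have hc3 : c = res ε φ Eq c + res ε φ (E1 T) c + res ε φ (E2 T) c :=
    D.three φ (fun _ => hf) (fun g j _ => hno g j) c
  rw [← hcf] at hc3
  set c1 := res ε φ (E1 T) c
  set c2 := res ε φ (E2 T) c
  have u0 : Ty ε φ Eq cf := by rw [hcf]; exact Ty.res
  have u1 : Ty ε φ (E1 T) c1 := Ty.res
  have u2 : Ty ε φ (E2 T) c2 := Ty.res
  set e : Matrix I Unit (MonoidAlgebra k G) := Matrix.of fun i' _ => if i' = i then 1 else 0 with he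
  have hFc : (F1 + F2) * c = e := by
    have h5 := D.right
    ext1 i' j'
    have h6 := congrFun (congrFun h5 i') i
    rw [Matrix.mul_apply] at h6 ⊢
    rw [he, Matrix.of_apply, hc]
    rw [Matrix.one_apply] at h6
    exact h6
  have te : Ty ν φ (fun x f => x = f.1) e := by
    intro i' l g hg
    rw [he, Matrix.of_apply] at hg
    by_cases h : i' = i
    · rw [if_pos h, MonoidAlgebra.one_def, MonoidAlgebra.coeff_single] at hg
      by_cases h2 : g = 1
      · rw [h2, h, inv_one, one_smul]; exact hi.symm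
      · exact absurd (Finsupp.single_eq_of_ne h2) hg
    · rw [if_neg h] at hg
      simp at hg
  have e1 : ((F1 + F2) * c1 + F1 * cf - e) + ((F1 + F2) * c2 + F2 * cf) = 0 := by
    have : (F1 + F2) * c = (F1 + F2) * c1 + F1 * cf + ((F1 + F2) * c2 + F2 * cf) := by
      conv_lhs => rw [hc3]
      simp only [Matrix.mul_add, Matrix.add_mul]
      abel
    rw [hFc] at this
    rw [sub_add_eq_add_sub, ← this, sub_self]
  have p1 : Ty ν φ (fun x f => side T f.2 f.1 x) ((F1 + F2) * c1 + F1 * cf - e) := by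
    refine Ty.sub (Ty.add ?_ ?_) ?_
    · rw [Matrix.add_mul]
      refine Ty.add ?_ ?_
      · exact D.ty1.mul u1 inv_fst' (fun x y z h h' => by rw [h]; exact h'.1)
      · exact D.ty2.mul u1 inv_snd' (fun x y z h h' => by rw [h]; exact h'.2)
    · have h4 : Ty ν φ (fun x f => x = f.1) (F1 * cf) :=
        D.ty1.mul u0 inv_fst' (fun x y z h h' => by rw [h, h'])
      refine h4.mono_at ?_
      intro x l h
      rw [h]; exact side_right hf.symm
    · refine te.mono_at ?_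
      intro x l h
      rw [h]; exact side_right hf.symm
  have p2 : Ty ν φ (fun x f => side T f.1 f.2 x) ((F1 + F2) * c2 + F2 * cf) := by
    refine Ty.add ?_ ?_
    · rw [Matrix.add_mul]
      refine Ty.add ?_ ?_
      · exact D.ty1.mul u2 inv_fst' (fun x y z h h' => by rw [h]; exact h'.1)
      · exact D.ty2.mul u2 inv_snd' (fun x y z h h' => by rw [h]; exact h'.2)
    · have h4 : Ty ν φ (fun x f => x = f.2) (F2 * cf) :=
        D.ty2.mul u0 inv_snd' (fun x y z h h' => by rw [h, h'])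
      refine h4.mono_at ?_
      intro x l h
      rw [h]; exact side_right hf
  obtain ⟨q1, q2⟩ := p1.parts p2 (fun x f h h' => side_disj h h') e1
  have r2 : c2 + F' * F2 * cf = 0 := by
    have := congrArg (F' * ·) q2
    simp only [Matrix.mul_add, Matrix.mul_zero] at this
    rw [← Matrix.mul_assoc, D.left, Matrix.one_mul, ← Matrix.mul_assoc] at this
    exact this
  have r3 : F' * F1 + F' * F2 = 1 := by rw [← Matrix.mul_add]; exact D.left
  -- `c2 + cf - α cf = 0`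
  have r5 : (cf - a0 * cf) + (c2 - A1 * cf - A2 * cf) = 0 := by
    have h6 : F' * F1 * cf + F' * F2 * cf = cf := by rw [← Matrix.add_mul, r3, Matrix.one_mul]
    have h7 : F' * F1 * cf = a0 * cf + A1 * cf + A2 * cf := by
      rw [h3]; simp only [Matrix.add_mul]
    have h8 : (cf - a0 * cf) + (c2 - A1 * cf - A2 * cf) = (c2 + F' * F2 * cf) + (cf
      - (F' * F2 * cf + (a0 * cf + A1 * cf + A2 * cf))) := by abel
    rw [h8, r2, ← h7, add_comm (F' * F2 * cf), h6, sub_self, add_zero]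
  have s1 : Ty ε φ Eq (cf - a0 * cf) :=
    u0.sub (t0.mul u0 GInv.eq (fun x y z h h' => h.trans h'))
  have s2 : Ty ε φ (fun x y => E1 T x y ∨ E2 T x y) (c2 - A1 * cf - A2 * cf) := by
    refine Ty.sub (Ty.sub ?_ ?_) ?_
    · exact u2.mono (fun x y h => Or.inr h)
    · exact t1.mul u0 (E1_inv D.tree D.act) (fun x y z h h' => by rw [← h']; exact Or.inl h)
    · exact t2.mul u0 (E2_inv D.tree D.act) (fun x y z h h' => by rw [← h']; exact Or.inr h)
  obtain ⟨w1, _⟩ := s1.parts s2 (by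
    rintro x y h (h' | h')
    · rw [h] at h'; exact side_left h'.2
    · rw [h] at h'; exact side_left h'.1) r5
  exact (sub_eq_zero.1 w1).symm

/-- `α₀ H₁ = H₁` -/
theorem Dat.al_h (D : Dat T ν ε F1 F2 F') : al0 ε F1 F' * Hfst ν ε F' = Hfst ν ε F' := by
  classical
  have t0 : Ty ε ε Eq (al0 ε F1 F') := Ty.res
  have tH : Ty ε ν (fun (f : V × V) (x : V) => f.1 = x) (Hfst ν ε F') := Ty.res
  have tD : Ty ε ν (fun (f : V × V) (x : V) => f.1 = x)
      (Hfst ν ε F' - al0 ε F1 F' * Hfst ν ε F') := by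
    refine tH.sub (t0.mul tH GInv.eq (fun x y z h h' => by rw [h]; exact h'))
  rw [eq_comm, ← sub_eq_zero]
  ext1 j i
  apply MonoidAlgebra.coeff_injective
  ext g
  by_contra hg
  have hfi : (g⁻¹ • ε j).1 = ν i := tD j i g hg
  set f := g⁻¹ • ε j with hf
  set φ : Unit → V × V := fun _ => f
  set c : Matrix J Unit (MonoidAlgebra k G) := Matrix.of fun j _ => F' j i with hc
  set cf := res ε φ Eq c with hcf
  have h1 := D.edge_al i f (D.adj' _ _) (fun g' j' h => by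
    apply D.noinv (g * g') j' j
    rw [mul_smul, h]
    have : (f.swap : V × V) = g⁻¹ • (ε j).swap := rfl
    rw [this, smul_inv_smul]) hfi c cf hc hcf
  set h : Matrix J Unit (MonoidAlgebra k G) := Matrix.of fun j _ => Hfst ν ε F' j i with hh
  -- the difference of `h` and `cf` lives away from `f`
  have t1 : Ty ε φ (fun f' f => f' ≠ f) (h - cf) := by
    intro j' l g' hg' hcon
    apply hg'
    rw [Matrix.sub_apply, MonoidAlgebra.coeff_sub, Finsupp.sub_apply, hcf, res_coeff, if_pos hcon,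
      hh, Matrix.of_apply, hc, Matrix.of_apply]
    unfold Hfst
    rw [res_coeff, if_pos, sub_self]
    rw [hcon]; exact hfi
  have t2 : Ty ε φ (fun f' f => f' ≠ f) ((h - cf) - al0 ε F1 F' * (h - cf)) := by
    refine t1.sub (t0.mul t1 GInv.eq (fun x y z h h' => by rw [h]; exact h'))
  have h2 : (h - cf) - al0 ε F1 F' * (h - cf) = h - al0 ε F1 F' * h := by
    rw [Matrix.mul_sub, h1]; abel
  rw [h2] at t2
  refine t2 j () g ?_ rfl
  intro h4
  apply hg
  have h5 : (h - al0 ε F1 F' * h) j () = (Hfst ν ε F' - al0 ε F1 F' * Hfst ν ε F') j i := rfl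
  rw [← h5, h4]
  simp

theorem al0_swap (D : Dat T ν ε F1 F2 F') :
    al0 (fun j => (ε j).swap) F2 F' = 1 - al0 ε F1 F' := by
  classical
  have r3 : F' * F1 + F' * F2 = 1 := by rw [← Matrix.mul_add]; exact D.left
  ext1 j l
  apply MonoidAlgebra.coeff_injective
  ext g
  unfold al0
  rw [Matrix.sub_apply, MonoidAlgebra.coeff_sub, Finsupp.sub_apply, res_coeff, res_coeff]
  have h0 : (g⁻¹ • (ε j).swap = (ε l).swap) ↔ (g⁻¹ • ε j = ε l) := by
    have : g⁻¹ • (ε j).swap = (g⁻¹ • ε j).swap := rfl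
    rw [this]
    exact Prod.swap_injective.eq_iff
  simp only [h0]
  by_cases h : g⁻¹ • ε j = ε l
  · rw [if_pos h, if_pos h, ← r3, Matrix.add_apply, MonoidAlgebra.coeff_add, Finsupp.add_apply]
    abel
  · rw [if_neg h, if_neg h, sub_zero]
    by_contra h1
    exact h ((Ty.one (k := k) (a := ε)) j l g (Ne.symm h1))

theorem Hfst_swap (ν : I → V) (ε : J → V × V) (F' : Matrix J I (MonoidAlgebra k G)) :
    Hfst ν (fun j => (ε j).swap) F' = Hsnd ν ε F' := rfl

theorem Hsnd_swap (ν : I → V) (ε : J → V × V) (F' : Matrix J I (MonoidAlgebra k G)) :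
    Hsnd ν (fun j => (ε j).swap) F' = Hfst ν ε F' := rfl

/-- The splitting of an invertible matrix along the edges. -/
theorem Dat.split (D : Dat T ν ε F1 F2 F') :
    ∃ (e : Matrix J J (MonoidAlgebra k G)) (H1 H2 : Matrix J I (MonoidAlgebra k G)),
      e * e = e ∧ Ty ε ε Eq e ∧
      Ty ε ν (fun (f : V × V) (x : V) => f.1 = x) H1 ∧
      Ty ε ν (fun (f : V × V) (x : V) => f.2 = x) H2 ∧
      e * H1 = H1 ∧ e * H2 = 0 ∧
      (F1 * e + F2 * (1 - e)) * (H1 + H2) = 1 ∧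
      (H1 + H2) * (F1 * e + F2 * (1 - e)) = 1 ∧
      F1 + F2 = (F1 * e + F2 * (1 - e)) * (1 + (H1 * F1 * (1 - e) + H2 * F1 * (1 - e)
        + (H1 * F2 * e + H2 * F2 * e))) ∧
      Ty ε ε (fun f' f => f'.1 = f.1 ∧ f'.2 ≠ f.2) (H1 * F1 * (1 - e)) ∧
      Ty ε ε (fun f' f => f'.2 = f.1 ∧ f'.1 ≠ f.2) (H2 * F1 * (1 - e)) ∧
      Ty ε ε (fun f' f => f'.1 = f.2 ∧ f'.2 ≠ f.1) (H1 * F2 * e) ∧
      Ty ε ε (fun f' f => f'.2 = f.2 ∧ f'.1 ≠ f.1) (H2 * F2 * e) := by
  set e := al0 ε F1 F' with he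
  set H1 := Hfst ν ε F' with hH1
  set H2 := Hsnd ν ε F' with hH2
  have a1 : (H1 + H2) * F1 * e = e := D.h_al
  have a2 : (H1 + H2) * F2 * (1 - e) = 1 - e := by
    have := D.swap.h_al
    rw [al0_swap D, Hfst_swap, Hsnd_swap] at this
    rw [add_comm H1 H2]; exact this
  have b1 : e * H1 = H1 := D.al_h
  have b2 : e * H2 = 0 := by
    have := D.swap.al_h
    rw [al0_swap D, Hfst_swap, Matrix.sub_mul, Matrix.one_mul] at this
    exact sub_eq_self.1 this
  have c1 : F1 * H1 + F2 * H2 = 1 := D.fh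
  have d1 : (F1 * e + F2 * (1 - e)) * (H1 + H2) = 1 := by
    have h1 : (1 - e) * H1 = 0 := by rw [Matrix.sub_mul, Matrix.one_mul, b1, sub_self]
    have h2 : (1 - e) * H2 = H2 := by rw [Matrix.sub_mul, Matrix.one_mul, b2, sub_zero]
    rw [Matrix.add_mul, Matrix.mul_add, Matrix.mul_add, Matrix.mul_assoc, Matrix.mul_assoc,
      Matrix.mul_assoc, Matrix.mul_assoc, b1, b2, h1, h2, Matrix.mul_zero, Matrix.mul_zero,
      add_zero, zero_add, c1]
  have d2 : (H1 + H2) * (F1 * e + F2 * (1 - e)) = 1 := by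
    rw [Matrix.mul_add, ← Matrix.mul_assoc, ← Matrix.mul_assoc, a1, a2]
    abel
  have hx : 1 + (H1 * F1 * (1 - e) + H2 * F1 * (1 - e) + (H1 * F2 * e + H2 * F2 * e))
      = (H1 + H2) * (F1 + F2) := by
    have h1 : H1 * F1 * (1 - e) + H2 * F1 * (1 - e) = (H1 + H2) * F1 * (1 - e) := by
      rw [Matrix.add_mul, Matrix.add_mul]
    have h2 : H1 * F2 * e + H2 * F2 * e = (H1 + H2) * F2 * e := by
      rw [Matrix.add_mul, Matrix.add_mul]
    have h3 : (H1 + H2) * F1 * (1 - e) = (H1 + H2) * F1 - e := by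
      rw [Matrix.mul_sub, Matrix.mul_one, a1]
    have h4 : (H1 + H2) * F2 * e = (H1 + H2) * F2 - (1 - e) := by
      rw [Matrix.mul_sub, Matrix.mul_one] at a2
      rw [← a2]; abel
    rw [h1, h2, h3, h4, Matrix.mul_add]
    abel
  refine ⟨e, H1, H2, D.facts.1, Ty.res, Ty.res, Ty.res, b1, b2, d1, d2, ?_, ?_, ?_, ?_, ?_⟩
  · rw [hx, ← Matrix.mul_assoc, d1, Matrix.one_mul]
  · refine D.steps.1.mono ?_
    rintro f' f ⟨h1, h2⟩
    refine ⟨h1, fun h3 => ?_⟩
    have := h2.2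
    rw [h3] at this
    exact side_left this
  · refine D.steps.2.mono ?_
    rintro f' f ⟨h1, h2⟩
    refine ⟨h1, fun h3 => ?_⟩
    have := h2.1
    rw [h3] at this
    exact side_left this
  · have := D.swap.steps.2
    rw [al0_swap D, Hsnd_swap, sub_sub_cancel] at this
    intro j l g hg
    obtain ⟨h1, h2⟩ := this j l g hg
    refine ⟨h1, fun h3 => ?_⟩
    have h4 := h2.1
    have h5 : (g⁻¹ • (ε j).swap).1 = (g⁻¹ • ε j).2 := rfl
    rw [h5, h3] at h4
    exact side_left h4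
  · have := D.swap.steps.1
    rw [al0_swap D, Hfst_swap, sub_sub_cancel] at this
    intro j l g hg
    obtain ⟨h1, h2⟩ := this j l g hg
    refine ⟨h1, fun h3 => ?_⟩
    have h4 := h2.2
    have h5 : (g⁻¹ • (ε j).swap).2 = (g⁻¹ • ε j).1 := rfl
    rw [h5, h3] at h4
    exact side_left h4

end split

end Pool.Agent.H1.MV
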