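import Pool.Agent.H1.MV.Ty

set_option autoImplicit false
set_option linter.unusedSectionVars false
set_option linter.unusedSimpArgs false

/-!
# Stably free modules and idempotent matrices
-/

namespace Pool.Agent.H1.MV

open Matrix

/-- `P` is stably free: the direct sum of `P` and a finitely generated free module is a finitely
generated free module. -/
def StablyFree (R : Type) [Ring R] (P : Type) [AddCommGroup P] [Module R P] : Prop :=
  ∃ s t : ℕ, Nonempty ((P × (Fin s → R)) ≃ₗ[R] (Fin t → R))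

/-- Every finitely generated projective module is stably free. -/
def AllStablyFree (R : Type) [Ring R] : Prop :=
  ∀ (P : Type) [AddCommGroup P] [Module R P] [Module.Finite R P] [Module.Projective R P],
    StablyFree R P

section single

variable {R : Type} [Ring R] {m : Type} [Fintype m] [DecidableEq m]

/-- the module of an idempotent matrix -/
def Mo (e : Matrix m m R) : Submodule R (m → R) := LinearMap.range e.vecMulLinear

/-- the projection -/
def pr (e : Matrix m m R) : (m → R) →ₗ[R] Mo e := e.vecMulLinear.rangeRestrict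

theorem pr_coe (e : Matrix m m R) (v : m → R) : ((pr e v : Mo e) : m → R) = v ᵥ* e := rfl

theorem mo_fix {e : Matrix m m R} (he : e * e = e) (p : Mo e) : (p : m → R) ᵥ* e = p := by
  obtain ⟨v, hv⟩ := p.2
  rw [← hv]
  change (v ᵥ* e) ᵥ* e = v ᵥ* e
  rw [Matrix.vecMul_vecMul, he]

theorem mo_kill {e : Matrix m m R} (he : e * e = e) (p : Mo (1 - e)) : (p : m → R) ᵥ* e = 0 := by
  obtain ⟨v, hv⟩ := p.2
  rw [← hv]
  change (v ᵥ* (1 - e)) ᵥ* e = 0
  rw [Matrix.vecMul_vecMul, Matrix.sub_mul, Matrix.one_mul, he, sub_self, Matrix.vecMul_zero]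

theorem one_sub_idem {e : Matrix m m R} (he : e * e = e) : (1 - e) * (1 - e) = 1 - e := by
  rw [Matrix.sub_mul, Matrix.one_mul, Matrix.mul_sub, Matrix.mul_one, he, sub_self, sub_zero]

/-- the decomposition of the free module -/
def dec (e : Matrix m m R) (he : e * e = e) : (m → R) ≃ₗ[R] (Mo e × Mo (1 - e)) where
  toFun v := (pr e v, pr (1 - e) v)
  map_add' v w := by
    rw [map_add, map_add]; rfl
  map_smul' a v := by
    rw [map_smul, map_smul]; rfl
  invFun p := (p.1 : m → R) + (p.2 : m → R)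
  left_inv v := by
    change v ᵥ* e + v ᵥ* (1 - e) = v
    rw [← Matrix.vecMul_add, add_sub_cancel, Matrix.vecMul_one]
  right_inv p := by
    apply Prod.ext
    · apply Subtype.ext
      change ((p.1 : m → R) + (p.2 : m → R)) ᵥ* e = _
      rw [Matrix.add_vecMul, mo_fix he, mo_kill he, add_zero]
    · apply Subtype.ext
      change ((p.1 : m → R) + (p.2 : m → R)) ᵥ* (1 - e) = _
      rw [Matrix.add_vecMul, mo_fix (one_sub_idem he)]
      have h1 : (p.1 : m → R) ᵥ* (1 - e) = 0 := by
        rw [Matrix.vecMul_sub, Matrix.vecMul_one, mo_fix he, sub_self]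
      rw [h1, zero_add]

theorem mo_finite (e : Matrix m m R) : Module.Finite R (Mo e) :=
  Module.Finite.range _

theorem mo_projective {e : Matrix m m R} (he : e * e = e) : Module.Projective R (Mo e) := by
  apply Module.Projective.of_split (Mo e).subtype (pr e)
  ext1 p
  apply Subtype.ext
  exact mo_fix he p

/-- The matrix form of stable freeness. -/
theorem idem_single (e : Matrix m m R) (he : e * e = e) (hP : StablyFree R (Mo e)) 
    (hQ : StablyFree R (Mo (1 - e))) :
    ∃ (s t s' t' : ℕ) (T : Matrix (m ⊕ (Fin s ⊕ Fin t)) (Fin s' ⊕ Fin t') R)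
      (T' : Matrix (Fin s' ⊕ Fin t') (m ⊕ (Fin s ⊕ Fin t)) R),
      T * T' = 1 ∧ T' * T = 1 ∧
      (fromBlocks e 0 0 (fromBlocks 1 0 0 0) :
        Matrix (m ⊕ (Fin s ⊕ Fin t)) (m ⊕ (Fin s ⊕ Fin t)) R) * T
        = T * (fromBlocks 1 0 0 0 : Matrix (Fin s' ⊕ Fin t') (Fin s' ⊕ Fin t') R) := by
  obtain ⟨s, s', ⟨f⟩⟩ := hP
  obtain ⟨t, t', ⟨g⟩⟩ := hQ
  let Ψ : ((m ⊕ (Fin s ⊕ Fin t)) → R) →ₗ[R] ((Fin s' ⊕ Fin t') → R) :=
    { toFun := fun v => Sum.elim (f (pr e (fun i => v (Sum.inl i)), fun i => v (Sum.inr (Sum.inl i))))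
        (g (pr (1 - e) (fun i => v (Sum.inl i)), fun i => v (Sum.inr (Sum.inr i))))
      map_add' := by
        intro v w
        have h1 : (fun i => (v + w) (Sum.inl i)) = (fun i => v (Sum.inl i)) + (fun i => w (Sum.inl i)) :=
          rfl
        have h2 : (fun i => (v + w) (Sum.inr (Sum.inl i)))
          = (fun i => v (Sum.inr (Sum.inl i))) + (fun i => w (Sum.inr (Sum.inl i))) := rfl
        have h3 : (fun i => (v + w) (Sum.inr (Sum.inr i)))
          = (fun i => v (Sum.inr (Sum.inr i))) + (fun i => w (Sum.inr (Sum.inr i))) := rfl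
        rw [h1, h2, h3, map_add, map_add]
        rw [← Prod.mk_add_mk, ← Prod.mk_add_mk, map_add, map_add]
        funext i
        rcases i with i | i <;> rfl
      map_smul' := by
        intro a v
        have h1 : (fun i => (a • v) (Sum.inl i)) = a • (fun i => v (Sum.inl i)) := rfl
        have h2 : (fun i => (a • v) (Sum.inr (Sum.inl i)))
          = a • (fun i => v (Sum.inr (Sum.inl i))) := rfl
        have h3 : (fun i => (a • v) (Sum.inr (Sum.inr i)))
          = a • (fun i => v (Sum.inr (Sum.inr i))) := rfl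
        rw [h1, h2, h3, map_smul, map_smul]
        rw [← Prod.smul_mk, ← Prod.smul_mk, map_smul, map_smul]
        funext i
        rcases i with i | i <;> rfl }
  let Φ : ((Fin s' ⊕ Fin t') → R) →ₗ[R] ((m ⊕ (Fin s ⊕ Fin t)) → R) :=
    { toFun := fun w => Sum.elim
        (((f.symm (fun i => w (Sum.inl i))).1 : m → R) + ((g.symm (fun i => w (Sum.inr i))).1 : m → R))
        (Sum.elim (f.symm (fun i => w (Sum.inl i))).2 (g.symm (fun i => w (Sum.inr i))).2)
      map_add' := by
        intro v w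
        have h1 : (fun i => (v + w) (Sum.inl i)) = (fun i => v (Sum.inl i)) + (fun i => w (Sum.inl i)) :=
          rfl
        have h2 : (fun i => (v + w) (Sum.inr i))
          = (fun i => v (Sum.inr i)) + (fun i => w (Sum.inr i)) := rfl
        rw [h1, h2, map_add, map_add]
        funext i
        rcases i with i | i | i
        · change ((_ : Mo e) : m → R) i + ((_ : Mo (1 - e)) : m → R) i = (_ + _) + (_ + _)
          rw [Prod.fst_add, Prod.fst_add, Submodule.coe_add, Submodule.coe_add, Pi.add_apply,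
            Pi.add_apply]
          exact add_add_add_comm _ _ _ _
        · rfl
        · rfl
      map_smul' := by
        intro a v
        have h1 : (fun i => (a • v) (Sum.inl i)) = a • (fun i => v (Sum.inl i)) := rfl
        have h2 : (fun i => (a • v) (Sum.inr i)) = a • (fun i => v (Sum.inr i)) := rfl
        rw [h1, h2, map_smul, map_smul]
        funext i
        rcases i with i | i | i
        · change ((_ : Mo e) : m → R) i + ((_ : Mo (1 - e)) : m → R) i = a * (_ + _)
          rw [mul_add]; rfl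
        · rfl
        · rfl }
  have h12 : Φ ∘ₗ Ψ = LinearMap.id := by
    apply LinearMap.ext
    intro v
    have e1 : f.symm (fun i => (Ψ v) (Sum.inl i)) = (pr e (fun i => v (Sum.inl i)),
        fun i => v (Sum.inr (Sum.inl i))) := by
      rw [LinearEquiv.symm_apply_eq]; rfl
    have e2 : g.symm (fun i => (Ψ v) (Sum.inr i)) = (pr (1 - e) (fun i => v (Sum.inl i)),
        fun i => v (Sum.inr (Sum.inr i))) := by
      rw [LinearEquiv.symm_apply_eq]; rfl
    funext i
    change (Φ (Ψ v)) i = v i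
    rcases i with i | i | i
    · change ((f.symm (fun i => (Ψ v) (Sum.inl i))).1 : m → R) i
        + ((g.symm (fun i => (Ψ v) (Sum.inr i))).1 : m → R) i = _
      rw [e1, e2]
      exact congrFun ((dec e he).left_inv (fun i => v (Sum.inl i))) i
    · change (f.symm (fun i => (Ψ v) (Sum.inl i))).2 i = _
      rw [e1]
    · change (g.symm (fun i => (Ψ v) (Sum.inr i))).2 i = _
      rw [e2]
  have h21 : Ψ ∘ₗ Φ = LinearMap.id := by
    apply LinearMap.ext
    intro w
    have e0 := (dec e he).right_inv ((f.symm (fun i => w (Sum.inl i))).1,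
      (g.symm (fun i => w (Sum.inr i))).1)
    have e1 : pr e (fun i => (Φ w) (Sum.inl i)) = (f.symm (fun i => w (Sum.inl i))).1 :=
      congrArg Prod.fst e0
    have e2 : pr (1 - e) (fun i => (Φ w) (Sum.inl i)) = (g.symm (fun i => w (Sum.inr i))).1 :=
      congrArg Prod.snd e0
    funext i
    change (Ψ (Φ w)) i = w i
    rcases i with i | i
    · change f (pr e (fun i => (Φ w) (Sum.inl i)), (f.symm (fun i => w (Sum.inl i))).2) i = _
      rw [e1]
      change f (f.symm (fun i => w (Sum.inl i))) i = _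
      rw [LinearEquiv.apply_symm_apply]
    · change g (pr (1 - e) (fun i => (Φ w) (Sum.inl i)), (g.symm (fun i => w (Sum.inr i))).2) i = _
      rw [e2]
      change g (g.symm (fun i => w (Sum.inr i))) i = _
      rw [LinearEquiv.apply_symm_apply]
  refine ⟨s, t, s', t', LinearMap.toMatrixRight' Ψ, LinearMap.toMatrixRight' Φ, ?_, ?_, ?_⟩
  · rw [← LinearMap.toMatrixRight'_comp, h12, LinearMap.toMatrixRight'_id]
  · rw [← LinearMap.toMatrixRight'_comp, h21, LinearMap.toMatrixRight'_id]
  · apply Matrix.toLinearMapRight'.injective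
    rw [Matrix.toLinearMapRight'_mul, Matrix.toLinearMapRight'_mul]
    have h1 : Matrix.toLinearMapRight' (LinearMap.toMatrixRight' Ψ) = Ψ :=
      LinearEquiv.symm_apply_apply _ _
    rw [h1]
    apply LinearMap.ext
    intro v
    rw [LinearMap.comp_apply, LinearMap.comp_apply, Matrix.toLinearMapRight'_apply,
      Matrix.toLinearMapRight'_apply]
    have a1 : (fun i => (v ᵥ* (fromBlocks e 0 0 (fromBlocks 1 0 0 0) :
        Matrix (m ⊕ (Fin s ⊕ Fin t)) (m ⊕ (Fin s ⊕ Fin t)) R)) (Sum.inl i))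
        = (fun i => v (Sum.inl i)) ᵥ* e := by
      funext i
      simp only [Matrix.vecMul, dotProduct, Fintype.sum_sum_type, fromBlocks_apply₁₁,
        fromBlocks_apply₂₁, fromBlocks_apply₁₂, fromBlocks_apply₂₂, Matrix.zero_apply, mul_zero,
        Finset.sum_const_zero, add_zero]
    have a2 : (fun i => (v ᵥ* (fromBlocks e 0 0 (fromBlocks 1 0 0 0) :
        Matrix (m ⊕ (Fin s ⊕ Fin t)) (m ⊕ (Fin s ⊕ Fin t)) R)) (Sum.inr (Sum.inl i)))
        = (fun i => v (Sum.inr (Sum.inl i))) := by
      funext i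
      simp [Matrix.vecMul, dotProduct, Fintype.sum_sum_type, fromBlocks_apply₁₁,
        fromBlocks_apply₂₁, fromBlocks_apply₁₂, fromBlocks_apply₂₂, Matrix.one_apply]
    have a3 : (fun i => (v ᵥ* (fromBlocks e 0 0 (fromBlocks 1 0 0 0) :
        Matrix (m ⊕ (Fin s ⊕ Fin t)) (m ⊕ (Fin s ⊕ Fin t)) R)) (Sum.inr (Sum.inr i)))
        = 0 := by
      funext i
      simp [Matrix.vecMul, dotProduct, Fintype.sum_sum_type, fromBlocks_apply₁₁,
        fromBlocks_apply₂₁, fromBlocks_apply₁₂, fromBlocks_apply₂₂, Matrix.one_apply]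
    have b1 : pr e ((fun i => v (Sum.inl i)) ᵥ* e) = pr e (fun i => v (Sum.inl i)) := by
      apply Subtype.ext
      rw [pr_coe, pr_coe, Matrix.vecMul_vecMul, he]
    have b2 : pr (1 - e) ((fun i => v (Sum.inl i)) ᵥ* e) = 0 := by
      apply Subtype.ext
      rw [pr_coe, Matrix.vecMul_vecMul, Matrix.mul_sub, Matrix.mul_one, he, sub_self,
        Matrix.vecMul_zero]
      rfl
    have c1 : Ψ (v ᵥ* (fromBlocks e 0 0 (fromBlocks 1 0 0 0))) =
        Sum.elim (f (pr e (fun i => v (Sum.inl i)), fun i => v (Sum.inr (Sum.inl i)))) 0 := by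
      change Sum.elim (f (pr e _, _)) (g (pr (1 - e) _, _)) = _
      rw [a1, a2, a3, b1, b2]
      congr 1
      exact map_zero g
    rw [c1]
    funext i
    change _ = (Sum.elim (f (pr e (fun i => v (Sum.inl i)), fun i => v (Sum.inr (Sum.inl i))))
        (g (pr (1 - e) (fun i => v (Sum.inl i)), fun i => v (Sum.inr (Sum.inr i)))) ᵥ*
          (fromBlocks 1 0 0 0)) i
    rcases i with i | i
    · simp [Matrix.vecMul, dotProduct, Fintype.sum_sum_type, fromBlocks_apply₁₁,
        fromBlocks_apply₂₁, fromBlocks_apply₁₂, fromBlocks_apply₂₂, Matrix.one_apply]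
    · simp [Matrix.vecMul, dotProduct, Fintype.sum_sum_type, fromBlocks_apply₁₁,
        fromBlocks_apply₂₁, fromBlocks_apply₁₂, fromBlocks_apply₂₂, Matrix.one_apply]

/-- the complement of a stably free module -/
theorem stablyFree_compl (e : Matrix m m R) (he : e * e = e) (hP : StablyFree R (Mo e)) :
    StablyFree R (Mo (1 - e)) := by
  obtain ⟨s, t, ⟨f⟩⟩ := hP
  -- `Q ⊕ R^t ≃ Q ⊕ P ⊕ R^s ≃ R^m ⊕ R^s`
  let e1 : (Mo (1 - e) × (Fin t → R)) ≃ₗ[R] (Mo (1 - e) × (Mo e × (Fin s → R))) :=
    LinearEquiv.prodCongr (LinearEquiv.refl R _) f.symm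
  let e2 : (Mo (1 - e) × (Mo e × (Fin s → R))) ≃ₗ[R] ((Mo (1 - e) × Mo e) × (Fin s → R)) :=
    (LinearEquiv.prodAssoc R _ _ _).symm
  let e3 : ((Mo (1 - e) × Mo e) × (Fin s → R)) ≃ₗ[R] ((m → R) × (Fin s → R)) :=
    LinearEquiv.prodCongr ((LinearEquiv.prodComm R _ _).trans (dec e he).symm)
      (LinearEquiv.refl R _)
  let e4 : ((m → R) × (Fin s → R)) ≃ₗ[R] ((m ⊕ Fin s) → R) :=
    (LinearEquiv.sumArrowLequivProdArrow m (Fin s) R R).symm
  let e5 : ((m ⊕ Fin s) → R) ≃ₗ[R] (Fin (Fintype.card (m ⊕ Fin s)) → R) :=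
    LinearEquiv.funCongrLeft R R (Fintype.equivFin (m ⊕ Fin s)).symm
  exact ⟨t, _, ⟨(((e1.trans e2).trans e3).trans e4).trans e5⟩⟩

end single

end Pool.Agent.H1.MV
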