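import Pool.Agent.H1.MV.Coh
import Pool.Agent.H1.MV.Bd2

set_option autoImplicit false
set_option linter.unusedSectionVars false
set_option linter.unusedSimpArgs false

/-!
# The syzygy theorem for Laurent polynomials
-/

namespace Pool.Agent.H1.MV

open Matrix

section const

variable {S : Type} [Ring S] {C D : Type} [Fintype C]

/-- the constants -/
noncomputable def Cc (S : Type) [Ring S] : S →+* Lau S := MonoidAlgebra.singleOneRingHom

theorem Cc_apply (s : S) : Cc S s = MonoidAlgebra.single (Multiplicative.ofAdd 0) s := rfl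

theorem cf_mul_C (x : Lau S) (s : S) (n : ℤ) : cf (x * Cc S s) n = cf x n * s := by
  rw [Cc_apply, cf_mul_single, sub_zero]

theorem cv_mul_C (v : C → Lau S) (M : Matrix C D S) (n : ℤ) :
    cv (v ᵥ* M.map (Cc S)) n = (cv v n) ᵥ* M := by
  funext j
  change cf (∑ i, v i * Cc S (M i j)) n = ∑ i, cf (v i) n * M i j
  rw [cf_sum]
  apply Finset.sum_congr rfl
  intro i _
  rw [cf_mul_C]

theorem exists_fin_supp (v : C → Lau S) : ∃ T : Finset ℤ, ∀ n, n ∉ T → cv v n = 0 := by
  classical
  refine ⟨Finset.univ.biUnion fun c => (v c).coeff.support.image fun g => Multiplicative.toAdd g, ?_⟩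
  intro n hn
  funext c
  by_contra h
  apply hn
  refine Finset.mem_biUnion.2 ⟨c, Finset.mem_univ _, Finset.mem_image.2 ⟨Multiplicative.ofAdd n, ?_, rfl⟩⟩
  exact Finsupp.mem_support_iff.2 h

/-- a row with given coefficients -/
noncomputable def asm (T : Finset ℤ) (u : ℤ → C → S) : C → Lau S :=
  fun c => ∑ n ∈ T, MonoidAlgebra.single (Multiplicative.ofAdd n) (u n c)

theorem cv_asm (T : Finset ℤ) (u : ℤ → C → S) (n : ℤ) (h : n ∉ T → u n = 0) :
    cv (asm T u) n = u n := by
  classical
  funext c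
  change cf (∑ m ∈ T, MonoidAlgebra.single (Multiplicative.ofAdd m) (u m c)) n = _
  rw [cf_sum]
  by_cases hn : n ∈ T
  · rw [Finset.sum_eq_single_of_mem n hn]
    · rw [cf_single, if_pos rfl]
    · intro m _ hm
      rw [cf_single, if_neg hm]
  · rw [h hn]
    apply Finset.sum_eq_zero
    intro m hm
    rw [cf_single, if_neg]
    intro h2
    rw [h2] at hm
    exact hn hm

theorem row_C_zero_iff (v : C → Lau S) (M : Matrix C D S) :
    v ᵥ* M.map (Cc S) = 0 ↔ ∀ n, (cv v n) ᵥ* M = 0 := by
  constructor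
  · intro h n
    rw [← cv_mul_C, h]
    funext j
    exact cf_zero n
  · intro h
    funext j
    apply cf_ext
    intro n
    have := congrFun ((cv_mul_C v M n).trans (h n)) j
    rw [Pi.zero_apply, cf_zero]
    exact this

theorem row_C_range {B : Type} [Fintype B] (v : C → Lau S) (N : Matrix B C S) :
    (∃ u, v = u ᵥ* N.map (Cc S)) ↔ ∀ n, ∃ u, cv v n = u ᵥ* N := by
  classical
  constructor
  · rintro ⟨u, rfl⟩ n
    exact ⟨cv u n, cv_mul_C _ _ _⟩
  · intro h
    obtain ⟨T, hT⟩ := exists_fin_supp v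
    choose u hu using h
    refine ⟨asm T fun n => if n ∈ T then u n else 0, ?_⟩
    funext j
    apply cf_ext
    intro n
    have h1 := cv_mul_C (asm T fun n => if n ∈ T then u n else 0) N n
    rw [cv_asm T _ n (fun h => if_neg h)] at h1
    have h2 := congrFun h1 j
    change cf (v j) n = cf (((asm T fun n => if n ∈ T then u n else 0) ᵥ* N.map (Cc S)) j) n
    refine Eq.trans ?_ h2.symm
    by_cases hn : n ∈ T
    · rw [if_pos hn]
      exact congrFun (hu n) j
    · rw [if_neg hn, Matrix.zero_vecMul]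
      exact congrFun (hT n hn) j

theorem cv_ext' {v w : C → Lau S} (h : ∀ n, cv v n = cv w n) : v = w := by
  funext i
  apply cf_ext
  intro n
  exact congrFun (h n) i

theorem HR.const {d : ℕ} : ∀ {C D : Type} [Fintype C] {M : Matrix C D S} (_ : HR S d C D M),
    HR (Lau S) d C D (M.map (Cc S)) := by
  induction d with
  | zero =>
    intro C D _ M h
    obtain ⟨E, hE, h⟩ := h
    refine ⟨E.map (Cc S), ?_, ?_⟩
    · rw [← Matrix.map_mul, hE]
    · intro v
      rw [row_C_zero_iff]
      constructor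
      · intro h1
        apply cv_ext'
        intro n
        rw [cv_mul_C, (h _).1 (h1 n)]
      · intro h1 n
        rw [h, ← cv_mul_C, h1]
  | succ d ih =>
    intro C D _ M h
    obtain ⟨B, _, N, hN, hN'⟩ := h
    refine ⟨B, inferInstance, N.map (Cc S), ?_, ih hN'⟩
    intro v
    rw [row_C_zero_iff, row_C_range]
    exact forall_congr' fun n => hN _

end const

section fpd

variable {R : Type} [Ring R] {U : Subgroup Rˣ}

theorem TR.fpd {n : ℕ} : ∀ {W : Type} [AddCommGroup W] [Module R W] {h : W →ₗ[R] W}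
    (_ : TR U n W h), FPD R n W := by
  induction n with
  | zero =>
    intro W _ _ h H
    obtain ⟨C, Q, _, _, _, _, e, a, ha, he⟩ := H
    exact FPD.of_summand e
  | succ n ih =>
    intro W _ _ h H
    obtain ⟨C, K, _, _, _, _, ι, π, a, k, hs, ha, hK⟩ := H
    refine ⟨C, inferInstance, π, hs.surj, ?_⟩
    refine FPD.iso (LinearEquiv.ofBijective (LinearMap.codRestrict (LinearMap.ker π) ι (fun z => ?_))
      ⟨?_, ?_⟩) (ih hK)
    · rw [LinearMap.mem_ker]
      exact (hs.ex _).2 ⟨z, rfl⟩
    · intro x y hxy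
      exact hs.inj (congrArg Subtype.val hxy)
    · rintro ⟨v, hv⟩
      obtain ⟨z, hz⟩ := (hs.ex v).1 (LinearMap.mem_ker.1 hv)
      exact ⟨z, Subtype.ext hz⟩

/-- quotients of modules with resolutions -/
theorem FPD.quot_range {C D C' D' : Type} [Fintype C] [Fintype D] [Fintype C'] [Fintype D']
    {M : Matrix C D R} {M' : Matrix C' D' R} {d d' : ℕ} (hM : HR R d C D M)
    (hM' : HR R d' C' D' M') {N : Type} [AddCommGroup N] [Module R N]
    (f : LinearMap.range M.vecMulLinear →ₗ[R] LinearMap.range M'.vecMulLinear)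
    (g : LinearMap.range M'.vecMulLinear →ₗ[R] N) (hf : Function.Injective f)
    (hg : Function.Surjective g) (hex : ∀ w, g w = 0 ↔ ∃ w', f w' = w) : ∃ n, FPD R n N := by
  obtain ⟨n₁, h₁⟩ := hM.tr (⊥ : Subgroup Rˣ)
  obtain ⟨n₂, h₂⟩ := hM'.tr (⊥ : Subgroup Rˣ)
  obtain ⟨n, h⟩ := TR.quot (h'' := LinearMap.id) f g hf hg hex (fun _ => rfl) (fun _ => rfl) h₁ h₂
  exact ⟨n, h.fpd⟩

end fpd

end Pool.Agent.H1.MV
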