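import Pool.Agent.H1.MV.Syz

set_option autoImplicit false
set_option linter.unusedSectionVars false
set_option linter.unusedSimpArgs false

/-!
# The syzygy theorem for Laurent polynomials, second part
-/

namespace Pool.Agent.H1.MV

open Matrix

section tn

variable {S : Type} [Ring S]

/-- the power `t ^ n` -/
noncomputable def tn (S : Type) [Ring S] (n : ℤ) : Lau S :=
  MonoidAlgebra.single (Multiplicative.ofAdd n) 1

theorem tn_mul (x : Lau S) (a b : ℤ) : x * tn S a * tn S b = x * tn S (a + b) := by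
  unfold tn
  rw [mul_assoc, MonoidAlgebra.single_mul_single, ← ofAdd_add, one_mul]

theorem tn_zero (x : Lau S) : x * tn S 0 = x := mul_one x

theorem cf_tn (x : Lau S) (m n : ℤ) : cf (x * tn S m) n = cf x (n - m) := by
  unfold tn
  rw [cf_mul_single, mul_one]

theorem cf_C (s : S) (n : ℤ) : cf (Cc S s) n = if n = 0 then s else 0 := by
  rw [Cc_apply, cf_single]
  by_cases h : n = 0
  · rw [if_pos h.symm, if_pos h]
  · rw [if_neg (Ne.symm h), if_neg h]

variable {K : ℕ}

/-- the differential in one row -/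
noncomputable def dm (u : Fin K → Lau S) (i : Fin (K + 1)) : Lau S :=
  (Fin.snoc u 0 : Fin (K + 1) → Lau S) i * tn S 1 - (Fin.cons 0 u : Fin (K + 1) → Lau S) i

/-- the evaluation in one row -/
noncomputable def evr (v : Fin K → Lau S) : Lau S := ∑ i, v i * tn S ((i : ℕ) : ℤ)

theorem evr_dm (u : Fin K → Lau S) : evr (dm u) = 0 := by
  unfold evr dm
  simp only [sub_mul, Finset.sum_sub_distrib]
  rw [Fin.sum_univ_castSucc, Fin.sum_univ_succ (fun i => (Fin.cons 0 u : Fin (K + 1) → Lau S) i *
    tn S ((i : ℕ) : ℤ))]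
  simp only [Fin.snoc_castSucc, Fin.snoc_last, Fin.cons_zero, Fin.cons_succ, zero_mul, zero_add,
    add_zero, tn_mul]
  rw [sub_eq_zero]
  apply Finset.sum_congr rfl
  intro i _
  congr 2
  simp only [Fin.val_castSucc, Fin.val_succ]
  push_cast
  ring

theorem dm_inj (u : Fin K → Lau S) (h : dm u = 0) : u = 0 := by
  have key : ∀ (j : ℕ) (hj : j < K), u ⟨j, hj⟩ = 0 := by
    intro j
    induction j with
    | zero =>
      intro hj
      have h1 := congrFun h (Fin.castSucc ⟨0, hj⟩)
      unfold dm at h1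
      rw [Fin.snoc_castSucc] at h1
      have h2 : (Fin.castSucc ⟨0, hj⟩ : Fin (K + 1)) = 0 := rfl
      rw [h2, Fin.cons_zero, sub_zero, Pi.zero_apply] at h1
      have h3 := congrArg (fun x => x * tn S (-1)) h1
      beta_reduce at h3
      rw [tn_mul, zero_mul] at h3
      simpa [tn_zero] using h3
    | succ j ih =>
      intro hj
      have h1 := congrFun h (Fin.castSucc ⟨j + 1, hj⟩)
      unfold dm at h1
      rw [Fin.snoc_castSucc] at h1
      have h2 : (Fin.castSucc ⟨j + 1, hj⟩ : Fin (K + 1)) = Fin.succ ⟨j, by omega⟩ := rfl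
      rw [h2, Fin.cons_succ, ih (by omega), sub_zero, Pi.zero_apply] at h1
      have h3 := congrArg (fun x => x * tn S (-1)) h1
      beta_reduce at h3
      rw [tn_mul, zero_mul] at h3
      simpa [tn_zero] using h3
  funext j
  exact key j.1 j.2

theorem dm_surj (v : Fin (K + 1) → Lau S) (h : evr v = 0) : ∃ u : Fin K → Lau S, dm u = v := by
  classical
  let w : ℕ → Lau S := fun n => if h : n < K + 1 then v ⟨n, h⟩ else 0
  let s : ℕ → Lau S := fun m => ∑ j ∈ Finset.range m, w j * tn S (j : ℤ)
  have hs0 : s 0 = 0 := Finset.sum_range_zero _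
  have hsK : s (K + 1) = 0 := by
    rw [← h]
    unfold evr
    change ∑ j ∈ Finset.range (K + 1), w j * tn S (j : ℤ) = _
    rw [Finset.sum_range]
    apply Finset.sum_congr rfl
    intro i _
    change (if h : (i : ℕ) < K + 1 then v ⟨i, h⟩ else 0) * _ = _
    rw [dif_pos i.2]
  have hss : ∀ i : Fin (K + 1), s ((i : ℕ) + 1) = s i + v i * tn S ((i : ℕ) : ℤ) := by
    intro i
    change ∑ j ∈ Finset.range ((i : ℕ) + 1), w j * tn S (j : ℤ) = _
    rw [Finset.sum_range_succ]
    congr 1
    change (if h : (i : ℕ) < K + 1 then v ⟨i, h⟩ else 0) * _ = _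
    rw [dif_pos i.2]
  let u : Fin K → Lau S := fun j => s ((j : ℕ) + 1) * tn S (-(((j : ℕ) : ℤ) + 1))
  refine ⟨u, ?_⟩
  have h1 : ∀ i : Fin (K + 1), (Fin.snoc u 0 : Fin (K + 1) → Lau S) i * tn S 1 =
      s ((i : ℕ) + 1) * tn S (-((i : ℕ) : ℤ)) := by
    intro i
    refine Fin.lastCases ?_ (fun j => ?_) i
    · rw [Fin.snoc_last, Fin.val_last, hsK, zero_mul, zero_mul]
    · rw [Fin.snoc_castSucc, Fin.val_castSucc]
      change s ((j : ℕ) + 1) * tn S (-(((j : ℕ) : ℤ) + 1)) * tn S 1 = _
      rw [tn_mul]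
      congr 2
      ring
  have h2 : ∀ i : Fin (K + 1), (Fin.cons 0 u : Fin (K + 1) → Lau S) i =
      s (i : ℕ) * tn S (-((i : ℕ) : ℤ)) := by
    intro i
    refine Fin.cases ?_ (fun j => ?_) i
    · rw [Fin.cons_zero, Fin.val_zero, hs0, zero_mul]
    · rw [Fin.cons_succ, Fin.val_succ]
      change s ((j : ℕ) + 1) * tn S (-(((j : ℕ) : ℤ) + 1)) = _
      congr 2
  funext i
  unfold dm
  rw [h1, h2, hss, ← sub_mul, add_sub_cancel_left, tn_mul, add_neg_cancel, tn_zero]

end tn

section syz

variable {S : Type} [Ring S] {D : Type} [Fintype D] {K : ℕ}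

/-- the evaluation -/
noncomputable def evB (S : Type) [Ring S] (D : Type) (K : ℕ) :
    (D × Fin K → Lau S) →ₗ[Lau S] (D → Lau S) where
  toFun v d := evr fun i => v (d, i)
  map_add' v w := by
    funext d
    change evr (fun i => v (d, i) + w (d, i)) = evr _ + evr _
    unfold evr
    simp only [add_mul, Finset.sum_add_distrib]
  map_smul' b v := by
    funext d
    change evr (fun i => b * v (d, i)) = b * evr _
    unfold evr
    rw [Finset.mul_sum]
    apply Finset.sum_congr rfl
    intro i _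
    rw [mul_assoc]

theorem evB_apply (v : D × Fin K → Lau S) (d : D) : evB S D K v d = evr fun i => v (d, i) := rfl

/-- the differential -/
noncomputable def Dm (S : Type) [Ring S] (D : Type) (K : ℕ) :
    (D × Fin K → Lau S) →ₗ[Lau S] (D × Fin (K + 1) → Lau S) where
  toFun v p := dm (fun i => v (p.1, i)) p.2
  map_add' v w := by
    funext ⟨d, i⟩
    change dm (fun i => v (d, i) + w (d, i)) i = dm _ i + dm _ i
    unfold dm
    refine Fin.lastCases ?_ (fun j => ?_) i
    · rw [Fin.snoc_last, Fin.snoc_last, Fin.snoc_last]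
      refine Fin.cases ?_ (fun l => ?_) (Fin.last K)
      · simp
      · simp only [Fin.cons_succ, zero_mul]; abel
    · rw [Fin.snoc_castSucc, Fin.snoc_castSucc, Fin.snoc_castSucc, add_mul]
      refine Fin.cases ?_ (fun l => ?_) j.castSucc
      · simp
      · simp only [Fin.cons_succ]; abel
  map_smul' b v := by
    funext ⟨d, i⟩
    change dm (fun i => b * v (d, i)) i = b * dm _ i
    unfold dm
    refine Fin.lastCases ?_ (fun j => ?_) i
    · rw [Fin.snoc_last, Fin.snoc_last]
      refine Fin.cases ?_ (fun l => ?_) (Fin.last K)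
      · simp
      · simp only [Fin.cons_succ]; simp
    · rw [Fin.snoc_castSucc, Fin.snoc_castSucc, mul_sub]
      refine Fin.cases ?_ (fun l => ?_) j.castSucc
      · simp [mul_assoc]
      · simp only [Fin.cons_succ]; simp [mul_assoc]

theorem Dm_apply (v : D × Fin K → Lau S) (d : D) (i : Fin (K + 1)) :
    Dm S D K v (d, i) = dm (fun i => v (d, i)) i := rfl

theorem evB_Dm (v : D × Fin K → Lau S) : evB S D (K + 1) (Dm S D K v) = 0 := by
  funext d
  rw [evB_apply]
  exact evr_dm fun i => v (d, i)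

/-- the value of the row of coefficients of degree `n` -/
noncomputable def yv (v : D × Fin K → Lau S) (n : ℤ) : D → Lau S :=
  evB S D K fun p => Cc S (cv v n p)

/-- the central element `t` -/
noncomputable def tB (S : Type) [Ring S] : Lau S := tn S 1

theorem tB_comm (x : Lau S) : tB S * x = x * tn S 1 := tp_comm 1 x

theorem yv_Dm (v : D × Fin K → Lau S) (n : ℤ) :
    yv (Dm S D K v) n = yv v (n - 1) - tB S • yv v n := by
  funext d
  change evr (fun i => Cc S (cf (dm (fun i => v (d, i)) i) n)) =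
    evr (fun i => Cc S (cf (v (d, i)) (n - 1))) - tB S * evr (fun i => Cc S (cf (v (d, i)) n))
  have h1 : ∀ i : Fin (K + 1), Cc S (cf (dm (fun i => v (d, i)) i) n) =
      (Fin.snoc (fun i => Cc S (cf (v (d, i)) (n - 1))) 0 : Fin (K + 1) → Lau S) i -
      (Fin.cons 0 (fun i => Cc S (cf (v (d, i)) n)) : Fin (K + 1) → Lau S) i := by
    intro i
    unfold dm
    rw [cf_sub, cf_tn, map_sub]
    congr 1
    · refine Fin.lastCases ?_ (fun j => ?_) i
      · rw [Fin.snoc_last, Fin.snoc_last, cf_zero, map_zero]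
      · rw [Fin.snoc_castSucc, Fin.snoc_castSucc]
    · refine Fin.cases ?_ (fun j => ?_) i
      · rw [Fin.cons_zero, Fin.cons_zero, cf_zero, map_zero]
      · rw [Fin.cons_succ, Fin.cons_succ]
  unfold evr
  simp only [h1, sub_mul, Finset.sum_sub_distrib]
  rw [Fin.sum_univ_castSucc, Fin.sum_univ_succ (fun i => (Fin.cons 0
    (fun i => Cc S (cf (v (d, i)) n)) : Fin (K + 1) → Lau S) i * tn S ((i : ℕ) : ℤ))]
  simp only [Fin.snoc_castSucc, Fin.snoc_last, Fin.cons_zero, Fin.cons_succ, zero_mul, zero_add,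
    add_zero]
  congr 1
  rw [tB_comm, Finset.sum_mul]
  apply Finset.sum_congr rfl
  intro i _
  rw [tn_mul, Fin.val_succ]
  congr 2

variable (N : Submodule (Lau S) (D → Lau S))

/-- the rows of polynomials of bounded degree in a submodule -/
noncomputable def Ns (K : ℕ) : Submodule S (D × Fin K → S) where
  carrier := {w | evB S D K (fun p => Cc S (w p)) ∈ N}
  add_mem' := by
    intro v w hv hw
    have h1 : (fun p => Cc S ((v + w) p)) = (fun p => Cc S (v p)) + fun p => Cc S (w p) := by
      funext p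
      exact map_add _ _ _
    change evB S D K (fun p => Cc S ((v + w) p)) ∈ N
    rw [h1, map_add]
    exact N.add_mem hv hw
  zero_mem' := by
    have h1 : (fun p => Cc S ((0 : D × Fin K → S) p)) = 0 := by
      funext p
      exact map_zero _
    change evB S D K (fun p => Cc S ((0 : D × Fin K → S) p)) ∈ N
    rw [h1, map_zero]
    exact N.zero_mem
  smul_mem' := by
    intro s v hv
    have h1 : (fun p => Cc S ((s • v) p)) = Cc S s • fun p => Cc S (v p) := by
      funext p
      exact map_mul _ _ _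
    change evB S D K (fun p => Cc S ((s • v) p)) ∈ N
    rw [h1, map_smul]
    exact N.smul_mem _ hv

theorem mem_Ns {w : D × Fin K → S} : w ∈ Ns N K ↔ evB S D K (fun p => Cc S (w p)) ∈ N := Iff.rfl

theorem exists_rows [IsNoetherianRing S] (K : ℕ) : ∃ (m : ℕ) (P : Matrix (Fin m) (D × Fin K) S),
    ∀ w, w ∈ Ns N K ↔ ∃ u, w = u ᵥ* P := by
  classical
  have hfg : (Ns N K).FG := IsNoetherian.noetherian _
  obtain ⟨m, f, hf⟩ := (Ns N K).fg_iff_exists_fin_linearMap.mp hfg
  refine ⟨m, mat f, fun w => ?_⟩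
  rw [← hf, LinearMap.mem_range]
  constructor
  · rintro ⟨u, hu⟩
    exact ⟨u, by rw [mat_apply, hu]⟩
  · rintro ⟨u, hu⟩
    exact ⟨u, by rw [hu, mat_apply]⟩

/-- the characteristic sequence -/
theorem syz_seq [IsNoetherianRing S] (C D : Type) [Fintype C] [Fintype D] (M : Matrix C D (Lau S)) :
    ∃ (a a' K : ℕ) (P : Matrix (Fin a) (D × Fin K) S) (P' : Matrix (Fin a') (D × Fin (K + 1)) S)
      (f : LinearMap.range (P.map (Cc S)).vecMulLinear →ₗ[Lau S]
        LinearMap.range (P'.map (Cc S)).vecMulLinear)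
      (g : LinearMap.range (P'.map (Cc S)).vecMulLinear →ₗ[Lau S] LinearMap.range M.vecMulLinear),
      Function.Injective f ∧ Function.Surjective g ∧ ∀ w, g w = 0 ↔ ∃ w', f w' = w := by
  classical
  let N := LinearMap.range M.vecMulLinear
  -- bounds for the degrees
  obtain ⟨m, hm⟩ : ∃ m : ℕ, ∀ c d (n : ℤ), cf (M c d) n ≠ 0 → -(m : ℤ) ≤ n ∧ n ≤ m := by
    choose T hT using fun p : C × D => exists_fin_supp (fun _ : Unit => M p.1 p.2)
    let b : ℕ := (Finset.univ : Finset (C × D)).sup fun p => (T p).sup Int.natAbs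
    refine ⟨b, fun c d n hn => ?_⟩
    have h1 : n ∈ T (c, d) := by
      by_contra h
      exact hn (congrFun (hT (c, d) n h) ())
    have h2 : n.natAbs ≤ (T (c, d)).sup Int.natAbs := Finset.le_sup (f := Int.natAbs) h1
    have h3 : (T (c, d)).sup Int.natAbs ≤ b :=
      Finset.le_sup (f := fun p => (T p).sup Int.natAbs) (Finset.mem_univ (c, d))
    omega
  obtain ⟨K, hK⟩ : ∃ K, K = 2 * m := ⟨_, rfl⟩
  obtain ⟨a, P, hP⟩ := exists_rows N K
  obtain ⟨a', P', hP'⟩ := exists_rows N (K + 1)
  have hW : ∀ v, v ∈ LinearMap.range (P.map (Cc S)).vecMulLinear ↔ ∀ n, cv v n ∈ Ns N K := by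
    intro v
    have h1 : v ∈ LinearMap.range (P.map (Cc S)).vecMulLinear ↔ ∃ u, v = u ᵥ* P.map (Cc S) :=
      ⟨fun ⟨u, hu⟩ => ⟨u, hu.symm⟩, fun ⟨u, hu⟩ => ⟨u, hu.symm⟩⟩
    rw [h1, row_C_range]
    exact forall_congr' fun n => (hP _).symm
  have hW' : ∀ v, v ∈ LinearMap.range (P'.map (Cc S)).vecMulLinear ↔
      ∀ n, cv v n ∈ Ns N (K + 1) := by
    intro v
    have h1 : v ∈ LinearMap.range (P'.map (Cc S)).vecMulLinear ↔ ∃ u, v = u ᵥ* P'.map (Cc S) :=
      ⟨fun ⟨u, hu⟩ => ⟨u, hu.symm⟩, fun ⟨u, hu⟩ => ⟨u, hu.symm⟩⟩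
    rw [h1, row_C_range]
    exact forall_congr' fun n => (hP' _).symm
  -- the evaluation has values in `N`
  have hev : ∀ v ∈ LinearMap.range (P'.map (Cc S)).vecMulLinear, evB S D (K + 1) v ∈ N := by
    rintro _ ⟨u, rfl⟩
    have h1 : (P'.map (Cc S)).vecMulLinear u = ∑ b, u b • fun p => Cc S (P' b p) := by
      funext p
      rw [Finset.sum_apply]
      rfl
    rw [h1, map_sum]
    apply Submodule.sum_mem
    intro b _
    rw [map_smul]
    apply Submodule.smul_mem
    have h2 : P' b ∈ Ns N (K + 1) := (hP' _).2 ⟨Pi.single b 1, by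
      rw [Matrix.single_one_vecMul]; rfl⟩
    exact h2
  -- the differential
  have hd1 : ∀ v, v ∈ LinearMap.range (P.map (Cc S)).vecMulLinear →
      Dm S D K v ∈ LinearMap.range (P'.map (Cc S)).vecMulLinear := by
    intro v hv
    rw [hW] at hv
    rw [hW']
    intro n
    rw [mem_Ns]
    have h1 := yv_Dm v n
    unfold yv at h1
    rw [h1]
    exact N.sub_mem (hv (n - 1)) (N.smul_mem _ (hv n))
  have hd2 : ∀ v, Dm S D K v ∈ LinearMap.range (P'.map (Cc S)).vecMulLinear →
      v ∈ LinearMap.range (P.map (Cc S)).vecMulLinear := by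
    intro v hv
    rw [hW'] at hv
    rw [hW]
    obtain ⟨T, hT⟩ := exists_fin_supp v
    let b : ℕ := T.sup Int.natAbs
    have hb : ∀ n : ℤ, (b : ℤ) < n → cv v n = 0 := by
      intro n hn
      apply hT
      intro h
      have h2 : n.natAbs ≤ T.sup Int.natAbs := Finset.le_sup (f := Int.natAbs) h
      omega
    have key : ∀ j : ℕ, yv v ((b : ℤ) + 1 - j) ∈ N := by
      intro j
      induction j with
      | zero =>
        have h1 : yv v ((b : ℤ) + 1 - ((0 : ℕ) : ℤ)) = 0 := by
          unfold yv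
          rw [hb _ (by push_cast; omega)]
          have h2 : (fun p : D × Fin K => Cc S ((0 : D × Fin K → S) p)) = 0 := by
            funext p
            exact map_zero _
          rw [h2, map_zero]
        rw [h1]
        exact N.zero_mem
      | succ j ih =>
        have h1 := yv_Dm v ((b : ℤ) + 1 - j)
        have h2 : yv v ((b : ℤ) + 1 - j - 1) = yv (Dm S D K v) ((b : ℤ) + 1 - j) +
            tB S • yv v ((b : ℤ) + 1 - j) := by
          rw [h1, sub_add_cancel]
        have h3 : (b : ℤ) + 1 - ((j + 1 : ℕ) : ℤ) = (b : ℤ) + 1 - j - 1 := by push_cast; ring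
        rw [h3, h2]
        exact N.add_mem (hv _) (N.smul_mem _ ih)
    intro n
    rw [mem_Ns]
    rcases lt_or_ge (b : ℤ) n with h | h
    · have h1 := key 0
      rw [hb n h]
      have h2 : (fun p : D × Fin K => Cc S ((0 : D × Fin K → S) p)) = 0 := by
        funext p
        exact map_zero _
      rw [h2, map_zero]
      exact N.zero_mem
    · have h1 := key ((b : ℤ) + 1 - n).toNat
      have h2 : (b : ℤ) + 1 - ((((b : ℤ) + 1 - n).toNat : ℕ) : ℤ) = n := by omega
      rw [h2] at h1
      exact h1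
  -- the linear maps
  let f : LinearMap.range (P.map (Cc S)).vecMulLinear →ₗ[Lau S]
      LinearMap.range (P'.map (Cc S)).vecMulLinear :=
    LinearMap.codRestrict _ (Dm S D K ∘ₗ (LinearMap.range (P.map (Cc S)).vecMulLinear).subtype)
      (fun v => hd1 v v.2)
  let g : LinearMap.range (P'.map (Cc S)).vecMulLinear →ₗ[Lau S] N :=
    LinearMap.codRestrict _ (evB S D (K + 1) ∘ₗ
      (LinearMap.range (P'.map (Cc S)).vecMulLinear).subtype) (fun v => hev v v.2)
  have hf : ∀ v, ((f v : LinearMap.range (P'.map (Cc S)).vecMulLinear) :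
      D × Fin (K + 1) → Lau S) = Dm S D K v := fun _ => rfl
  have hg : ∀ v, ((g v : N) : D → Lau S) = evB S D (K + 1) v := fun _ => rfl
  have c1 : Function.Injective f := by
    rw [← LinearMap.ker_eq_bot, LinearMap.ker_eq_bot']
    intro v hv
    apply Subtype.ext
    have h1 : Dm S D K v = 0 := by rw [← hf, hv]; rfl
    funext ⟨d, i⟩
    have h2 := dm_inj (fun i => (v : D × Fin K → Lau S) (d, i)) (by
      funext j
      exact congrFun h1 (d, j))
    exact congrFun h2 i
  have c2 : Function.Surjective g := by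
    rintro ⟨_, ⟨u, rfl⟩⟩
    let w : C → D × Fin (K + 1) → S := fun c p => cf (M c p.1) (((p.2 : ℕ) : ℤ) - m)
    have hw : ∀ c, evB S D (K + 1) (fun p => Cc S (w c p)) = tn S m • M c := by
      intro c
      funext d
      rw [evB_apply]
      change evr (fun i => Cc S (cf (M c d) (((i : ℕ) : ℤ) - m))) = tn S m * M c d
      have hcomm : tn S m * M c d = M c d * tn S m := tp_comm m _
      rw [hcomm]
      apply cf_ext
      intro l
      unfold evr
      rw [cf_sum, cf_tn]
      have h1 : ∀ i : Fin (K + 1), cf (Cc S (cf (M c d) (((i : ℕ) : ℤ) - m)) *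
          tn S ((i : ℕ) : ℤ)) l = if l = ((i : ℕ) : ℤ) then cf (M c d) (l - m) else 0 := by
        intro i
        rw [cf_tn, cf_C]
        by_cases h : l = ((i : ℕ) : ℤ)
        · rw [if_pos h, if_pos (by omega), h]
        · rw [if_neg h, if_neg (by omega)]
      rw [Finset.sum_congr rfl fun i _ => h1 i]
      by_cases h2 : cf (M c d) (l - m) = 0
      · rw [h2]
        simp
      · have h3 := hm c d _ h2
        have h4 : l.toNat < K + 1 := by omega
        rw [Finset.sum_eq_single (⟨l.toNat, h4⟩ : Fin (K + 1))]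
        · rw [if_pos]
          change l = ((l.toNat : ℕ) : ℤ)
          omega
        · intro i _ hi
          rw [if_neg]
          intro h5
          apply hi
          apply Fin.ext
          change (i : ℕ) = l.toNat
          omega
        · intro h5
          exact absurd (Finset.mem_univ _) h5
    have hwN : ∀ c, w c ∈ Ns N (K + 1) := by
      intro c
      rw [mem_Ns, hw]
      apply N.smul_mem
      exact ⟨Pi.single c 1, by
        change Pi.single c 1 ᵥ* M = _
        rw [Matrix.single_one_vecMul]; rfl⟩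
    have hwW : ∀ c, (fun p => Cc S (w c p)) ∈ LinearMap.range (P'.map (Cc S)).vecMulLinear := by
      intro c
      rw [hW']
      intro n
      have h1 : cv (fun p => Cc S (w c p)) n = if n = 0 then w c else 0 := by
        funext p
        change cf (Cc S (w c p)) n = _
        rw [cf_C]
        by_cases h : n = 0
        · rw [if_pos h, if_pos h]
        · rw [if_neg h, if_neg h]; rfl
      rw [h1]
      by_cases h : n = 0
      · rw [if_pos h]
        exact hwN c
      · rw [if_neg h]
        exact Submodule.zero_mem _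
    refine ⟨⟨∑ c, (u c * tn S (-m)) • fun p => Cc S (w c p), ?_⟩, ?_⟩
    · apply Submodule.sum_mem
      intro c _
      exact Submodule.smul_mem _ _ (hwW c)
    · apply Subtype.ext
      rw [hg]
      change evB S D (K + 1) (∑ c, (u c * tn S (-m)) • fun p => Cc S (w c p)) = u ᵥ* M
      rw [map_sum]
      funext d
      rw [Finset.sum_apply]
      change ∑ c, _ = ∑ c, u c * M c d
      apply Finset.sum_congr rfl
      intro c _
      rw [map_smul, hw]
      change u c * tn S (-m) * (tn S m * M c d) = u c * M c d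
      rw [← mul_assoc, tn_mul, neg_add_cancel, tn_zero]
  have c3 : ∀ w, g w = 0 ↔ ∃ w', f w' = w := by
    intro v
    have h1 : g v = 0 ↔ evB S D (K + 1) v = 0 :=
      ⟨fun h => by rw [← hg, h]; rfl, fun h => Subtype.ext (by rw [hg, h]; rfl)⟩
    rw [h1]
    constructor
    · intro h
      have h2 : ∀ d, ∃ u : Fin K → Lau S, dm u =
          fun i => (v : D × Fin (K + 1) → Lau S) (d, i) := fun d => dm_surj _ (congrFun h d)
      choose u hu using h2
      have h3 : Dm S D K (fun p => u p.1 p.2) = v := by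
        funext ⟨d, i⟩
        exact congrFun (hu d) i
      refine ⟨⟨fun p => u p.1 p.2, hd2 _ (by rw [h3]; exact v.2)⟩, ?_⟩
      apply Subtype.ext
      rw [hf]
      exact h3
    · rintro ⟨w, rfl⟩
      rw [hf, evB_Dm]
  exact ⟨a, a', K, P, P', f, g, c1, c2, c3⟩

/-- **Syzygy theorem** -/
theorem nice_lau [IsNoetherianRing S] (hS : Nice S) : Nice (Lau S) := by
  intro C D _ _ M
  obtain ⟨a, a', K, P, P', f, g, c1, c2, c3⟩ := syz_seq C D M
  obtain ⟨d₁, h₁⟩ := hS _ _ P
  obtain ⟨d₂, h₂⟩ := hS _ _ P'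
  obtain ⟨n, hn⟩ := FPD.quot_range h₁.const h₂.const f g c1 c2 c3
  exact ⟨n, hn.hr⟩

end syz

end Pool.Agent.H1.MV
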