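import Pool.Agent.H1.MV.Flat

set_option autoImplicit false
set_option linter.unusedSectionVars false
set_option linter.unusedSimpArgs false

/-!
# Located matrices have finite resolutions
-/

namespace Pool.Agent.H1.MV

open Matrix

section typed

variable {k : Type} [Ring k] {G : Type} [Group G] {Ω : Type} [MulAction G Ω]
  {C J : Type} [Fintype C] [Fintype J] {τ : C → Ω} {σ : J → Ω}

theorem HR.typed_aux {P : Matrix C J (MonoidAlgebra k G)} (hP : Ty τ σ Eq P)
    (hτ : ∀ c, rep G (τ c) = τ c) (hσ : ∀ j, rep G (σ j) = σ j)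
    (hN : ∀ j, Nice (MonoidAlgebra k (MulAction.stabilizer G (σ j)))) :
    ∃ d, HR (MonoidAlgebra k G) d C J P := by
  classical
  let Θ : Type := Set.range (Sum.elim τ σ)
  have : Finite Θ := Set.finite_range _
  have : Fintype Θ := Fintype.ofFinite Θ
  let e : (Σ θ : Θ, {c // τ c = θ.1}) ≃ C :=
    { toFun := fun p => p.2.1
      invFun := fun c => ⟨⟨τ c, Sum.inl c, rfl⟩, ⟨c, rfl⟩⟩
      left_inv := by
        rintro ⟨⟨θ, hθ⟩, ⟨c, hc⟩⟩
        have hc' : τ c = θ := hc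
        subst hc'
        rfl
      right_inv := fun c => rfl }
  let f : (Σ θ : Θ, {j // σ j = θ.1}) ≃ J :=
    { toFun := fun p => p.2.1
      invFun := fun j => ⟨⟨σ j, Sum.inr j, rfl⟩, ⟨j, rfl⟩⟩
      left_inv := by
        rintro ⟨⟨θ, hθ⟩, ⟨c, hc⟩⟩
        have hc' : σ c = θ := hc
        subst hc'
        rfl
      right_inv := fun c => rfl }
  let M : ∀ θ : Θ, Matrix {c // τ c = θ.1} {j // σ j = θ.1}
      (MonoidAlgebra k (MulAction.stabilizer G θ.1)) := fun θ =>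
    Matrix.of fun c j => toSub (MulAction.stabilizer G θ.1) (P c.1 j.1)
  have hM : ∀ θ, ∃ d, HR _ d _ _ (M θ) := by
    intro θ
    by_cases h : ∃ j, σ j = θ.1
    · obtain ⟨j, hj⟩ := h
      have h1 := hN j
      rw [hj] at h1
      exact h1 _ _ _
    · have : IsEmpty {j // σ j = θ.1} := ⟨fun j => h ⟨j.1, j.2⟩⟩
      exact ⟨0, HR.of_isEmpty _⟩
  choose d hd using hM
  have h1 : ∀ θ, HR (MonoidAlgebra k G) (Finset.univ.sup d) _ _
      ((M θ).map (MV.inc k (MulAction.stabilizer G θ.1))) :=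
    fun θ => ((hd θ).inc _).mono (Finset.le_sup (f := d) (Finset.mem_univ θ))
  refine ⟨Finset.univ.sup d, ?_⟩
  have h2 := (HR.blocks h1).reindex e.symm f.symm
  convert h2 using 1
  ext1 c j
  rw [Matrix.submatrix_apply]
  change P c j = blockDiagonal' (fun θ : Θ => (M θ).map (MV.inc k (MulAction.stabilizer G θ.1)))
    ⟨⟨τ c, Sum.inl c, rfl⟩, ⟨c, rfl⟩⟩ ⟨⟨σ j, Sum.inr j, rfl⟩, ⟨j, rfl⟩⟩
  by_cases hcj : τ c = σ j
  · have h3 : (⟨⟨σ j, Sum.inr j, rfl⟩, ⟨j, rfl⟩⟩ : Σ θ : Θ, {j // σ j = θ.1}) =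
        ⟨⟨τ c, Sum.inl c, rfl⟩, ⟨j, hcj.symm⟩⟩ := by
      apply f.injective
      rfl
    rw [h3, blockDiagonal'_apply_eq, Matrix.map_apply]
    change _ = MV.inc k _ (toSub _ (P c j))
    rw [inc_toSub]
    intro g hg
    have h4 := hP c j g hg
    rw [← hcj] at h4
    rw [MulAction.mem_stabilizer_iff]
    exact (inv_smul_eq_iff.1 h4).symm
  · rw [blockDiagonal'_apply_ne _ _ _ (fun h => hcj (congrArg Subtype.val h))]
    by_contra hne
    have h4 : ∃ g, (P c j).coeff g ≠ 0 := by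
      by_contra hcon
      push Not at hcon
      apply hne
      apply MonoidAlgebra.coeff_injective
      ext g
      exact hcon g
    obtain ⟨g, hg⟩ := h4
    have h5 := hP c j g hg
    have h6 := rep_of_smul h5
    rw [hτ, hσ] at h6
    exact hcj h6

theorem HR.typed {P : Matrix C J (MonoidAlgebra k G)} (hP : Ty τ σ Eq P)
    (hN : ∀ j, Nice (MonoidAlgebra k (MulAction.stabilizer G (rep G (σ j))))) :
    ∃ d, HR (MonoidAlgebra k G) d C J P := by
  classical
  choose γ hγ using fun c => rep_exists (G := G) (τ c)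
  choose δ hδ using fun j => rep_exists (G := G) (σ j)
  have h1 := (hP.dg_left fun c => (γ c)⁻¹).dg_right GInv.eq δ
  have e1 : (fun c => (γ c)⁻¹ • τ c) = fun c => rep G (τ c) := by
    funext c
    rw [inv_smul_eq_iff, hγ]
  have e2 : (fun j => (δ j)⁻¹ • σ j) = fun j => rep G (σ j) := by
    funext c
    rw [inv_smul_eq_iff, hδ]
  rw [e1, e2] at h1
  obtain ⟨d, hd⟩ := HR.typed_aux h1 (fun c => rep_rep _) (fun j => rep_rep _) hN
  refine ⟨d, ?_⟩
  have h2 := hd.unit (dg k fun c => (γ c)⁻¹)⁻¹ (dg k δ)⁻¹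
  convert h2 using 1
  simp only [Matrix.mul_assoc]
  rw [Units.mul_inv, Matrix.mul_one, ← Matrix.mul_assoc, Units.inv_mul, Matrix.one_mul]

end typed

end Pool.Agent.H1.MV
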