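import Pool.Agent.H1.MV.Syz2
import Pool.Agent.H1.MV.Blk

set_option autoImplicit false
set_option linter.unusedSectionVars false
set_option linter.unusedSimpArgs false

/-!
# Products with free abelian groups
-/

namespace Pool.Agent.H1.MV

open Matrix TH57.Thr Pool.Agent.K4H37.MT

section wht

/-- the Whitehead group is zero -/
def WhT (G : Type) [Group G] : Prop :=
  ∀ (n : ℕ) (A : (Matrix (Fin n) (Fin n) (MonoidAlgebra ℤ G))ˣ), TT (TU G) A

theorem WhT.congr {G H : Type} [Group G] [Group H] (e : G ≃* H) (h : WhT G) : WhT H := by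
  intro n A
  let φ : MonoidAlgebra ℤ G ≃+* MonoidAlgebra ℤ H := (MonoidAlgebra.domCongr ℤ ℤ e).toRingEquiv
  have hφ : ∀ u ∈ TU G, Units.map φ.toRingHom.toMonoidHom u ∈ TU H := by
    rintro u ⟨g, ε, hu⟩
    refine ⟨e g, ε, ?_⟩
    change φ u.val = _
    rw [hu]
    simp [φ]
  have h1 := TT_map (TU G) (TU H) φ.toRingHom hφ _ (h n (Units.map (mpm φ.symm.toRingHom) A))
  convert h1 using 1
  apply Units.ext
  ext1 i j
  change _ = φ (φ.symm (A.val i j))
  rw [RingEquiv.apply_symm_apply]

end wht

section zp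

/-- the free abelian group of rank `n` -/
abbrev Zp (n : ℕ) : Type := Multiplicative (Fin n → ℤ)

/-- splitting off the first coordinate -/
def zpSucc (n : ℕ) : Zp (n + 1) ≃* Multiplicative ℤ × Zp n where
  toFun z := (Multiplicative.ofAdd (Multiplicative.toAdd z 0),
    Multiplicative.ofAdd fun i => Multiplicative.toAdd z i.succ)
  invFun p := Multiplicative.ofAdd
    (Fin.cons (Multiplicative.toAdd p.1) (Multiplicative.toAdd p.2) : Fin (n + 1) → ℤ)
  left_inv z := by
    apply Multiplicative.toAdd.injective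
    funext i
    refine Fin.cases ?_ (fun j => ?_) i
    · rfl
    · rfl
  right_inv p := rfl
  map_mul' z w := rfl

instance noeth_zp (n : ℕ) : IsNoetherianRing (MonoidAlgebra ℤ (Zp n)) := by
  have h1 : AddMonoid.FG (Fin n → ℤ) := AddGroup.fg_iff_addMonoid_fg.1 inferInstance
  have h2 : Monoid.FG (Zp n) := AddMonoid.fg_iff_mul_fg.1 h1
  exact Algebra.FiniteType.isNoetherianRing ℤ _

theorem nice_zp (n : ℕ) : Nice (MonoidAlgebra ℤ (Zp n)) := by
  induction n with
  | zero =>
    exact Nice.ringEquiv (MonoidAlgebra.uniqueRingEquiv (R := ℤ) (M := Zp 0)).symm (nice_pid ℤ)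
  | succ n ih =>
    have h1 : Nice (Lau (MonoidAlgebra ℤ (Zp n))) := nice_lau ih
    have h2 : Nice (MonoidAlgebra ℤ (Multiplicative ℤ × Zp n)) :=
      Nice.ringEquiv MonoidAlgebra.curryRingEquiv.symm h1
    exact Nice.ringEquiv (MonoidAlgebra.domCongr ℤ ℤ (zpSucc n).symm).toRingEquiv h2

end zp

section act

variable {G Z : Type} [Group G] [Group Z]

/-- the subgroup of a product given by a condition on the first coordinate -/
def prodIso (H : Subgroup G) (K : Subgroup (G × Z)) (h : ∀ p, p ∈ K ↔ p.1 ∈ H) :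
    K ≃* H × Z where
  toFun p := (⟨p.1.1, (h _).1 p.2⟩, p.1.2)
  invFun q := ⟨(q.1.1, q.2), (h _).2 q.1.2⟩
  left_inv _ := rfl
  right_inv _ := rfl
  map_mul' _ _ := rfl

/-- the action of a product through the first factor -/
@[instance_reducible]
def fstAct (G Z V : Type) [Group G] [Group Z] [MulAction G V] : MulAction (G × Z) V :=
  MulAction.compHom V (MonoidHom.fst G Z)

/-- the shift of the factors -/
def shiftIso (H : Type) [Group H] (n : ℕ) :
    H × Zp (n + 1) ≃* Multiplicative ℤ × (H × Zp n) where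
  toFun p := ((zpSucc n p.2).1, (p.1, (zpSucc n p.2).2))
  invFun q := (q.2.1, (zpSucc n).symm (q.1, q.2.2))
  left_inv p := by
    apply Prod.ext
    · rfl
    · exact (zpSucc n).symm_apply_apply p.2
  right_inv q := by
    apply Prod.ext
    · rfl
    · rfl
  map_mul' p q := by
    apply Prod.ext
    · rfl
    · rfl

end act

section closure

variable {G V : Type} [Group G] [MulAction G V] {T : SimpleGraph V}

/-- **The closure theorem**. -/
theorem stable_closure (hT : T.IsTree)
    (hact : ∀ (g : G) (v w : V), T.Adj v w → T.Adj (g • v) (g • w))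
    (hinv : ∀ (g : G) (v w : V), T.Adj v w → ¬ (g • v = w ∧ g • w = v))
    (hV : ∀ (v : V) (n : ℕ), WhT (MulAction.stabilizer G v × Zp n))
    (hE : ∀ v w : V, T.Adj v w → ∀ n : ℕ, WhT (MulAction.stabilizer G ((v, w) : V × V) × Zp n))
    (hm : ∀ p : ℕ → V, (∀ i, T.Adj (p i) (p (i + 1))) → (∀ i, p (i + 2) ≠ p i) →
      ∃ m, Fx G m p = ⊥ ∨ ∀ n, Nice (MonoidAlgebra ℤ (Fx G m p × Zp n))) (n : ℕ) :
    WhT (G × Zp n) := by
  classical
  letI : MulAction (G × Zp n) V := fstAct G (Zp n) V
  have hsm : ∀ (p : G × Zp n) (v : V), p • v = p.1 • v := fun _ _ => rfl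
  intro N X
  have key : VC V X := by
    refine vc_all (T := T) hT (fun g v w h => hact g.1 v w h) (fun g v w h => hinv g.1 v w h)
      nice_cls (fun _ h => h) ?_ ?_ X
    · intro p h1 h2
      obtain ⟨m, hm⟩ := hm p h1 h2
      refine ⟨m, ?_⟩
      have hiso : Fx (G × Zp n) m p ≃* Fx G m p × Zp n := prodIso _ _ (fun q => Iff.rfl)
      rcases hm with hm | hm
      · -- trivial stabiliser
        have : Unique (Fx G m p) := by
          rw [hm]
          infer_instance
        exact Nice.ringEquiv (MonoidAlgebra.domCongr ℤ ℤ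
          (hiso.trans (MulEquiv.uniqueProd (M := Zp n) (N := Fx G m p))).symm).toRingEquiv (nice_zp n)
      · exact Nice.ringEquiv (MonoidAlgebra.domCongr ℤ ℤ hiso.symm).toRingEquiv (hm n)
    · intro v w h
      apply stablyFree_of_wh
      have hiso : MulAction.stabilizer (G × Zp n) ((v, w) : V × V) ≃*
          MulAction.stabilizer G ((v, w) : V × V) × Zp n := prodIso _ _ (fun q => Iff.rfl)
      exact WhT.congr ((shiftIso _ n).trans (MulEquiv.prodCongr (MulEquiv.refl _) hiso.symm))
        (hE v w h (n + 1))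
  obtain ⟨μ, _, _, ω, y, hr, h1, h2, h3⟩ := key
  have hy : TT (TU (G × Zp n)) y :=
    tt_block (V := V) (fun v => by
      have hiso : MulAction.stabilizer (G × Zp n) v ≃* MulAction.stabilizer G v × Zp n :=
        prodIso _ _ (fun q => Iff.rfl)
      exact WhT.congr hiso.symm (hV v n)) _ μ rfl ω y hr h1 h2
  have h4 := TT_mul _ _ _ h3 (TT_blockSum (TT_one _) hy)
  rw [blockSum_mul, mul_one, inv_mul_cancel, blockSum_one] at h4
  exact TT_unst _ _ h4

end closure

end Pool.Agent.H1.MV
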